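import Mathlib
import Pool.Agent.Helper35.HC.StB

/-!
Project HC (MP_925021_gt), module TPR: no touching.
-/

set_option autoImplicit false

namespace Helper61.HC

open Helper35.HC Helper35.HSF Helper35.MS Helper35.PI Helper35.PI2 Helper32.CL
open scoped ContDiff Manifold Topology ENNReal BigOperators
open MeasureTheory Set Filter

/-- functions of time only -/
theorem time_only' (hJA : StJA) (n : ℕ) (g : ℝ → ℝ) (t₀ g' : ℝ) (hg : ContDiffAt ℝ 2 g t₀)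
    (hg' : HasDerivAt g g' t₀) :
    ContDiffAt ℝ 2 (fun z : EE n × ℝ => g z.2) ((0 : EE n), t₀) ∧
    (∀ k, jg (fun z : EE n × ℝ => g z.2) ((0 : EE n), t₀) k = 0) ∧
    jh (fun z : EE n × ℝ => g z.2) ((0 : EE n), t₀) = g' := by
  have hC : ContDiffAt ℝ 2 (fun z : EE n × ℝ => g z.2) ((0 : EE n), t₀) :=
    ContDiffAt.comp ((0 : EE n), t₀) (by exact hg) contDiffAt_snd
  have hd : ∀ᶠ s in 𝓝 t₀, DifferentiableAt ℝ g s := by
    filter_upwards [hg.eventually (by simp)] with s hs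
    exact hs.differentiableAt (by norm_num)
  have hf : ∀ z : EE n × ℝ, DifferentiableAt ℝ g z.2 → ∀ v : EE n × ℝ,
      fderiv ℝ (fun z : EE n × ℝ => g z.2) z v = fderiv ℝ g z.2 v.2 := by
    intro z hz v
    have : HasFDerivAt (fun z : EE n × ℝ => g z.2)
        ((fderiv ℝ g z.2).comp (ContinuousLinearMap.snd ℝ (EE n) ℝ)) z :=
      hz.hasFDerivAt.comp z hasFDerivAt_snd
    rw [this.fderiv]; rfl
  have h0 : ∀ᶠ z in 𝓝 ((0 : EE n), t₀), DifferentiableAt ℝ g z.2 :=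
    (continuous_snd.tendsto ((0 : EE n), t₀)).eventually hd
  have h1 : ∀ k, (fun z' => jg (fun z : EE n × ℝ => g z.2) z' k)
      =ᶠ[𝓝 ((0 : EE n), t₀)] fun _ => 0 := by
    intro k
    filter_upwards [h0] with z hz
    unfold jg
    rw [hf z hz]; simp
  refine ⟨hC, fun k => (h1 k).self_of_nhds, ?_⟩
  obtain ⟨hloc, hconst, -⟩ := hJA n ℝ ((0 : EE n), t₀)
  have h2 : ∀ i j, jgg (fun z : EE n × ℝ => g z.2) ((0 : EE n), t₀) i j = 0 := by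
    intro i j
    unfold jgg
    rw [(hloc _ _ (h1 j)).1 i]
    exact (hconst 0).1 i
  unfold jh
  simp only [h2, Finset.sum_const_zero, sub_zero]
  unfold jt
  rw [hf _ h0.self_of_nhds]
  change fderiv ℝ g t₀ 1 = g'
  rw [hg'.hasFDerivAt.fderiv]; simp

/-- the jet of `G(x)` -/
theorem gx_jet (hJA : StJA) (hJD : StJD) (n : ℕ) (z : EE n × ℝ) (K D B c : ℝ)
    (x : EE n × ℝ → ℝ) (hx : ContDiffAt ℝ 2 x z) (hpos : 0 < 1 + B * x z) :
    ContDiffAt ℝ 2 (fun z => Gx K D B c (x z)) z ∧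
    jh (fun z => Gx K D B c (x z)) z
      = Gd K D B (x z) * jh x z - Gdd D B (x z) * ∑ k, jg x z k ^ 2 := by
  obtain ⟨hloc, hconst, hlin, hsm, -⟩ := hJA n ℝ z
  obtain ⟨-, hquo⟩ := hJD n z
  have hcC : ∀ a : ℝ, ContDiffAt ℝ 2 (fun _ : EE n × ℝ => a) z := fun a => contDiffAt_const
  have hKx : ContDiffAt ℝ 2 (fun z => K • x z) z := hx.const_smul _
  have hBx : ContDiffAt ℝ 2 (fun z => B • x z) z := hx.const_smul _
  have h1B : ContDiffAt ℝ 2 (fun z => 1 + B • x z) z := (hcC 1).add hBx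
  have hcK : ContDiffAt ℝ 2 (fun z => c + K • x z) z := (hcC c).add hKx
  have hne : (fun z => 1 + B • x z) z ≠ 0 := by
    simp only [smul_eq_mul]; exact hpos.ne'
  have hq : ContDiffAt ℝ 2 (fun z => D / (1 + B • x z)) z := (hcC D).div h1B hne
  have e : (fun z => Gx K D B c (x z)) = fun z => (c + K • x z) + D / (1 + B • x z) := by
    funext z; unfold Gx; simp only [smul_eq_mul]
  have j1 : ∀ k, jg (fun z => 1 + B • x z) z k = B * jg x z k := by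
    intro k
    rw [(hlin _ _ (hcC 1) hBx).1 k, (hconst 1).1 k, (hsm x B hx).1 k]
    simp
  have j2 : jh (fun z => 1 + B • x z) z = B * jh x z := by
    rw [(hlin _ _ (hcC 1) hBx).2.1, (hconst 1).2, (hsm x B hx).2]
    simp
  rw [e]
  refine ⟨hcK.add hq, ?_⟩
  rw [(hlin _ _ hcK hq).2.1, (hlin _ _ (hcC c) hKx).2.1, (hconst c).2, (hsm x K hx).2,
    (hquo _ _ (hcC D) h1B hne).2, (hconst D).2]
  simp only [(hconst D).1, j1, j2, zero_mul, Finset.sum_const_zero]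
  simp only [smul_eq_mul]
  have e2 : ∑ k, (B * jg x z k) ^ 2 = B ^ 2 * ∑ k, jg x z k ^ 2 := by
    rw [Finset.mul_sum]
    apply Finset.sum_congr rfl
    intro k _
    ring
  rw [e2]
  unfold Gd Gdd
  field_simp
  ring

theorem hTPR (hPBR : StPBR) (hSPJ : StSPJ) (hTPA : StTPA) (hGCH : StGCH) (hG7 : StG7)
    (hG8 : StG8) (hMP : StMP) (hJA : StJA) (hJB : StJB) (hJD : StJD) (hC1 : StC1) : StTPR := by
  intro n hn cK E D B c hK M _ _ _ J F hF x₀ t₀ ht lam lam' hlC hl' hl0 hl1 hlam' z₀ hz₀ heq hev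
  have hrr : 0 < rr n t₀ := hF.r0 t₀ ht
  have hn0 : (0 : ℝ) < n := by
    have : 0 < n := by omega
    exact_mod_cast this
  have hImm : IsImmJ (n := n) J F := hF.mcf.toIsImmJ
  obtain ⟨hK0, hE0, hD0, hB0, hc0, hKE⟩ := hK.pos
  -- the chart
  obtain ⟨L, hL⟩ := hC1 n (n + 3) _ (hImm.imm x₀ t₀ ht)
  have hL' : LinearMap.range L.toLinearMap = TS (n := n) F x₀ t₀ := hL
  obtain ⟨u, θ, hG, -, -⟩ := hGCH n (n + 3) M J F hF.mcf x₀ t₀ ht L hL'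
  obtain ⟨A, hA⟩ : ∃ A, A = jgg u ((0 : EE n), t₀) := ⟨_, rfl⟩
  obtain ⟨T, hT⟩ : ∃ T, T = jggg u ((0 : EE n), t₀) := ⟨_, rfl⟩
  obtain ⟨hP1, hP2, -⟩ := hPBR n (n + 3) M J F hImm x₀ t₀ ht L u θ hG A T hA hT
  obtain ⟨P, Q, β, hOP, hzP, hβC, hβ0, hβm, hβh⟩ := hP1 z₀ hz₀
  obtain ⟨sA, sT, sAL, sLF, sAF, sTF, sN, sAA, sHH, sZF, sth, sx, sx0, -⟩ :=
    hSPJ n (by omega) M J F hF x₀ t₀ ht L u θ hG A T hA hT
  have hpt : ∀ z ∈ PSN n F x₀ t₀, z ≤ z₀ := by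
    intro z hz
    have h1 := hev.self_of_nhds le_rfl z hz
    simp only at h1
    rw [← heq] at h1
    have h2 := le_of_mul_le_mul_left h1 hrr
    linarith
  have hmaxP : ∀ c d, OP c d → ‖bilV A c d‖ ^ 2 ≤ ‖bilV A P Q‖ ^ 2 := by
    intro c d hcd
    rw [← hzP]
    exact hpt _ (hP2 c d hcd)
  obtain ⟨r, hr⟩ : ∃ r, r = 1 / rr n t₀ := ⟨_, rfl⟩
  have hr0 : 0 < r := by rw [hr]; positivity
  have hrr1 : rr n t₀ = 1 / r := by rw [hr]; field_simp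
  obtain ⟨x, hx⟩ : ∃ x, x = YY A / ((n : ℝ) ^ 2 * r) - 1 := ⟨_, rfl⟩
  have hxN : xN n F x₀ t₀ = x := by rw [sx, hx, hr]
  have hTP := hTPA n hn cK E D B c hK A T r L (F x₀ t₀) sA sT hr0 (by rw [sN, hrr1]) sLF sAL sAF
    sTF P Q hOP hmaxP (lam t₀) x hl0 hl1 hx (by
      rw [← hxN, ← heq, ← hzP, sth, hrr1]
      field_simp)
  obtain ⟨hx0, hTP⟩ := hTP
  have hGpos : 0 < Gx cK D B c x := Gx_pos hK hx0
  have h1B : 0 < 1 + B * x := by positivity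
  -- the functions
  obtain ⟨hXC, hX0, hXg, hXh⟩ := hG7 n (n + 3) (F x₀ t₀) L u t₀ hG.sol A T hA hT
  obtain ⟨hYC, hY0, hYg, hYh⟩ := hG8 n (n + 3) (F x₀ t₀) L u t₀ hG.sol A T hA hT
  obtain ⟨X, hXd⟩ : ∃ X, X = Xf (F x₀ t₀) L u := ⟨_, rfl⟩
  obtain ⟨Y, hYd⟩ : ∃ Y, Y = Yf (F x₀ t₀) L u := ⟨_, rfl⟩
  rw [← hXd] at hXC hX0 hXg hXh
  rw [← hYd] at hYC hY0 hYg hYh
  replace hXC : ContDiffAt ℝ 2 X ((0 : EE n), t₀) := hXC.of_le (by norm_num)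
  replace hYC : ContDiffAt ℝ 2 Y ((0 : EE n), t₀) := hYC.of_le (by norm_num)
  have hrC : ContDiffAt ℝ 2 (fun s => rr n s) t₀ := by
    unfold rr
    fun_prop
  have hrD : HasDerivAt (fun s => rr n s) (-(2 * n)) t₀ := by
    unfold rr
    simpa using ((hasDerivAt_id t₀).const_mul (2 * (n : ℝ))).const_sub 1
  obtain ⟨hsC, hsg, hsh⟩ := time_only' hJA n (fun s => rr n s) t₀ _ hrC hrD
  obtain ⟨hκC, hκg, hκh⟩ := time_only' hJA n lam t₀ lam' hlC hl'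
  obtain ⟨hloc, hconst, hlin, hsm, -⟩ := hJA n ℝ ((0 : EE n), t₀)
  obtain ⟨hprod, -⟩ := hJB n 0 ((0 : EE n), t₀)
  have hcC : ∀ a : ℝ, ContDiffAt ℝ 2 (fun _ : EE n × ℝ => a) ((0 : EE n), t₀) :=
    fun a => contDiffAt_const
  -- x as a function
  have hrY : ContDiffAt ℝ 2 (fun z : EE n × ℝ => rr n z.2 * Y z) ((0 : EE n), t₀) := hsC.mul hYC
  have hrYs : ContDiffAt ℝ 2 (fun z : EE n × ℝ => (1 / (n : ℝ) ^ 2) • (rr n z.2 * Y z))
      ((0 : EE n), t₀) := hrY.const_smul _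
  obtain ⟨w, hw⟩ : ∃ w : EE n × ℝ → ℝ,
    w = fun z => (1 / (n : ℝ) ^ 2) • (rr n z.2 * Y z) - 1 := ⟨_, rfl⟩
  have hwC : ContDiffAt ℝ 2 w ((0 : EE n), t₀) := by
    rw [hw]; exact hrYs.sub (hcC 1)
  have hw0 : w ((0 : EE n), t₀) = x := by
    rw [hw, hx]
    simp only [hY0, smul_eq_mul, hrr1]
    field_simp
  have hwg : ∀ k, jg w ((0 : EE n), t₀) k = 1 / (n : ℝ) ^ 2 * (1 / r * gY A T k) := by
    intro k
    rw [hw, (hlin _ _ hrYs (hcC 1)).2.2.1 k, (hconst 1).1 k, (hsm _ _ hrY).1 k,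
      (hprod _ _ hsC hYC).1 k, hsg k, hYg k, hrr1]
    simp only [smul_eq_mul]
    ring
  have hwh : jh w ((0 : EE n), t₀)
      = 1 / (n : ℝ) ^ 2 * (-(2 * n) * YY A + 1 / r * hY A T) := by
    rw [hw, (hlin _ _ hrYs (hcC 1)).2.2.2, (hconst 1).2, (hsm _ _ hrY).2,
      (hprod _ _ hsC hYC).2, hsh, hYh, hY0]
    simp only [smul_eq_mul, hsg, zero_mul, Finset.sum_const_zero, hrr1]
    ring
  obtain ⟨hGC, hGh⟩ := gx_jet hJA hJD n ((0 : EE n), t₀) cK D B c w hwC (by rw [hw0]; exact h1B)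
  rw [hw0, hwh] at hGh
  simp only [hwg] at hGh
  -- theta as a function
  have hYs : ContDiffAt ℝ 2 (fun z : EE n × ℝ => (1 / (n : ℝ)) • Y z) ((0 : EE n), t₀) :=
    hYC.const_smul _
  have hth : ContDiffAt ℝ 2 (fun z : EE n × ℝ => X z - (1 / (n : ℝ)) • Y z) ((0 : EE n), t₀) :=
    hXC.sub hYs
  have hths : ContDiffAt ℝ 2 (fun z : EE n × ℝ => (E / n) • (X z - (1 / (n : ℝ)) • Y z))
      ((0 : EE n), t₀) := hth.const_smul _
  have hψC : ContDiffAt ℝ 2 (fun z : EE n × ℝ => β z + (E / n) • (X z - (1 / (n : ℝ)) • Y z))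
      ((0 : EE n), t₀) := hβC.add hths
  obtain ⟨ψ, hψ⟩ : ∃ ψ : EE n × ℝ → ℝ,
    ψ = fun z => β z + (E / n) • (X z - (1 / (n : ℝ)) • Y z) := ⟨_, rfl⟩
  rw [← hψ] at hψC
  have hψ0 : ψ ((0 : EE n), t₀) = ‖bilV A P Q‖ ^ 2 + E / n * thA2 A := by
    rw [hψ]
    simp only [hβ0, hX0, hY0, smul_eq_mul, hzP, thA2]
    ring
  have hψh : jh ψ ((0 : EE n), t₀)
      = (-2 * (∑ m, ‖∑ i, ∑ j, (P i * Q j) • T i j m‖ ^ 2) + 2 * ReaP A P Q)
        + E / n * (hX A T - hY A T / n) := by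
    rw [hψ, (hlin _ _ hβC hths).2.1, hβh, (hsm _ _ hth).2, (hlin _ _ hXC hYs).2.2.2,
      (hsm _ _ hYC).2, hXh, hYh]
    simp only [smul_eq_mul]
    ring
  -- the test function
  have hrψ : ContDiffAt ℝ 2 (fun z : EE n × ℝ => rr n z.2 * ψ z) ((0 : EE n), t₀) := hsC.mul hψC
  have hlG : ContDiffAt ℝ 2 (fun z : EE n × ℝ => lam z.2 * Gx cK D B c (w z))
      ((0 : EE n), t₀) := hκC.mul hGC
  obtain ⟨Φ, hΦ⟩ : ∃ Φ : EE n × ℝ → ℝ,
    Φ = fun z => rr n z.2 * ψ z - lam z.2 * Gx cK D B c (w z) := ⟨_, rfl⟩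
  have hΦC : ContDiffAt ℝ 2 Φ ((0 : EE n), t₀) := by
    rw [hΦ]; exact hrψ.sub hlG
  have hΦ0 : Φ ((0 : EE n), t₀) = 0 := by
    rw [hΦ]
    simp only [hψ0, hw0]
    rw [← hxN, ← heq, sth, hzP]
    ring
  have hmax : ∀ᶠ z in 𝓝 ((0 : EE n), t₀), z.2 ≤ t₀ → Φ z ≤ Φ ((0 : EE n), t₀) := by
    have hc : Tendsto (fun z : EE n × ℝ => (θ z, z.2)) (𝓝 ((0 : EE n), t₀)) (𝓝 (x₀, t₀)) := by
      have h1 : Tendsto θ (𝓝 ((0 : EE n), t₀)) (𝓝 x₀) := by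
        rw [← hG.pt]; exact hG.ct
      rw [nhds_prod_eq (x := x₀)]
      exact h1.prodMk (continuous_snd.tendsto ((0 : EE n), t₀))
    filter_upwards [hc.eventually hev, hβm, hG.hH] with z hz hz2 hz3 hzt
    have h3 := hz hzt (β z) hz2
    obtain ⟨e1, e2, -⟩ := hz3
    have eX : AA (n := n) F (θ z) z.2 = X z := by rw [e2, hXd]; rfl
    have eY : ‖HH (n := n) F (θ z) z.2‖ ^ 2 = Y z := by rw [e1, hYd]; rfl
    have eth : thN n F (θ z) z.2 = X z - (1 / (n : ℝ)) • Y z := by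
      unfold thN
      rw [eX, eY, smul_eq_mul]; ring
    have ex : xN n F (θ z) z.2 = w z := by
      unfold xN
      rw [eY, hw]
      simp only [smul_eq_mul]; ring
    rw [eth, ex] at h3
    rw [hΦ0, hΦ, hψ]
    simp only [smul_eq_mul] at h3 ⊢
    linarith
  obtain ⟨-, hh0⟩ := hMP n 0 t₀ Φ hΦC hmax
  have hheat : jh Φ ((0 : EE n), t₀)
      = -(2 * n) * (‖bilV A P Q‖ ^ 2 + E / n * thA2 A)
        + 1 / r * ((-2 * (∑ m, ‖∑ i, ∑ j, (P i * Q j) • T i j m‖ ^ 2) + 2 * ReaP A P Q)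
          + E / n * (hX A T - hY A T / n))
        - (lam' * Gx cK D B c x + lam t₀ *
          (Gd cK D B x * (1 / (n : ℝ) ^ 2 * (-(2 * n) * YY A + 1 / r * hY A T))
            - Gdd D B x * ∑ k, (1 / (n : ℝ) ^ 2 * (1 / r * gY A T k)) ^ 2)) := by
    rw [hΦ, (hlin _ _ hrψ hlG).2.2.2, (hprod _ _ hsC hψC).2, (hprod _ _ hκC hGC).2]
    simp only [hκg, hsg, zero_mul, Finset.sum_const_zero, mul_zero, sub_zero]
    rw [hκh, hsh, hψ0, hψh, hGh, hw0, hrr1]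
  have hsum : ∑ k, (1 / (n : ℝ) ^ 2 * (1 / r * gY A T k)) ^ 2
      = 1 / r ^ 2 * ((∑ k, gY A T k ^ 2) / (n : ℝ) ^ 4) := by
    rw [Finset.sum_div, Finset.mul_sum]
    apply Finset.sum_congr rfl
    intro k _
    field_simp
  rw [hsum] at hheat
  have hfin : jh Φ ((0 : EE n), t₀)
      ≤ -(n / 50) * r * (lam t₀ * Gx cK D B c x) - lam' * Gx cK D B c x := by
    rw [hheat]
    refine le_trans (le_of_eq ?_) (sub_le_sub_right hTP _)
    ring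
  have hlast : -(n / 50) * r * (lam t₀ * Gx cK D B c x) - lam' * Gx cK D B c x < 0 := by
    have h1 : -(n / 50) * r * (lam t₀ * Gx cK D B c x) - lam' * Gx cK D B c x
        = -((lam' - -(n / 50) * (lam t₀ / rr n t₀)) * Gx cK D B c x) := by
      rw [hrr1]; field_simp; ring
    rw [h1]
    have h2 : 0 < lam' - -(n / 50) * (lam t₀ / rr n t₀) := by linarith
    have := mul_pos h2 hGpos
    linarith
  linarith

end Helper61.HC
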