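import Pool.Agent.Helper61.HC.Conc

section
/-!
The Poisson-type averages on `ZMod N` and their interplay with `A_1` weights.
-/

open Finset

namespace HC

section basic
set_option linter.unusedSectionVars false
variable {N : ℕ} [NeZero N]

/-- distance to `0` on the cycle -/
noncomputable def nrm (t : ZMod N) : ℝ := (t.valMinAbs.natAbs : ℝ)

lemma nrm_nonneg (t : ZMod N) : 0 ≤ nrm t := Nat.cast_nonneg _

lemma nrm_add (a b : ZMod N) : nrm (a + b) ≤ nrm a + nrm b := by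
  unfold nrm
  have h := ZMod.natAbs_valMinAbs_add_le a b
  have h2 := Int.natAbs_add_le a.valMinAbs b.valMinAbs
  exact_mod_cast h.trans h2

lemma nrm_neg (a : ZMod N) : nrm (-a) = nrm a := by
  unfold nrm; rw [ZMod.natAbs_valMinAbs_neg]

lemma nrm_sub (a b : ZMod N) : nrm (a - b) ≤ nrm a + nrm b := by
  rw [sub_eq_add_neg, ← nrm_neg b]; exact nrm_add a (-b)

lemma nrm_sub_comm (a b : ZMod N) : nrm (a - b) = nrm (b - a) := by
  rw [← nrm_neg, neg_sub]

lemma nrm_natCast (a : ℕ) : nrm (a : ZMod N) ≤ a := by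
  unfold nrm
  rw [ZMod.valMinAbs_natAbs_eq_min]
  have h1 : ((a : ZMod N)).val ≤ a := by rw [ZMod.val_natCast]; exact Nat.mod_le _ _
  exact_mod_cast (min_le_left _ _).trans h1

lemma nrm_le (t : ZMod N) : nrm t ≤ N := by
  unfold nrm
  have := ZMod.natAbs_valMinAbs_le t
  have h : t.valMinAbs.natAbs ≤ N := this.trans (Nat.div_le_self _ _)
  exact_mod_cast h

/-- elements of given norm -/
lemma eq_of_nrm (t : ZMod N) {a : ℕ} (h : nrm t = a) : t = (a : ZMod N) ∨ t = -(a : ZMod N) := by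
  unfold nrm at h
  have h1 : t.valMinAbs.natAbs = a := by exact_mod_cast h
  have h2 := ZMod.coe_valMinAbs t
  rcases Int.natAbs_eq t.valMinAbs with h3 | h3
  · left; rw [← h2, h3, h1]; simp
  · right; rw [← h2, h3, h1]; simp

lemma nrm_eq_nat (t : ZMod N) : ∃ a : ℕ, nrm t = a := ⟨_, rfl⟩

/-- sums over balls -/
lemma sum_ball_le {σ : ZMod N → ℝ} (hσ : ∀ x, 0 ≤ σ x) (x : ZMod N) (m : ℕ) :
    ∑ z ∈ univ.filter (fun z : ZMod N => nrm (x - z) < m), σ z
      ≤ ∑ k ∈ range m, σ (x + (k : ZMod N)) + ∑ k ∈ range m, σ (x - (k : ZMod N)) := by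
  classical
  have h1 : univ.filter (fun z : ZMod N => nrm (x - z) < m)
      ⊆ (range m).image (fun k : ℕ => x + (k : ZMod N)) ∪ (range m).image
        (fun k : ℕ => x - (k : ZMod N)) := by
    intro z hz
    simp only [mem_filter, mem_univ, true_and] at hz
    obtain ⟨a, ha⟩ := nrm_eq_nat (x - z)
    rw [ha] at hz
    have ham : a < m := by exact_mod_cast hz
    rw [mem_union, mem_image, mem_image]
    rcases eq_of_nrm _ ha with h | h
    · right; exact ⟨a, mem_range.2 ham, by rw [← h]; ring⟩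
    · left; exact ⟨a, mem_range.2 ham, by
        have : (a : ZMod N) = -(x - z) := by rw [h]; ring
        rw [this]; ring⟩
  calc _ ≤ ∑ z ∈ (range m).image (fun k : ℕ => x + (k : ZMod N)) ∪ (range m).image
        (fun k : ℕ => x - (k : ZMod N)), σ z :=
        sum_le_sum_of_subset_of_nonneg h1 fun z _ _ => hσ z
    _ ≤ ∑ z ∈ (range m).image (fun k : ℕ => x + (k : ZMod N)), σ z
        + ∑ z ∈ (range m).image (fun k : ℕ => x - (k : ZMod N)), σ z := by
        rw [← sum_union_inter]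
        exact le_add_of_nonneg_right (sum_nonneg fun z _ => hσ z)
    _ ≤ _ := by
        refine add_le_add ?_ ?_
        · exact sum_image_le_of_nonneg (fun i _ => hσ _)
        · exact sum_image_le_of_nonneg (fun i _ => hσ _)

lemma A1.ball {σ : ZMod N → ℝ} {A : ℝ} (h : A1 σ A) (x : ZMod N) {m : ℕ} (hm : 1 ≤ m) :
    ∑ z ∈ univ.filter (fun z : ZMod N => nrm (x - z) < m), σ z ≤ 2 * A * m * σ x := by
  refine (sum_ball_le (fun z => (h.pos z).le) x m).trans ?_
  have h1 := h.fwd x m hm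
  have h2 := h.bwd x m hm
  linarith

/-- sums over sets at bounded distance -/
lemma A1.set {σ : ZMod N → ℝ} {A : ℝ} (h : A1 σ A) (x : ZMod N) {m : ℕ} (hm : 1 ≤ m)
    (I : Finset (ZMod N)) (hI : ∀ z ∈ I, nrm (x - z) < m) :
    ∑ z ∈ I, σ z ≤ 2 * A * m * σ x := by
  refine le_trans (sum_le_sum_of_subset_of_nonneg ?_ fun z _ _ => (h.pos z).le) (h.ball x hm)
  intro z hz
  simp only [mem_filter, mem_univ, true_and]
  exact hI z hz

/-- Jensen for finite averages, negative power -/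
lemma jensen_fin {ι : Type*} (s : Finset ι) (hs : s.Nonempty) (σ : ι → ℝ) (hσ : ∀ i ∈ s, 0 < σ i)
    {q : ℝ} (hq : 0 ≤ q) :
    (s.card : ℝ) * ((∑ i ∈ s, σ i) / s.card) ^ (-q) ≤ ∑ i ∈ s, σ i ^ (-q) := by
  have hc : (0:ℝ) < s.card := by exact_mod_cast hs.card_pos
  have hS : 0 < ∑ i ∈ s, σ i := sum_pos hσ hs
  set e := (∑ i ∈ s, σ i) / s.card with he
  have e0 : 0 < e := div_pos hS hc
  have h3 : ∑ i ∈ s, σ i = s.card * e := by rw [he]; field_simp
  clear_value e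
  have h1 : ∀ i ∈ s, e ^ (-q) * (1 + q) - (q * e ^ (-q) * e⁻¹) * σ i ≤ σ i ^ (-q) := by
    intro i hi
    have h2 := rpow_neg_ge_line (t := σ i / e) (div_pos (hσ i hi) e0) hq
    rw [Real.div_rpow (hσ i hi).le e0.le] at h2
    have h3 : 0 < e ^ (-q) := Real.rpow_pos_of_pos e0 _
    rw [le_div_iff₀ h3] at h2
    refine le_trans (le_of_eq ?_) h2
    rw [div_eq_mul_inv]; ring
  have h2 := sum_le_sum h1
  rw [sum_sub_distrib, sum_const, ← mul_sum, nsmul_eq_mul] at h2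
  rw [h3] at h2
  refine le_trans (le_of_eq ?_) h2
  have h5 : q * e ^ (-q) * e⁻¹ * (s.card * e) = q * e ^ (-q) * s.card * (e⁻¹ * e) := by ring
  rw [h5, inv_mul_cancel₀ e0.ne']
  ring

/-- doubling-type comparison of the weight `v = σ^(-q)` on two sets -/
lemma A1.dbl {σ : ZMod N → ℝ} {A q : ℝ} (h : A1 σ A) (hq : 0 ≤ q) (I J : Finset (ZMod N))
    (hJ : J.Nonempty) {m : ℕ} (hm : 1 ≤ m) (hIJ : ∀ x ∈ I, ∀ y ∈ J, nrm (x - y) < m) :
    ∑ x ∈ I, σ x ^ (-q) ≤ ((I.card : ℝ) / J.card) * (2 * A * m / J.card) ^ q *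
      ∑ y ∈ J, σ y ^ (-q) := by
  have hc : (0:ℝ) < J.card := by exact_mod_cast hJ.card_pos
  have hA := h.one
  have hm' : (0:ℝ) < m := by exact_mod_cast hm
  set S := ∑ y ∈ J, σ y with hS
  have hS0 : 0 < S := sum_pos (fun y _ => h.pos y) hJ
  have h1 : ∀ x ∈ I, σ x ^ (-q) ≤ (2 * A * m) ^ q * S ^ (-q) := by
    intro x hx
    have h2 : S ≤ 2 * A * m * σ x := h.set x hm J (hIJ x hx)
    have h3 : S / (2 * A * m) ≤ σ x := by rw [div_le_iff₀ (by positivity)]; linarith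
    have h4 : σ x ^ (-q) ≤ (S / (2 * A * m)) ^ (-q) :=
      Real.rpow_le_rpow_of_nonpos (by positivity) h3 (by linarith)
    refine h4.trans (le_of_eq ?_)
    rw [Real.div_rpow hS0.le (by positivity), Real.rpow_neg (by positivity : 0 ≤ 2 * A * m),
      div_eq_mul_inv, inv_inv, mul_comm]
  have h5 := jensen_fin J hJ σ (fun y _ => h.pos y) hq
  have h6 : (S / J.card) ^ (-q) = S ^ (-q) * (J.card : ℝ) ^ q := by
    rw [Real.div_rpow hS0.le hc.le, Real.rpow_neg hc.le, div_eq_mul_inv, inv_inv]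
  calc ∑ x ∈ I, σ x ^ (-q) ≤ ∑ _x ∈ I, (2 * A * m) ^ q * S ^ (-q) := sum_le_sum h1
    _ = I.card * ((2 * A * m) ^ q * S ^ (-q)) := by rw [sum_const, nsmul_eq_mul]
    _ = ((I.card : ℝ) / J.card) * (2 * A * m / J.card) ^ q
          * (J.card * (S / J.card) ^ (-q)) := by
        rw [h6, Real.div_rpow (by positivity) hc.le]
        have : (0:ℝ) < (J.card : ℝ) ^ q := by positivity
        field_simp
    _ ≤ _ := mul_le_mul_of_nonneg_left h5 (by positivity)

/-- the Poisson-type kernel -/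
noncomputable def Pk (l : ℝ) (t : ZMod N) : ℝ := l / (l ^ 2 + nrm t ^ 2)

noncomputable def Av (l : ℝ) (h : ZMod N → ℝ) (x : ZMod N) : ℝ := ∑ t, Pk l t * h (x - t)

lemma Pk_pos {l : ℝ} (hl : 0 < l) (t : ZMod N) : 0 < Pk l t := by unfold Pk; positivity

lemma Pk_neg (l : ℝ) (t : ZMod N) : Pk l (-t) = Pk l t := by unfold Pk; rw [nrm_neg]

lemma Pk_shift {l : ℝ} (hl : 0 < l) (t a : ZMod N) :
    Pk l (t + a) ≤ 2 * (1 + (nrm a / l) ^ 2) * Pk l t := by
  unfold Pk
  have h1 : nrm t ≤ nrm (t + a) + nrm a := by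
    have := nrm_sub (t + a) a
    rwa [add_sub_cancel_right] at this
  have h0 := nrm_nonneg t
  have h3 := nrm_nonneg (t + a)
  have h4 := nrm_nonneg a
  have h5 : l ^ 2 + nrm t ^ 2 ≤ 2 * (1 + (nrm a / l) ^ 2) * (l ^ 2 + nrm (t + a) ^ 2) := by
    have e1 : nrm t ^ 2 ≤ 2 * nrm (t + a) ^ 2 + 2 * nrm a ^ 2 := by
      nlinarith [sq_nonneg (nrm (t + a) - nrm a)]
    have e2 : 2 * (1 + (nrm a / l) ^ 2) * (l ^ 2 + nrm (t + a) ^ 2)
        = 2 * l ^ 2 + 2 * nrm (t + a) ^ 2 + 2 * nrm a ^ 2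
          + 2 * (nrm a / l) ^ 2 * nrm (t + a) ^ 2 := by field_simp; ring
    rw [e2]
    have : 0 ≤ 2 * (nrm a / l) ^ 2 * nrm (t + a) ^ 2 := by positivity
    nlinarith
  rw [mul_div_assoc', div_le_div_iff₀ (by positivity) (by positivity)]
  nlinarith

lemma sum_half_line {l : ℕ} (hl : 1 ≤ l) (n : ℕ) :
    ∑ k ∈ range n, (l:ℝ) / ((l:ℝ) ^ 2 + (k:ℝ) ^ 2) ≤ 5 := by
  have hl' : (0:ℝ) < l := by exact_mod_cast hl
  have h1 : ∀ n, l ≤ n → ∑ k ∈ Ico l n, (l:ℝ) / ((l:ℝ) ^ 2 + (k:ℝ) ^ 2) ≤ l * (2 / l - 2 / n) := by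
    intro n hn
    induction n, hn using Nat.le_induction with
    | base => simp
    | succ n hn ih =>
      rw [sum_Ico_succ_top hn]
      have hn' : (0:ℝ) < n := by exact_mod_cast (lt_of_lt_of_le hl hn)
      have h2 : (l:ℝ) / ((l:ℝ) ^ 2 + (n:ℝ) ^ 2) ≤ l * (2 / n - 2 / (n + 1)) := by
        have e1 : (2:ℝ) / n - 2 / (n + 1) = 2 / (n * (n + 1)) := by field_simp; ring
        rw [e1, div_eq_mul_one_div]
        refine mul_le_mul_of_nonneg_left ?_ hl'.le
        rw [div_le_div_iff₀ (by positivity) (by positivity)]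
        have : (1:ℝ) ≤ n := by exact_mod_cast (le_trans hl hn)
        nlinarith
      push_cast
      linarith
  have h2 : ∑ k ∈ range n, (l:ℝ) / ((l:ℝ) ^ 2 + (k:ℝ) ^ 2)
      ≤ ∑ k ∈ range (n + l), (l:ℝ) / ((l:ℝ) ^ 2 + (k:ℝ) ^ 2) :=
    sum_le_sum_of_subset_of_nonneg (range_mono (by omega)) fun k _ _ => by positivity
  refine h2.trans ?_
  rw [← Finset.sum_range_add_sum_Ico _ (by omega : l ≤ n + l)]
  have h3 : ∑ k ∈ range l, (l:ℝ) / ((l:ℝ) ^ 2 + (k:ℝ) ^ 2) ≤ 1 := by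
    calc _ ≤ ∑ _k ∈ range l, 1 / (l:ℝ) := by
          refine sum_le_sum fun k _ => ?_
          rw [div_le_div_iff₀ (by positivity) hl']
          nlinarith [sq_nonneg (k:ℝ)]
      _ = 1 := by rw [sum_const, card_range, nsmul_eq_mul]; field_simp
  have h4 := h1 (n + l) (by omega)
  have h5 : (l:ℝ) * (2 / l - 2 / ((n + l : ℕ) : ℝ)) ≤ 2 := by
    have : (l:ℝ) * (2 / l - 2 / ((n + l : ℕ) : ℝ)) = 2 - l * (2 / ((n + l : ℕ) : ℝ)) := by
      field_simp
    rw [this]
    have : 0 ≤ (l:ℝ) * (2 / ((n + l : ℕ) : ℝ)) := by positivity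
    linarith
  linarith

/-- sum of a radial function -/
lemma sum_radial (φ : ℕ → ℝ) (hφ : ∀ k, 0 ≤ φ k) :
    ∑ t : ZMod N, φ t.valMinAbs.natAbs ≤ 2 * ∑ k ∈ range (N + 1), φ k := by
  classical
  have h0 : ∀ t ∈ (univ : Finset (ZMod N)), t.valMinAbs.natAbs ∈ range (N+1) := by
    intro t _
    rw [mem_range]
    have := ZMod.natAbs_valMinAbs_le t
    have := Nat.div_le_self N 2
    omega
  rw [← sum_fiberwise_of_maps_to h0, mul_sum]
  refine sum_le_sum fun k _ => ?_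
  have h1 : (univ.filter fun t : ZMod N => t.valMinAbs.natAbs = k) ⊆ {(k : ZMod N), -(k : ZMod N)} := by
    intro t ht
    simp only [mem_filter, mem_univ, true_and] at ht
    rw [mem_insert, mem_singleton]
    apply eq_of_nrm
    unfold nrm
    rw [ht]
  have h2 := (card_le_card h1).trans card_le_two
  have h3 : ∑ t ∈ univ.filter (fun t : ZMod N => t.valMinAbs.natAbs = k), φ t.valMinAbs.natAbs
      = (univ.filter fun t : ZMod N => t.valMinAbs.natAbs = k).card * φ k := by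
    rw [← nsmul_eq_mul, ← sum_const]
    refine sum_congr rfl fun t ht => ?_
    simp only [mem_filter, mem_univ, true_and] at ht
    rw [ht]
  rw [h3]
  refine mul_le_mul_of_nonneg_right ?_ (hφ k)
  exact_mod_cast h2

lemma sum_Pk {l : ℕ} (hl : 1 ≤ l) : ∑ t : ZMod N, Pk l t ≤ 10 := by
  have h := sum_radial (N := N) (fun k => (l:ℝ) / ((l:ℝ) ^ 2 + (k:ℝ) ^ 2))
    (fun k => by positivity)
  have h2 := sum_half_line hl (N + 1)
  calc ∑ t : ZMod N, Pk l t ≤ _ := h
    _ ≤ 2 * 5 := mul_le_mul_of_nonneg_left h2 (by norm_num)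
    _ = 10 := by norm_num

lemma Av_nonneg {l : ℝ} (hl : 0 < l) {h : ZMod N → ℝ} (hh : ∀ x, 0 ≤ h x) (x : ZMod N) :
    0 ≤ Av l h x := sum_nonneg fun t _ => mul_nonneg (Pk_pos hl t).le (hh _)

lemma Av_mono {l : ℝ} (hl : 0 < l) {g h : ZMod N → ℝ} (H : ∀ x, g x ≤ h x) (x : ZMod N) :
    Av l g x ≤ Av l h x := sum_le_sum fun t _ => mul_le_mul_of_nonneg_left (H _) (Pk_pos hl t).le

lemma Av_mul (l : ℝ) (c : ℝ) (g : ZMod N → ℝ) (x : ZMod N) :
    Av l (fun x => c * g x) x = c * Av l g x := by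
  unfold Av
  rw [mul_sum]
  exact sum_congr rfl fun t _ => by ring

lemma Av_add (l : ℝ) (g h : ZMod N → ℝ) (x : ZMod N) :
    Av l (fun x => g x + h x) x = Av l g x + Av l h x := by
  unfold Av
  rw [← sum_add_distrib]
  exact sum_congr rfl fun t _ => by ring

lemma Av_sum' {ι : Type*} (l : ℝ) (s : Finset ι) (g : ι → ZMod N → ℝ) (x : ZMod N) :
    Av l (fun x => ∑ i ∈ s, g i x) x = ∑ i ∈ s, Av l (g i) x := by
  unfold Av
  simp only [mul_sum]
  rw [sum_comm]

lemma Av_shift (l : ℝ) (g : ZMod N → ℝ) (x a : ZMod N) :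
    Av l (fun x => g (x + a)) x = Av l g (x + a) := by
  unfold Av
  refine sum_congr rfl fun t _ => ?_
  congr 2
  ring

lemma sum_Av {l : ℕ} (hl : 1 ≤ l) {h : ZMod N → ℝ} (hh : ∀ x, 0 ≤ h x) :
    ∑ x, Av l h x ≤ 10 * ∑ x, h x := by
  unfold Av
  rw [sum_comm]
  have : ∀ t : ZMod N, ∑ x, Pk l t * h (x - t) = Pk l t * ∑ x, h x := by
    intro t
    rw [← mul_sum]
    congr 1
    exact Equiv.sum_comp (Equiv.subRight t) h
  rw [sum_congr rfl fun t _ => this t, ← sum_mul]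
  exact mul_le_mul_of_nonneg_right (sum_Pk hl) (sum_nonneg fun x _ => hh x)

lemma Av_slow {l : ℝ} (hl : 0 < l) {h : ZMod N → ℝ} (hh : ∀ x, 0 ≤ h x) (x a : ZMod N) :
    Av l h (x + a) ≤ 2 * (1 + (nrm a / l) ^ 2) * Av l h x := by
  have e1 : Av l h (x + a) = ∑ t, Pk l (t + a) * h (x - t) := by
    unfold Av
    rw [← Equiv.sum_comp (Equiv.addRight a)]
    refine sum_congr rfl fun t _ => ?_
    simp only [Equiv.coe_addRight]
    congr 2
    ring
  rw [e1]
  unfold Av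
  rw [mul_sum]
  refine sum_le_sum fun t _ => ?_
  rw [← mul_assoc]
  exact mul_le_mul_of_nonneg_right (Pk_shift hl t a) (hh _)

lemma Av_slow4 {l : ℝ} (hl : 0 < l) {h : ZMod N → ℝ} (hh : ∀ x, 0 ≤ h x) (x a : ZMod N)
    (ha : nrm a ≤ l) : Av l h (x + a) ≤ 4 * Av l h x := by
  refine (Av_slow hl hh x a).trans ?_
  refine mul_le_mul_of_nonneg_right ?_ (Av_nonneg hl hh x)
  have h1 : nrm a / l ≤ 1 := by rw [div_le_one hl]; exact ha
  have h2 : 0 ≤ nrm a / l := div_nonneg (nrm_nonneg a) hl.le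
  nlinarith

lemma Pk_conv {l : ℕ} (hl : 1 ≤ l) (u : ZMod N) :
    ∑ t, Pk l t * Pk l (u - t) ≤ 80 * Pk l u := by
  have hl' : (0:ℝ) < l := by exact_mod_cast hl
  have key : ∀ t u : ZMod N, nrm u / 2 ≤ nrm t → Pk l t ≤ 4 * Pk l u := by
    intro t u h
    unfold Pk
    rw [mul_div_assoc', div_le_div_iff₀ (by positivity) (by positivity)]
    have := nrm_nonneg u
    have h2 : nrm u ^ 2 ≤ 4 * nrm t ^ 2 := by nlinarith [nrm_nonneg t]
    nlinarith
  have h1 : ∀ t, Pk l t * Pk l (u - t) ≤ 4 * Pk l u * Pk l (u - t) + 4 * Pk l u * Pk l t := by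
    intro t
    have p1 := Pk_pos (N := N) hl' t
    have p2 := Pk_pos (N := N) hl' (u - t)
    have p3 := Pk_pos (N := N) hl' u
    rcases le_total (nrm u / 2) (nrm t) with h | h
    · have := mul_le_mul_of_nonneg_right (key t u h) p2.le
      have : 0 ≤ 4 * Pk l u * Pk l t := by positivity
      linarith
    · have h2 : nrm u / 2 ≤ nrm (u - t) := by
        have := nrm_add (u - t) t
        rw [sub_add_cancel] at this
        linarith
      have := mul_le_mul_of_nonneg_left (key (u - t) u h2) p1.le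
      have : 0 ≤ 4 * Pk l u * Pk l (u - t) := by positivity
      nlinarith
  have h2 := sum_le_sum fun t (_ : t ∈ (univ : Finset (ZMod N))) => h1 t
  rw [sum_add_distrib, ← mul_sum, ← mul_sum] at h2
  have h3 : ∑ t : ZMod N, Pk l (u - t) = ∑ t : ZMod N, Pk l t :=
    Equiv.sum_comp (Equiv.subLeft u) (fun t => Pk l t)
  rw [h3] at h2
  have h4 := sum_Pk (N := N) hl
  have p3 := Pk_pos (N := N) hl' u
  nlinarith

lemma Av_Av {l : ℕ} (hl : 1 ≤ l) {h : ZMod N → ℝ} (hh : ∀ x, 0 ≤ h x) (x : ZMod N) :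
    Av l (Av l h) x ≤ 80 * Av l h x := by
  have e1 : Av l (Av l h) x = ∑ u, (∑ t, Pk l t * Pk l (u - t)) * h (x - u) := by
    unfold Av
    calc _ = ∑ t, ∑ u, Pk l t * (Pk l u * h (x - t - u)) :=
          sum_congr rfl fun t _ => by rw [mul_sum]
      _ = ∑ t, ∑ u, Pk l t * (Pk l (u - t) * h (x - u)) := by
          refine sum_congr rfl fun t _ => ?_
          rw [← Equiv.sum_comp (Equiv.subRight t)]
          refine sum_congr rfl fun u _ => ?_
          simp only [Equiv.subRight_apply]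
          congr 3
          ring
      _ = ∑ u, ∑ t, Pk l t * (Pk l (u - t) * h (x - u)) := sum_comm
      _ = _ := by
          refine sum_congr rfl fun u _ => ?_
          rw [sum_mul]
          exact sum_congr rfl fun t _ => by ring
  rw [e1]
  unfold Av
  rw [mul_sum]
  refine sum_le_sum fun u _ => ?_
  rw [← mul_assoc]
  exact mul_le_mul_of_nonneg_right (Pk_conv hl u) (hh _)

end basic

end HC

end

section
/-!
Averages and `A_1` weights on `ZMod (2^L)`: norm inequalities.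
-/

open Finset

namespace HC

open Dy

lemma s4_le : s4 ≤ 5 / 4 := by
  by_contra hc
  push Not at hc
  have : (5/4:ℝ) ^ 4 < s4 ^ 4 := pow_lt_pow_left₀ hc (by norm_num) (by norm_num)
  rw [s4_pow] at this
  norm_num at this

section F7
variable {N : ℕ} [NeZero N]

lemma Pk_scale {l : ℕ} (hl : 1 ≤ l) {ρ : ℝ} (hρ : ρ ≤ 1/4) (t : ZMod N) :
    ∃ i ∈ range (N + 1), nrm t < ((2 ^ i * l : ℕ) : ℝ) ∧
      Pk l t * (1 + nrm t / l) ^ ρ ≤ 4 * (1/4) ^ i * s4 ^ (i + 1) / l := by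
  have hl' : (0:ℝ) < l := by exact_mod_cast hl
  have hex : ∃ i : ℕ, nrm t < ((2 ^ i * l : ℕ) : ℝ) := by
    refine ⟨N, ?_⟩
    have h1 := nrm_le t
    have h2 : (N:ℝ) < ((2 ^ N * l : ℕ) : ℝ) := by
      have h3 : N < 2 ^ N := Nat.lt_two_pow_self
      have h4 : 2 ^ N ≤ 2 ^ N * l := Nat.le_mul_of_pos_right _ hl
      exact_mod_cast lt_of_lt_of_le h3 h4
    linarith
  classical
  set i := Nat.find hex with hi
  have h1 : nrm t < ((2 ^ i * l : ℕ) : ℝ) := Nat.find_spec hex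
  have hiN : i ≤ N := by
    refine Nat.find_min' hex ?_
    have h1 := nrm_le t
    have h2 : (N:ℝ) < ((2 ^ N * l : ℕ) : ℝ) := by
      have h3 : N < 2 ^ N := Nat.lt_two_pow_self
      have h4 : 2 ^ N ≤ 2 ^ N * l := Nat.le_mul_of_pos_right _ hl
      exact_mod_cast lt_of_lt_of_le h3 h4
    linarith
  refine ⟨i, mem_range.2 (by omega), h1, ?_⟩
  have hn0 := nrm_nonneg t
  push_cast at h1
  -- the power
  have e1 : (1 + nrm t / l) ^ ρ ≤ s4 ^ (i + 1) := by
    have a1 : 1 ≤ 1 + nrm t / l := by have : 0 ≤ nrm t / l := by positivity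
                                      linarith
    have a2 : 1 + nrm t / l ≤ 2 ^ (i + 1) := by
      have : nrm t / l ≤ 2 ^ i := by rw [div_le_iff₀ hl']; exact h1.le
      have h3 : (1:ℝ) ≤ 2 ^ i := one_le_pow₀ (by norm_num)
      rw [pow_succ]; linarith
    calc (1 + nrm t / l) ^ ρ ≤ (1 + nrm t / l) ^ (1/4 : ℝ) :=
          Real.rpow_le_rpow_of_exponent_le a1 hρ
      _ ≤ ((2:ℝ) ^ (i + 1)) ^ (1/4 : ℝ) := Real.rpow_le_rpow (by linarith) a2 (by norm_num)
      _ = s4 ^ (i + 1) := by rw [pow_rpow_comm]; rfl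
  have e2 : Pk l t ≤ 4 * (1/4) ^ i / l := by
    unfold Pk
    rw [div_le_div_iff₀ (by positivity) hl']
    rcases Nat.eq_zero_or_pos i with h0 | h0
    · rw [h0]
      simp only [pow_zero, mul_one]
      nlinarith
    · obtain ⟨k, hk⟩ := Nat.exists_eq_succ_of_ne_zero h0.ne'
      have h2 : ¬ nrm t < ((2 ^ k * l : ℕ) : ℝ) := Nat.find_min hex (by omega)
      push Not at h2
      push_cast at h2
      rw [hk, Nat.succ_eq_add_one, pow_succ]
      have h3 : (2 ^ k * (l:ℝ)) ^ 2 ≤ nrm t ^ 2 := pow_le_pow_left₀ (by positivity) h2 2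
      have h4 : (1/4:ℝ) ^ k * (2 ^ k * (l:ℝ)) ^ 2 = l ^ 2 := by
        rw [mul_pow, ← pow_mul, mul_comm k 2, pow_mul, ← mul_assoc, ← mul_pow]
        norm_num
      have h5 : (0:ℝ) < (1/4) ^ k := by positivity
      have h6 : (l:ℝ) ^ 2 ≤ (1/4) ^ k * nrm t ^ 2 := by
        rw [← h4]; exact mul_le_mul_of_nonneg_left h3 h5.le
      nlinarith [mul_nonneg h5.le (sq_nonneg (l:ℝ))]
  calc Pk l t * (1 + nrm t / l) ^ ρ ≤ (4 * (1/4) ^ i / l) * s4 ^ (i + 1) :=
        mul_le_mul e2 e1 (by positivity) (by positivity)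
    _ = _ := by ring

lemma A1.F7 {σ : ZMod N → ℝ} {A : ℝ} (h : A1 σ A) {l : ℕ} (hl : 1 ≤ l) {ρ : ℝ}
    (hρ : ρ ≤ 1/4) (x : ZMod N) :
    ∑ t, Pk l t * (1 + nrm t / l) ^ ρ * σ (x - t) ≤ 27 * A * σ x := by
  have hl' : (0:ℝ) < l := by exact_mod_cast hl
  have hA := h.one
  have s0 := s4_pos
  have hσ := h.pos x
  have h1 : ∀ t, Pk l t * (1 + nrm t / l) ^ ρ * σ (x - t)
      ≤ ∑ i ∈ range (N + 1), if nrm t < ((2 ^ i * l : ℕ) : ℝ) then
        (4 * (1/4) ^ i * s4 ^ (i + 1) / l) * σ (x - t) else 0 := by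
    intro t
    obtain ⟨i, hi, h2, h3⟩ := Pk_scale hl hρ t
    have h4 := mul_le_mul_of_nonneg_right h3 (h.pos (x - t)).le
    refine h4.trans ?_
    have h5 := single_le_sum (f := fun i => if nrm t < ((2 ^ i * l : ℕ) : ℝ) then
        (4 * (1/4) ^ i * s4 ^ (i + 1) / l) * σ (x - t) else 0) (fun i _ => by
        have := h.pos (x - t)
        split_ifs <;> positivity) hi
    simp only [if_pos h2] at h5
    exact h5
  refine (sum_le_sum fun t _ => h1 t).trans ?_
  rw [sum_comm]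
  have h2 : ∀ i ∈ range (N+1), ∑ t : ZMod N, (if nrm t < ((2 ^ i * l : ℕ) : ℝ) then
        (4 * (1/4) ^ i * s4 ^ (i + 1) / l) * σ (x - t) else 0)
      ≤ (8 * A * s4 * σ x) * (s4 / 2) ^ i := by
    intro i _
    rw [← sum_filter, ← mul_sum]
    have e1 : ∑ t ∈ univ.filter (fun t : ZMod N => nrm t < ((2 ^ i * l : ℕ) : ℝ)), σ (x - t)
        = ∑ z ∈ univ.filter (fun z : ZMod N => nrm (x - z) < ((2 ^ i * l : ℕ) : ℝ)), σ z := by
      rw [sum_filter, sum_filter, ← Equiv.sum_comp (Equiv.subLeft x)]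
      refine sum_congr rfl fun z _ => ?_
      simp only [Equiv.subLeft_apply, sub_sub_cancel]
    rw [e1]
    have e2 := h.ball x (m := 2 ^ i * l) (Nat.mul_pos (by positivity) hl)
    calc _ ≤ (4 * (1/4) ^ i * s4 ^ (i + 1) / l) * (2 * A * ((2 ^ i * l : ℕ) : ℝ) * σ x) :=
          mul_le_mul_of_nonneg_left e2 (by positivity)
      _ = (8 * A * s4 * σ x) * ((1/4) ^ i * 2 ^ i * s4 ^ i) := by
          push_cast
          rw [pow_succ]
          field_simp
          ring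
      _ = _ := by
          rw [← mul_pow, ← mul_pow]
          congr 2
          ring
  refine (sum_le_sum h2).trans ?_
  rw [← mul_sum]
  have h3 : ∑ i ∈ range (N+1), (s4 / 2) ^ i ≤ 8 / 3 := by
    have a1 : s4 / 2 ≤ 5 / 8 := by linarith [s4_le]
    calc _ ≤ ∑ i ∈ range (N+1), (5/8:ℝ) ^ i :=
          sum_le_sum fun i _ => pow_le_pow_left₀ (by positivity) a1 i
      _ ≤ (1 - 5/8)⁻¹ := by
          have h2 := Summable.sum_le_tsum (range (N+1)) (fun i _ => by positivity)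
            (summable_geometric_of_lt_one (by norm_num : (0:ℝ) ≤ 5/8) (by norm_num))
          rwa [tsum_geometric_of_lt_one (by norm_num) (by norm_num)] at h2
      _ = 8/3 := by norm_num
  calc _ ≤ (8 * A * s4 * σ x) * (8/3) := mul_le_mul_of_nonneg_left h3 (by positivity)
    _ ≤ (8 * A * (5/4) * σ x) * (8/3) := by
        refine mul_le_mul_of_nonneg_right ?_ (by norm_num)
        refine mul_le_mul_of_nonneg_right ?_ hσ.le
        exact mul_le_mul_of_nonneg_left s4_le (by positivity)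
    _ ≤ _ := by nlinarith [mul_pos (by linarith : 0 < A) hσ]

end F7

section conc
variable {L : ℕ} {σ : ZMod (2 ^ L) → ℝ} {A : ℝ}

lemma nrm_cell {L j : ℕ} {x y : ZMod (2 ^ L)} (h : (dy L).c j y = (dy L).c j x) :
    nrm (x - y) < ell L j := by
  have hy : y ∈ univ.filter (fun y : ZMod (2 ^ L) => y.val / ell L j = x.val / ell L j) := by
    simp only [mem_filter, mem_univ, true_and]; exact h
  rw [cell_eq, mem_image] at hy
  obtain ⟨i, hi, rfl⟩ := hy
  rw [mem_range] at hi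
  set r := x.val % ell L j with hr
  have hrl : r < ell L j := Nat.mod_lt _ (ell_pos L j)
  have hx : st L j x + (r : ZMod (2 ^ L)) = x := st_add_mod L j x
  have e : x - (st L j x + (i : ZMod (2 ^ L))) = (r : ZMod (2 ^ L)) - (i : ZMod (2 ^ L)) := by
    nth_rewrite 1 [← hx]; ring
  rw [e]
  rcases le_total i r with h1 | h1
  · rw [← Nat.cast_sub h1]
    refine lt_of_le_of_lt (nrm_natCast _) ?_
    have : r - i < ell L j := by omega
    exact_mod_cast this
  · rw [nrm_sub_comm, ← Nat.cast_sub h1]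
    refine lt_of_le_of_lt (nrm_natCast _) ?_
    have : i - r < ell L j := by omega
    exact_mod_cast this

lemma A1.E_le (h : A1 σ A) (j : ℕ) (x y : ZMod (2 ^ L)) :
    (dy L).E j σ y ≤ 2 * A * ((nrm (x - y) + ell L j) / ell L j) * σ x := by
  have h0 : (0:ℝ) < ell L j := by exact_mod_cast ell_pos L j
  obtain ⟨a, ha⟩ := nrm_eq_nat (x - y)
  have h1 := h.set x (m := a + ell L j) (by have := ell_pos L j; omega)
    (univ.filter (fun z => (dy L).c j z = (dy L).c j y)) (by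
      intro z hz
      simp only [mem_filter, mem_univ, true_and] at hz
      have h2 := nrm_cell hz
      have h3 := nrm_add (x - y) (y - z)
      rw [sub_add_sub_cancel] at h3
      push_cast
      linarith)
  unfold Dy.E
  have h4 : ((dy L).n j : ℝ) = ell L j := rfl
  rw [h4, smul_eq_mul, inv_mul_le_iff₀ h0, ha]
  push_cast at h1
  refine h1.trans (le_of_eq ?_)
  field_simp

variable {q : ℝ}

lemma A1.F8 (h : A1 σ A) (hq1 : 1 ≤ q) (hq : q ≤ 5/4) {s j : ℕ} (hsj : s ≤ j) (hj : j ≤ L)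
    (x : ZMod (2 ^ L)) :
    ∑ t, Pk (ell L s) t * ((dy L).E j σ (x - t)) ^ q
      ≤ 108 * A ^ 3 * ((2:ℝ) ^ (q - 1)) ^ (j - s) * σ x ^ q := by
  have hA := h.one
  have hσ := h.pos x
  have hs0 : (0:ℝ) < ell L s := by exact_mod_cast ell_pos L s
  have hj0 : (0:ℝ) < ell L j := by exact_mod_cast ell_pos L j
  have hrat : (ell L s : ℝ) / ell L j = 2 ^ (j - s) := by
    rw [div_eq_iff hj0.ne', ell_mul hsj hj]; push_cast; ring
  have hjs : (ell L j : ℝ) ≤ ell L s := by exact_mod_cast ell_anti hsj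
  have h1 : ∀ t, Pk (ell L s) t * ((dy L).E j σ (x - t)) ^ q
      ≤ ((2 * A) ^ (q-1) * ((2:ℝ) ^ (q - 1)) ^ (j - s) * σ x ^ (q-1) * (2 * A)) *
        (Pk (ell L s) t * (1 + nrm t / ell L s) ^ (q-1) * σ (x - t)) := by
    intro t
    have hE0 : 0 < (dy L).E j σ (x - t) := E_pos h.pos _
    have e1 : (dy L).E j σ (x - t) ≤ 2 * A * (2 ^ (j - s) * (1 + nrm t / ell L s)) * σ x := by
      refine (h.E_le j x (x - t)).trans ?_
      rw [sub_sub_cancel]
      refine mul_le_mul_of_nonneg_right (mul_le_mul_of_nonneg_left ?_ (by linarith)) hσ.le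
      rw [← hrat]
      have : (ell L s : ℝ) / ell L j * (1 + nrm t / ell L s) = (nrm t + ell L s) / ell L j := by
        field_simp; ring
      rw [this]
      exact div_le_div_of_nonneg_right (by linarith) hj0.le
    have e2 : (dy L).E j σ (x - t) ≤ 2 * A * σ (x - t) := h.dyadic j (x - t)
    have n0 := nrm_nonneg t
    have e3 : ((dy L).E j σ (x - t)) ^ q ≤
        ((2 * A) ^ (q-1) * ((2:ℝ) ^ (q - 1)) ^ (j - s) * σ x ^ (q-1) * (2 * A)) *
        ((1 + nrm t / ell L s) ^ (q-1) * σ (x - t)) := by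
      calc ((dy L).E j σ (x - t)) ^ q
          = ((dy L).E j σ (x - t)) ^ (q-1) * (dy L).E j σ (x - t) := by
            rw [← Real.rpow_add_one hE0.ne']; ring_nf
        _ ≤ (2 * A * (2 ^ (j - s) * (1 + nrm t / ell L s)) * σ x) ^ (q-1)
              * (2 * A * σ (x - t)) :=
            mul_le_mul (Real.rpow_le_rpow hE0.le e1 (by linarith)) e2 hE0.le
              (Real.rpow_nonneg (by positivity) _)
        _ = _ := by
            rw [Real.mul_rpow (by positivity) hσ.le,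
              Real.mul_rpow (x := 2 * A) (by positivity) (by positivity),
              Real.mul_rpow (x := (2:ℝ) ^ (j - s)) (by positivity) (by positivity),
              pow_rpow_comm]
            ring
    calc _ ≤ Pk (ell L s) t * (((2 * A) ^ (q-1) * ((2:ℝ) ^ (q - 1)) ^ (j - s) * σ x ^ (q-1)
            * (2 * A)) * ((1 + nrm t / ell L s) ^ (q-1) * σ (x - t))) :=
          mul_le_mul_of_nonneg_left e3 (Pk_pos hs0 t).le
      _ = _ := by ring
  refine (sum_le_sum fun t _ => h1 t).trans ?_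
  rw [← mul_sum]
  have h2 := h.F7 (l := ell L s) (ell_pos L s) (ρ := q - 1) (by linarith) x
  have h3 : (2 * A) ^ (q-1) ≤ 2 * A := by
    calc (2 * A) ^ (q-1) ≤ (2 * A) ^ (1:ℝ) :=
          Real.rpow_le_rpow_of_exponent_le (by linarith) (by linarith)
      _ = _ := Real.rpow_one _
  have h4 : σ x ^ (q-1) * σ x = σ x ^ q := by
    rw [← Real.rpow_add_one hσ.ne']; ring_nf
  have h5 : 0 < σ x ^ (q-1) := Real.rpow_pos_of_pos hσ _
  calc _ ≤ ((2 * A) ^ (q-1) * ((2:ℝ) ^ (q - 1)) ^ (j - s) * σ x ^ (q-1) * (2 * A))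
        * (27 * A * σ x) := mul_le_mul_of_nonneg_left h2 (by positivity)
    _ ≤ ((2 * A) * ((2:ℝ) ^ (q - 1)) ^ (j - s) * σ x ^ (q-1) * (2 * A))
        * (27 * A * σ x) := by
        refine mul_le_mul_of_nonneg_right ?_ (by positivity)
        refine mul_le_mul_of_nonneg_right ?_ (by positivity)
        refine mul_le_mul_of_nonneg_right ?_ h5.le
        exact mul_le_mul_of_nonneg_right h3 (by positivity)
    _ = 108 * A ^ 3 * ((2:ℝ) ^ (q - 1)) ^ (j - s) * (σ x ^ (q-1) * σ x) := by ring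
    _ = _ := by rw [h4]

/-- the general weighted bound for `Av` -/
lemma A1.gen (h : A1 σ A) (hq1 : 1 ≤ q) (hq : q ≤ 5/4) {s j : ℕ} (hsj : s ≤ j) (hj : j ≤ L)
    (g : ZMod (2 ^ L) → ℝ) :
    ∑ x, σ x ^ (-q) * (Av (ell L s) g x) ^ 2
      ≤ 1080 * A ^ 3 * ((2:ℝ) ^ (q - 1)) ^ (j - s)
        * ∑ x, g x ^ 2 * (dy L).E j (fun y => σ y ^ (-q)) x := by
  have hA := h.one
  have hs0 : (0:ℝ) < ell L s := by exact_mod_cast ell_pos L s
  set v : ZMod (2 ^ L) → ℝ := fun y => σ y ^ (-q) with hv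
  have hv0 : ∀ x, 0 < v x := fun x => Real.rpow_pos_of_pos (h.pos x) _
  set V := (dy L).E j v with hV
  have hV0 : ∀ x, 0 < V x := fun x => E_pos hv0 x
  have cs : ∀ x, (Av (ell L s) g x) ^ 2 ≤ Av (ell L s) (fun x => g x ^ 2 * V x) x
      * Av (ell L s) (fun x => (V x)⁻¹) x := by
    intro x
    unfold Av
    refine sum_sq_le_sum_mul_sum_of_sq_le_mul _
      (fun t _ => mul_nonneg (Pk_pos hs0 t).le (mul_nonneg (sq_nonneg _) (hV0 _).le))
      (fun t _ => mul_nonneg (Pk_pos hs0 t).le (inv_pos.2 (hV0 _)).le) fun t _ => le_of_eq ?_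
    have := (hV0 (x - t)).ne'
    field_simp
  have b1 : ∀ x, v x * Av (ell L s) (fun x => (V x)⁻¹) x
      ≤ 108 * A ^ 3 * ((2:ℝ) ^ (q - 1)) ^ (j - s) := by
    intro x
    have e1 : Av (ell L s) (fun x => (V x)⁻¹) x
        ≤ ∑ t, Pk (ell L s) t * ((dy L).E j σ (x - t)) ^ q := by
      unfold Av
      refine sum_le_sum fun t _ => mul_le_mul_of_nonneg_left ?_ (Pk_pos hs0 t).le
      have hE0 : 0 < (dy L).E j σ (x - t) := E_pos h.pos _
      have h2 : ((dy L).E j σ (x - t)) ^ (-q) ≤ V (x - t) :=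
        jensen_neg h.pos (by linarith) j (x - t)
      rw [inv_le_comm₀ (hV0 _) (Real.rpow_pos_of_pos hE0 _), ← Real.rpow_neg hE0.le]
      exact h2
    have e2 := e1.trans (h.F8 hq1 hq hsj hj x)
    have e3 := mul_le_mul_of_nonneg_left e2 (hv0 x).le
    refine e3.trans (le_of_eq ?_)
    have e4 : v x * σ x ^ q = 1 := by
      simp only [hv]
      rw [← Real.rpow_add (h.pos x)]; simp
    calc _ = 108 * A ^ 3 * ((2:ℝ) ^ (q - 1)) ^ (j - s) * (v x * σ x ^ q) := by ring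
      _ = _ := by rw [e4, mul_one]
  have hAv0 : ∀ x, 0 ≤ Av (ell L s) (fun x => g x ^ 2 * V x) x :=
    Av_nonneg hs0 fun x => mul_nonneg (sq_nonneg _) (hV0 x).le
  calc ∑ x, v x * (Av (ell L s) g x) ^ 2
      ≤ ∑ x, (108 * A ^ 3 * ((2:ℝ) ^ (q - 1)) ^ (j - s))
          * Av (ell L s) (fun x => g x ^ 2 * V x) x := by
        refine sum_le_sum fun x _ => ?_
        calc _ ≤ v x * (Av (ell L s) (fun x => g x ^ 2 * V x) x
                * Av (ell L s) (fun x => (V x)⁻¹) x) :=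
              mul_le_mul_of_nonneg_left (cs x) (hv0 x).le
          _ = (v x * Av (ell L s) (fun x => (V x)⁻¹) x)
                * Av (ell L s) (fun x => g x ^ 2 * V x) x := by ring
          _ ≤ _ := mul_le_mul_of_nonneg_right (b1 x) (hAv0 x)
    _ ≤ (108 * A ^ 3 * ((2:ℝ) ^ (q - 1)) ^ (j - s)) * (10 * ∑ x, g x ^ 2 * V x) := by
        rw [← mul_sum]
        refine mul_le_mul_of_nonneg_left ?_ (by positivity)
        exact sum_Av (ell_pos L s) fun x => mul_nonneg (sq_nonneg _) (hV0 x).le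
    _ = _ := by ring

/-- N1 -/
lemma A1.n1 (h : A1 σ A) (hq1 : 1 ≤ q) (hq : q ≤ 5/4) {s j : ℕ} (hsj : s ≤ j) (hj : j ≤ L)
    {g : ZMod (2 ^ L) → ℝ} (hg : (dy L).Meas j g) :
    ∑ x, σ x ^ (-q) * (Av (ell L s) g x) ^ 2
      ≤ 1080 * A ^ 3 * ((2:ℝ) ^ (q - 1)) ^ (j - s) * ∑ x, σ x ^ (-q) * g x ^ 2 := by
  refine (h.gen hq1 hq hsj hj g).trans (le_of_eq ?_)
  congr 1
  rw [sum_mul_E (hg.comp fun t => t ^ 2)]
  exact sum_congr rfl fun x _ => mul_comm _ _

/-- residue sums -/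
lemma sum_res {j : ℕ} (p : ℕ → Prop) [DecidablePred p] {φ : ZMod (2 ^ L) → ℝ}
    (hφ : (dy L).Meas j φ) :
    ∑ x : ZMod (2 ^ L), (if p (x.val % ell L j) then φ x else 0)
      = (((range (ell L j)).filter p).card : ℝ) / ell L j * ∑ x, φ x := by
  set ψ : ZMod (2 ^ L) → ℝ := fun x => if p (x.val % ell L j) then 1 else 0 with hψ
  have e1 : ∀ x, (if p (x.val % ell L j) then φ x else 0) = ψ x * φ x := by
    intro x; simp only [hψ]; split_ifs <;> simp
  simp only [e1]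
  rw [← sum_E_mul hφ]
  have e2 : ∀ x, (dy L).E j ψ x = (((range (ell L j)).filter p).card : ℝ) / ell L j := by
    intro x
    rw [dyE, smul_eq_mul, div_eq_inv_mul]
    congr 1
    rw [card_filter]
    push_cast
    refine sum_congr rfl fun i hi => ?_
    rw [mem_range] at hi
    simp only [hψ]
    have hm : (x.val / ell L j * ell L j + i) % ell L j = i := by
      rw [Nat.add_mod, Nat.mul_mod_left, Nat.zero_add, Nat.mod_mod, Nat.mod_eq_of_lt hi]
    rw [st_add_val L j x hi, hm]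
  simp only [e2]
  rw [mul_sum]

end conc

end HC

end

section
/-!
Further norm inequalities: boundary functions and evaluations at cell endpoints.
-/

open Finset

namespace HC

open Dy

section conc
variable {L : ℕ} {σ : ZMod (2 ^ L) → ℝ} {A q : ℝ}

lemma rpow_le_sq {B : ℝ} (hB : 1 ≤ B) (hq : q ≤ 5/4) : B ^ q ≤ B ^ 2 := by
  rw [← Real.rpow_natCast]
  exact Real.rpow_le_rpow_of_exponent_le hB (by push_cast; linarith)

lemma ell_div_sixteen {s : ℕ} (hs : s + 4 ≤ L) : ell L s = 16 * ell L (s + 4) := by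
  rw [ell_mul (by omega : s ≤ s + 4) hs]
  simp

/-- the boundary indicator transforms under the shift -/
lemma bdry_shift {j w : ℕ} (hw : w < ell L j) (x : ZMod (2 ^ L)) :
    (ell L j ≤ x.val % ell L j + w) ↔ ((x + (w : ZMod (2 ^ L))).val % ell L j < w) := by
  have h1 : (x + (w : ZMod (2 ^ L))).val % ell L j = (x.val % ell L j + w) % ell L j := by
    rw [ZMod.val_add, Nat.mod_mod_of_dvd _ (ell_dvd L j), ZMod.val_natCast, Nat.add_mod,
      Nat.mod_mod_of_dvd _ (ell_dvd L j), Nat.mod_eq_of_lt hw]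
  rw [h1]
  have hr : x.val % ell L j < ell L j := Nat.mod_lt _ (ell_pos L j)
  constructor
  · intro h
    rw [Nat.mod_eq_sub_mod h, Nat.mod_eq_of_lt (by omega)]
    omega
  · intro h
    by_contra hc
    rw [Nat.mod_eq_of_lt (by omega)] at h
    omega

lemma Ev_cross (h : A1 σ A) (hq0 : 0 ≤ q) (hq : q ≤ 5/4) {s j w : ℕ} (hjs : j ≤ s)
    (hw : w ≤ ell L j) (x : ZMod (2 ^ L)) :
    (dy L).E s (fun y => σ y ^ (-q)) x
      ≤ 36 * A ^ 2 * (dy L).E j (fun y => σ y ^ (-q)) (x + (w : ZMod (2 ^ L))) := by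
  have hA := h.one
  have hs0 : (0:ℝ) < ell L s := by exact_mod_cast ell_pos L s
  have hj0 : (0:ℝ) < ell L j := by exact_mod_cast ell_pos L j
  set I := univ.filter (fun z => (dy L).c s z = (dy L).c s x) with hI
  set J := univ.filter (fun z => (dy L).c j z = (dy L).c j (x + (w : ZMod (2 ^ L)))) with hJ
  have cI : I.card = ell L s := (dy L).card s x
  have cJ : J.card = ell L j := (dy L).card j _
  have hJne : J.Nonempty := ⟨x + (w : ZMod (2 ^ L)), by simp [hJ]⟩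
  have hd := h.dbl hq0 I J hJne (m := 3 * ell L j) (by have := ell_pos L j; omega) (by
    intro z hz y hy
    simp only [hI, mem_filter, mem_univ, true_and] at hz
    simp only [hJ, mem_filter, mem_univ, true_and] at hy
    have h1 := nrm_cell hz
    have h2 := nrm_cell hy
    have h3 : nrm ((x + (w : ZMod (2 ^ L))) - x) ≤ w := by
      rw [add_sub_cancel_left]; exact nrm_natCast _
    have e : z - y = (z - x) + (x - (x + (w : ZMod (2 ^ L)))) + ((x + (w : ZMod (2 ^ L))) - y) := by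
      ring
    rw [e]
    have h4 := nrm_add ((z - x) + (x - (x + (w : ZMod (2 ^ L))))) ((x + (w : ZMod (2 ^ L))) - y)
    have h5 := nrm_add (z - x) (x - (x + (w : ZMod (2 ^ L))))
    rw [nrm_sub_comm z x, nrm_sub_comm x (x + (w : ZMod (2 ^ L)))] at h5
    have h6 : (ell L s : ℝ) ≤ ell L j := by exact_mod_cast ell_anti hjs
    have h7 : (w : ℝ) ≤ ell L j := by exact_mod_cast hw
    push_cast
    linarith)
  rw [cI, cJ] at hd
  unfold Dy.E
  have n1 : ((dy L).n s : ℝ) = ell L s := rfl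
  have n2 : ((dy L).n j : ℝ) = ell L j := rfl
  rw [n1, n2, smul_eq_mul, smul_eq_mul, inv_mul_le_iff₀ hs0]
  refine hd.trans ?_
  have e1 : (2 * A * ((3 * ell L j : ℕ) : ℝ) / ell L j) ^ q ≤ 36 * A ^ 2 := by
    have : 2 * A * ((3 * ell L j : ℕ) : ℝ) / ell L j = 6 * A := by
      push_cast; field_simp; ring
    rw [this]
    refine (rpow_le_sq (by linarith) hq).trans (le_of_eq (by ring))
  have S0 : 0 ≤ ∑ y ∈ J, σ y ^ (-q) := sum_nonneg fun y _ => Real.rpow_nonneg (h.pos y).le _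
  have S1 : ∑ y ∈ J, σ y ^ (-q) = ∑ y ∈ univ.filter (fun z =>
    (dy L).c j z = (dy L).c j (x + (w : ZMod (2 ^ L)))), σ y ^ (-q) := rfl
  rw [← S1]
  calc _ ≤ ((ell L s : ℝ) / ell L j) * (36 * A ^ 2) * ∑ y ∈ J, σ y ^ (-q) := by
        refine mul_le_mul_of_nonneg_right ?_ S0
        exact mul_le_mul_of_nonneg_left e1 (by positivity)
    _ = _ := by field_simp

/-- N2 -/
lemma A1.n2 (h : A1 σ A) (hq1 : 1 ≤ q) (hq : q ≤ 5/4) {s j : ℕ} (hjs : j ≤ s) (hs : s + 4 ≤ L)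
    {g : ZMod (2 ^ L) → ℝ} (hg : (dy L).Meas j g) :
    ∑ x, σ x ^ (-q) * (Av (ell L s) (fun x => if ell L j ≤ x.val % ell L j + ell L (s+4) then
        g x + g (x + (ell L (s+4) : ZMod (2 ^ L))) else 0) x) ^ 2
      ≤ 5400 * A ^ 5 * (1/2) ^ (s - j) * ∑ x, σ x ^ (-q) * g x ^ 2 := by
  have hA := h.one
  set w := ell L (s+4) with hw
  have hj0 : (0:ℝ) < ell L j := by exact_mod_cast ell_pos L j
  have hws : ell L s = 16 * w := ell_div_sixteen hs
  have hw0 : 0 < w := ell_pos L _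
  have hwj : w < ell L j := by have := ell_anti (L := L) hjs; omega
  have hrat : (w : ℝ) / ell L j = (1/16) * (1/2) ^ (s - j) := by
    rw [ell_mul hjs (by omega), hws]
    push_cast
    rw [one_div_pow]
    field_simp
  set v : ZMod (2 ^ L) → ℝ := fun y => σ y ^ (-q) with hv
  have hv0 : ∀ x, 0 < v x := fun x => Real.rpow_pos_of_pos (h.pos x) _
  set V := (dy L).E j v with hV
  have hV0 : ∀ x, 0 < V x := fun x => E_pos hv0 x
  set Vs := (dy L).E s v with hVs
  have hVs0 : ∀ x, 0 < Vs x := fun x => E_pos hv0 x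
  have b1 : ∀ x, Vs x ≤ 4 * A ^ 2 * V x := by
    intro x
    have h1 := E_mono (D := dy L) (j := s)
      (v_le_Ev (D := dy L) h.pos (by linarith : 0 ≤ q) (by linarith : 0 < 2 * A) h.dyadic j) x
    rw [E_mul, E_E_fine hjs] at h1
    refine h1.trans (mul_le_mul_of_nonneg_right ?_ (hV0 x).le)
    exact (rpow_le_sq (by linarith) hq).trans (le_of_eq (by ring))
  have b2 : ∀ x, Vs x ≤ 36 * A ^ 2 * V (x + (w : ZMod (2 ^ L))) := fun x =>
    Ev_cross h (by linarith) hq hjs hwj.le x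
  set G : ZMod (2 ^ L) → ℝ := fun x => if ell L j ≤ x.val % ell L j + w then
        g x + g (x + (w : ZMod (2 ^ L))) else 0 with hG
  have h1 := h.gen hq1 hq (le_refl s) (by omega) G
  rw [Nat.sub_self, pow_zero, mul_one] at h1
  refine h1.trans ?_
  have c1 : ∀ x, G x ^ 2 * Vs x ≤ 8 * A ^ 2 * (if ell L j ≤ x.val % ell L j + w then
        g x ^ 2 * V x else 0)
      + 72 * A ^ 2 * (if (x + (w : ZMod (2 ^ L))).val % ell L j < w then
        g (x + (w : ZMod (2 ^ L))) ^ 2 * V (x + (w : ZMod (2 ^ L))) else 0) := by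
    intro x
    by_cases hb : ell L j ≤ x.val % ell L j + w
    · have hb' := (bdry_shift hwj x).1 hb
      simp only [hG]
      rw [if_pos hb, if_pos hb, if_pos hb']
      have e1 : (g x + g (x + (w : ZMod (2 ^ L)))) ^ 2
          ≤ 2 * g x ^ 2 + 2 * g (x + (w : ZMod (2 ^ L))) ^ 2 := by
        nlinarith [sq_nonneg (g x - g (x + (w : ZMod (2 ^ L))))]
      have e2 := mul_le_mul_of_nonneg_right e1 (hVs0 x).le
      have e3 := mul_le_mul_of_nonneg_left (b1 x) (sq_nonneg (g x))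
      have e4 := mul_le_mul_of_nonneg_left (b2 x) (sq_nonneg (g (x + (w : ZMod (2 ^ L)))))
      linarith
    · have hb' : ¬ (x + (w : ZMod (2 ^ L))).val % ell L j < w := fun hh =>
        hb ((bdry_shift hwj x).2 hh)
      simp only [hG]
      rw [if_neg hb, if_neg hb, if_neg hb']
      simp
  have c2 := sum_le_sum fun x (_ : x ∈ (univ : Finset (ZMod (2 ^ L)))) => c1 x
  rw [sum_add_distrib, ← mul_sum, ← mul_sum] at c2
  have mφ : (dy L).Meas j (fun x => g x ^ 2 * V x) :=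
    Meas.comp₂ hg (E_meas j v) fun s t => s ^ 2 * t
  have d1 : ∑ x : ZMod (2 ^ L), (if ell L j ≤ x.val % ell L j + w then g x ^ 2 * V x else 0)
      = (w : ℝ) / ell L j * ∑ x, g x ^ 2 * V x := by
    have := sum_res (p := fun i => ell L j ≤ i + w) mφ
    rw [this]
    congr 2
    have : (range (ell L j)).filter (fun i => ell L j ≤ i + w) = Ico (ell L j - w) (ell L j) := by
      ext i; simp only [mem_filter, mem_range, mem_Ico]; omega
    rw [this, Nat.card_Ico]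
    congr 1
    omega
  have d2 : ∑ x : ZMod (2 ^ L), (if (x + (w : ZMod (2 ^ L))).val % ell L j < w then
        g (x + (w : ZMod (2 ^ L))) ^ 2 * V (x + (w : ZMod (2 ^ L))) else 0)
      = (w : ℝ) / ell L j * ∑ x, g x ^ 2 * V x := by
    refine (Equiv.sum_comp (Equiv.addRight (w : ZMod (2 ^ L)))
      (fun x => if x.val % ell L j < w then g x ^ 2 * V x else 0)).trans ?_
    have := sum_res (p := fun i => i < w) mφ
    rw [this]
    congr 2
    have : (range (ell L j)).filter (fun i => i < w) = range w := by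
      ext i; simp only [mem_filter, mem_range]; omega
    rw [this, card_range]
  have d3 : ∑ x, g x ^ 2 * V x = ∑ x, v x * g x ^ 2 := by
    rw [sum_mul_E (hg.comp fun t => t ^ 2)]
    exact sum_congr rfl fun x _ => mul_comm _ _
  rw [d1, d2, d3, hrat] at c2
  have c3 := mul_le_mul_of_nonneg_left c2 (by positivity : 0 ≤ 1080 * A ^ 3)
  refine c3.trans (le_of_eq ?_)
  ring

lemma range_inj {l : ℕ} (hl : l ≤ 2 ^ L) (p : ZMod (2 ^ L)) :
    Set.InjOn (fun i : ℕ => p + (i : ZMod (2 ^ L))) (range l : Set ℕ) := by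
  intro i hi i' hi' h
  simp only [coe_range, Set.mem_Iio] at hi hi'
  have h1 := add_left_cancel h
  have h2 := congrArg ZMod.val h1
  rw [ZMod.val_natCast_of_lt (by omega), ZMod.val_natCast_of_lt (by omega)] at h2
  exact h2

/-- sum of the weight on long intervals controlled by short intervals -/
lemma A1.dbl_int (h : A1 σ A) (hq0 : 0 ≤ q) {s j : ℕ} (hjs : j ≤ s) (hs : s ≤ L)
    (p : ZMod (2 ^ L)) {e : ℕ} (he : e + ell L s ≤ ell L j) :
    ∑ i ∈ range (ell L j), σ (p + (i : ZMod (2 ^ L))) ^ (-q)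
      ≤ 2 ^ (s - j) * (2 * A * 2 ^ (s - j)) ^ q *
        ∑ k ∈ range (ell L s), σ (p + (e : ZMod (2 ^ L)) + (k : ZMod (2 ^ L))) ^ (-q) := by
  classical
  have hA := h.one
  have hs0 : (0:ℝ) < ell L s := by exact_mod_cast ell_pos L s
  have hj0 : (0:ℝ) < ell L j := by exact_mod_cast ell_pos L j
  have hrat : (ell L j : ℝ) / ell L s = 2 ^ (s - j) := by
    rw [div_eq_iff hs0.ne', ell_mul hjs hs]; push_cast; ring
  set I := (range (ell L j)).image (fun i : ℕ => p + (i : ZMod (2 ^ L))) with hI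
  set J := (range (ell L s)).image (fun k : ℕ => p + (e : ZMod (2 ^ L)) + (k : ZMod (2 ^ L)))
    with hJ
  have cI : I.card = ell L j := by
    rw [hI, card_image_of_injOn (range_inj (ell_le L j) p), card_range]
  have cJ : J.card = ell L s := by
    rw [hJ, card_image_of_injOn (range_inj (ell_le L s) _), card_range]
  have hJne : J.Nonempty := by rw [← card_pos, cJ]; exact ell_pos L s
  have hd := h.dbl hq0 I J hJne (m := ell L j) (ell_pos L j) (by
    intro x hx y hy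
    simp only [hI, mem_image, mem_range] at hx
    simp only [hJ, mem_image, mem_range] at hy
    obtain ⟨i, hi, rfl⟩ := hx
    obtain ⟨k, hk, rfl⟩ := hy
    have e1 : p + (i : ZMod (2 ^ L)) - (p + (e : ZMod (2 ^ L)) + (k : ZMod (2 ^ L)))
        = (i : ZMod (2 ^ L)) - ((e + k : ℕ) : ZMod (2 ^ L)) := by push_cast; ring
    rw [e1]
    rcases le_total (e + k) i with h1 | h1
    · rw [← Nat.cast_sub h1]
      refine lt_of_le_of_lt (nrm_natCast _) ?_
      have : i - (e + k) < ell L j := by omega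
      exact_mod_cast this
    · rw [nrm_sub_comm, ← Nat.cast_sub h1]
      refine lt_of_le_of_lt (nrm_natCast _) ?_
      have : (e + k) - i < ell L j := by omega
      exact_mod_cast this)
  rw [cI, cJ, hI, hJ, sum_image (range_inj (ell_le L j) p), sum_image (range_inj (ell_le L s) _),
    mul_div_assoc, hrat] at hd
  exact hd

/-- evaluation lemma -/
lemma A1.ev_gen (h : A1 σ A) (hq0 : 0 ≤ q) (hq : q ≤ 5/4) {s j : ℕ} (hjs : j ≤ s) (hs : s ≤ L)
    {H : ZMod (2 ^ L) → ℝ} (hH0 : ∀ x, 0 ≤ H x)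
    (hslow : ∀ x a, nrm a ≤ ell L s → H (x + a) ≤ 4 * H x)
    (c : ZMod (2 ^ L)) {e : ℕ} (he : e + ell L s ≤ ell L j)
    (hn : ∀ k < ell L s, nrm (c + (e : ZMod (2 ^ L)) + (k : ZMod (2 ^ L))) ≤ ell L s) :
    ∑ ω, ∑ x, σ (x + ω) ^ (-q) * (H (st L j x - c + ω)) ^ 2
      ≤ 2 ^ L * (64 * A ^ 2 * ((2:ℝ) ^ q) ^ (s - j) * ∑ x, σ x ^ (-q) * H x ^ 2) := by
  have hA := h.one
  have hs0 : (0:ℝ) < ell L s := by exact_mod_cast ell_pos L s
  have hj0 : (0:ℝ) < ell L j := by exact_mod_cast ell_pos L j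
  have hrat : (ell L j : ℝ) = 2 ^ (s - j) * ell L s := by
    rw [ell_mul hjs hs]; push_cast; ring
  set v : ZMod (2 ^ L) → ℝ := fun y => σ y ^ (-q) with hv
  have hv0 : ∀ x, 0 < v x := fun x => Real.rpow_pos_of_pos (h.pos x) _
  set F : ZMod (2 ^ L) → ℝ := fun x => ∑ ω, v (x + ω) * (H (st L j x - c + ω)) ^ 2 with hF
  have e0 : ∑ ω, ∑ x, v (x + ω) * (H (st L j x - c + ω)) ^ 2 = ∑ x, F x := sum_comm
  have hst : ∀ x : ZMod (2 ^ L), ∀ i < ell L j, st L j (st L j x + (i : ZMod (2 ^ L))) = st L j x := by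
    intro x i hi
    have h1 := st_add_val L j x hi
    unfold st at h1 ⊢
    rw [h1]
    congr 2
    rw [mul_comm (x.val / ell L j), Nat.mul_add_div (ell_pos L j), Nat.div_eq_of_lt hi, add_zero]
  have e1 : ∀ x, (dy L).E j F x = (ell L j : ℝ)⁻¹ *
      ∑ p, (∑ i ∈ range (ell L j), v (p + c + (i : ZMod (2 ^ L)))) * H p ^ 2 := by
    intro x
    rw [dyE, smul_eq_mul]
    congr 1
    simp only [sum_mul]
    rw [sum_comm (s := univ)]
    refine sum_congr rfl fun i hi => ?_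
    rw [mem_range] at hi
    simp only [hF]
    rw [hst x i hi, ← Equiv.sum_comp (Equiv.addLeft (st L j x - c))
      (fun p => v (p + c + (i : ZMod (2 ^ L))) * H p ^ 2)]
    refine sum_congr rfl fun ω _ => ?_
    simp only [Equiv.coe_addLeft]
    congr 2
    ring
  have e2 : ∑ x, F x = 2 ^ L * ((ell L j : ℝ)⁻¹ *
      ∑ p, (∑ i ∈ range (ell L j), v (p + c + (i : ZMod (2 ^ L)))) * H p ^ 2) := by
    rw [← sum_E (D := dy L) j F, sum_congr rfl fun x _ => e1 x, sum_const, card_univ, ZMod.card,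
      nsmul_eq_mul]
    push_cast
    rfl
  rw [e0, e2]
  refine mul_le_mul_of_nonneg_left ?_ (by positivity)
  have b1 : ∀ p, (∑ i ∈ range (ell L j), v (p + c + (i : ZMod (2 ^ L)))) * H p ^ 2
      ≤ 2 ^ (s - j) * (2 * A * 2 ^ (s - j)) ^ q * (16 * ∑ k ∈ range (ell L s),
          v (p + (c + (e : ZMod (2 ^ L)) + (k : ZMod (2 ^ L))))
            * H (p + (c + (e : ZMod (2 ^ L)) + (k : ZMod (2 ^ L)))) ^ 2) := by
    intro p
    have h1 := h.dbl_int hq0 hjs hs (p + c) he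
    have h2 := mul_le_mul_of_nonneg_right h1 (sq_nonneg (H p))
    refine h2.trans ?_
    rw [mul_assoc]
    refine mul_le_mul_of_nonneg_left ?_ (by positivity)
    rw [sum_mul, mul_sum]
    refine sum_le_sum fun k hk => ?_
    rw [mem_range] at hk
    have e3 : p + c + (e : ZMod (2 ^ L)) + (k : ZMod (2 ^ L))
        = p + (c + (e : ZMod (2 ^ L)) + (k : ZMod (2 ^ L))) := by ring
    rw [e3]
    set a := c + (e : ZMod (2 ^ L)) + (k : ZMod (2 ^ L)) with ha
    have h3 : H p ≤ 4 * H (p + a) := by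
      have := hslow (p + a) (-a) (by rw [nrm_neg]; exact hn k hk)
      rwa [add_neg_cancel_right] at this
    have h4 : H p ^ 2 ≤ 16 * H (p + a) ^ 2 := by
      have := pow_le_pow_left₀ (hH0 p) h3 2
      nlinarith
    have := mul_le_mul_of_nonneg_left h4 (hv0 (p + a)).le
    change v (p + a) * H p ^ 2 ≤ _
    linarith
  have b2 : ∑ p, ∑ k ∈ range (ell L s),
          v (p + (c + (e : ZMod (2 ^ L)) + (k : ZMod (2 ^ L))))
            * H (p + (c + (e : ZMod (2 ^ L)) + (k : ZMod (2 ^ L)))) ^ 2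
      = ell L s * ∑ x, v x * H x ^ 2 := by
    rw [sum_comm]
    have : ∀ k ∈ range (ell L s), ∑ p, v (p + (c + (e : ZMod (2 ^ L)) + (k : ZMod (2 ^ L))))
            * H (p + (c + (e : ZMod (2 ^ L)) + (k : ZMod (2 ^ L)))) ^ 2
        = ∑ x, v x * H x ^ 2 := fun k _ =>
      Equiv.sum_comp (Equiv.addRight (c + (e : ZMod (2 ^ L)) + (k : ZMod (2 ^ L))))
        (fun x => v x * H x ^ 2)
    rw [sum_congr rfl this, sum_const, card_range, nsmul_eq_mul]
  have b3 := sum_le_sum fun p (_ : p ∈ (univ : Finset (ZMod (2 ^ L)))) => b1 p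
  rw [← mul_sum, ← mul_sum, b2] at b3
  have b4 := mul_le_mul_of_nonneg_left b3 (by positivity : 0 ≤ (ell L j : ℝ)⁻¹)
  refine b4.trans ?_
  have S0 : 0 ≤ ∑ x, v x * H x ^ 2 := sum_nonneg fun x _ => mul_nonneg (hv0 x).le (sq_nonneg _)
  have e5 : (2 * A * 2 ^ (s - j)) ^ q ≤ 4 * A ^ 2 * ((2:ℝ) ^ q) ^ (s - j) := by
    rw [Real.mul_rpow (by positivity) (by positivity), pow_rpow_comm]
    refine mul_le_mul_of_nonneg_right ?_ (by positivity)
    exact (rpow_le_sq (by linarith) hq).trans (le_of_eq (by ring))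
  calc (ell L j : ℝ)⁻¹ * (2 ^ (s - j) * (2 * A * 2 ^ (s - j)) ^ q
        * (16 * (ell L s * ∑ x, v x * H x ^ 2)))
      = 16 * (2 * A * 2 ^ (s - j)) ^ q * ∑ x, v x * H x ^ 2 := by
        rw [hrat]; field_simp
    _ ≤ 16 * (4 * A ^ 2 * ((2:ℝ) ^ q) ^ (s - j)) * ∑ x, v x * H x ^ 2 := by
        refine mul_le_mul_of_nonneg_right ?_ S0
        exact mul_le_mul_of_nonneg_left e5 (by norm_num)
    _ = _ := by ring

/-- evaluation at the left endpoint -/
lemma A1.ev_left (h : A1 σ A) (hq0 : 0 ≤ q) (hq : q ≤ 5/4) {s j : ℕ} (hjs : j ≤ s) (hs : s ≤ L)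
    {H : ZMod (2 ^ L) → ℝ} (hH0 : ∀ x, 0 ≤ H x)
    (hslow : ∀ x a, nrm a ≤ ell L s → H (x + a) ≤ 4 * H x) :
    ∑ ω, ∑ x, σ (x + ω) ^ (-q) * (H (st L j x + ω)) ^ 2
      ≤ 2 ^ L * (64 * A ^ 2 * ((2:ℝ) ^ q) ^ (s - j) * ∑ x, σ x ^ (-q) * H x ^ 2) := by
  have := h.ev_gen hq0 hq hjs hs hH0 hslow 0 (e := 0) (by simpa using ell_anti hjs) (by
    intro k hk
    simp only [Nat.cast_zero, add_zero, zero_add]
    refine (nrm_natCast k).trans ?_
    exact_mod_cast hk.le)
  simpa using this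

/-- evaluation at the right endpoint -/
lemma A1.ev_right (h : A1 σ A) (hq0 : 0 ≤ q) (hq : q ≤ 5/4) {s j : ℕ} (hjs : j ≤ s) (hs : s ≤ L)
    {H : ZMod (2 ^ L) → ℝ} (hH0 : ∀ x, 0 ≤ H x)
    (hslow : ∀ x a, nrm a ≤ ell L s → H (x + a) ≤ 4 * H x) :
    ∑ ω, ∑ x, σ (x + ω) ^ (-q) * (H (st L j x + (ell L j : ZMod (2 ^ L)) + ω)) ^ 2
      ≤ 2 ^ L * (64 * A ^ 2 * ((2:ℝ) ^ q) ^ (s - j) * ∑ x, σ x ^ (-q) * H x ^ 2) := by
  have hls : ell L s ≤ ell L j := ell_anti hjs
  have := h.ev_gen hq0 hq hjs hs hH0 hslow (-(ell L j : ZMod (2 ^ L))) (e := ell L j - ell L s)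
    (by omega) (by
    intro k hk
    have e1 : -(ell L j : ZMod (2 ^ L)) + ((ell L j - ell L s : ℕ) : ZMod (2 ^ L))
        + (k : ZMod (2 ^ L)) = -(((ell L s - k : ℕ)) : ZMod (2 ^ L)) := by
      rw [Nat.cast_sub hls, Nat.cast_sub hk.le]; ring
    rw [e1, nrm_neg]
    refine (nrm_natCast _).trans ?_
    exact_mod_cast Nat.sub_le _ _)
  simpa using this

end conc

end HC

end
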