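import Pool.Agent.Helper61.HC.Extract

section
/-!
The main dyadic inequality: the double differences below the hyperbolic level are controlled by
the weight and by the double differences above that level.
-/

open Finset

namespace HC

open Dy

/-- the constant of the dyadic theorem -/
noncomputable def CE (A q : ℝ) : ℝ :=
  32 * (A ^ q) ^ 2 * ((2:ℝ) ^ (q - 1)) ^ 2 * (1 - (2:ℝ) ^ (-(q-1)/2))⁻¹
    * ((1 - (2:ℝ) ^ (-(q-1)/2))⁻¹) ^ 2
    * (2 * (2 ^ q * A ^ q) * ((20 * (2 * 4 ^ q * (1 + (A ^ q) ^ 2)) ^ 2 * (A ^ q) ^ 2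
      * (2 ^ q * A ^ q)) + (128 * (2 ^ q * A ^ q)) * (128 * A ^ q)) + 4 * (2 ^ q * A ^ q))

variable {X Y : Type} [Fintype X] [Fintype Y] {D : Dy X} {D' : Dy Y}

/-- weight for low frequencies -/
noncomputable def wt (q : ℝ) (I : ℕ) : ℝ := (((2:ℝ) ^ (q - 1))⁻¹) ^ (2 * I)

namespace WS
variable {σ f : X → Y → ℝ} {A q : ℝ} (h : WS D D' σ f A q)
include h

lemma CE_nonneg (hq1 : 1 < q) : 0 ≤ CE A q := by
  have a0 : 0 < A ^ q := by linarith [h.one_le_a]
  have w1 : (2:ℝ) ^ (-(q-1)/2) < 1 := Real.rpow_lt_one_of_one_lt_of_neg (by norm_num) (by linarith)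
  have w2 : 0 < 1 - (2:ℝ) ^ (-(q-1)/2) := by linarith
  unfold CE
  positivity

theorem low_le (hq1 : 1 < q) (hq : q ≤ 5/4) {K : ℕ} (hK : ∀ (g : X → ℝ) x, D.E K g x = g x)
    (hK' : ∀ (g : Y → ℝ) y, D'.E K g y = g y) (M : ℕ) (hMK : M ≤ K) :
    ∑ i ∈ range K, ∑ l ∈ range K, (if i + l < M then
        wt q (M - 1 - i - l) * Dsq D D' σ f q i l else 0)
      ≤ CE A q * (∑ x, ∑ y, σ x y ^ q + Hi D D' σ f q M K) := by
  set a := A ^ q with ha
  have a1 : 1 ≤ a := h.one_le_a
  have a0 : 0 < a := by linarith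
  set w : ℝ := (2:ℝ) ^ (-(q-1)/2) with hw
  have w0 : 0 < w := by positivity
  have w1 : w < 1 := Real.rpow_lt_one_of_one_lt_of_neg (by norm_num) (by linarith)
  set R : ℝ := (2:ℝ) ^ (q - 1) with hR
  have R0 : 0 < R := by positivity
  have hwR : w ^ 2 * R = 1 := by
    rw [hw, hR, ← Real.rpow_natCast, ← Real.rpow_mul (by norm_num), ← Real.rpow_add (by norm_num)]
    norm_num
  set Ψ : ℕ → ℝ := fun k => ∑ x, ∑ y, σ x y ^ (-q)
    * (psi D D' (fun x y => σ x y ^ (-q)) f M k x y) ^ 2 with hΨ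
  set QQ : ℕ → ℝ := fun l => ∑ x, ∑ y, σ x y ^ (-q)
    * (Qk D D' (fun x y => σ x y ^ (-q)) f M l x y) ^ 2 with hQQ
  have Ψ0 : ∀ k, 0 ≤ Ψ k := fun k => sum_nonneg fun x _ => sum_nonneg fun y _ =>
    mul_nonneg (h.vpos x y).le (sq_nonneg _)
  have QQ0 : ∀ k, 0 ≤ QQ k := fun k => sum_nonneg fun x _ => sum_nonneg fun y _ =>
    mul_nonneg (h.vpos x y).le (sq_nonneg _)
  set g := (1 - w)⁻¹ with hg
  have g0 : 0 < g := inv_pos.2 (by linarith)
  set B := 32 * a ^ 2 * R ^ 2 * g with hB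
  have B0 : 0 ≤ B := by positivity
  -- termwise bound
  have t1 : ∀ i l, i + l < M → wt q (M - 1 - i - l) * Dsq D D' σ f q i l
      ≤ B * (w ^ (M - 1 - i - l) * (∑ k ∈ Ico l (M - i), Ψ k + QQ l)) := by
    intro i l hil
    have c1 := h.Dsq_low hil
    set I := M - 1 - i - l with hI
    have c2 : wt q I * R ^ (I + 2) = R ^ 2 * w ^ (2 * I) := by
      unfold wt
      have e1 : R⁻¹ = w ^ 2 := by field_simp; linarith
      rw [← hR, e1, pow_add]
      have e2 : (w ^ 2) ^ (2 * I) * R ^ I = w ^ (2 * I) := by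
        rw [← pow_mul, show 2 * (2 * I) = 2 * I + 2 * I by ring, pow_add, mul_assoc,
          pow_mul w 2 I, ← mul_pow, hwR, one_pow, mul_one]
      calc _ = ((w ^ 2) ^ (2 * I) * R ^ I) * R ^ 2 := by ring
        _ = _ := by rw [e2]; ring
    have c3 : ((I:ℝ) + 1) * w ^ I ≤ g := succ_mul_pow_le w0.le w1 I
    have wt0 : 0 ≤ wt q I := by unfold wt; positivity
    set S := ∑ k ∈ Ico l (M - i), Ψ k + QQ l with hS
    have S0 : 0 ≤ S := add_nonneg (sum_nonneg fun k _ => Ψ0 k) (QQ0 l)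
    calc wt q I * Dsq D D' σ f q i l
        ≤ wt q I * (32 * a ^ 2 * ((I:ℝ) + 1) * R ^ (I + 2) * S) :=
          mul_le_mul_of_nonneg_left c1 wt0
      _ = 32 * a ^ 2 * ((I:ℝ) + 1) * (wt q I * R ^ (I + 2)) * S := by ring
      _ = 32 * a ^ 2 * R ^ 2 * (((I:ℝ) + 1) * w ^ I) * (w ^ I * S) := by
          rw [c2, two_mul, pow_add]; ring
      _ ≤ 32 * a ^ 2 * R ^ 2 * g * (w ^ I * S) := by
          refine mul_le_mul_of_nonneg_right (mul_le_mul_of_nonneg_left c3 (by positivity)) ?_
          positivity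
  have t2 : ∑ i ∈ range K, ∑ l ∈ range K, (if i + l < M then
        wt q (M - 1 - i - l) * Dsq D D' σ f q i l else 0)
      ≤ B * (∑ i ∈ range K, ∑ l ∈ range K, (if i + l < M then
        w ^ (M - 1 - i - l) * ∑ k ∈ Ico l (M - i), Ψ k else 0)
        + ∑ i ∈ range K, ∑ l ∈ range K, (if i + l < M then
        w ^ (M - 1 - i - l) * QQ l else 0)) := by
    rw [← sum_add_distrib, mul_sum]
    refine sum_le_sum fun i _ => ?_
    rw [← sum_add_distrib, mul_sum]
    refine sum_le_sum fun l _ => ?_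
    split_ifs with c
    · rw [← mul_add]; exact t1 i l c
    · simp
  -- first sum
  have t3 : ∑ i ∈ range K, ∑ l ∈ range K, (if i + l < M then
        w ^ (M - 1 - i - l) * ∑ k ∈ Ico l (M - i), Ψ k else 0)
      ≤ g ^ 2 * ∑ k ∈ range M, Ψ k := by
    have e1 : ∀ i l, (if i + l < M then
        w ^ (M - 1 - i - l) * ∑ k ∈ Ico l (M - i), Ψ k else 0)
        = ∑ k ∈ range M, Ψ k * ((if k + i < M then w ^ (M - 1 - k - i) else 0)
          * (if l ≤ k then w ^ (k - l) else 0)) := by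
      intro i l
      split_ifs with c
      · have f1 : Ico l (M - i) = (range M).filter fun k => k + i < M ∧ l ≤ k := by
          ext k; simp only [mem_Ico, mem_filter, mem_range]; omega
        rw [f1, mul_sum, sum_filter]
        refine sum_congr rfl fun k _ => ?_
        by_cases c1 : k + i < M
        · by_cases c2 : l ≤ k
          · rw [if_pos ⟨c1, c2⟩, if_pos c1, if_pos c2, ← pow_add]
            have : M - 1 - k - i + (k - l) = M - 1 - i - l := by omega
            rw [this]; ring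
          · rw [if_neg (fun hh => c2 hh.2), if_neg c2]; ring
        · rw [if_neg (fun hh => c1 hh.1), if_neg c1]; ring
      · symm
        refine sum_eq_zero fun k _ => ?_
        by_cases c1 : k + i < M
        · have c2 : ¬ l ≤ k := by omega
          rw [if_neg c2]; ring
        · rw [if_neg c1]; ring
    simp only [e1]
    have e2 : ∑ i ∈ range K, ∑ l ∈ range K, ∑ k ∈ range M,
        Ψ k * ((if k + i < M then w ^ (M - 1 - k - i) else 0)
          * (if l ≤ k then w ^ (k - l) else 0))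
        = ∑ k ∈ range M, Ψ k * ((∑ i ∈ range K, if k + i < M then w ^ (M - 1 - k - i) else 0)
          * ∑ l ∈ range K, if l ≤ k then w ^ (k - l) else 0) := by
      calc _ = ∑ i ∈ range K, ∑ k ∈ range M, ∑ l ∈ range K,
            Ψ k * ((if k + i < M then w ^ (M - 1 - k - i) else 0)
          * (if l ≤ k then w ^ (k - l) else 0)) := sum_congr rfl fun i _ => sum_comm
        _ = ∑ k ∈ range M, ∑ i ∈ range K, ∑ l ∈ range K,
            Ψ k * ((if k + i < M then w ^ (M - 1 - k - i) else 0)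
          * (if l ≤ k then w ^ (k - l) else 0)) := sum_comm
        _ = _ := by
            refine sum_congr rfl fun k _ => ?_
            rw [sum_mul_sum, mul_sum]
            exact sum_congr rfl fun i _ => by rw [mul_sum]
    rw [e2, mul_sum]
    refine sum_le_sum fun k hk => ?_
    rw [mem_range] at hk
    have f1 : ∑ i ∈ range K, (if k + i < M then w ^ (M - 1 - k - i) else 0) ≤ g := by
      rw [← sum_filter]
      exact geom_inj_le w0.le w1 _ (fun i => M - 1 - k - i) (fun i hi j hj hij => by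
        simp only [mem_filter, mem_range] at hi hj
        have hij' : M - 1 - k - i = M - 1 - k - j := hij
        omega)
    have f2 : ∑ l ∈ range K, (if l ≤ k then w ^ (k - l) else 0) ≤ g := by
      rw [← sum_filter]
      exact geom_inj_le w0.le w1 _ (fun l => k - l) (fun i hi j hj hij => by
        simp only [mem_filter, mem_range] at hi hj
        have hij' : k - i = k - j := hij
        omega)
    have f3 : 0 ≤ ∑ l ∈ range K, (if l ≤ k then w ^ (k - l) else 0) :=
      sum_nonneg fun l _ => by split_ifs <;> positivity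
    have := mul_le_mul f1 f2 f3 g0.le
    calc _ ≤ Ψ k * (g * g) := mul_le_mul_of_nonneg_left this (Ψ0 k)
      _ = _ := by ring
  -- second sum
  have t4 : ∑ i ∈ range K, ∑ l ∈ range K, (if i + l < M then
        w ^ (M - 1 - i - l) * QQ l else 0) ≤ g * ∑ l ∈ range M, QQ l := by
    rw [sum_comm]
    have e1 : ∀ l ∈ range K, ∑ i ∈ range K, (if i + l < M then
        w ^ (M - 1 - i - l) * QQ l else 0) ≤ if l < M then g * QQ l else 0 := by
      intro l _
      split_ifs with c
      · rw [← sum_filter, ← sum_mul]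
        refine mul_le_mul_of_nonneg_right ?_ (QQ0 l)
        exact geom_inj_le w0.le w1 _ (fun i => M - 1 - i - l) (fun i hi j hj hij => by
          simp only [mem_filter, mem_range] at hi hj
          have hij' : M - 1 - i - l = M - 1 - j - l := hij
          omega)
      · refine le_of_eq (sum_eq_zero fun i _ => ?_)
        rw [if_neg (by omega)]
    refine (sum_le_sum e1).trans ?_
    rw [← sum_filter, mul_sum]
    refine sum_le_sum_of_subset_of_nonneg ?_ fun l _ _ => mul_nonneg g0.le (QQ0 l)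
    intro l hl
    simp only [mem_filter, mem_range] at hl ⊢
    exact hl.2
  -- the norms
  set c := 2 ^ q * A ^ q with hc
  have c0 : 0 < c := by positivity
  set S := ∑ x, ∑ y, σ x y ^ q with hS
  set H := Hi D D' σ f q M K with hH
  have S0 : 0 ≤ S := sum_nonneg fun x _ => sum_nonneg fun y _ => Real.rpow_nonneg (h.hσ x y).le _
  have H0 : 0 ≤ H := h.Hi_nonneg M K
  set C1 := (20 * (2 * 4 ^ q * (1 + (A ^ q) ^ 2)) ^ 2 * (A ^ q) ^ 2 * (2 ^ q * A ^ q)) with hC1
  have C10 : 0 ≤ C1 := by positivity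
  have u1 : ∑ k ∈ range M, Ψ k ≤ 2 * c * (C1 * S + (128 * c) * ((128 * a) * H)) := by
    refine (sum_le_sum fun k _ => h.psi_norm M k).trans ?_
    rw [← mul_sum]
    refine mul_le_mul_of_nonneg_left ?_ (by positivity)
    refine (h.sum_chi_le M).trans ?_
    have := mul_le_mul_of_nonneg_left (h.sum_Hk_le hq hK hK' M) (by positivity : 0 ≤ 128 * c)
    linarith
  have u2 : ∑ l ∈ range M, QQ l ≤ 2 * c * (2 * H) := by
    refine (sum_le_sum fun k _ => h.Qk_norm M k).trans ?_
    rw [← mul_sum]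
    refine mul_le_mul_of_nonneg_left ?_ (by positivity)
    exact h.sum_hp_le hK M hMK
  refine t2.trans ?_
  have g1 : 1 ≤ g := by
    rw [hg]; exact (one_le_inv₀ (by linarith)).2 (by linarith)
  have fin : CE A q = B * (g ^ 2 * (2 * c * (C1 + (128 * c) * (128 * a)) + 4 * c)) := by
    unfold CE
    rw [hB, hC1, hg, hc, ha]
    ring
  rw [fin, mul_assoc B]
  refine mul_le_mul_of_nonneg_left ?_ B0
  have v1 := mul_le_mul_of_nonneg_left u1 (by positivity : 0 ≤ g ^ 2)
  have v2 := mul_le_mul_of_nonneg_left u2 (by positivity : 0 ≤ g)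
  have v3 : g * (2 * c * (2 * H)) ≤ g ^ 2 * (2 * c * (2 * H)) := by
    refine mul_le_mul_of_nonneg_right ?_ (by positivity)
    nlinarith
  have v4 : g ^ 2 * (2 * c * (C1 * S + 128 * c * (128 * a * H))) + g ^ 2 * (2 * c * (2 * H))
      ≤ g ^ 2 * (2 * c * (C1 + 128 * c * (128 * a)) + 4 * c) * (S + H) := by
    have : g ^ 2 * (2 * c * (C1 + 128 * c * (128 * a)) + 4 * c) * (S + H)
      - (g ^ 2 * (2 * c * (C1 * S + 128 * c * (128 * a * H))) + g ^ 2 * (2 * c * (2 * H)))
      = g ^ 2 * (2 * c * (C1 * H + 128 * c * (128 * a) * S) + 4 * c * S) := by ring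
    have : 0 ≤ g ^ 2 * (2 * c * (C1 * H + 128 * c * (128 * a) * S) + 4 * c * S) := by positivity
    linarith
  linarith

end WS

end HC

end

section
/-!
The concrete dyadic filtration on `ZMod (2^L)`.
-/

open Finset

namespace HC

open Dy

/-- length of the cells of level `j` -/
def ell (L j : ℕ) : ℕ := 2 ^ (L - j)

lemma ell_pos (L j : ℕ) : 0 < ell L j := by unfold ell; positivity

lemma ell_dvd (L j : ℕ) : ell L j ∣ 2 ^ L := pow_dvd_pow 2 (Nat.sub_le L j)

lemma ell_le (L j : ℕ) : ell L j ≤ 2 ^ L := Nat.le_of_dvd (by positivity) (ell_dvd L j)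

lemma ell_anti {L i j : ℕ} (h : i ≤ j) : ell L j ≤ ell L i :=
  Nat.pow_le_pow_right (by norm_num) (by omega)

lemma ell_succ_dvd (L j : ℕ) : ell L (j + 1) ∣ ell L j := pow_dvd_pow 2 (by omega)

lemma ell_mul {L i j : ℕ} (h : i ≤ j) (hj : j ≤ L) : ell L i = 2 ^ (j - i) * ell L j := by
  unfold ell
  rw [← pow_add]
  congr 1
  omega

lemma ell_top {L j : ℕ} (h : L ≤ j) : ell L j = 1 := by
  unfold ell
  rw [Nat.sub_eq_zero_of_le h, pow_zero]

lemma ell_half (L j : ℕ) : ell L j ≤ 2 * ell L (j + 1) := by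
  unfold ell
  rw [← pow_succ']
  exact Nat.pow_le_pow_right (by norm_num) (by omega)

lemma ell_mul_two_pow {L s : ℕ} (h : s ≤ L) : ell L s * 2 ^ s = 2 ^ L := by
  unfold ell
  rw [← pow_add]; congr 1; omega

/-- start of the level `j` cell of `x` -/
def st (L j : ℕ) (x : ZMod (2 ^ L)) : ZMod (2 ^ L) := ((x.val / ell L j * ell L j : ℕ) : ZMod (2 ^ L))

lemma cell_bound (L j : ℕ) (x : ZMod (2 ^ L)) {i : ℕ} (hi : i < ell L j) :
    x.val / ell L j * ell L j + i < 2 ^ L := by
  have h1 : x.val / ell L j < 2 ^ L / ell L j := by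
    rw [Nat.div_lt_iff_lt_mul (ell_pos L j), Nat.div_mul_cancel (ell_dvd L j)]
    exact ZMod.val_lt x
  have h2 : (x.val / ell L j + 1) * ell L j ≤ 2 ^ L / ell L j * ell L j :=
    Nat.mul_le_mul_right _ h1
  rw [Nat.div_mul_cancel (ell_dvd L j)] at h2
  nlinarith

lemma st_add_val (L j : ℕ) (x : ZMod (2 ^ L)) {i : ℕ} (hi : i < ell L j) :
    (st L j x + (i : ZMod (2 ^ L))).val = x.val / ell L j * ell L j + i := by
  unfold st
  rw [← Nat.cast_add, ZMod.val_natCast_of_lt (cell_bound L j x hi)]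

lemma st_add_mod (L j : ℕ) (x : ZMod (2 ^ L)) :
    st L j x + ((x.val % ell L j : ℕ) : ZMod (2 ^ L)) = x := by
  unfold st
  rw [← Nat.cast_add, Nat.div_add_mod' x.val (ell L j), ZMod.natCast_zmod_val]

lemma cell_eq (L j : ℕ) (x : ZMod (2 ^ L)) :
    univ.filter (fun y : ZMod (2 ^ L) => y.val / ell L j = x.val / ell L j)
      = (range (ell L j)).image (fun i : ℕ => st L j x + (i : ZMod (2 ^ L))) := by
  ext y
  simp only [mem_filter, mem_univ, true_and, mem_image, mem_range]
  constructor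
  · intro h
    refine ⟨y.val % ell L j, Nat.mod_lt _ (ell_pos L j), ?_⟩
    have : st L j x = st L j y := by unfold st; rw [h]
    rw [this, st_add_mod]
  · rintro ⟨i, hi, rfl⟩
    rw [st_add_val L j x hi, mul_comm, Nat.mul_add_div (ell_pos L j), Nat.div_eq_of_lt hi, add_zero]

lemma cell_inj (L j : ℕ) (x : ZMod (2 ^ L)) :
    Set.InjOn (fun i : ℕ => st L j x + (i : ZMod (2 ^ L))) (range (ell L j) : Set ℕ) := by
  intro i hi i' hi' h
  simp only [coe_range, Set.mem_Iio] at hi hi'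
  have h1 := congrArg ZMod.val h
  simp only [st_add_val L j x hi, st_add_val L j x hi'] at h1
  omega

/-- the dyadic filtration on `ZMod (2^L)` -/
def dy (L : ℕ) : Dy (ZMod (2 ^ L)) where
  c j x := x.val / ell L j
  n j := ell L j
  npos j := ell_pos L j
  nest j x y h := by
    obtain ⟨k, hk⟩ := ell_succ_dvd L j
    rw [hk, ← Nat.div_div_eq_div_mul, ← Nat.div_div_eq_div_mul, h]
  card j x := by
    rw [cell_eq, card_image_of_injOn (cell_inj L j x), card_range]
  half j := ell_half L j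

lemma dyE {F : Type*} [AddCommGroup F] [Module ℝ F] (L j : ℕ) (g : ZMod (2 ^ L) → F)
    (x : ZMod (2 ^ L)) :
    (dy L).E j g x = ((ell L j : ℝ))⁻¹ • ∑ i ∈ range (ell L j), g (st L j x + (i : ZMod (2 ^ L))) := by
  unfold Dy.E
  have : (dy L).n j = ell L j := rfl
  rw [this]
  congr 1
  change ∑ y ∈ univ.filter (fun y : ZMod (2 ^ L) => y.val / ell L j = x.val / ell L j), g y = _
  rw [cell_eq, sum_image (cell_inj L j x)]

lemma dyE_top {F : Type*} [AddCommGroup F] [Module ℝ F] {L j : ℕ} (h : L ≤ j)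
    (g : ZMod (2 ^ L) → F) (x : ZMod (2 ^ L)) : (dy L).E j g x = g x := by
  rw [dyE, ell_top h]
  simp only [Nat.cast_one, inv_one, one_smul, range_one, sum_singleton, Nat.cast_zero, add_zero]
  congr 1
  have := st_add_mod L j x
  rw [ell_top h, Nat.mod_one, Nat.cast_zero, add_zero] at this
  exact this

/-- `A_1` condition for one-sided averages on `ZMod N` -/
structure A1 {N : ℕ} [NeZero N] (σ : ZMod N → ℝ) (A : ℝ) : Prop where
  pos : ∀ x, 0 < σ x
  one : 1 ≤ A
  fwd : ∀ x (l : ℕ), 1 ≤ l → ∑ t ∈ range l, σ (x + (t : ZMod N)) ≤ A * l * σ x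
  bwd : ∀ x (l : ℕ), 1 ≤ l → ∑ t ∈ range l, σ (x - (t : ZMod N)) ≤ A * l * σ x

/-- the cell is contained in the two one-sided windows -/
lemma cell_sum_le {L j : ℕ} {σ : ZMod (2 ^ L) → ℝ} (hσ : ∀ x, 0 ≤ σ x) (x : ZMod (2 ^ L)) :
    ∑ i ∈ range (ell L j), σ (st L j x + (i : ZMod (2 ^ L)))
      ≤ ∑ t ∈ range (ell L j), σ (x + (t : ZMod (2 ^ L)))
        + ∑ t ∈ range (ell L j), σ (x - (t : ZMod (2 ^ L))) := by
  set r := x.val % ell L j with hr
  have hrl : r < ell L j := Nat.mod_lt _ (ell_pos L j)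
  have hx : st L j x + (r : ZMod (2 ^ L)) = x := st_add_mod L j x
  have hs : st L j x = x - (r : ZMod (2 ^ L)) := eq_sub_of_add_eq hx
  have e1 : ∑ i ∈ range (ell L j), σ (st L j x + (i : ZMod (2 ^ L)))
      = ∑ i ∈ (range (ell L j)).filter (fun i => r ≤ i), σ (st L j x + (i : ZMod (2 ^ L)))
        + ∑ i ∈ (range (ell L j)).filter (fun i => ¬ r ≤ i), σ (st L j x + (i : ZMod (2 ^ L))) :=
    (sum_filter_add_sum_filter_not _ _ _).symm
  rw [e1]
  refine add_le_add ?_ ?_
  · have e2 : ∑ i ∈ (range (ell L j)).filter (fun i => r ≤ i), σ (st L j x + (i : ZMod (2 ^ L)))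
        = ∑ t ∈ ((range (ell L j)).filter (fun i => r ≤ i)).image (fun i => i - r),
          σ (x + (t : ZMod (2 ^ L))) := by
      rw [sum_image]
      · refine sum_congr rfl fun i hi => ?_
        simp only [mem_filter, mem_range] at hi
        rw [Nat.cast_sub hi.2, hs]
        congr 1
        ring
      · intro i hi i' hi' h
        simp only [coe_filter, mem_range, Set.mem_ofPred_eq] at hi hi'
        simp only at h
        omega
    rw [e2]
    refine sum_le_sum_of_subset_of_nonneg ?_ fun t _ _ => hσ _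
    intro t ht
    simp only [mem_image, mem_filter, mem_range] at ht ⊢
    obtain ⟨i, hi, rfl⟩ := ht
    omega
  · have e2 : ∑ i ∈ (range (ell L j)).filter (fun i => ¬ r ≤ i), σ (st L j x + (i : ZMod (2 ^ L)))
        = ∑ t ∈ ((range (ell L j)).filter (fun i => ¬ r ≤ i)).image (fun i => r - i),
          σ (x - (t : ZMod (2 ^ L))) := by
      rw [sum_image]
      · refine sum_congr rfl fun i hi => ?_
        simp only [mem_filter, mem_range] at hi
        rw [Nat.cast_sub (by omega), hs]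
        congr 1
        ring
      · intro i hi i' hi' h
        simp only [coe_filter, mem_range, Set.mem_ofPred_eq] at hi hi'
        simp only at h
        omega
    rw [e2]
    refine sum_le_sum_of_subset_of_nonneg ?_ fun t _ _ => hσ _
    intro t ht
    simp only [mem_image, mem_filter, mem_range] at ht ⊢
    obtain ⟨i, hi, rfl⟩ := ht
    omega

lemma A1.dyadic {L : ℕ} {σ : ZMod (2 ^ L) → ℝ} {A : ℝ} (h : A1 σ A) (j : ℕ) (x : ZMod (2 ^ L)) :
    (dy L).E j σ x ≤ (2 * A) * σ x := by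
  rw [dyE, smul_eq_mul]
  have h1 := cell_sum_le (j := j) (fun x => (h.pos x).le) x
  have h2 := h.fwd x (ell L j) (ell_pos L j)
  have h3 := h.bwd x (ell L j) (ell_pos L j)
  have h4 : (0:ℝ) < ell L j := by exact_mod_cast ell_pos L j
  rw [inv_mul_le_iff₀ h4]
  linarith

/-- shift in the reference point -/
lemma A1.window {N : ℕ} [NeZero N] {σ : ZMod N → ℝ} {A : ℝ} (h : A1 σ A) (x : ZMod N) (a l : ℕ)
    (hl : 1 ≤ l) : ∑ t ∈ range l, σ (x + (a : ZMod N) + (t : ZMod N)) ≤ A * (a + l) * σ x := by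
  have h1 := h.fwd x (a + l) (by omega)
  rw [Finset.sum_range_add] at h1
  have h2 : 0 ≤ ∑ t ∈ range a, σ (x + (t : ZMod N)) := sum_nonneg fun t _ => (h.pos _).le
  push_cast at h1
  have h3 : ∑ t ∈ range l, σ (x + (a : ZMod N) + (t : ZMod N))
      = ∑ t ∈ range l, σ (x + ((a : ZMod N) + (t : ZMod N))) :=
    sum_congr rfl fun t _ => by rw [add_assoc]
  rw [h3]
  linarith

lemma A1.window' {N : ℕ} [NeZero N] {σ : ZMod N → ℝ} {A : ℝ} (h : A1 σ A) (x : ZMod N) (a l : ℕ)
    (hl : 1 ≤ l) : ∑ t ∈ range l, σ (x - (a : ZMod N) - (t : ZMod N)) ≤ A * (a + l) * σ x := by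
  have h1 := h.bwd x (a + l) (by omega)
  rw [Finset.sum_range_add] at h1
  have h2 : 0 ≤ ∑ t ∈ range a, σ (x - (t : ZMod N)) := sum_nonneg fun t _ => (h.pos _).le
  push_cast at h1
  have h3 : ∑ t ∈ range l, σ (x - (a : ZMod N) - (t : ZMod N))
      = ∑ t ∈ range l, σ (x - ((a : ZMod N) + (t : ZMod N))) :=
    sum_congr rfl fun t _ => by rw [sub_sub]
  rw [h3]
  linarith

end HC

end
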