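import Pool.Agent.Helper61.HC.AvW2

section
/-!
Convolution operators on `ZMod (2^L)` with smooth dyadic symbols.
-/

open Finset

namespace HC

open Dy

/-- symbol class -/
structure Sym (g : ℝ → ℂ) (B : ℝ) : Prop where
  supp : ∀ u, 4 ≤ |u| → g u = 0
  bd : ∀ u, ‖g u‖ ≤ B
  lip : ∀ u h, ‖g (u + h) - g u‖ ≤ B * |h|
  sec : ∀ u h, ‖g (u + h) - 2 * g u + g (u - h)‖ ≤ B * h ^ 2

/-- multiplier class -/
structure Mul (φ : ℝ → ℂ) (B : ℝ) : Prop where
  bd : ∀ u, |u| ≤ 4 → ‖φ u‖ ≤ B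
  lip : ∀ u h, ‖φ (u + h) - φ u‖ ≤ B * |h|
  sec : ∀ u h, ‖φ (u + h) - 2 * φ u + φ (u - h)‖ ≤ B * h ^ 2

lemma Sym.nonneg {g : ℝ → ℂ} {B : ℝ} (hg : Sym g B) : 0 ≤ B := (norm_nonneg _).trans (hg.bd 0)

lemma Sym.mul {g φ : ℝ → ℂ} {B B' : ℝ} (hg : Sym g B) (hφ : Mul φ B') :
    Sym (fun u => g u * φ u) (4 * B * B') := by
  have B0 : 0 ≤ B := hg.nonneg
  have B0' : 0 ≤ B' := (norm_nonneg _).trans (hφ.bd 0 (by norm_num))
  have BB : 0 ≤ B * B' := mul_nonneg B0 B0'
  refine ⟨fun u hu => by rw [hg.supp u hu, zero_mul], fun u => ?_, fun u h => ?_, fun u h => ?_⟩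
  · rcases le_total |u| 4 with h | h
    · rw [norm_mul]
      calc _ ≤ B * B' := mul_le_mul (hg.bd u) (hφ.bd u h) (norm_nonneg _) B0
        _ ≤ _ := by nlinarith
    · rw [hg.supp u h, zero_mul, norm_zero]; positivity
  · rcases le_total |u| 4 with hu | hu
    · have e : g (u + h) * φ (u + h) - g u * φ u
          = g (u + h) * (φ (u + h) - φ u) + φ u * (g (u + h) - g u) := by ring
      rw [e]
      refine (norm_add_le _ _).trans ?_
      rw [norm_mul, norm_mul]
      have a1 := mul_le_mul (hg.bd (u + h)) (hφ.lip u h) (norm_nonneg _) B0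
      have a2 := mul_le_mul (hφ.bd u hu) (hg.lip u h) (norm_nonneg _) B0'
      have a3 : 0 ≤ B * B' * |h| := by positivity
      nlinarith
    · rw [hg.supp u hu, zero_mul, sub_zero, norm_mul]
      rcases le_total |u + h| 4 with hu2 | hu2
      · have a1 := hg.lip u h
        rw [hg.supp u hu, sub_zero] at a1
        have a2 := mul_le_mul a1 (hφ.bd _ hu2) (norm_nonneg _) (by positivity)
        have a3 : 0 ≤ B * B' * |h| := by positivity
        nlinarith
      · rw [hg.supp _ hu2, norm_zero, zero_mul]; positivity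
  · rcases le_total |u| 4 with hu | hu
    · have e : g (u + h) * φ (u + h) - 2 * (g u * φ u) + g (u - h) * φ (u - h)
          = φ u * (g (u + h) - 2 * g u + g (u - h)) + g u * (φ (u + h) - 2 * φ u + φ (u - h))
            + (g (u + h) - g u) * (φ (u + h) - φ u) + (g (u + -h) - g u) * (φ (u + -h) - φ u) := by
        simp only [← sub_eq_add_neg]; ring
      rw [e]
      have n1 := norm_add_le (φ u * (g (u + h) - 2 * g u + g (u - h))
        + g u * (φ (u + h) - 2 * φ u + φ (u - h)) + (g (u + h) - g u) * (φ (u + h) - φ u))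
        ((g (u + -h) - g u) * (φ (u + -h) - φ u))
      have n2 := norm_add_le (φ u * (g (u + h) - 2 * g u + g (u - h))
        + g u * (φ (u + h) - 2 * φ u + φ (u - h))) ((g (u + h) - g u) * (φ (u + h) - φ u))
      have n3 := norm_add_le (φ u * (g (u + h) - 2 * g u + g (u - h)))
        (g u * (φ (u + h) - 2 * φ u + φ (u - h)))
      have b1 : ‖φ u * (g (u + h) - 2 * g u + g (u - h))‖ ≤ B' * (B * h ^ 2) := by
        rw [norm_mul]; exact mul_le_mul (hφ.bd u hu) (hg.sec u h) (norm_nonneg _) B0'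
      have b2 : ‖g u * (φ (u + h) - 2 * φ u + φ (u - h))‖ ≤ B * (B' * h ^ 2) := by
        rw [norm_mul]; exact mul_le_mul (hg.bd u) (hφ.sec u h) (norm_nonneg _) B0
      have b3 : ‖(g (u + h) - g u) * (φ (u + h) - φ u)‖ ≤ (B * |h|) * (B' * |h|) := by
        rw [norm_mul]; exact mul_le_mul (hg.lip u h) (hφ.lip u h) (norm_nonneg _) (by positivity)
      have b4 : ‖(g (u + -h) - g u) * (φ (u + -h) - φ u)‖ ≤ (B * |h|) * (B' * |h|) := by
        rw [norm_mul, ← abs_neg h]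
        exact mul_le_mul (hg.lip u (-h)) (hφ.lip u (-h)) (norm_nonneg _) (by positivity)
      have e2 : (B * |h|) * (B' * |h|) = B * B' * h ^ 2 := by
        rw [← sq_abs h]; ring
      rw [e2] at b3 b4
      linarith
    · have hs := hg.sec u h
      rw [hg.supp u hu, mul_zero, sub_zero] at hs
      rw [hg.supp u hu, zero_mul, mul_zero, sub_zero]
      have hor : g (u + h) = 0 ∨ g (u - h) = 0 := by
        rcases le_total 0 u with h0 | h0
        · rw [abs_of_nonneg h0] at hu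
          rcases le_total 0 h with h1 | h1
          · left; exact hg.supp _ (by rw [abs_of_nonneg (by linarith)]; linarith)
          · right; exact hg.supp _ (by rw [abs_of_nonneg (by linarith)]; linarith)
        · rw [abs_of_nonpos h0] at hu
          rcases le_total 0 h with h1 | h1
          · right; exact hg.supp _ (by rw [abs_of_nonpos (by linarith)]; linarith)
          · left; exact hg.supp _ (by rw [abs_of_nonpos (by linarith)]; linarith)
      have fin : ∀ z : ℝ, ‖g z‖ ≤ B * h ^ 2 → ‖g z * φ z‖ ≤ 4 * B * B' * h ^ 2 := by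
        intro z hz
        rw [norm_mul]
        rcases le_total |z| 4 with h4 | h4
        · have a2 := mul_le_mul hz (hφ.bd _ h4) (norm_nonneg _) (by positivity)
          have a3 : 0 ≤ B * B' * h ^ 2 := by positivity
          nlinarith
        · rw [hg.supp _ h4, norm_zero, zero_mul]; positivity
      rcases hor with h0 | h0
      · rw [h0, zero_add] at hs
        rw [h0, zero_mul, zero_add]
        exact fin _ hs
      · rw [h0, add_zero] at hs
        rw [h0, zero_mul, add_zero]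
        exact fin _ hs

/-- smooth compactly supported functions are symbols -/
lemma exists_Sym {g : ℝ → ℂ} (hg : ContDiff ℝ 2 g) (hs : ∀ u, 4 ≤ |u| → g u = 0) :
    ∃ B, Sym g B := by
  have hcs : HasCompactSupport g := by
    refine HasCompactSupport.of_support_subset_isCompact (isCompact_Icc (a := (-4:ℝ)) (b := 4)) ?_
    intro u hu
    by_contra hc
    apply hu
    apply hs
    rw [Set.mem_Icc, not_and_or] at hc
    push Not at hc
    rcases hc with h | h
    · rw [abs_of_neg (by linarith)]; linarith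
    · rw [abs_of_pos (by linarith)]; linarith
  have hd1 : Differentiable ℝ g := hg.differentiable (by norm_num)
  have hc1 : ContDiff ℝ 1 (deriv g) := by
    have : ContDiff ℝ (1 + 1) g := by convert hg using 1; norm_num
    exact (contDiff_succ_iff_deriv.1 this).2.2
  have hd2 : Differentiable ℝ (deriv g) := hc1.differentiable (by norm_num)
  have hc2 : Continuous (deriv (deriv g)) := hc1.continuous_deriv (by norm_num)
  obtain ⟨B0, hB0⟩ := hg.continuous.bounded_above_of_compact_support hcs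
  obtain ⟨B1, hB1⟩ := hc1.continuous.bounded_above_of_compact_support hcs.deriv
  obtain ⟨B2, hB2⟩ := hc2.bounded_above_of_compact_support hcs.deriv.deriv
  have p0 : 0 ≤ B0 := (norm_nonneg _).trans (hB0 0)
  have p1 : 0 ≤ B1 := (norm_nonneg _).trans (hB1 0)
  have p2 : 0 ≤ B2 := (norm_nonneg _).trans (hB2 0)
  have lip1 : ∀ u h : ℝ, ‖g (u + h) - g u‖ ≤ B1 * |h| := by
    intro u h
    have := Convex.norm_image_sub_le_of_norm_deriv_le (f := g) (C := B1) (s := Set.univ)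
      (fun x _ => hd1 x) (fun x _ => hB1 x) convex_univ (Set.mem_univ u) (Set.mem_univ (u + h))
    rwa [add_sub_cancel_left, Real.norm_eq_abs] at this
  have lip2 : ∀ a b : ℝ, ‖deriv g b - deriv g a‖ ≤ B2 * |b - a| := by
    intro a b
    exact Convex.norm_image_sub_le_of_norm_deriv_le (f := deriv g) (C := B2) (s := Set.univ)
      (fun x _ => hd2 x) (fun x _ => hB2 x) convex_univ (Set.mem_univ a) (Set.mem_univ b)
  refine ⟨B0 + B1 + 2 * B2, hs, fun u => (hB0 u).trans (by linarith), fun u h => ?_, fun u h => ?_⟩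
  · refine (lip1 u h).trans ?_
    exact mul_le_mul_of_nonneg_right (by linarith) (abs_nonneg h)
  · set ψ : ℝ → ℂ := fun t => g (u + t) - 2 * g u + g (u - t) with hψ
    have hder : ∀ t, HasDerivAt ψ (deriv g (u + t) - deriv g (u - t)) t := by
      intro t
      have a1 : HasDerivAt (fun t => g (u + t)) (deriv g (u + t)) t := by
        have := (hd1 (u + t)).hasDerivAt.scomp t ((hasDerivAt_id t).const_add u)
        rw [one_smul] at this
        exact this
      have a2 : HasDerivAt (fun t => g (u - t)) (-(deriv g (u - t))) t := by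
        have := (hd1 (u - t)).hasDerivAt.scomp t ((hasDerivAt_id t).const_sub u)
        rw [neg_one_smul] at this
        exact this
      have := (a1.sub_const (2 * g u)).add a2
      rw [← sub_eq_add_neg] at this
      exact this
    have h0 : ψ 0 = 0 := by simp only [hψ]; simp; ring
    have hb : ∀ t ∈ Set.uIcc 0 h, ‖deriv ψ t‖ ≤ 2 * B2 * |h| := by
      intro t ht
      rw [(hder t).deriv]
      refine (lip2 (u - t) (u + t)).trans ?_
      have e : u + t - (u - t) = 2 * t := by ring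
      rw [e, abs_mul, abs_two]
      have : |t| ≤ |h| := by
        rcases le_total 0 h with h1 | h1
        · rw [Set.uIcc_of_le h1] at ht
          rw [abs_of_nonneg ht.1, abs_of_nonneg h1]; exact ht.2
        · rw [Set.uIcc_of_ge h1] at ht
          rw [abs_of_nonpos ht.2, abs_of_nonpos h1]; linarith [ht.1]
      nlinarith
    have := Convex.norm_image_sub_le_of_norm_deriv_le (f := ψ) (C := 2 * B2 * |h|)
      (s := Set.uIcc 0 h) (fun x _ => (hder x).differentiableAt) hb (convex_uIcc 0 h)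
      Set.left_mem_uIcc Set.right_mem_uIcc
    rw [h0, sub_zero, sub_zero, Real.norm_eq_abs] at this
    have e3 : 2 * B2 * |h| * |h| = 2 * B2 * h ^ 2 := by rw [← sq_abs h]; ring
    rw [e3] at this
    refine this.trans ?_
    exact mul_le_mul_of_nonneg_right (by linarith) (sq_nonneg h)

/-- the normalized exponential -/
noncomputable def ee (u : ℝ) : ℂ := Complex.exp (2 * Real.pi * u * Complex.I)

lemma ee_add (u w : ℝ) : ee (u + w) = ee u * ee w := by
  unfold ee; rw [← Complex.exp_add]; congr 1; push_cast; ring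

lemma norm_ee (u : ℝ) : ‖ee u‖ = 1 := by
  unfold ee
  have : (2 * Real.pi * u * Complex.I : ℂ) = ((2 * Real.pi * u : ℝ) : ℂ) * Complex.I := by
    push_cast; ring
  rw [this, Complex.norm_exp_ofReal_mul_I]

lemma ee_zero : ee 0 = 1 := by unfold ee; simp

lemma norm_ee_sub_one (u : ℝ) : ‖ee u - 1‖ ≤ 2 * Real.pi * |u| := by
  unfold ee
  have : (2 * Real.pi * u * Complex.I : ℂ) = Complex.I * ((2 * Real.pi * u : ℝ) : ℂ) := by
    push_cast; ring
  rw [this]
  refine (Real.norm_exp_I_mul_ofReal_sub_one_le (x := 2 * Real.pi * u)).trans ?_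
  rw [Real.norm_eq_abs, abs_mul, abs_of_pos (by positivity : 0 < 2 * Real.pi)]

/-- difference-quotient multiplier -/
lemma Mul_diff {θ τ : ℝ} (h0 : 0 < θ) (h1 : θ ≤ 1) (hτ : |τ| = θ) :
    Mul (fun u => (1 - ee (u * τ)) / θ) 40 := by
  have hpi := Real.pi_lt_d2
  have hpi0 := Real.pi_pos
  have hn : ‖(θ : ℂ)‖ = θ := by rw [Complex.norm_real, Real.norm_eq_abs, abs_of_pos h0]
  refine ⟨fun u hu => ?_, fun u h => ?_, fun u h => ?_⟩
  · rw [norm_div, hn, norm_sub_rev, div_le_iff₀ h0]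
    refine (norm_ee_sub_one _).trans ?_
    rw [abs_mul, hτ]
    nlinarith [mul_nonneg (abs_nonneg u) h0.le]
  · have e : (1 - ee ((u + h) * τ)) / θ - (1 - ee (u * τ)) / θ
        = - (ee (u * τ) * (ee (h * τ) - 1)) / θ := by
      rw [add_mul, ee_add]; ring
    rw [e, norm_div, hn, norm_neg, norm_mul, norm_ee, one_mul, div_le_iff₀ h0]
    refine (norm_ee_sub_one _).trans ?_
    rw [abs_mul, hτ]
    nlinarith [mul_nonneg (abs_nonneg h) h0.le]
  · have e : (1 - ee ((u + h) * τ)) / θ - 2 * ((1 - ee (u * τ)) / θ) + (1 - ee ((u - h) * τ)) / θ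
        = (ee ((u - h) * τ) * (ee (h * τ) - 1) * (ee (h * τ) - 1)) * (-1) / θ := by
      have e1 : u * τ = (u - h) * τ + h * τ := by ring
      have e2 : (u + h) * τ = (u - h) * τ + h * τ + h * τ := by ring
      rw [e1, e2, ee_add, ee_add]; ring
    rw [e, norm_div, hn, norm_mul, norm_mul, norm_mul, norm_ee, one_mul, norm_neg, norm_one,
      mul_one, div_le_iff₀ h0]
    have a := norm_ee_sub_one (h * τ)
    rw [abs_mul, hτ] at a
    have a2 := mul_le_mul a a (norm_nonneg _) (by positivity)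
    refine a2.trans ?_
    have e3 : 2 * Real.pi * (|h| * θ) * (2 * Real.pi * (|h| * θ))
        = (4 * (Real.pi * Real.pi)) * h ^ 2 * (θ * θ) := by rw [← sq_abs h]; ring
    rw [e3]
    have e4 : Real.pi * Real.pi ≤ 10 := by nlinarith
    have e5 : θ * θ ≤ θ := by nlinarith
    calc (4 * (Real.pi * Real.pi)) * h ^ 2 * (θ * θ) ≤ (4 * 10) * h ^ 2 * θ := by
          refine mul_le_mul ?_ e5 (by positivity) (by positivity)
          exact mul_le_mul_of_nonneg_right (by linarith) (sq_nonneg h)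
      _ = _ := by ring

section kernel
variable {L : ℕ}

/-- character -/
noncomputable def chr (t : ZMod (2 ^ L)) : ℂ := ZMod.stdAddChar t

lemma chr_add (a b : ZMod (2 ^ L)) : chr (a + b) = chr a * chr b := AddChar.map_add_eq_mul _ _ _

lemma chr_int (k : ℤ) : chr (k : ZMod (2 ^ L)) = ee (k / 2 ^ L) := by
  unfold chr ee
  rw [ZMod.stdAddChar_coe]
  congr 1
  push_cast
  ring

lemma norm_chr (t : ZMod (2 ^ L)) : ‖chr t‖ = 1 := by
  have := chr_int (L := L) t.valMinAbs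
  rw [ZMod.coe_valMinAbs] at this
  rw [this, norm_ee]

/-- the kernel with symbol `g` at scale `s` -/
noncomputable def kap (L : ℕ) (g : ℝ → ℂ) (s : ℕ) (t : ZMod (2 ^ L)) : ℂ :=
  ((2:ℂ) ^ L)⁻¹ * ∑ k ∈ Icc (-(4 * 2 ^ s : ℤ)) (4 * 2 ^ s), g (k / 2 ^ s) * chr ((k : ZMod (2 ^ L)) * t)

lemma kap_tsum {g : ℝ → ℂ} {B : ℝ} (hg : Sym g B) (s : ℕ) (t : ZMod (2 ^ L)) :
    ∑ k ∈ Icc (-(4 * 2 ^ s : ℤ)) (4 * 2 ^ s), g (k / 2 ^ s) * chr ((k : ZMod (2 ^ L)) * t)
      = ∑' k : ℤ, g (k / 2 ^ s) * chr ((k : ZMod (2 ^ L)) * t) := by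
  symm
  apply tsum_eq_sum
  intro k hk
  rw [hg.supp, zero_mul]
  rw [mem_Icc, not_and_or] at hk
  push Not at hk
  rw [abs_div, abs_of_pos (by positivity : (0:ℝ) < 2 ^ s), le_div_iff₀ (by positivity)]
  have h1 : (4 * 2 ^ s : ℤ) ≤ |k| := by
    rcases hk with h | h
    · rw [abs_of_neg (by have : (0:ℤ) < 2 ^ s := by positivity
                         linarith)]; linarith
    · rw [abs_of_pos (by have : (0:ℤ) < 2 ^ s := by positivity
                         linarith)]; linarith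
  have h2 : ((4 * 2 ^ s : ℤ) : ℝ) ≤ ((|k| : ℤ) : ℝ) := by exact_mod_cast h1
  push_cast at h2
  exact h2

lemma summable_sym {g : ℝ → ℂ} {B : ℝ} (hg : Sym g B) (s : ℕ) (c : ℤ) (F : ℤ → ℂ) :
    Summable fun k : ℤ => g (((k + c : ℤ) : ℝ) / 2 ^ s) * F k := by
  apply summable_of_hasFiniteSupport
  refine (Set.finite_Icc (-(4 * 2 ^ s : ℤ) - c) (4 * 2 ^ s - c)).subset ?_
  intro k hk
  by_contra hc
  apply hk
  simp only
  rw [hg.supp, zero_mul]
  rw [Set.mem_Icc, not_and_or] at hc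
  push Not at hc
  rw [abs_div, abs_of_pos (by positivity : (0:ℝ) < 2 ^ s), le_div_iff₀ (by positivity)]
  have h0 : (0:ℤ) < 2 ^ s := by positivity
  have h1 : (4 * 2 ^ s : ℤ) ≤ |k + c| := by
    rcases hc with h | h
    · rw [abs_of_neg (by linarith)]; linarith
    · rw [abs_of_pos (by linarith)]; linarith
  have h2 : ((4 * 2 ^ s : ℤ) : ℝ) ≤ ((|k + c| : ℤ) : ℝ) := by exact_mod_cast h1
  push_cast at h2 ⊢
  exact h2

/-- the key summation by parts -/
lemma sbp {g : ℝ → ℂ} {B : ℝ} (hg : Sym g B) (s : ℕ) (t : ZMod (2 ^ L)) :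
    (chr t - 2 + chr (-t)) * ∑' k : ℤ, g (k / 2 ^ s) * chr ((k : ZMod (2 ^ L)) * t)
      = ∑' k : ℤ, (g (((k - 1 : ℤ) : ℝ) / 2 ^ s) - 2 * g (k / 2 ^ s)
        + g (((k + 1 : ℤ) : ℝ) / 2 ^ s)) * chr ((k : ZMod (2 ^ L)) * t) := by
  have s0 := summable_sym hg s 0 (fun k => chr ((k : ZMod (2 ^ L)) * t))
  have s1 := summable_sym hg s 1 (fun k => chr ((k : ZMod (2 ^ L)) * t))
  have sm := summable_sym hg s (-1) (fun k => chr ((k : ZMod (2 ^ L)) * t))
  simp only [add_zero] at s0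
  have e1 : chr t * ∑' k : ℤ, g (k / 2 ^ s) * chr ((k : ZMod (2 ^ L)) * t)
      = ∑' k : ℤ, g (((k - 1 : ℤ) : ℝ) / 2 ^ s) * chr ((k : ZMod (2 ^ L)) * t) := by
    rw [← tsum_mul_left, ← (Equiv.subRight (1:ℤ)).tsum_eq]
    refine tsum_congr fun k => ?_
    simp only [Equiv.subRight_apply]
    have : (k : ZMod (2 ^ L)) * t = t + ((k - 1 : ℤ) : ZMod (2 ^ L)) * t := by push_cast; ring
    rw [this, chr_add]; ring
  have e2 : chr (-t) * ∑' k : ℤ, g (k / 2 ^ s) * chr ((k : ZMod (2 ^ L)) * t)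
      = ∑' k : ℤ, g (((k + 1 : ℤ) : ℝ) / 2 ^ s) * chr ((k : ZMod (2 ^ L)) * t) := by
    rw [← tsum_mul_left, ← (Equiv.addRight (1:ℤ)).tsum_eq]
    refine tsum_congr fun k => ?_
    simp only [Equiv.coe_addRight]
    have : (k : ZMod (2 ^ L)) * t = -t + ((k + 1 : ℤ) : ZMod (2 ^ L)) * t := by push_cast; ring
    rw [this, chr_add]; ring
  have e3 : (chr t - 2 + chr (-t)) * ∑' k : ℤ, g (k / 2 ^ s) * chr ((k : ZMod (2 ^ L)) * t)
      = chr t * ∑' k : ℤ, g (k / 2 ^ s) * chr ((k : ZMod (2 ^ L)) * t)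
        - 2 * ∑' k : ℤ, g (k / 2 ^ s) * chr ((k : ZMod (2 ^ L)) * t)
        + chr (-t) * ∑' k : ℤ, g (k / 2 ^ s) * chr ((k : ZMod (2 ^ L)) * t) := by ring
  rw [e3, e1, e2, ← tsum_mul_left]
  have sm' : Summable fun k : ℤ => g (((k - 1 : ℤ) : ℝ) / 2 ^ s) * chr ((k : ZMod (2 ^ L)) * t) := sm
  rw [← sm'.tsum_sub (s0.mul_left 2), ← (sm'.sub (s0.mul_left 2)).tsum_add s1]
  refine tsum_congr fun k => by ring

lemma chr_lower (t : ZMod (2 ^ L)) :
    16 * (nrm t / 2 ^ L) ^ 2 ≤ ‖chr t - 2 + chr (-t)‖ := by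
  set a := t.valMinAbs with ha
  have hN : (0:ℝ) < 2 ^ L := by positivity
  have h1 : chr t = ee (a / 2 ^ L) := by
    rw [← chr_int, ZMod.coe_valMinAbs]
  have h2 : chr (-t) = ee (-(a / 2 ^ L)) := by
    have : -t = ((-a : ℤ) : ZMod (2 ^ L)) := by push_cast; rw [ZMod.coe_valMinAbs]
    rw [this, chr_int]; congr 1; push_cast; ring
  have h3 : chr t - 2 + chr (-t) = ((2 * Real.cos (2 * Real.pi * (a / 2 ^ L)) - 2 : ℝ) : ℂ) := by
    rw [h1, h2]
    unfold ee
    push_cast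
    rw [Complex.cos]
    have e1 : (2 * Real.pi * -((a:ℂ) / 2 ^ L) * Complex.I) = -(2 * Real.pi * ((a:ℂ) / 2 ^ L)) * Complex.I := by
      ring
    rw [e1]
    ring
  rw [h3, Complex.norm_real, Real.norm_eq_abs]
  set y := Real.pi * (a / 2 ^ L) with hy
  have e2 : 2 * Real.pi * ((a:ℝ) / 2 ^ L) = 2 * y := by rw [hy]; ring
  rw [e2, Real.cos_two_mul]
  have e3 : 2 * (2 * Real.cos y ^ 2 - 1) - 2 = -(4 * Real.sin y ^ 2) := by
    have := Real.sin_sq_add_cos_sq y
    nlinarith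
  rw [e3, abs_neg, abs_of_nonneg (by positivity)]
  have h5 : |a| * 2 ≤ (2:ℤ) ^ L := by
    have := ZMod.valMinAbs_mem_Ioc t
    rw [Set.mem_Ioc, ← ha] at this
    push_cast at this
    rcases le_total 0 a with h0 | h0
    · rw [abs_of_nonneg h0]; linarith
    · rw [abs_of_nonpos h0]; linarith
  have h5r : |(a:ℝ)| * 2 ≤ 2 ^ L := by
    have : ((|a| * 2 : ℤ) : ℝ) ≤ ((2 ^ L : ℤ) : ℝ) := by exact_mod_cast h5
    push_cast at this
    exact this
  have h6 : |y| ≤ Real.pi / 2 := by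
    rw [hy, abs_mul, abs_of_pos Real.pi_pos, abs_div, abs_of_pos hN]
    have : |(a:ℝ)| / 2 ^ L ≤ 1 / 2 := by rw [div_le_iff₀ hN]; linarith
    nlinarith [Real.pi_pos]
  have h7 : 2 / Real.pi * |y| ≤ Real.sin |y| := Real.mul_le_sin (abs_nonneg y) h6
  have h8 : Real.sin y ^ 2 = Real.sin |y| ^ 2 := by
    rcases le_total 0 y with h0 | h0
    · rw [abs_of_nonneg h0]
    · rw [abs_of_nonpos h0, Real.sin_neg]; ring
  have h9 : nrm t = |(a:ℝ)| := by
    unfold nrm
    rw [← ha]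
    rw [Nat.cast_natAbs]
    push_cast
    rfl
  have h10 : 2 / Real.pi * |y| = 2 * (nrm t / 2 ^ L) := by
    rw [hy, abs_mul, abs_of_pos Real.pi_pos, abs_div, abs_of_pos hN, h9]
    field_simp
  rw [h10] at h7
  rw [h8]
  have h11 : 0 ≤ 2 * (nrm t / 2 ^ L) := by have := nrm_nonneg t; positivity
  have := pow_le_pow_left₀ h11 h7 2
  nlinarith

/-- the kernel bound -/
lemma kap_bound {g : ℝ → ℂ} {B : ℝ} (hg : Sym g B) {s : ℕ} (hs : s ≤ L) (t : ZMod (2 ^ L)) :
    ‖kap L g s t‖ ≤ 10 * B * Pk (ell L s) t := by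
  have B0 := hg.nonneg
  set S := ∑ k ∈ Icc (-(4 * 2 ^ s : ℤ)) (4 * 2 ^ s), g (k / 2 ^ s) * chr ((k : ZMod (2 ^ L)) * t)
    with hS
  have hell : (ell L s : ℝ) * 2 ^ s = 2 ^ L := by exact_mod_cast ell_mul_two_pow hs
  have hl0 : (0:ℝ) < ell L s := by exact_mod_cast ell_pos L s
  have h2s : (1:ℝ) ≤ 2 ^ s := one_le_pow₀ (by norm_num)
  have cardI : ((Icc (-(4 * 2 ^ s : ℤ)) (4 * 2 ^ s)).card : ℝ) = 8 * 2 ^ s + 1 := by
    rw [Int.card_Icc]
    have : (4 * 2 ^ s + 1 - -(4 * 2 ^ s) : ℤ).toNat = 8 * 2 ^ s + 1 := by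
      have : (4 * 2 ^ s + 1 - -(4 * 2 ^ s) : ℤ) = ((8 * 2 ^ s + 1 : ℕ) : ℤ) := by push_cast; ring
      rw [this, Int.toNat_natCast]
    rw [this]; push_cast; ring
  -- first bound
  have b1 : ‖S‖ ≤ 9 * 2 ^ s * B := by
    refine (norm_sum_le _ _).trans ?_
    calc _ ≤ ∑ _k ∈ Icc (-(4 * 2 ^ s : ℤ)) (4 * 2 ^ s), B := by
          refine sum_le_sum fun k _ => ?_
          rw [norm_mul, norm_chr, mul_one]; exact hg.bd _
      _ = (8 * 2 ^ s + 1) * B := by rw [sum_const, nsmul_eq_mul, cardI]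
      _ ≤ _ := by nlinarith
  -- second bound
  have b2 : ‖chr t - 2 + chr (-t)‖ * ‖S‖ ≤ 11 * B / 2 ^ s := by
    rw [← norm_mul, hS, kap_tsum hg, sbp hg]
    have e1 : ∑' k : ℤ, (g (((k - 1 : ℤ) : ℝ) / 2 ^ s) - 2 * g (k / 2 ^ s)
        + g (((k + 1 : ℤ) : ℝ) / 2 ^ s)) * chr ((k : ZMod (2 ^ L)) * t)
        = ∑ k ∈ Icc (-(4 * 2 ^ s : ℤ) - 1) (4 * 2 ^ s + 1), (g (((k - 1 : ℤ) : ℝ) / 2 ^ s)
          - 2 * g (k / 2 ^ s) + g (((k + 1 : ℤ) : ℝ) / 2 ^ s)) * chr ((k : ZMod (2 ^ L)) * t) := by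
      apply tsum_eq_sum
      intro k hk
      rw [mem_Icc, not_and_or] at hk
      push Not at hk
      have z : ∀ c : ℤ, |c| ≤ 1 → g (((k + c : ℤ) : ℝ) / 2 ^ s) = 0 := by
        intro c hc
        apply hg.supp
        rw [abs_div, abs_of_pos (by positivity : (0:ℝ) < 2 ^ s), le_div_iff₀ (by positivity)]
        have h0 : (0:ℤ) < 2 ^ s := by positivity
        have hc' := abs_le.1 hc
        have h1 : (4 * 2 ^ s : ℤ) ≤ |k + c| := by
          rcases hk with h | h
          · rw [abs_of_neg (by linarith [hc'.1, hc'.2])]; linarith [hc'.1, hc'.2]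
          · rw [abs_of_pos (by linarith [hc'.1, hc'.2])]; linarith [hc'.1, hc'.2]
        have h2 : ((4 * 2 ^ s : ℤ) : ℝ) ≤ ((|k + c| : ℤ) : ℝ) := by exact_mod_cast h1
        push_cast at h2 ⊢
        exact h2
      have z0 := z 0 (by norm_num)
      have z1 := z 1 (by norm_num)
      have z2 := z (-1) (by norm_num)
      rw [add_zero] at z0
      rw [← sub_eq_add_neg] at z2
      rw [z0, z1, z2]; ring
    rw [e1]
    refine (norm_sum_le _ _).trans ?_
    have cardJ : ((Icc (-(4 * 2 ^ s : ℤ) - 1) (4 * 2 ^ s + 1)).card : ℝ) = 8 * 2 ^ s + 3 := by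
      rw [Int.card_Icc]
      have : (4 * 2 ^ s + 1 + 1 - (-(4 * 2 ^ s) - 1) : ℤ).toNat = 8 * 2 ^ s + 3 := by
        have : (4 * 2 ^ s + 1 + 1 - (-(4 * 2 ^ s) - 1) : ℤ) = ((8 * 2 ^ s + 3 : ℕ) : ℤ) := by
          push_cast; ring
        rw [this, Int.toNat_natCast]
      rw [this]; push_cast; ring
    calc _ ≤ ∑ _k ∈ Icc (-(4 * 2 ^ s : ℤ) - 1) (4 * 2 ^ s + 1), B * (1 / 2 ^ s) ^ 2 := by
          refine sum_le_sum fun k _ => ?_
          rw [norm_mul, norm_chr, mul_one]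
          have := hg.sec (k / 2 ^ s) (1 / 2 ^ s)
          have e1 : (k:ℝ) / 2 ^ s + 1 / 2 ^ s = ((k + 1 : ℤ) : ℝ) / 2 ^ s := by push_cast; ring
          have e2 : (k:ℝ) / 2 ^ s - 1 / 2 ^ s = ((k - 1 : ℤ) : ℝ) / 2 ^ s := by push_cast; ring
          rw [e1, e2] at this
          have e3 : g (((k - 1 : ℤ) : ℝ) / 2 ^ s) - 2 * g (k / 2 ^ s)
            + g (((k + 1 : ℤ) : ℝ) / 2 ^ s) = g (((k + 1 : ℤ) : ℝ) / 2 ^ s) - 2 * g (k / 2 ^ s)
            + g (((k - 1 : ℤ) : ℝ) / 2 ^ s) := by ring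
          rw [e3]; exact this
      _ = (8 * 2 ^ s + 3) * (B * (1 / 2 ^ s) ^ 2) := by rw [sum_const, nsmul_eq_mul, cardJ]
      _ = (8 + 3 / 2 ^ s) * (B / 2 ^ s) := by field_simp
      _ ≤ (8 + 3) * (B / 2 ^ s) := by
          refine mul_le_mul_of_nonneg_right ?_ (by positivity)
          have : (3:ℝ) / 2 ^ s ≤ 3 := by rw [div_le_iff₀ (by positivity)]; linarith
          linarith
      _ = _ := by ring
  have b3 := chr_lower t
  have b4 : 16 * (nrm t / 2 ^ L) ^ 2 * ‖S‖ ≤ 11 * B / 2 ^ s :=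
    (mul_le_mul_of_nonneg_right b3 (norm_nonneg _)).trans b2
  have e0 : ‖kap L g s t‖ = ‖S‖ / 2 ^ L := by
    unfold kap
    rw [norm_mul, ← hS, norm_inv, norm_pow, Complex.norm_ofNat]
    ring
  rw [e0]
  unfold Pk
  have n0 := nrm_nonneg t
  rw [mul_div_assoc', div_le_div_iff₀ (by positivity) (by positivity)]
  -- ‖S‖ (ℓ² + n²) ≤ 10 B ℓ 2^L
  have c1 : ‖S‖ * (ell L s : ℝ) ^ 2 ≤ 9 * B * ell L s * 2 ^ L := by
    have := mul_le_mul_of_nonneg_right b1 (by positivity : 0 ≤ (ell L s : ℝ) ^ 2)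
    calc _ ≤ _ := this
      _ = 9 * B * ell L s * (ell L s * 2 ^ s) := by ring
      _ = _ := by rw [hell]
  have c2 : ‖S‖ * nrm t ^ 2 ≤ B * ell L s * 2 ^ L := by
    have h1 : 16 * (nrm t / 2 ^ L) ^ 2 * ‖S‖ = 16 * (‖S‖ * nrm t ^ 2) / (2 ^ L) ^ 2 := by
      field_simp
    rw [h1, div_le_div_iff₀ (by positivity) (by positivity)] at b4
    have h2 : 11 * B * (2 ^ L) ^ 2 = 11 * B * ell L s * 2 ^ L * 2 ^ s := by
      rw [← hell]; ring
    rw [h2] at b4
    have h3 : 16 * (‖S‖ * nrm t ^ 2) ≤ 11 * B * ell L s * 2 ^ L :=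
      le_of_mul_le_mul_right b4 (by positivity)
    have h4 : 0 ≤ B * ell L s * 2 ^ L := by positivity
    linarith
  linarith

end kernel

end HC

end

section
/-!
Convolution operators and their interplay with the dyadic filtration.
-/

open Finset

namespace HC

open Dy

variable {L : ℕ}

/-- convolution with the kernel of symbol `g` and scale `s` -/
noncomputable def cv (L : ℕ) (g : ℝ → ℂ) (s : ℕ) (u : ZMod (2 ^ L) → ℂ) (x : ZMod (2 ^ L)) : ℂ :=
  ∑ t, kap L g s t * u (x - t)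

lemma cv_sum {ι : Type*} (g : ℝ → ℂ) (s : ℕ) (S : Finset ι) (u : ι → ZMod (2 ^ L) → ℂ)
    (x : ZMod (2 ^ L)) :
    cv L g s (fun x => ∑ k ∈ S, u k x) x = ∑ k ∈ S, cv L g s (u k) x := by
  unfold cv
  simp only [mul_sum]
  rw [sum_comm]

lemma cv_mul (g : ℝ → ℂ) (s : ℕ) (c : ℂ) (u : ZMod (2 ^ L) → ℂ) (x : ZMod (2 ^ L)) :
    cv L g s (fun x => c * u x) x = c * cv L g s u x := by
  unfold cv
  rw [mul_sum]
  exact sum_congr rfl fun t _ => by ring

lemma cv_sub (g : ℝ → ℂ) (s : ℕ) (u w : ZMod (2 ^ L) → ℂ) (x : ZMod (2 ^ L)) :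
    cv L g s (fun x => u x - w x) x = cv L g s u x - cv L g s w x := by
  unfold cv
  rw [← sum_sub_distrib]
  exact sum_congr rfl fun t _ => by ring

lemma cv_shift (g : ℝ → ℂ) (s : ℕ) (u : ZMod (2 ^ L) → ℂ) (x a : ZMod (2 ^ L)) :
    cv L g s (fun x => u (x + a)) x = cv L g s u (x + a) := by
  unfold cv
  refine sum_congr rfl fun t _ => ?_
  congr 2
  ring_nf

/-- K1 -/
lemma cv_norm_le {g : ℝ → ℂ} {B : ℝ} (hg : Sym g B) {s : ℕ} (hs : s ≤ L)
    (u : ZMod (2 ^ L) → ℂ) (x : ZMod (2 ^ L)) :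
    ‖cv L g s u x‖ ≤ 10 * B * Av (ell L s) (fun x => ‖u x‖) x := by
  unfold cv Av
  refine (norm_sum_le _ _).trans ?_
  rw [mul_sum]
  refine sum_le_sum fun t _ => ?_
  rw [norm_mul, ← mul_assoc]
  exact mul_le_mul_of_nonneg_right (kap_bound hg hs t) (norm_nonneg _)

lemma chr_zero : chr (0 : ZMod (2 ^ L)) = 1 := by
  unfold chr; exact AddChar.map_zero_eq_one _

/-- differences of kernels -/
lemma kap_lip {g : ℝ → ℂ} {B : ℝ} (hg : Sym g B) {s : ℕ} (hs : s ≤ L) (t a : ZMod (2 ^ L))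
    (ha : nrm a ≤ ell L s) :
    ‖kap L g s t - kap L g s (t + a)‖ ≤ 1600 * B * (nrm a / ell L s) * Pk (ell L s) t := by
  have hl0 : (0:ℝ) < ell L s := by exact_mod_cast ell_pos L s
  have hell : (ell L s : ℝ) * 2 ^ s = 2 ^ L := by exact_mod_cast ell_mul_two_pow hs
  rcases (nrm_nonneg a).eq_or_lt with h0 | h0
  · have ha0 : a = 0 := by
      rcases eq_of_nrm a (a := 0) (by rw [← h0]; simp) with h | h
      · rw [h]; simp
      · rw [h]; simp
    rw [ha0, add_zero, sub_self, norm_zero]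
    have := hg.nonneg
    have := nrm_nonneg (0 : ZMod (2 ^ L))
    have := (Pk_pos hl0 t).le
    positivity
  · set m := a.valMinAbs with hm
    have hma : nrm a = |(m:ℝ)| := by
      unfold nrm
      rw [← hm, Nat.cast_natAbs]
      push_cast
      rfl
    set θ : ℝ := nrm a / ell L s with hθ
    have θ0 : 0 < θ := div_pos h0 hl0
    have θ1 : θ ≤ 1 := (div_le_one hl0).2 ha
    set τ : ℝ := m / ell L s with hτ
    have hτθ : |τ| = θ := by rw [hτ, hθ, hma, abs_div, abs_of_pos hl0]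
    have hM := Mul_diff θ0 θ1 hτθ
    have e1 : kap L g s t - kap L g s (t + a)
        = θ * kap L (fun u => g u * ((1 - ee (u * τ)) / θ)) s t := by
      unfold kap
      have hθc : (θ : ℂ) ≠ 0 := by exact_mod_cast θ0.ne'
      rw [← mul_sub, ← sum_sub_distrib, mul_left_comm]
      congr 1
      rw [mul_sum]
      refine sum_congr rfl fun k _ => ?_
      have e2 : chr ((k : ZMod (2 ^ L)) * (t + a)) = chr ((k : ZMod (2 ^ L)) * t)
          * ee ((k:ℝ) / 2 ^ s * τ) := by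
        rw [mul_add, chr_add]
        congr 1
        have : (k : ZMod (2 ^ L)) * a = ((k * m : ℤ) : ZMod (2 ^ L)) := by
          push_cast; rw [ZMod.coe_valMinAbs]
        rw [this, chr_int]
        congr 1
        rw [hτ, ← hell]
        push_cast
        field_simp
      rw [e2]
      field_simp
    rw [e1, norm_mul, Complex.norm_real, Real.norm_eq_abs, abs_of_pos θ0]
    have := kap_bound (hg.mul hM) hs t
    calc _ ≤ θ * (10 * (4 * B * 40) * Pk (ell L s) t) := mul_le_mul_of_nonneg_left this θ0.le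
      _ = _ := by ring

lemma cv_eq' (g : ℝ → ℂ) (s : ℕ) (u : ZMod (2 ^ L) → ℂ) (x a : ZMod (2 ^ L)) :
    cv L g s u (x + a) = ∑ t, kap L g s (t + a) * u (x - t) := by
  unfold cv
  rw [← Equiv.sum_comp (Equiv.addRight a)]
  refine sum_congr rfl fun t _ => ?_
  simp only [Equiv.coe_addRight]
  congr 2
  ring

lemma cv_lip {g : ℝ → ℂ} {B : ℝ} (hg : Sym g B) {s : ℕ} (hs : s ≤ L)
    (u : ZMod (2 ^ L) → ℂ) (x a : ZMod (2 ^ L)) (ha : nrm a ≤ ell L s) :
    ‖cv L g s u (x + a) - cv L g s u x‖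
      ≤ 1600 * B * (nrm a / ell L s) * Av (ell L s) (fun x => ‖u x‖) x := by
  rw [cv_eq']
  unfold cv Av
  rw [← sum_sub_distrib, mul_sum]
  refine (norm_sum_le _ _).trans (sum_le_sum fun t _ => ?_)
  rw [← sub_mul, norm_mul, ← mul_assoc, norm_sub_rev]
  exact mul_le_mul_of_nonneg_right (kap_lip hg hs t a ha) (norm_nonneg _)

lemma ell_two_mul {i : ℕ} (hi : i + 1 ≤ L) : ell L i = 2 * ell L (i + 1) := by
  have := ell_mul (L := L) (Nat.le_succ i) hi
  rw [this]; congr 1; simp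

lemma val_add_mod {m : ℕ} (hm : m ∣ 2 ^ L) (x : ZMod (2 ^ L)) (a : ℕ) :
    (x + (a : ZMod (2 ^ L))).val % m = (x.val % m + a) % m := by
  rw [ZMod.val_add, Nat.mod_mod_of_dvd _ hm, ZMod.val_natCast, Nat.add_mod,
    Nat.mod_mod_of_dvd _ hm, ← Nat.add_mod, Nat.mod_add_mod]

/-- two halves of a cell carry opposite values -/
lemma halves {i : ℕ} (hi : i + 1 ≤ L) {u : ZMod (2 ^ L) → ℂ} (hu : (dy L).Meas (i + 1) u)
    (h0 : ∀ x, (dy L).E i u x = 0) (z : ZMod (2 ^ L)) (hz : z.val % ell L i < ell L (i + 1)) :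
    u (z + (ell L (i + 1) : ZMod (2 ^ L))) = - u z := by
  set l := ell L (i + 1) with hl
  have h2 : ell L i = 2 * l := ell_two_mul hi
  have l0 : 0 < l := ell_pos L (i + 1)
  set p := st L i z with hp
  have hz' : p + ((z.val % ell L i : ℕ) : ZMod (2 ^ L)) = z := st_add_mod L i z
  set r := z.val % ell L i with hr
  have hval : ∀ a < 2 * l, (p + (a : ZMod (2 ^ L))).val = z.val / ell L i * ell L i + a := by
    intro a ha
    exact st_add_val L i z (by omega)
  have hc : ∀ a < 2 * l, (dy L).c (i+1) (p + (a : ZMod (2 ^ L))) = (z.val / ell L i * ell L i + a) / l := by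
    intro a ha
    change (p + (a : ZMod (2 ^ L))).val / l = _
    rw [hval a ha]
  have hc1 : ∀ a < l, u (p + (a : ZMod (2 ^ L))) = u p := by
    intro a ha
    have := hu (p + (a : ZMod (2 ^ L))) (p + ((0:ℕ) : ZMod (2 ^ L))) (by
      rw [hc a (by omega), hc 0 (by omega), h2]
      have : z.val / (2 * l) * (2 * l) = (z.val / (2 * l) * 2) * l := by ring
      rw [this, Nat.mul_comm _ l, Nat.mul_add_div l0, Nat.mul_add_div l0, Nat.div_eq_of_lt ha,
        Nat.zero_div])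
    simpa using this
  have hc2 : ∀ a < l, u (p + ((l + a : ℕ) : ZMod (2 ^ L))) = u (p + (l : ZMod (2 ^ L))) := by
    intro a ha
    refine hu (p + ((l + a : ℕ) : ZMod (2 ^ L))) (p + (l : ZMod (2 ^ L))) ?_
    rw [hc (l + a) (by omega), hc l (by omega), h2]
    have : z.val / (2 * l) * (2 * l) = (z.val / (2 * l) * 2) * l := by ring
    rw [this]
    have e1 : z.val / (2 * l) * 2 * l + (l + a) = l * (z.val / (2 * l) * 2 + 1) + a := by ring
    have e2 : z.val / (2 * l) * 2 * l + l = l * (z.val / (2 * l) * 2 + 1) := by ring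
    rw [e1, e2, Nat.mul_add_div l0, Nat.div_eq_of_lt ha, Nat.mul_div_cancel_left _ l0, add_zero]
  have hE := h0 z
  rw [dyE, ← hp, h2, two_mul, Finset.sum_range_add] at hE
  rw [sum_congr rfl fun a ha => hc1 a (mem_range.1 ha), sum_congr rfl fun a ha =>
    hc2 a (mem_range.1 ha), sum_const, sum_const, card_range, ← smul_add] at hE
  have hne : ((l + l : ℕ) : ℝ)⁻¹ ≠ 0 := by
    have : 0 < l + l := by omega
    positivity
  have hsum : u p + u (p + (l : ZMod (2 ^ L))) = 0 := by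
    have h1 := (smul_eq_zero.1 hE).resolve_left hne
    rw [nsmul_eq_mul] at h1
    have h3 : (l : ℂ) ≠ 0 := by exact_mod_cast l0.ne'
    exact (mul_eq_zero.1 h1).resolve_left h3
  have ez : u z = u p := by rw [← hz']; exact hc1 r hz
  have ez2 : u (z + (l : ZMod (2 ^ L))) = u (p + (l : ZMod (2 ^ L))) := by
    have := hc2 r hz
    rw [← this]
    congr 1
    rw [← hz']
    push_cast
    ring
  rw [ez, ez2]
  linear_combination hsum

/-- K2 -/
lemma cv_fine {g : ℝ → ℂ} {B : ℝ} (hg : Sym g B) {s i : ℕ} (hsi : s ≤ i) (hi : i + 1 ≤ L)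
    {u : ZMod (2 ^ L) → ℂ} (hu : (dy L).Meas (i + 1) u)
    (h0 : ∀ x, (dy L).E i u x = 0) (x : ZMod (2 ^ L)) :
    ‖cv L g s u x‖ ≤ 1600 * B * ((1/2) ^ (i - s) * Av (ell L s) (fun x => ‖u x‖) x) := by
  classical
  set l := ell L (i + 1) with hl
  have h2 : ell L i = 2 * l := ell_two_mul hi
  have l0 : 0 < l := ell_pos L (i + 1)
  have hls : (0:ℝ) < ell L s := by exact_mod_cast ell_pos L s
  set P : ZMod (2 ^ L) → Prop := fun z => z.val % ell L i < l with hP
  have hPl : ∀ z, P (z + (l : ZMod (2 ^ L))) ↔ ¬ P z := by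
    intro z
    simp only [hP]
    rw [val_add_mod (ell_dvd L i), h2]
    have : z.val % (2 * l) < 2 * l := Nat.mod_lt _ (by omega)
    rcases lt_or_ge (z.val % (2 * l)) l with h | h
    · rw [Nat.mod_eq_of_lt (by omega)]
      omega
    · have e : z.val % (2 * l) + l = (z.val % (2 * l) - l) + 2 * l := by omega
      rw [e, Nat.add_mod_right, Nat.mod_eq_of_lt (by omega)]
      omega
  have e1 : cv L g s u x = ∑ z, kap L g s (x - z) * u z := by
    unfold cv
    rw [← Equiv.sum_comp (Equiv.subLeft x)]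
    refine sum_congr rfl fun z _ => ?_
    simp only [Equiv.subLeft_apply, sub_sub_cancel]
  have e2 : ∑ z, kap L g s (x - z) * u z
      = ∑ z, (if P z then (kap L g s (x - z) - kap L g s (x - z + -(l : ZMod (2 ^ L)))) * u z
          else 0) := by
    have a1 : ∑ z, kap L g s (x - z) * u z = ∑ z, (if P z then kap L g s (x - z) * u z else 0)
        + ∑ z, (if P z then 0 else kap L g s (x - z) * u z) := by
      rw [← sum_add_distrib]
      refine sum_congr rfl fun z _ => ?_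
      by_cases h : P z <;> simp [h]
    have a2 : ∑ z, (if P z then 0 else kap L g s (x - z) * u z)
        = ∑ z, (if P z then kap L g s (x - z + -(l : ZMod (2 ^ L))) * (- u z) else 0) := by
      refine (Equiv.sum_comp (Equiv.addRight (l : ZMod (2 ^ L)))
        (fun z => if P z then 0 else kap L g s (x - z) * u z)).symm.trans ?_
      refine sum_congr rfl fun z _ => ?_
      change (if P (z + (l : ZMod (2 ^ L))) then 0 else kap L g s (x - (z + (l : ZMod (2 ^ L))))
        * u (z + (l : ZMod (2 ^ L)))) = _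
      by_cases h : P z
      · have h' : ¬ P (z + (l : ZMod (2 ^ L))) := fun hh => ((hPl z).1 hh) h
        rw [if_pos h, if_neg h', halves hi hu h0 z h]
        congr 2
        ring
      · have h' : P (z + (l : ZMod (2 ^ L))) := (hPl z).2 h
        rw [if_neg h, if_pos h']
    rw [a1, a2, ← sum_add_distrib]
    refine sum_congr rfl fun z _ => ?_
    by_cases h : P z
    · simp only [if_pos h]; ring
    · simp only [if_neg h, add_zero]
  have hnl : nrm (-(l : ZMod (2 ^ L))) ≤ l := by rw [nrm_neg]; exact nrm_natCast l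
  have hlls : (l:ℝ) = (1/2) ^ (i + 1 - s) * ell L s := by
    rw [ell_mul (show s ≤ i + 1 by omega) hi]
    push_cast
    rw [one_div_pow]
    field_simp
    rfl
  have hpow : ((1:ℝ)/2) ^ (i + 1 - s) ≤ (1/2) ^ (i - s) :=
    pow_le_pow_of_le_one (by norm_num) (by norm_num) (by omega)
  have hrat : nrm (-(l : ZMod (2 ^ L))) / ell L s ≤ (1/2) ^ (i - s) := by
    rw [div_le_iff₀ hls]
    refine hnl.trans ?_
    rw [hlls]
    exact mul_le_mul_of_nonneg_right hpow hls.le
  have B0 := hg.nonneg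
  rw [e1, e2]
  refine (norm_sum_le _ _).trans ?_
  have e3 : Av (ell L s) (fun x => ‖u x‖) x = ∑ z, Pk (ell L s) (x - z) * ‖u z‖ := by
    unfold Av
    rw [← Equiv.sum_comp (Equiv.subLeft x)]
    refine sum_congr rfl fun z _ => ?_
    simp only [Equiv.subLeft_apply, sub_sub_cancel]
  rw [e3, mul_sum, mul_sum]
  refine sum_le_sum fun z _ => ?_
  have hpk := (Pk_pos (N := 2 ^ L) hls (x - z)).le
  by_cases h : P z
  · rw [if_pos h, norm_mul]
    have b1 := kap_lip hg (show s ≤ L by omega) (x - z) (-(l : ZMod (2 ^ L))) (by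
      refine hnl.trans ?_
      exact_mod_cast ell_anti (by omega))
    have b2 : 1600 * B * (nrm (-(l : ZMod (2 ^ L))) / ell L s) * Pk (ell L s) (x - z)
        ≤ 1600 * B * (1/2) ^ (i - s) * Pk (ell L s) (x - z) := by
      refine mul_le_mul_of_nonneg_right ?_ hpk
      exact mul_le_mul_of_nonneg_left hrat (by positivity)
    calc _ ≤ (1600 * B * (1/2) ^ (i - s) * Pk (ell L s) (x - z)) * ‖u z‖ :=
          mul_le_mul_of_nonneg_right (b1.trans b2) (norm_nonneg _)
      _ = _ := by ring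
  · rw [if_neg h, norm_zero]
    positivity

/-- symbols vanishing near the origin -/
structure Sm (g : ℝ → ℂ) (B : ℝ) : Prop where
  sym : Sym g B
  sharp : ∃ g' : ℝ → ℂ, Sym g' B ∧ ∀ u, g u = g' u * (ee (u / 16) - 1)

lemma kap_sharp {g g' : ℝ → ℂ} (h : ∀ u, g u = g' u * (ee (u / 16) - 1)) {s : ℕ} (hs : s + 4 ≤ L)
    (t : ZMod (2 ^ L)) :
    kap L g s t = kap L g' s (t + (ell L (s + 4) : ZMod (2 ^ L))) - kap L g' s t := by
  unfold kap
  rw [← mul_sub, ← sum_sub_distrib]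
  congr 1
  refine sum_congr rfl fun k _ => ?_
  have e2 : chr ((k : ZMod (2 ^ L)) * (t + (ell L (s + 4) : ZMod (2 ^ L))))
      = chr ((k : ZMod (2 ^ L)) * t) * ee ((k:ℝ) / 2 ^ s / 16) := by
    rw [mul_add, chr_add]
    congr 1
    have : (k : ZMod (2 ^ L)) * (ell L (s + 4) : ZMod (2 ^ L))
        = ((k * (ell L (s + 4) : ℕ) : ℤ) : ZMod (2 ^ L)) := by
      push_cast; ring
    rw [this, chr_int]
    congr 1
    have hell : (ell L (s+4) : ℝ) * 2 ^ (s+4) = 2 ^ L := by exact_mod_cast ell_mul_two_pow hs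
    have h0 : (0:ℝ) < ell L (s+4) := by exact_mod_cast ell_pos L (s+4)
    rw [← hell]
    push_cast
    rw [pow_add]
    field_simp
    norm_num
  rw [e2, h]
  ring

lemma cv_sharp {g g' : ℝ → ℂ} (h : ∀ u, g u = g' u * (ee (u / 16) - 1)) {s : ℕ} (hs : s + 4 ≤ L)
    (u : ZMod (2 ^ L) → ℂ) (x : ZMod (2 ^ L)) :
    cv L g s u x = cv L g' s u (x + (ell L (s + 4) : ZMod (2 ^ L))) - cv L g' s u x := by
  rw [cv_eq']
  unfold cv
  rw [← sum_sub_distrib]
  refine sum_congr rfl fun t _ => ?_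
  rw [kap_sharp h hs]
  ring

/-- boundary function -/
noncomputable def bd (L s j : ℕ) (h : ZMod (2 ^ L) → ℝ) (x : ZMod (2 ^ L)) : ℝ :=
  if ell L j ≤ x.val % ell L j + ell L (s + 4) then
    h x + h (x + (ell L (s + 4) : ZMod (2 ^ L))) else 0

lemma same_cell {j w : ℕ} (z : ZMod (2 ^ L)) (h : z.val % ell L j + w < ell L j) :
    (dy L).c j (z + (w : ZMod (2 ^ L))) = (dy L).c j z := by
  change (z + (w : ZMod (2 ^ L))).val / ell L j = z.val / ell L j
  have hz : st L j z + ((z.val % ell L j : ℕ) : ZMod (2 ^ L)) = z := st_add_mod L j z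
  have h1 : z + (w : ZMod (2 ^ L)) = st L j z + ((z.val % ell L j + w : ℕ) : ZMod (2 ^ L)) := by
    nth_rewrite 1 [← hz]; push_cast; ring
  rw [h1, st_add_val L j z h, mul_comm, Nat.mul_add_div (ell_pos L j), Nat.div_eq_of_lt h, add_zero]

/-- K3 -/
lemma cv_coarse {g : ℝ → ℂ} {B : ℝ} (hg : Sm g B) {s j : ℕ} (hs : s + 4 ≤ L)
    {u : ZMod (2 ^ L) → ℂ} (hu : (dy L).Meas j u) (x : ZMod (2 ^ L)) :
    ‖cv L g s u x‖ ≤ 10 * B * Av (ell L s) (bd L s j (fun x => ‖u x‖)) x := by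
  obtain ⟨g', hg', hgg⟩ := hg.sharp
  have e1 : cv L g s u x = cv L g' s (fun z => u (z + (ell L (s + 4) : ZMod (2 ^ L))) - u z) x := by
    rw [cv_sharp hgg hs, cv_sub, cv_shift]
  rw [e1]
  refine (cv_norm_le hg' (by omega) _ x).trans ?_
  have B0 := hg'.nonneg
  refine mul_le_mul_of_nonneg_left ?_ (by positivity)
  have hls : (0:ℝ) < ell L s := by exact_mod_cast ell_pos L s
  refine Av_mono hls (fun z => ?_) x
  unfold bd
  split_ifs with h
  · refine (norm_sub_le _ _).trans (le_of_eq (add_comm _ _))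
  · push Not at h
    rw [hu _ _ (same_cell z h), sub_self, norm_zero]

/-- distance of indices -/
def ad (i s : ℕ) : ℕ := (i - s) + (s - i)

/-- combined positive operator -/
noncomputable def AB (L s i : ℕ) (h : ZMod (2 ^ L) → ℝ) (x : ZMod (2 ^ L)) : ℝ :=
  if s ≤ i then (1/2) ^ (i - s) * Av (ell L s) h x else Av (ell L s) (bd L s (i + 1) h) x

/-- K23 -/
lemma cv_block {g : ℝ → ℂ} {B : ℝ} (hg : Sm g B) {s i : ℕ} (hs : s + 4 ≤ L) (hi : i + 1 ≤ L)
    {u : ZMod (2 ^ L) → ℂ} (hu : (dy L).Meas (i + 1) u)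
    (h0 : ∀ x, (dy L).E i u x = 0) (x : ZMod (2 ^ L)) :
    ‖cv L g s u x‖ ≤ 1600 * B * AB L s i (fun x => ‖u x‖) x := by
  unfold AB
  split_ifs with h
  · exact cv_fine hg.sym h hi hu h0 x
  · refine (cv_coarse hg hs hu x).trans ?_
    have B0 := hg.sym.nonneg
    have hls : (0:ℝ) < ell L s := by exact_mod_cast ell_pos L s
    refine mul_le_mul_of_nonneg_right (by linarith) (Av_nonneg hls (fun z => ?_) x)
    unfold bd
    split_ifs
    · positivity
    · exact le_rfl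

lemma bd_mono {s j : ℕ} {h h' : ZMod (2 ^ L) → ℝ} (H : ∀ x, h x ≤ h' x) (x : ZMod (2 ^ L)) :
    bd L s j h x ≤ bd L s j h' x := by
  unfold bd
  split_ifs
  · exact add_le_add (H _) (H _)
  · exact le_rfl

lemma bd_nonneg {s j : ℕ} {h : ZMod (2 ^ L) → ℝ} (H : ∀ x, 0 ≤ h x) (x : ZMod (2 ^ L)) :
    0 ≤ bd L s j h x := by
  unfold bd
  split_ifs
  · exact add_nonneg (H _) (H _)
  · exact le_rfl

lemma bd_lin {ι : Type*} {s j : ℕ} (S : Finset ι) (c : ι → ℝ) (h : ι → ZMod (2 ^ L) → ℝ)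
    (x : ZMod (2 ^ L)) :
    bd L s j (fun x => ∑ k ∈ S, c k * h k x) x = ∑ k ∈ S, c k * bd L s j (h k) x := by
  unfold bd
  split_ifs
  · rw [← sum_add_distrib]
    exact sum_congr rfl fun k _ => by ring
  · simp

lemma AB_mono {s i : ℕ} {h h' : ZMod (2 ^ L) → ℝ} (H : ∀ x, h x ≤ h' x) (x : ZMod (2 ^ L)) :
    AB L s i h x ≤ AB L s i h' x := by
  have hls : (0:ℝ) < ell L s := by exact_mod_cast ell_pos L s
  unfold AB
  split_ifs
  · exact mul_le_mul_of_nonneg_left (Av_mono hls H x) (by positivity)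
  · exact Av_mono hls (fun z => bd_mono H z) x

lemma AB_nonneg {s i : ℕ} {h : ZMod (2 ^ L) → ℝ} (H : ∀ x, 0 ≤ h x) (x : ZMod (2 ^ L)) :
    0 ≤ AB L s i h x := by
  have hls : (0:ℝ) < ell L s := by exact_mod_cast ell_pos L s
  unfold AB
  split_ifs
  · exact mul_nonneg (by positivity) (Av_nonneg hls H x)
  · exact Av_nonneg hls (fun z => bd_nonneg H z) x

lemma Av_lin {ι : Type*} (l : ℝ) (S : Finset ι) (c : ι → ℝ) (h : ι → ZMod (2 ^ L) → ℝ)
    (x : ZMod (2 ^ L)) :
    Av l (fun x => ∑ k ∈ S, c k * h k x) x = ∑ k ∈ S, c k * Av l (h k) x := by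
  rw [Av_sum']
  exact sum_congr rfl fun k _ => Av_mul l (c k) (h k) x

lemma AB_lin {ι : Type*} {s i : ℕ} (S : Finset ι) (c : ι → ℝ) (h : ι → ZMod (2 ^ L) → ℝ)
    (x : ZMod (2 ^ L)) :
    AB L s i (fun x => ∑ k ∈ S, c k * h k x) x = ∑ k ∈ S, c k * AB L s i (h k) x := by
  unfold AB
  split_ifs
  · rw [Av_lin, mul_sum]
    exact sum_congr rfl fun k _ => by ring
  · have : bd L s (i+1) (fun x => ∑ k ∈ S, c k * h k x)
        = fun x => ∑ k ∈ S, c k * bd L s (i+1) (h k) x := funext fun z => bd_lin S c h z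
    rw [this, Av_lin]

lemma AB_mul {s i : ℕ} (c : ℝ) (h : ZMod (2 ^ L) → ℝ) (x : ZMod (2 ^ L)) :
    AB L s i (fun x => c * h x) x = c * AB L s i h x := by
  have := AB_lin (s := s) (i := i) (L := L) ({()} : Finset Unit) (fun _ => c) (fun _ => h) x
  simpa using this

lemma Av_AB {s i : ℕ} {h : ZMod (2 ^ L) → ℝ} (H : ∀ x, 0 ≤ h x) (x : ZMod (2 ^ L)) :
    Av (ell L s) (AB L s i h) x ≤ 80 * AB L s i h x := by
  unfold AB
  split_ifs
  · rw [Av_mul]
    have := Av_Av (N := 2 ^ L) (ell_pos L s) H x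
    have h1 := mul_le_mul_of_nonneg_left this (by positivity : 0 ≤ (1/2:ℝ) ^ (i - s))
    linarith
  · exact Av_Av (N := 2 ^ L) (ell_pos L s) (fun z => bd_nonneg H z) x

end HC

end
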