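import Pool.Agent.Helper61.HC.TwoD

section
/-!
The weighted energy argument along hyperbolic chains.
-/

open Finset

namespace HC

open Dy

section wcond
variable {X : Type} [Fintype X] {D : Dy X}

/-- weighted conditional expectation -/
noncomputable def Dy.Ew (D : Dy X) (j : ℕ) (w g : X → ℝ) (x : X) : ℝ :=
  D.E j (fun y => w y * g y) x / D.E j w x

lemma Ew_meas (j : ℕ) (w g : X → ℝ) : D.Meas j (D.Ew j w g) :=
  Meas.comp₂ (E_meas _ _) (E_meas _ _) fun s t => s / t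

lemma Ew_add (j : ℕ) (w g h : X → ℝ) (x : X) :
    D.Ew j w (fun x => g x + h x) x = D.Ew j w g x + D.Ew j w h x := by
  unfold Dy.Ew
  simp only [mul_add]
  rw [E_add, add_div]

lemma Ew_sub (j : ℕ) (w g h : X → ℝ) (x : X) :
    D.Ew j w (fun x => g x - h x) x = D.Ew j w g x - D.Ew j w h x := by
  unfold Dy.Ew
  simp only [mul_sub]
  rw [E_sub, sub_div]

lemma Ew_mul (j : ℕ) (w : X → ℝ) (b : ℝ) (g : X → ℝ) (x : X) :
    D.Ew j w (fun x => b * g x) x = b * D.Ew j w g x := by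
  unfold Dy.Ew
  have : (fun y => w y * (b * g y)) = fun y => b * (w y * g y) := by ext y; ring
  rw [this, E_mul, mul_div_assoc]

lemma Ew_of_meas {j : ℕ} {w g : X → ℝ} (hw : ∀ x, 0 < w x) (hg : D.Meas j g) (x : X) :
    D.Ew j w g x = g x := by
  unfold Dy.Ew
  rw [E_meas_mul hg, mul_comm, mul_div_assoc, div_self (E_pos hw x).ne', mul_one]

lemma Ew_mono {j : ℕ} {w g h : X → ℝ} (hw : ∀ x, 0 < w x) {x : X}
    (H : ∀ y, D.c j y = D.c j x → g y ≤ h y) :
    D.Ew j w g x ≤ D.Ew j w h x := by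
  unfold Dy.Ew
  refine div_le_div_of_nonneg_right ?_ (E_pos hw x).le
  exact E_mono_cell fun y hy => mul_le_mul_of_nonneg_left (H y hy) (hw y).le

lemma Ew_const {j : ℕ} {w : X → ℝ} (hw : ∀ x, 0 < w x) (b : ℝ) (x : X) :
    D.Ew j w (fun _ => b) x = b := Ew_of_meas hw (Meas.const j b) x

lemma sum_Ew_mul {j : ℕ} {w g h : X → ℝ} (hw : ∀ x, 0 < w x) (hh : D.Meas j h) :
    ∑ x, w x * (D.Ew j w g x * h x) = ∑ x, w x * (g x * h x) := by
  have m1 : D.Meas j (fun x => D.Ew j w g x * h x) :=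
    Meas.comp₂ (Ew_meas j w g) hh fun s t => s * t
  rw [← sum_E_mul m1]
  have : ∀ x, D.E j w x * (D.Ew j w g x * h x) = D.E j (fun y => w y * g y) x * h x := by
    intro x
    unfold Dy.Ew
    have := (E_pos (D := D) (j := j) hw x).ne'
    field_simp
  rw [sum_congr rfl fun x _ => this x, sum_E_mul hh]
  exact sum_congr rfl fun x _ => by ring

lemma sum_Ew_sq_le {j : ℕ} {w g : X → ℝ} (hw : ∀ x, 0 < w x) :
    ∑ x, w x * (D.Ew j w g x) ^ 2 ≤ ∑ x, w x * g x ^ 2 := by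
  have h1 := sum_Ew_mul (D := D) (g := g) hw (Ew_meas j w g)
  have h2 : 0 ≤ ∑ x, w x * (g x - D.Ew j w g x) ^ 2 :=
    sum_nonneg fun x _ => mul_nonneg (hw x).le (sq_nonneg _)
  have h3 : ∑ x, w x * (g x - D.Ew j w g x) ^ 2 = ∑ x, w x * g x ^ 2
      - 2 * ∑ x, w x * (g x * D.Ew j w g x) + ∑ x, w x * (D.Ew j w g x * D.Ew j w g x) := by
    rw [mul_sum, ← sum_sub_distrib, ← sum_add_distrib]
    exact sum_congr rfl fun x _ => by ring
  have h4 : ∑ x, w x * (D.Ew j w g x) ^ 2 = ∑ x, w x * (D.Ew j w g x * D.Ew j w g x) :=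
    sum_congr rfl fun x _ => by ring
  rw [h3, ← h1] at h2
  rw [h4]
  linarith

end wcond

variable {X Y : Type} [Fintype X] [Fintype Y]

/-- `E_k` in the `y` variable -/
noncomputable def Ek (D' : Dy Y) (k : ℕ) (f : X → Y → ℝ) (x : X) (y : Y) : ℝ := D'.E k (f x) y

/-- weighted `x`-projection of `E_k^y f` -/
noncomputable def Wk (D : Dy X) (D' : Dy Y) (v f : X → Y → ℝ) (j k : ℕ) (x : X) (y : Y) : ℝ :=
  D.Ew j (fun x' => Ek D' k v x' y) (fun x' => Ek D' k f x' y) x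

noncomputable def Ak (D : Dy X) (D' : Dy Y) (v f : X → Y → ℝ) (M k : ℕ) (x : X) (y : Y) : ℝ :=
  Ek D' k f x y - Wk D D' v f (M - k) k x y

/-- increments `χ_{k+1} = A_{k+1} - A_k` -/
noncomputable def chi (D : Dy X) (D' : Dy Y) (v f : X → Y → ℝ) (M k : ℕ) (x : X) (y : Y) : ℝ :=
  Ak D D' v f M (k + 1) x y - Ak D D' v f M k x y

variable {D : Dy X} {D' : Dy Y} {v f : X → Y → ℝ}

lemma Ek_pos (hv : ∀ x y, 0 < v x y) (k : ℕ) (x : X) (y : Y) : 0 < Ek D' k v x y :=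
  E_pos (hv x) y

lemma Ek_meas (k : ℕ) (x : X) : D'.Meas k (Ek D' k f x) := E_meas _ _

lemma Wk_measx (j k : ℕ) (y : Y) : D.Meas j (fun x => Wk D D' v f j k x y) := Ew_meas _ _ _

lemma Wk_measy (j k : ℕ) (x : X) : D'.Meas k (Wk D D' v f j k x) := by
  intro y y' h
  unfold Wk
  have h1 : (fun x' => Ek D' k v x' y) = fun x' => Ek D' k v x' y' := by
    ext x'; exact Ek_meas k x' y y' h
  have h2 : (fun x' => Ek D' k f x' y) = fun x' => Ek D' k f x' y' := by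
    ext x'; exact Ek_meas k x' y y' h
  rw [h1, h2]

lemma Ak_measy (M k : ℕ) (x : X) : D'.Meas k (Ak D D' v f M k x) :=
  Meas.comp₂ (Ek_meas k x) (Wk_measy (M - k) k x) fun s t => s - t

/-- orthogonality of `A_k` to functions that are `x`-measurable at level `M - k` -/
lemma Ak_orth_x (hv : ∀ x y, 0 < v x y) (M k : ℕ) (y : Y) {h : X → ℝ} (hh : D.Meas (M - k) h) :
    ∑ x, Ek D' k v x y * (Ak D D' v f M k x y * h x) = 0 := by
  unfold Ak
  have h1 := sum_Ew_mul (D := D) (g := fun x' => Ek D' k f x' y)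
    (fun x => Ek_pos (D' := D') hv k x y) hh
  have h2 : ∀ x, Ek D' k v x y * ((Ek D' k f x y - Wk D D' v f (M - k) k x y) * h x)
      = Ek D' k v x y * (Ek D' k f x y * h x)
        - Ek D' k v x y * (Wk D D' v f (M - k) k x y * h x) := fun x => by ring
  rw [sum_congr rfl fun x _ => h2 x, sum_sub_distrib]
  unfold Wk
  rw [h1, sub_self]

lemma chi_eq (M k : ℕ) (x : X) (y : Y) :
    chi D D' v f M k x y = D'.del k (f x) y - Wk D D' v f (M - (k + 1)) (k + 1) x y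
      + Wk D D' v f (M - k) k x y := by
  unfold chi Ak Ek Dy.del
  ring

/-- the key orthogonality -/
lemma Ak_orth_chi (hv : ∀ x y, 0 < v x y) (M k : ℕ) :
    ∑ x, ∑ y, Ek D' k v x y * (Ak D D' v f M k x y * chi D D' v f M k x y) = 0 := by
  have h1 : ∀ x y, Ek D' k v x y * (Ak D D' v f M k x y * chi D D' v f M k x y)
      = (Ek D' k v x y * Ak D D' v f M k x y) * D'.del k (f x) y
        - Ek D' k v x y * (Ak D D' v f M k x y * Wk D D' v f (M - (k + 1)) (k + 1) x y)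
        + Ek D' k v x y * (Ak D D' v f M k x y * Wk D D' v f (M - k) k x y) := by
    intro x y; rw [chi_eq]; ring
  simp only [h1, sum_add_distrib, sum_sub_distrib]
  have e1 : ∑ x, ∑ y, (Ek D' k v x y * Ak D D' v f M k x y) * D'.del k (f x) y = 0 := by
    refine sum_eq_zero fun x _ => ?_
    have m1 : D'.Meas k (fun y => Ek D' k v x y * Ak D D' v f M k x y) :=
      Meas.comp₂ (Ek_meas k x) (Ak_measy M k x) fun s t => s * t
    rw [← sum_mul_E m1]
    exact sum_eq_zero fun y _ => by rw [E_del, mul_zero]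
  have e2 : ∑ x, ∑ y, Ek D' k v x y * (Ak D D' v f M k x y
      * Wk D D' v f (M - (k + 1)) (k + 1) x y) = 0 := by
    rw [sum_comm]
    refine sum_eq_zero fun y _ => ?_
    exact Ak_orth_x hv M k y ((Wk_measx _ _ y).mono (by omega))
  have e3 : ∑ x, ∑ y, Ek D' k v x y * (Ak D D' v f M k x y
      * Wk D D' v f (M - k) k x y) = 0 := by
    rw [sum_comm]
    refine sum_eq_zero fun y _ => ?_
    exact Ak_orth_x hv M k y (Wk_measx _ _ y)
  rw [e1, e2, e3]; ring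

/-- energy -/
noncomputable def en (D : Dy X) (D' : Dy Y) (v f : X → Y → ℝ) (M k : ℕ) : ℝ :=
  ∑ x, ∑ y, Ek D' k v x y * (Ak D D' v f M k x y) ^ 2

lemma en_step (hv : ∀ x y, 0 < v x y) (M k : ℕ) :
    en D D' v f M (k + 1) = en D D' v f M k
      + 2 * ∑ x, ∑ y, (Ek D' (k+1) v x y - Ek D' k v x y)
          * (Ak D D' v f M k x y * chi D D' v f M k x y)
      + ∑ x, ∑ y, Ek D' (k+1) v x y * (chi D D' v f M k x y) ^ 2 := by
  have h1 : ∀ x y, Ek D' (k+1) v x y * (Ak D D' v f M (k+1) x y) ^ 2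
      = Ek D' (k+1) v x y * (Ak D D' v f M k x y) ^ 2
        + 2 * ((Ek D' (k+1) v x y - Ek D' k v x y)
          * (Ak D D' v f M k x y * chi D D' v f M k x y))
        + 2 * (Ek D' k v x y * (Ak D D' v f M k x y * chi D D' v f M k x y))
        + Ek D' (k+1) v x y * (chi D D' v f M k x y) ^ 2 := by
    intro x y
    have : Ak D D' v f M (k+1) x y = Ak D D' v f M k x y + chi D D' v f M k x y := by
      unfold chi; ring
    rw [this]; ring
  unfold en
  simp only [h1, sum_add_distrib, ← mul_sum]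
  rw [Ak_orth_chi hv M k]
  have h2 : ∑ x, ∑ y, Ek D' (k+1) v x y * (Ak D D' v f M k x y) ^ 2
      = ∑ x, ∑ y, Ek D' k v x y * (Ak D D' v f M k x y) ^ 2 := by
    refine sum_congr rfl fun x _ => ?_
    have m1 : D'.Meas k (fun y => (Ak D D' v f M k x y) ^ 2) :=
      (Ak_measy M k x).comp fun t => t ^ 2
    have h3 := sum_E_mul (D := D') (h := D'.E (k+1) (v x)) m1
    have h4 := sum_E_mul (D := D') (h := v x) m1
    have h5 : ∀ y, D'.E k (D'.E (k+1) (v x)) y = D'.E k (v x) y := fun y =>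
      E_E_coarse (Nat.le_succ k) _ _
    simp only [h5] at h3
    unfold Ek
    rw [← h3]
  rw [h2]; ring

/-- abstract energy inequality, one step -/
lemma en_step_le (hv : ∀ x y, 0 < v x y) (M k : ℕ) :
    (1/2) * ∑ x, ∑ y, Ek D' (k+1) v x y * (chi D D' v f M k x y) ^ 2
      ≤ en D D' v f M (k + 1) - en D D' v f M k
        + 2 * ∑ x, ∑ y, (Ek D' (k+1) v x y - Ek D' k v x y) ^ 2
          * (Ak D D' v f M k x y) ^ 2 / Ek D' (k+1) v x y := by
  rw [en_step hv]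
  have h1 : ∀ x y, - (2 * ((Ek D' (k+1) v x y - Ek D' k v x y)
          * (Ak D D' v f M k x y * chi D D' v f M k x y)))
      ≤ (1/2) * (Ek D' (k+1) v x y * (chi D D' v f M k x y) ^ 2)
        + 2 * ((Ek D' (k+1) v x y - Ek D' k v x y) ^ 2
          * (Ak D D' v f M k x y) ^ 2 / Ek D' (k+1) v x y) := by
    intro x y
    have e0 := Ek_pos (D' := D') hv (k+1) x y
    set w := Ek D' (k+1) v x y
    set d := w - Ek D' k v x y
    set A := Ak D D' v f M k x y
    set c := chi D D' v f M k x y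
    have h2 : 0 ≤ (1 / (2 * w)) * (w * c + 2 * (d * A)) ^ 2 := by positivity
    have h3 : (1 / (2 * w)) * (w * c + 2 * (d * A)) ^ 2
        = (1/2) * (w * c ^ 2) + 2 * (d * (A * c)) + 2 * (d ^ 2 * A ^ 2 / w) := by
      field_simp
      ring
    linarith
  have h2 := sum_le_sum fun x (_ : x ∈ (univ : Finset X)) =>
    sum_le_sum fun y (_ : y ∈ (univ : Finset Y)) => h1 x y
  simp only [sum_add_distrib, sum_neg_distrib, ← mul_sum] at h2
  linarith

end HC

end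

section
/-!
The pointwise (robust) bound for the weighted projections.
-/

open Finset

namespace HC

open Dy

variable {X Y : Type} [Fintype X] [Fintype Y]

/-- hypotheses on the weight and on the function -/
structure WS (D : Dy X) (D' : Dy Y) (σ f : X → Y → ℝ) (A q : ℝ) : Prop where
  hσ : ∀ x y, 0 < σ x y
  hA1 : 1 ≤ A
  hAx : ∀ j x y, D.E j (fun x' => σ x' y) x ≤ A * σ x y
  hAy : ∀ j x y, D'.E j (σ x) y ≤ A * σ x y
  hq1 : 1 ≤ q
  hq2 : q ≤ 2
  hf : ∀ x y, |f x y| ≤ σ x y ^ q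

variable {D : Dy X} {D' : Dy Y} {σ f : X → Y → ℝ} {A q : ℝ}

/-- the high remainder -/
noncomputable def rem (D : Dy X) (D' : Dy Y) (f : X → Y → ℝ) (j k : ℕ) (x : X) (y : Y) : ℝ :=
  (f x y - Ek D' k f x y) - D.E j (fun x' => f x' y - Ek D' k f x' y) x

noncomputable def Hk (D : Dy X) (D' : Dy Y) (f : X → Y → ℝ) (j k : ℕ) (x : X) (y : Y) : ℝ :=
  D'.E k (fun y' => |rem D D' f j k x y'|) y

lemma Hk_nonneg (j k : ℕ) (x : X) (y : Y) : 0 ≤ Hk D D' f j k x y :=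
  E_nonneg (fun _ => abs_nonneg _) y

lemma Hk_measy (j k : ℕ) (x : X) : D'.Meas k (Hk D D' f j k x) := E_meas _ _

namespace WS

variable (h : WS D D' σ f A q)
include h

lemma hA0 : 0 < A := lt_of_lt_of_le one_pos h.hA1

lemma hq0 : 0 ≤ q := by linarith [h.hq1]

lemma vpos (x : X) (y : Y) : 0 < σ x y ^ (-q) := Real.rpow_pos_of_pos (h.hσ x y) _

lemma Eσpos (k : ℕ) (x : X) (y : Y) : 0 < Ek D' k σ x y := E_pos (h.hσ x) y

lemma one_le_a : 1 ≤ A ^ q := Real.one_le_rpow h.hA1 h.hq0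

lemma diff_bound {j k : ℕ} {x x' : X} (hc : D.c j x = D.c j x') (y : Y) :
    |Ek D' k f x y - Ek D' k f x' y|
      ≤ 2 * 4 ^ q * ((Ek D' k σ x y) ^ q + (Ek D' k σ x' y) ^ q)
        + 2 * Hk D D' f j k x y + 2 * Hk D D' f j k x' y := by
  set δ : Y → ℝ := fun y => |Ek D' k f x y - Ek D' k f x' y| with hδ
  have hδ0 : ∀ y, 0 ≤ δ y := fun y => abs_nonneg _
  have mδ : D'.Meas k δ := Meas.comp₂ (Ek_meas (f := f) k x) (Ek_meas (f := f) k x') fun s t => |s - t|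
  have mx : D'.Meas k (Ek D' k σ x) := Ek_meas k x
  have mx' : D'.Meas k (Ek D' k σ x') := Ek_meas k x'
  have b1 : ∀ y', δ y' ≤ σ x y' ^ q + σ x' y' ^ q + |rem D D' f j k x y'|
      + |rem D D' f j k x' y'| := by
    intro y'
    have e1 : Ek D' k f x y' - Ek D' k f x' y' = f x y' - f x' y' - rem D D' f j k x y'
        + rem D D' f j k x' y' := by
      have e2 : D.E j (fun x' => f x' y' - Ek D' k f x' y') x
        = D.E j (fun x' => f x' y' - Ek D' k f x' y') x' := E_meas _ _ _ _ hc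
      unfold rem
      rw [e2]; ring
    simp only [hδ]
    rw [e1]
    have h1 := h.hf x y'
    have h2 := h.hf x' y'
    rw [abs_le] at *
    have h3 := abs_le.1 (le_refl |rem D D' f j k x y'|)
    have h4 := abs_le.1 (le_refl |rem D D' f j k x' y'|)
    constructor <;> linarith [h3.1, h3.2, h4.1, h4.2, h1.1, h1.2, h2.1, h2.2]
  have b2 : ∀ y', δ y' ≤ (4 ^ q * ((Ek D' k σ x y') ^ q + (Ek D' k σ x' y') ^ q))
      + |rem D D' f j k x y'| + |rem D D' f j k x' y'|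
      + (δ y' / (4 * Ek D' k σ x y')) * σ x y' + (δ y' / (4 * Ek D' k σ x' y')) * σ x' y' := by
    intro y'
    have p1 := h.Eσpos k x y'
    have p2 := h.Eσpos k x' y'
    have s1 := h.hσ x y'
    have s2 := h.hσ x' y'
    have d0 := hδ0 y'
    have r1 := abs_nonneg (rem D D' f j k x y')
    have r2 := abs_nonneg (rem D D' f j k x' y')
    have t1 : 0 ≤ (δ y' / (4 * Ek D' k σ x y')) * σ x y' := by positivity
    have t2 : 0 ≤ (δ y' / (4 * Ek D' k σ x' y')) * σ x' y' := by positivity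
    have t3 : 0 ≤ (4:ℝ) ^ q * ((Ek D' k σ x y') ^ q + (Ek D' k σ x' y') ^ q) := by positivity
    by_cases c1 : σ x y' ≤ 4 * Ek D' k σ x y'
    · by_cases c2 : σ x' y' ≤ 4 * Ek D' k σ x' y'
      · have u1 : σ x y' ^ q ≤ 4 ^ q * (Ek D' k σ x y') ^ q := by
          rw [← Real.mul_rpow (by norm_num) p1.le]
          exact Real.rpow_le_rpow s1.le c1 h.hq0
        have u2 : σ x' y' ^ q ≤ 4 ^ q * (Ek D' k σ x' y') ^ q := by
          rw [← Real.mul_rpow (by norm_num) p2.le]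
          exact Real.rpow_le_rpow s2.le c2 h.hq0
        have := b1 y'
        nlinarith
      · push Not at c2
        have u : δ y' ≤ (δ y' / (4 * Ek D' k σ x' y')) * σ x' y' := by
          rw [div_mul_eq_mul_div, le_div_iff₀ (by positivity)]
          exact mul_le_mul_of_nonneg_left c2.le d0
        linarith
    · push Not at c1
      have u : δ y' ≤ (δ y' / (4 * Ek D' k σ x y')) * σ x y' := by
        rw [div_mul_eq_mul_div, le_div_iff₀ (by positivity)]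
        exact mul_le_mul_of_nonneg_left c1.le d0
      linarith
  have b3 := E_mono (D := D') (j := k) b2 y
  rw [E_add, E_add, E_add, E_add] at b3
  have m1 : D'.Meas k (fun y' => (4:ℝ) ^ q * ((Ek D' k σ x y') ^ q + (Ek D' k σ x' y') ^ q)) :=
    Meas.comp₂ mx mx' fun s t => 4 ^ q * (s ^ q + t ^ q)
  have m2 : D'.Meas k (fun y' => δ y' / (4 * Ek D' k σ x y')) :=
    Meas.comp₂ mδ mx fun s t => s / (4 * t)
  have m3 : D'.Meas k (fun y' => δ y' / (4 * Ek D' k σ x' y')) :=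
    Meas.comp₂ mδ mx' fun s t => s / (4 * t)
  rw [E_of_meas mδ, E_of_meas m1, E_mul_meas m2, E_mul_meas m3] at b3
  have p1 := h.Eσpos k x y
  have p2 := h.Eσpos k x' y
  have e1 : δ y / (4 * Ek D' k σ x y) * D'.E k (fun y' => σ x y') y = δ y / 4 := by
    change δ y / (4 * Ek D' k σ x y) * Ek D' k σ x y = δ y / 4
    field_simp
  have e2 : δ y / (4 * Ek D' k σ x' y) * D'.E k (fun y' => σ x' y') y = δ y / 4 := by
    change δ y / (4 * Ek D' k σ x' y) * Ek D' k σ x' y = δ y / 4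
    field_simp
  rw [e1, e2] at b3
  change δ y ≤ _
  unfold Hk
  linarith

/-- `v_k σ_k^q ≤ A^q` -/
lemma vkσk (k : ℕ) (x : X) (y : Y) :
    Ek D' k (fun x y => σ x y ^ (-q)) x y * (Ek D' k σ x y) ^ q ≤ A ^ q := by
  have h1 := Ev_le (D := D') (h.hσ x) h.hq0 h.hA0 (fun j y => h.hAy j x y) k y
  have p1 := h.Eσpos k x y
  have p2 : 0 < (Ek D' k σ x y) ^ q := Real.rpow_pos_of_pos p1 _
  calc _ ≤ (A ^ q * (Ek D' k σ x y) ^ (-q)) * (Ek D' k σ x y) ^ q :=
        mul_le_mul_of_nonneg_right h1 p2.le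
    _ = A ^ q * ((Ek D' k σ x y) ^ (-q) * (Ek D' k σ x y) ^ q) := by ring
    _ = A ^ q := by rw [← Real.rpow_add p1]; simp

lemma σk_le_vk (k : ℕ) (x : X) (y : Y) :
    (Ek D' k σ x y) ^ (-q) ≤ Ek D' k (fun x y => σ x y ^ (-q)) x y :=
  jensen_neg (D := D') (h.hσ x) h.hq0 k y

lemma v_le_Ex (j : ℕ) (x : X) (y : Y) :
    σ x y ^ (-q) ≤ A ^ q * D.E j (fun x' => σ x' y ^ (-q)) x :=
  v_le_Ev (D := D) (fun x => h.hσ x y) h.hq0 h.hA0 (fun j x => h.hAx j x y) j x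

lemma v_le_Ey (k : ℕ) (x : X) (y : Y) :
    σ x y ^ (-q) ≤ A ^ q * D'.E k (fun y' => σ x y' ^ (-q)) y :=
  v_le_Ev (D := D') (h.hσ x) h.hq0 h.hA0 (fun j y => h.hAy j x y) k y

lemma Ex_double (j : ℕ) (x : X) (y : Y) :
    D.E j (fun x' => σ x' y ^ (-q)) x ≤ 2 ^ q * A ^ q * D.E (j+1) (fun x' => σ x' y ^ (-q)) x :=
  Ev_double (D := D) (fun x => h.hσ x y) h.hq0 h.hA0 (fun j x => h.hAx j x y) j x

lemma Ey_double (k : ℕ) (x : X) (y : Y) :
    D'.E k (fun y' => σ x y' ^ (-q)) y ≤ 2 ^ q * A ^ q * D'.E (k+1) (fun y' => σ x y' ^ (-q)) y :=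
  Ev_double (D := D') (h.hσ x) h.hq0 h.hA0 (fun j y => h.hAy j x y) k y

lemma vk_le_Ex (j k : ℕ) (x : X) (y : Y) :
    Ek D' k (fun x y => σ x y ^ (-q)) x y
      ≤ A ^ q * D.E j (fun x' => Ek D' k (fun x y => σ x y ^ (-q)) x' y) x := by
  unfold Ek
  rw [E_comm, ← E_mul]
  exact E_mono (fun y' => h.v_le_Ex j x y') y

/-- the pointwise bound for `A_k` -/
lemma Ak_bound (M k : ℕ) (x : X) (y : Y) :
    |Ak D D' (fun x y => σ x y ^ (-q)) f M k x y|
      ≤ 2 * 4 ^ q * (1 + (A ^ q) ^ 2) * (Ek D' k σ x y) ^ q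
        + (2 * Hk D D' f (M - k) k x y
          + 2 * D.Ew (M - k) (fun x' => Ek D' k (fun x y => σ x y ^ (-q)) x' y)
              (fun x' => Hk D D' f (M - k) k x' y) x) := by
  set v : X → Y → ℝ := fun x y => σ x y ^ (-q) with hv
  set j := M - k with hj
  have hv0 : ∀ x', 0 < Ek D' k v x' y := fun x' => E_pos (fun y => h.vpos x' y) y
  have e1 : Ak D D' v f M k x y
      = D.Ew j (fun x' => Ek D' k v x' y) (fun x' => Ek D' k f x y - Ek D' k f x' y) x := by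
    rw [Ew_sub, Ew_const hv0]
    rfl
  have e2 : |D.Ew j (fun x' => Ek D' k v x' y) (fun x' => Ek D' k f x y - Ek D' k f x' y) x|
      ≤ D.Ew j (fun x' => Ek D' k v x' y)
        (fun x' => 2 * 4 ^ q * ((Ek D' k σ x y) ^ q + (Ek D' k σ x' y) ^ q)
        + 2 * Hk D D' f j k x y + 2 * Hk D D' f j k x' y) x := by
    rw [abs_le]
    constructor
    · have : -(D.Ew j (fun x' => Ek D' k v x' y)
        (fun x' => 2 * 4 ^ q * ((Ek D' k σ x y) ^ q + (Ek D' k σ x' y) ^ q)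
        + 2 * Hk D D' f j k x y + 2 * Hk D D' f j k x' y) x)
        = D.Ew j (fun x' => Ek D' k v x' y)
        (fun x' => (-1) * (2 * 4 ^ q * ((Ek D' k σ x y) ^ q + (Ek D' k σ x' y) ^ q)
        + 2 * Hk D D' f j k x y + 2 * Hk D D' f j k x' y)) x := by
        rw [Ew_mul]; ring
      rw [this]
      refine Ew_mono hv0 fun x' hx' => ?_
      have := h.diff_bound (j := j) (k := k) hx'.symm y
      have := (abs_le.1 this).1
      linarith
    · refine Ew_mono hv0 fun x' hx' => ?_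
      have := h.diff_bound (j := j) (k := k) hx'.symm y
      exact (abs_le.1 this).2
  have e3 : D.Ew j (fun x' => Ek D' k v x' y)
        (fun x' => 2 * 4 ^ q * ((Ek D' k σ x y) ^ q + (Ek D' k σ x' y) ^ q)
        + 2 * Hk D D' f j k x y + 2 * Hk D D' f j k x' y) x
      = 2 * 4 ^ q * (Ek D' k σ x y) ^ q
        + 2 * 4 ^ q * D.Ew j (fun x' => Ek D' k v x' y) (fun x' => (Ek D' k σ x' y) ^ q) x
        + 2 * Hk D D' f j k x y
        + 2 * D.Ew j (fun x' => Ek D' k v x' y) (fun x' => Hk D D' f j k x' y) x := by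
    rw [Ew_add, Ew_add, Ew_mul, Ew_add, Ew_const hv0, Ew_const hv0,
      Ew_mul (D := D) j _ 2 (fun x' => Hk D D' f j k x' y)]
    ring
  have e4 : D.Ew j (fun x' => Ek D' k v x' y) (fun x' => (Ek D' k σ x' y) ^ q) x
      ≤ (A ^ q) ^ 2 * (Ek D' k σ x y) ^ q := by
    have pE : 0 < D.E j (fun x' => Ek D' k v x' y) x := E_pos hv0 x
    unfold Dy.Ew
    rw [div_le_iff₀ pE]
    have f1 : D.E j (fun x' => Ek D' k v x' y * (Ek D' k σ x' y) ^ q) x ≤ A ^ q := by
      calc _ ≤ D.E j (fun _ => A ^ q) x := E_mono (fun x' => h.vkσk k x' y) x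
        _ = _ := E_const _ _ _
    have f2 := h.vk_le_Ex j k x y
    have f3 := h.σk_le_vk k x y
    have p1 := h.Eσpos k x y
    have f4 : (Ek D' k σ x y) ^ (-q) * (Ek D' k σ x y) ^ q = 1 := by
      rw [← Real.rpow_add p1]; simp
    have a1 := h.one_le_a
    have p2 : 0 < (Ek D' k σ x y) ^ q := Real.rpow_pos_of_pos p1 _
    have f5 : 1 ≤ A ^ q * D.E j (fun x' => Ek D' k v x' y) x * (Ek D' k σ x y) ^ q := by
      rw [← f4]
      exact mul_le_mul_of_nonneg_right (f3.trans f2) p2.le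
    have a0 : 0 < A ^ q := by linarith
    calc _ ≤ A ^ q := f1
      _ = A ^ q * 1 := (mul_one _).symm
      _ ≤ A ^ q * (A ^ q * D.E j (fun x' => Ek D' k v x' y) x * (Ek D' k σ x y) ^ q) :=
          mul_le_mul_of_nonneg_left f5 a0.le
      _ = _ := by ring
  rw [e1]
  refine e2.trans ?_
  rw [e3]
  have p4 : (0:ℝ) < 4 ^ q := by positivity
  nlinarith

end WS

end HC

end

section
/-!
The bound for the sum of the weighted squares of the increments.
-/

open Finset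

namespace HC

open Dy

variable {X Y : Type} [Fintype X] [Fintype Y]

lemma jensen_pos {D : Dy X} {σ : X → ℝ} {q : ℝ} (hσ : ∀ x, 0 < σ x) (hq : 1 ≤ q) (j : ℕ) (x : X) :
    (D.E j σ x) ^ q ≤ D.E j (fun y => σ y ^ q) x := by
  have hE : 0 < D.E j σ x := E_pos hσ x
  set e := D.E j σ x with he
  have h1 : ∀ y, e ^ q * (1 - q) + (q * e ^ q * e⁻¹) * σ y ≤ σ y ^ q := by
    intro y
    have h2 := one_add_mul_self_le_rpow_one_add (s := σ y / e - 1) (p := q)
      (by have := div_pos (hσ y) hE; linarith) hq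
    rw [add_sub_cancel, Real.div_rpow (hσ y).le hE.le] at h2
    have h3 : 0 < e ^ q := Real.rpow_pos_of_pos hE _
    rw [le_div_iff₀ h3] at h2
    calc _ = (1 + q * (σ y / e - 1)) * e ^ q := by field_simp; ring
      _ ≤ _ := h2
  calc e ^ q = e ^ q * (1 - q) + (q * e ^ q * e⁻¹) * e := by field_simp; ring
    _ = D.E j (fun y => e ^ q * (1 - q) + (q * e ^ q * e⁻¹) * σ y) x := by
        rw [E_add, E_const, E_mul]
    _ ≤ _ := E_mono h1 x

namespace WS
variable {D : Dy X} {D' : Dy Y} {σ f : X → Y → ℝ} {A q : ℝ} (h : WS D D' σ f A q)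
include h

lemma Ak_sq (M k : ℕ) (x : X) (y : Y) :
    (Ak D D' (fun x y => σ x y ^ (-q)) f M k x y) ^ 2
      ≤ 2 * (2 * 4 ^ q * (1 + (A ^ q) ^ 2)) ^ 2 * ((Ek D' k σ x y) ^ q) ^ 2
        + 16 * (Hk D D' f (M - k) k x y) ^ 2
        + 16 * (D.Ew (M - k) (fun x' => Ek D' k (fun x y => σ x y ^ (-q)) x' y)
              (fun x' => Hk D D' f (M - k) k x' y) x) ^ 2 := by
  have h1 := h.Ak_bound M k x y
  set B := 2 * 4 ^ q * (1 + (A ^ q) ^ 2)
  set s := (Ek D' k σ x y) ^ q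
  set H := Hk D D' f (M - k) k x y
  set G := D.Ew (M - k) (fun x' => Ek D' k (fun x y => σ x y ^ (-q)) x' y)
              (fun x' => Hk D D' f (M - k) k x' y) x
  have h2 := abs_le.1 h1
  have h3 : (Ak D D' (fun x y => σ x y ^ (-q)) f M k x y) ^ 2 ≤ (B * s + (2 * H + 2 * G)) ^ 2 :=
    sq_le_sq' h2.1 h2.2
  nlinarith [sq_nonneg (B * s - (2 * H + 2 * G)), sq_nonneg (H - G)]

lemma sum_Ew_H (M k : ℕ) :
    ∑ x, ∑ y, Ek D' k (fun x y => σ x y ^ (-q)) x y *
      (D.Ew (M - k) (fun x' => Ek D' k (fun x y => σ x y ^ (-q)) x' y)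
              (fun x' => Hk D D' f (M - k) k x' y) x) ^ 2
      ≤ ∑ x, ∑ y, Ek D' k (fun x y => σ x y ^ (-q)) x y * (Hk D D' f (M - k) k x y) ^ 2 := by
  rw [sum_comm, sum_comm (s := univ) (t := univ) (f := fun x y =>
    Ek D' k (fun x y => σ x y ^ (-q)) x y * (Hk D D' f (M - k) k x y) ^ 2)]
  refine sum_le_sum fun y _ => ?_
  exact sum_Ew_sq_le (D := D) (fun x => E_pos (fun y => h.vpos x y) y)

lemma en_le (M k : ℕ) :
    en D D' (fun x y => σ x y ^ (-q)) f M k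
      ≤ 2 * (2 * 4 ^ q * (1 + (A ^ q) ^ 2)) ^ 2 * A ^ q * ∑ x, ∑ y, σ x y ^ q
        + 32 * ∑ x, ∑ y, Ek D' k (fun x y => σ x y ^ (-q)) x y
            * (Hk D D' f (M - k) k x y) ^ 2 := by
  set B := 2 * 4 ^ q * (1 + (A ^ q) ^ 2) with hB
  set v : X → Y → ℝ := fun x y => σ x y ^ (-q) with hv
  have hvk : ∀ x y, 0 < Ek D' k v x y := fun x y => E_pos (fun y => h.vpos x y) y
  unfold en
  have h1 : ∀ x y, Ek D' k v x y * (Ak D D' v f M k x y) ^ 2
      ≤ 2 * B ^ 2 * A ^ q * D'.E k (fun y => σ x y ^ q) y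
        + 16 * (Ek D' k v x y * (Hk D D' f (M - k) k x y) ^ 2)
        + 16 * (Ek D' k v x y * (D.Ew (M - k) (fun x' => Ek D' k v x' y)
              (fun x' => Hk D D' f (M - k) k x' y) x) ^ 2) := by
    intro x y
    have h2 := h.Ak_sq M k x y
    have h3 := h.vkσk k x y
    have h4 : (Ek D' k σ x y) ^ q ≤ D'.E k (fun y => σ x y ^ q) y := jensen_pos (h.hσ x) h.hq1 k y
    have h5 : 0 < (Ek D' k σ x y) ^ q := Real.rpow_pos_of_pos (h.Eσpos k x y) _
    have a0 : 0 < A ^ q := by linarith [h.one_le_a]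
    have h6 : Ek D' k v x y * ((Ek D' k σ x y) ^ q) ^ 2 ≤ A ^ q * D'.E k (fun y => σ x y ^ q) y := by
      calc _ = (Ek D' k v x y * (Ek D' k σ x y) ^ q) * (Ek D' k σ x y) ^ q := by ring
        _ ≤ A ^ q * (Ek D' k σ x y) ^ q := mul_le_mul_of_nonneg_right h3 h5.le
        _ ≤ _ := mul_le_mul_of_nonneg_left h4 a0.le
    have h7 := mul_le_mul_of_nonneg_left h2 (hvk x y).le
    have h8 := mul_le_mul_of_nonneg_left h6 (by positivity : 0 ≤ 2 * B ^ 2)
    calc _ ≤ _ := h7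
      _ = 2 * B ^ 2 * (Ek D' k v x y * ((Ek D' k σ x y) ^ q) ^ 2)
        + 16 * (Ek D' k v x y * (Hk D D' f (M - k) k x y) ^ 2)
        + 16 * (Ek D' k v x y * (D.Ew (M - k) (fun x' => Ek D' k v x' y)
              (fun x' => Hk D D' f (M - k) k x' y) x) ^ 2) := by ring
      _ ≤ _ := by linarith
  have h2 := sum_le_sum fun x (_ : x ∈ (univ : Finset X)) =>
    sum_le_sum fun y (_ : y ∈ (univ : Finset Y)) => h1 x y
  simp only [sum_add_distrib, ← mul_sum] at h2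
  have h3 : ∑ x, ∑ y, D'.E k (fun y => σ x y ^ q) y = ∑ x, ∑ y, σ x y ^ q :=
    sum_congr rfl fun x _ => sum_E _ _
  rw [h3] at h2
  have h4 := h.sum_Ew_H M k
  linarith

/-- second order convexity of `1/t` along the filtration -/
lemma inv_step (k : ℕ) :
    ∑ x, ∑ y, (Ek D' (k+1) (fun x y => σ x y ^ (-q)) x y
        - Ek D' k (fun x y => σ x y ^ (-q)) x y) ^ 2
        / (Ek D' k (fun x y => σ x y ^ (-q)) x y) ^ 3
      ≤ 2 * (∑ x, ∑ y, (Ek D' (k+1) (fun x y => σ x y ^ (-q)) x y)⁻¹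
        - ∑ x, ∑ y, (Ek D' k (fun x y => σ x y ^ (-q)) x y)⁻¹) := by
  set v : X → Y → ℝ := fun x y => σ x y ^ (-q) with hv
  have hvk : ∀ k x y, 0 < Ek D' k v x y := fun k x y => E_pos (fun y => h.vpos x y) y
  have h1 : ∀ x y, (Ek D' (k+1) v x y - Ek D' k v x y) ^ 2 / (Ek D' k v x y) ^ 3
      ≤ 2 * ((Ek D' (k+1) v x y)⁻¹ - (Ek D' k v x y)⁻¹
        + (1 / (Ek D' k v x y) ^ 2) * (D'.del k (v x) y)) := by
    intro x y
    have p0 := hvk k x y
    have p1 := hvk (k+1) x y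
    have p2 : Ek D' (k+1) v x y ≤ 2 * Ek D' k v x y := E_succ_le (fun y => (h.vpos x y).le) y
    have e1 : D'.del k (v x) y = Ek D' (k+1) v x y - Ek D' k v x y := rfl
    rw [e1]
    set s := Ek D' k v x y
    set w := Ek D' (k+1) v x y
    have e2 : 2 * (w⁻¹ - s⁻¹ + 1 / s ^ 2 * (w - s)) - (w - s) ^ 2 / s ^ 3
        = (w - s) ^ 2 * (2 * s - w) / (w * s ^ 3) := by
      field_simp
      ring
    have e3 : 0 ≤ (w - s) ^ 2 * (2 * s - w) / (w * s ^ 3) := by
      have : 0 ≤ 2 * s - w := by linarith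
      positivity
    linarith
  have h2 := sum_le_sum fun x (_ : x ∈ (univ : Finset X)) =>
    sum_le_sum fun y (_ : y ∈ (univ : Finset Y)) => h1 x y
  simp only [sum_add_distrib, sum_sub_distrib, ← mul_sum] at h2
  have h3 : ∑ x, ∑ y, (1 / (Ek D' k v x y) ^ 2) * (D'.del k (v x) y) = 0 := by
    refine sum_eq_zero fun x _ => ?_
    rw [← sum_mul_E ((Ek_meas (f := v) k x).comp fun t => 1 / t ^ 2)]
    exact sum_eq_zero fun y _ => by rw [E_del, mul_zero]
  rw [h3, add_zero] at h2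
  exact h2

lemma carl_main (M : ℕ) :
    ∑ k ∈ range M, ∑ x, ∑ y, (Ek D' (k+1) (fun x y => σ x y ^ (-q)) x y
        - Ek D' k (fun x y => σ x y ^ (-q)) x y) ^ 2
        / (Ek D' k (fun x y => σ x y ^ (-q)) x y) ^ 3
      ≤ 2 * ∑ x, ∑ y, σ x y ^ q := by
  refine (sum_le_sum fun k _ => h.inv_step k).trans ?_
  rw [← mul_sum, Finset.sum_range_sub (fun k => ∑ x, ∑ y,
    (Ek D' k (fun x y => σ x y ^ (-q)) x y)⁻¹) M]
  have hvk : ∀ k x y, 0 < Ek D' k (fun x y => σ x y ^ (-q)) x y :=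
    fun k x y => E_pos (fun y => h.vpos x y) y
  have h1 : ∑ x, ∑ y, (Ek D' M (fun x y => σ x y ^ (-q)) x y)⁻¹ ≤ ∑ x, ∑ y, σ x y ^ q := by
    refine sum_le_sum fun x _ => ?_
    rw [← sum_E (D := D') M (fun y => σ x y ^ q)]
    refine sum_le_sum fun y _ => ?_
    have h2 := E_sq_le (D := D') (j := M) (g := fun _ => (1:ℝ)) (w := fun y => σ x y ^ (-q))
      (h.vpos x) y
    rw [E_const] at h2
    have h3 : D'.E M (fun y => (1:ℝ) ^ 2 / σ x y ^ (-q)) y = D'.E M (fun y => σ x y ^ q) y := by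
      congr 1
      ext y
      rw [Real.rpow_neg (h.hσ x y).le]
      simp
    rw [h3] at h2
    rw [inv_eq_one_div, div_le_iff₀ (hvk M x y)]
    calc (1:ℝ) = 1 ^ 2 := by norm_num
      _ ≤ _ := h2
  have h2 : 0 ≤ ∑ x, ∑ y, (Ek D' 0 (fun x y => σ x y ^ (-q)) x y)⁻¹ :=
    sum_nonneg fun x _ => sum_nonneg fun y _ => (inv_pos.2 (hvk 0 x y)).le
  linarith

lemma carl_term (M k : ℕ) :
    ∑ x, ∑ y, (Ek D' (k+1) (fun x y => σ x y ^ (-q)) x y
        - Ek D' k (fun x y => σ x y ^ (-q)) x y) ^ 2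
          * (Ak D D' (fun x y => σ x y ^ (-q)) f M k x y) ^ 2
          / Ek D' (k+1) (fun x y => σ x y ^ (-q)) x y
      ≤ 2 * (2 * 4 ^ q * (1 + (A ^ q) ^ 2)) ^ 2 * (A ^ q) ^ 2 * (2 ^ q * A ^ q) *
          ∑ x, ∑ y, (Ek D' (k+1) (fun x y => σ x y ^ (-q)) x y
        - Ek D' k (fun x y => σ x y ^ (-q)) x y) ^ 2
        / (Ek D' k (fun x y => σ x y ^ (-q)) x y) ^ 3
        + 32 * (2 ^ q * A ^ q) * ∑ x, ∑ y, Ek D' k (fun x y => σ x y ^ (-q)) x y
            * (Hk D D' f (M - k) k x y) ^ 2 := by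
  set B := 2 * 4 ^ q * (1 + (A ^ q) ^ 2) with hB
  set c := 2 ^ q * A ^ q with hc
  set v : X → Y → ℝ := fun x y => σ x y ^ (-q) with hv
  have hvk : ∀ k x y, 0 < Ek D' k v x y := fun k x y => E_pos (fun y => h.vpos x y) y
  have c0 : 0 < c := by have := h.one_le_a; positivity
  have h1 : ∀ x y, (Ek D' (k+1) v x y - Ek D' k v x y) ^ 2 * (Ak D D' v f M k x y) ^ 2
        / Ek D' (k+1) v x y
      ≤ 2 * B ^ 2 * (A ^ q) ^ 2 * c * ((Ek D' (k+1) v x y - Ek D' k v x y) ^ 2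
        / (Ek D' k v x y) ^ 3)
        + 16 * c * (Ek D' k v x y * (Hk D D' f (M - k) k x y) ^ 2)
        + 16 * c * (Ek D' k v x y * (D.Ew (M - k) (fun x' => Ek D' k v x' y)
              (fun x' => Hk D D' f (M - k) k x' y) x) ^ 2) := by
    intro x y
    have p0 := hvk k x y
    have p1 := hvk (k+1) x y
    have p2 : Ek D' (k+1) v x y ≤ 2 * Ek D' k v x y := E_succ_le (fun y => (h.vpos x y).le) y
    have p3 : Ek D' k v x y ≤ c * Ek D' (k+1) v x y := h.Ey_double k x y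
    have h2 := h.Ak_sq M k x y
    have h3 := h.vkσk k x y
    have h5 : 0 < (Ek D' k σ x y) ^ q := Real.rpow_pos_of_pos (h.Eσpos k x y) _
    set s := Ek D' k v x y
    set w := Ek D' (k+1) v x y
    set t := (Ek D' k σ x y) ^ q
    set H := Hk D D' f (M - k) k x y
    set G := D.Ew (M - k) (fun x' => Ek D' k v x' y) (fun x' => Hk D D' f (M - k) k x' y) x
    have h6 : t ^ 2 ≤ (A ^ q) ^ 2 / s ^ 2 := by
      rw [le_div_iff₀ (by positivity)]
      have : (s * t) ^ 2 ≤ (A ^ q) ^ 2 := pow_le_pow_left₀ (by positivity) h3 2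
      nlinarith
    have h7 : 1 / w ≤ c / s := by
      rw [div_le_div_iff₀ p1 p0]; linarith
    have h8 : (w - s) ^ 2 ≤ s ^ 2 := by
      apply sq_le_sq'
      · linarith
      · linarith
    have h9 : (w - s) ^ 2 / w ≤ c * s := by
      calc (w - s) ^ 2 / w = (w - s) ^ 2 * (1 / w) := by ring
        _ ≤ s ^ 2 * (c / s) := mul_le_mul h8 h7 (by positivity) (by positivity)
        _ = c * s := by field_simp
    have h10 : (w - s) ^ 2 / w * t ^ 2 ≤ (A ^ q) ^ 2 * c * ((w - s) ^ 2 / s ^ 3) := by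
      calc (w - s) ^ 2 / w * t ^ 2 = (w - s) ^ 2 * ((1 / w) * t ^ 2) := by ring
        _ ≤ (w - s) ^ 2 * ((c / s) * ((A ^ q) ^ 2 / s ^ 2)) :=
            mul_le_mul_of_nonneg_left (mul_le_mul h7 h6 (by positivity) (by positivity))
              (sq_nonneg _)
        _ = _ := by field_simp
    have h11 : 0 ≤ (w - s) ^ 2 / w := by positivity
    calc (w - s) ^ 2 * (Ak D D' v f M k x y) ^ 2 / w
        = (w - s) ^ 2 / w * (Ak D D' v f M k x y) ^ 2 := by ring
      _ ≤ (w - s) ^ 2 / w * (2 * B ^ 2 * t ^ 2 + 16 * H ^ 2 + 16 * G ^ 2) :=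
          mul_le_mul_of_nonneg_left h2 h11
      _ = 2 * B ^ 2 * ((w - s) ^ 2 / w * t ^ 2) + 16 * (((w - s) ^ 2 / w) * H ^ 2)
          + 16 * (((w - s) ^ 2 / w) * G ^ 2) := by ring
      _ ≤ 2 * B ^ 2 * ((A ^ q) ^ 2 * c * ((w - s) ^ 2 / s ^ 3)) + 16 * ((c * s) * H ^ 2)
          + 16 * ((c * s) * G ^ 2) := by
          have i1 := mul_le_mul_of_nonneg_left h10 (by positivity : 0 ≤ 2 * B ^ 2)
          have i2 := mul_le_mul_of_nonneg_right h9 (sq_nonneg H)
          have i3 := mul_le_mul_of_nonneg_right h9 (sq_nonneg G)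
          linarith
      _ = _ := by ring
  have h2 := sum_le_sum fun x (_ : x ∈ (univ : Finset X)) =>
    sum_le_sum fun y (_ : y ∈ (univ : Finset Y)) => h1 x y
  simp only [sum_add_distrib, ← mul_sum] at h2
  have h4 := mul_le_mul_of_nonneg_left (h.sum_Ew_H M k) (by positivity : 0 ≤ 16 * c)
  linarith

/-- **Energy theorem, part 1.** -/
theorem sum_chi_le (M : ℕ) :
    ∑ k ∈ range M, ∑ x, ∑ y, Ek D' (k+1) (fun x y => σ x y ^ (-q)) x y
        * (chi D D' (fun x y => σ x y ^ (-q)) f M k x y) ^ 2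
      ≤ (20 * (2 * 4 ^ q * (1 + (A ^ q) ^ 2)) ^ 2 * (A ^ q) ^ 2 * (2 ^ q * A ^ q)) *
          ∑ x, ∑ y, σ x y ^ q
        + (128 * (2 ^ q * A ^ q)) *
          ∑ k ∈ range (M + 1), ∑ x, ∑ y, Ek D' k (fun x y => σ x y ^ (-q)) x y
            * (Hk D D' f (M - k) k x y) ^ 2 := by
  set B := 2 * 4 ^ q * (1 + (A ^ q) ^ 2) with hB
  set c := 2 ^ q * A ^ q with hc
  set v : X → Y → ℝ := fun x y => σ x y ^ (-q) with hv
  have hvk : ∀ k x y, 0 < Ek D' k v x y := fun k x y => E_pos (fun y => h.vpos x y) y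
  have a1 := h.one_le_a
  have c1 : 1 ≤ c := by
    have : (1:ℝ) ≤ 2 ^ q := Real.one_le_rpow (by norm_num) h.hq0
    nlinarith
  set S := ∑ x, ∑ y, σ x y ^ q with hS
  have S0 : 0 ≤ S := sum_nonneg fun x _ => sum_nonneg fun y _ => Real.rpow_nonneg (h.hσ x y).le _
  set HH : ℕ → ℝ := fun k => ∑ x, ∑ y, Ek D' k v x y * (Hk D D' f (M - k) k x y) ^ 2 with hHH
  have HH0 : ∀ k, 0 ≤ HH k := fun k => sum_nonneg fun x _ => sum_nonneg fun y _ =>
    mul_nonneg (hvk k x y).le (sq_nonneg _)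
  have h1 := sum_le_sum fun k (_ : k ∈ range M) => en_step_le (D := D) (D' := D') (f := f) h.vpos M k
  rw [← mul_sum, sum_add_distrib, Finset.sum_range_sub (fun k => en D D' v f M k) M,
    ← mul_sum] at h1
  have h2 := sum_le_sum fun k (_ : k ∈ range M) => h.carl_term M k
  rw [sum_add_distrib, ← mul_sum, ← mul_sum] at h2
  have h3 := h.carl_main M
  have h4 := h.en_le M M
  have h5 : 0 ≤ en D D' v f M 0 := sum_nonneg fun x _ => sum_nonneg fun y _ =>
    mul_nonneg (hvk 0 x y).le (sq_nonneg _)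
  have h6 : ∑ k ∈ range (M+1), HH k = ∑ k ∈ range M, HH k + HH M := sum_range_succ _ _
  have h7 : 0 ≤ ∑ k ∈ range M, HH k := sum_nonneg fun k _ => HH0 k
  have h8 := HH0 M
  have c0 : 0 ≤ c := by linarith
  have i1 := mul_le_mul_of_nonneg_left h3 (by positivity : 0 ≤ 2 * B ^ 2 * (A ^ q) ^ 2 * c)
  have i2 : 2 * B ^ 2 * A ^ q * S ≤ 2 * B ^ 2 * (A ^ q) ^ 2 * c * S := by
    have e1 : A ^ q ≤ (A ^ q) ^ 2 * c := by nlinarith
    have e2 := mul_le_mul_of_nonneg_left e1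
      (mul_nonneg (by positivity : (0:ℝ) ≤ 2 * B ^ 2) S0)
    linarith
  have i3 : HH M ≤ c * HH M := le_mul_of_one_le_left h8 c1
  have i4 : 0 ≤ c * ∑ k ∈ range M, HH k := mul_nonneg c0 h7
  change _ ≤ _ + _ * ∑ k ∈ range (M + 1), HH k
  rw [h6]
  linarith

end WS

end HC

end
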