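import Pool.Agent.Helper61.HC.Rdf
import Pool.Agent.Helper61.HC.Conc

/-!
Existence of the majorizing weight on `ZMod N × ZMod N`.
-/

open Finset

namespace HC

lemma addRight_pow {G : Type} [AddCommGroup G] (v : G) (t : ℕ) (x : G) :
    ((Equiv.addRight v : Equiv.Perm G) ^ t) x = x + t • v := by
  induction t generalizing x with
  | zero => simp
  | succ t ih =>
    rw [pow_succ, Equiv.Perm.mul_apply, ih, Equiv.coe_addRight, succ_nsmul, add_assoc,
      add_comm v (t • v)]

lemma orb_all {Ω : Type} {T : Equiv.Perm Ω} {N : ℕ} (hN : 1 ≤ N)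
    (hT : ∀ x, (T ^ N) x = x) {σ : Ω → ℝ} {A : ℝ}
    (h : ∀ x l, 1 ≤ l → l ≤ N → orb T l σ x ≤ A * l * σ x) (x : Ω) (l : ℕ) (hl : 1 ≤ l) :
    orb T l σ x ≤ A * l * σ x := by
  induction l using Nat.strong_induction_on with
  | _ l ih =>
    rcases le_or_gt l N with h1 | h1
    · exact h x l hl h1
    · have e1 : orb T l σ x = orb T N σ x + orb T (l - N) σ x := by
        unfold orb
        have : l = N + (l - N) := by omega
        conv_lhs => rw [this]
        rw [Finset.sum_range_add]
        congr 1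
        refine sum_congr rfl fun t _ => ?_
        rw [add_comm, pow_add, Equiv.Perm.mul_apply, hT]
      have h2 := h x N hN le_rfl
      have h3 := ih (l - N) (by omega) (by omega)
      rw [e1]
      have e2 : ((l - N : ℕ) : ℝ) = (l : ℝ) - N := by rw [Nat.cast_sub h1.le]
      rw [e2] at h3
      linarith

/-- **Existence of the weight.** -/
theorem exists_weight {q : ℝ} (hq : 1 < q) :
    ∃ A : ℝ, 1 ≤ A ∧ ∀ (N : ℕ) [NeZero N] (f : ZMod N → ZMod N → ℝ),
      (∀ x y, 0 ≤ f x y) → 0 < ∑ x, ∑ y, f x y →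
      ∃ σ : ZMod N → ZMod N → ℝ, (∀ x y, f x y ≤ σ x y ^ q) ∧
        ∑ x, ∑ y, σ x y ^ q ≤ (2 ^ q * (2 * 2 ^ q)) * ∑ x, ∑ y, f x y ∧
        (∀ y, A1 (fun x => σ x y) A) ∧ (∀ x, A1 (σ x) A) := by
  have hq0 : 0 < q := by linarith
  have hq1 : 0 < q - 1 := by linarith
  refine ⟨4 * (Fintype.card (Fin 4) * (q / (q - 1))), ?_, ?_⟩
  · have : 1 ≤ q / (q - 1) := by rw [le_div_iff₀ hq1]; linarith
    simp only [Fintype.card_fin]
    push_cast
    linarith
  intro N _ f hf hpos
  have hN : 1 ≤ N := Nat.one_le_iff_ne_zero.2 (NeZero.ne N)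
  have hNr : (0:ℝ) < N := by exact_mod_cast hN
  set S := ∑ x, ∑ y, f x y with hS
  set c : ℝ := (S / (N * N)) ^ (1/q) with hc
  have hc0 : 0 < c := Real.rpow_pos_of_pos (by positivity) _
  have hcq : c ^ q = S / (N * N) := by
    rw [hc, ← Real.rpow_mul (by positivity)]
    have : 1 / q * q = 1 := by field_simp
    rw [this, Real.rpow_one]
  set g : ZMod N × ZMod N → ℝ := fun p => (f p.1 p.2) ^ (1/q) + c with hg
  have hgc : ∀ p, c ≤ g p := fun p => by
    have : 0 ≤ (f p.1 p.2) ^ (1/q) := Real.rpow_nonneg (hf _ _) _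
    simp only [hg]; linarith
  have hgq : ∑ p, g p ^ q ≤ 2 * 2 ^ q * S := by
    have h1 : ∀ p, g p ^ q ≤ 2 ^ q * (f p.1 p.2 + c ^ q) := by
      intro p
      have a0 : 0 ≤ (f p.1 p.2) ^ (1/q) := Real.rpow_nonneg (hf _ _) _
      have e1 : ((f p.1 p.2) ^ (1/q)) ^ q = f p.1 p.2 := by
        rw [← Real.rpow_mul (hf _ _)]
        have : 1 / q * q = 1 := by field_simp
        rw [this, Real.rpow_one]
      have e2 : g p ≤ 2 * max ((f p.1 p.2) ^ (1/q)) c := by
        have := le_max_left ((f p.1 p.2) ^ (1/q)) c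
        have := le_max_right ((f p.1 p.2) ^ (1/q)) c
        simp only [hg]; linarith
      calc g p ^ q ≤ (2 * max ((f p.1 p.2) ^ (1/q)) c) ^ q :=
            Real.rpow_le_rpow (hc0.le.trans (hgc p)) e2 hq0.le
        _ = 2 ^ q * (max ((f p.1 p.2) ^ (1/q)) c) ^ q :=
            Real.mul_rpow (by norm_num) (le_max_of_le_left a0)
        _ ≤ 2 ^ q * (f p.1 p.2 + c ^ q) := by
            refine mul_le_mul_of_nonneg_left ?_ (by positivity)
            rcases max_choice ((f p.1 p.2) ^ (1/q)) c with h | h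
            · rw [h, e1]
              have : 0 ≤ c ^ q := by positivity
              linarith
            · rw [h]
              have := hf p.1 p.2
              linarith
    have h2 : ∑ p : ZMod N × ZMod N, (f p.1 p.2 + c ^ q) = 2 * S := by
      rw [sum_add_distrib, Fintype.sum_prod_type, sum_const, card_univ, Fintype.card_prod,
        ZMod.card, hcq, nsmul_eq_mul]
      push_cast
      field_simp
      ring
    calc ∑ p, g p ^ q ≤ ∑ p : ZMod N × ZMod N, 2 ^ q * (f p.1 p.2 + c ^ q) :=
          sum_le_sum fun p _ => h1 p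
      _ = _ := by rw [← mul_sum, h2]; ring
  set dirs : Fin 4 → ZMod N × ZMod N := ![(1, 0), (-1, 0), (0, 1), (0, -1)] with hdirs
  set T : Fin 4 → Equiv.Perm (ZMod N × ZMod N) := fun i => Equiv.addRight (dirs i) with hT
  obtain ⟨σ, h1, h2, h3⟩ := rdf T (N - 1) hq hc0 hgc
  have hTN : ∀ i x, ((T i) ^ N) x = x := by
    intro i x
    simp only [hT]
    rw [addRight_pow]
    have : N • dirs i = 0 := by
      ext <;> simp
    rw [this, add_zero]
  have key : ∀ i x l, 1 ≤ l → orb (T i) l σ x
      ≤ (4 * (Fintype.card (Fin 4) * (q / (q - 1)))) * l * σ x := fun i x l hl =>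
    orb_all hN (hTN i) (fun x l h4 h5 => h3 i x l h4 (by omega)) x l hl
  have σpos : ∀ p, 0 < σ p := fun p => lt_of_lt_of_le hc0 ((hgc p).trans (h1 p))
  have hA1 : 1 ≤ (4 * (Fintype.card (Fin 4) * (q / (q - 1)))) := by
    have : 1 ≤ q / (q - 1) := by rw [le_div_iff₀ hq1]; linarith
    simp only [Fintype.card_fin]
    push_cast
    linarith
  refine ⟨fun x y => σ (x, y), ?_, ?_, ?_, ?_⟩
  · intro x y
    have e1 : (f x y) ^ (1/q) ≤ σ (x, y) := by
      refine le_trans ?_ (h1 (x, y))
      simp only [hg]; linarith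
    have := Real.rpow_le_rpow (Real.rpow_nonneg (hf _ _) _) e1 hq0.le
    rw [← Real.rpow_mul (hf _ _)] at this
    have e : 1 / q * q = 1 := by field_simp
    rwa [e, Real.rpow_one] at this
  · rw [← Fintype.sum_prod_type']
    calc ∑ p : ZMod N × ZMod N, σ (p.1, p.2) ^ q = ∑ p, σ p ^ q := rfl
      _ ≤ 2 ^ q * ∑ p, g p ^ q := h2
      _ ≤ 2 ^ q * (2 * 2 ^ q * S) := mul_le_mul_of_nonneg_left hgq (by positivity)
      _ = _ := by ring
  · intro y
    refine ⟨fun x => σpos _, hA1, fun x l hl => ?_, fun x l hl => ?_⟩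
    · have := key 0 (x, y) l hl
      unfold orb at this
      simp only [hT, addRight_pow, hdirs] at this
      simpa using this
    · have := key 1 (x, y) l hl
      unfold orb at this
      simp only [hT, addRight_pow, hdirs] at this
      simpa [sub_eq_add_neg] using this
  · intro x
    refine ⟨fun y => σpos _, hA1, fun y l hl => ?_, fun y l hl => ?_⟩
    · have := key 2 (x, y) l hl
      unfold orb at this
      simp only [hT, addRight_pow, hdirs] at this
      simpa using this
    · have := key 3 (x, y) l hl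
      unfold orb at this
      simp only [hT, addRight_pow, hdirs] at this
      simpa [sub_eq_add_neg] using this

end HC
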