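import Pool.Agent.Helper61.HC.EnBound

section
/-!
Bounds for the high-frequency remainders.
-/

open Finset

namespace HC

open Dy

lemma pow_rpow_comm (p : ℕ) (r : ℝ) : ((2:ℝ) ^ p) ^ r = ((2:ℝ) ^ r) ^ p := by
  rw [← Real.rpow_natCast, ← Real.rpow_natCast, ← Real.rpow_mul (by norm_num),
    ← Real.rpow_mul (by norm_num), mul_comm]

/-- `2^(1/4)` -/
noncomputable def s4 : ℝ := (2:ℝ) ^ (1/4 : ℝ)

lemma s4_pow : s4 ^ 4 = 2 := by
  unfold s4
  rw [← Real.rpow_natCast, ← Real.rpow_mul (by norm_num)]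
  norm_num

lemma s4_one : 1 ≤ s4 := Real.one_le_rpow (by norm_num) (by norm_num)

lemma s4_pos : 0 < s4 := lt_of_lt_of_le one_pos s4_one

lemma s4_sq : 4 / 3 ≤ s4 ^ 2 := by
  have h := s4_pow
  have h1 := s4_pos
  by_contra hc
  push Not at hc
  have : (s4 ^ 2) ^ 2 < (4/3) ^ 2 := pow_lt_pow_left₀ hc (by positivity) (by norm_num)
  have h2 : (s4 ^ 2) ^ 2 = s4 ^ 4 := by ring
  rw [h2, h] at this
  norm_num at this

lemma succ_le_s4 (t : ℕ) : (t : ℝ) + 1 ≤ 4 * s4 ^ t := by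
  have h1 : s4 ^ (4 * (t / 4)) ≤ s4 ^ t := pow_le_pow_right₀ s4_one (by omega)
  have h2 : s4 ^ (4 * (t / 4)) = 2 ^ (t / 4) := by rw [pow_mul, s4_pow]
  have h3 : ((t / 4 : ℕ) : ℝ) + 1 ≤ 2 ^ (t / 4) := by
    have : t / 4 + 1 ≤ 2 ^ (t / 4) := Nat.lt_two_pow_self
    exact_mod_cast this
  have h4 : (t : ℝ) + 1 ≤ 4 * (((t / 4 : ℕ) : ℝ) + 1) := by
    have : t + 1 ≤ 4 * (t / 4 + 1) := by omega
    exact_mod_cast this
  linarith

lemma geom_Ico_le {z : ℝ} (h0 : 0 ≤ z) (h1 : z < 1) (j K : ℕ) :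
    ∑ i ∈ Ico j K, z ^ (i - j) ≤ (1 - z)⁻¹ := by
  rw [Finset.sum_Ico_eq_sum_range]
  have : ∀ k, j + k - j = k := fun k => by omega
  simp only [this]
  have h2 := Summable.sum_le_tsum (range (K - j)) (fun i _ => pow_nonneg h0 i)
    (summable_geometric_of_lt_one h0 h1)
  rwa [tsum_geometric_of_lt_one h0 h1] at h2

/-- weighted Cauchy-Schwarz -/
lemma sq_sum_le_weight {ι : Type*} (s : Finset ι) (g w : ι → ℝ) (hw : ∀ i ∈ s, 0 < w i) :
    (∑ i ∈ s, g i) ^ 2 ≤ (∑ i ∈ s, w i) * ∑ i ∈ s, (w i)⁻¹ * g i ^ 2 := by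
  refine sum_sq_le_sum_mul_sum_of_sq_le_mul _ (fun i hi => (hw i hi).le)
    (fun i hi => mul_nonneg (inv_pos.2 (hw i hi)).le (sq_nonneg _)) fun i hi => le_of_eq ?_
  have := (hw i hi).ne'
  field_simp

variable {X Y : Type} [Fintype X] [Fintype Y]

lemma sum_Ico_del' {D : Dy X} {K : ℕ} (hK : ∀ (g : X → ℝ) x, D.E K g x = g x) (J : ℕ)
    (g : X → ℝ) (x : X) : ∑ i ∈ Ico J K, D.del i g x = g x - D.E J g x := by
  rcases le_total J K with h | h
  · rw [sum_Ico_del h, hK]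
  · rw [Ico_eq_empty_of_le h, sum_empty]
    have : D.Meas J g := by
      have h1 : D.Meas K g := by
        have h2 : g = D.E K g := by ext x; rw [hK]
        rw [h2]; exact E_meas _ _
      exact h1.mono h
    rw [E_of_meas this, sub_self]

variable {D : Dy X} {D' : Dy Y} {σ f : X → Y → ℝ} {A q : ℝ}

lemma rem_eq {K : ℕ} (hK : ∀ (g : X → ℝ) x, D.E K g x = g x)
    (hK' : ∀ (g : Y → ℝ) y, D'.E K g y = g y) (j k : ℕ) (x : X) (y : Y) :
    rem D D' f j k x y = ∑ i ∈ Ico j K, ∑ l ∈ Ico k K, DD D D' i l f x y := by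
  have h1 : ∀ i, ∑ l ∈ Ico k K, DD D D' i l f x y
      = D.del i (fun x' => f x' y - Ek D' k f x' y) x := by
    intro i
    unfold DD
    rw [← del_sum]
    congr 1
    ext x'
    exact sum_Ico_del' hK' k (f x') y
  rw [sum_congr rfl fun i _ => h1 i]
  rw [sum_Ico_del' hK j]
  rfl

/-- the weighted square norms of the double differences -/
noncomputable def Dsq (D : Dy X) (D' : Dy Y) (σ f : X → Y → ℝ) (q : ℝ) (i l : ℕ) : ℝ :=
  ∑ x, ∑ y, σ x y ^ (-q) * (DD D D' i l f x y) ^ 2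

/-- the high part functional -/
noncomputable def Hi (D : Dy X) (D' : Dy Y) (σ f : X → Y → ℝ) (q : ℝ) (M K : ℕ) : ℝ :=
  ∑ i ∈ range K, ∑ l ∈ range K, if M ≤ i + l then 2 ^ (i + l - M) * Dsq D D' σ f q i l else 0

namespace WS
variable (h : WS D D' σ f A q)
include h

lemma Dsq_nonneg (i l : ℕ) : 0 ≤ Dsq D D' σ f q i l :=
  sum_nonneg fun x _ => sum_nonneg fun y _ => mul_nonneg (h.vpos x y).le (sq_nonneg _)

lemma Hi_nonneg (M K : ℕ) : 0 ≤ Hi D D' σ f q M K := by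
  refine sum_nonneg fun i _ => sum_nonneg fun l _ => ?_
  split_ifs
  · exact mul_nonneg (by positivity) (h.Dsq_nonneg i l)
  · exact le_rfl

lemma cost_y {k l : ℕ} (hkl : k ≤ l + 1) {g : X → Y → ℝ} (hg : ∀ x, D'.Meas (l + 1) (g x)) :
    ∑ x, ∑ y, σ x y ^ (-q) * (D'.E k (g x) y) ^ 2
      ≤ A ^ q * ((2:ℝ) ^ (q - 1)) ^ (l + 1 - k) * ∑ x, ∑ y, σ x y ^ (-q) * g x y ^ 2 := by
  rw [mul_sum]
  refine sum_le_sum fun x _ => ?_
  have h1 : D'.Meas (k + (l + 1 - k)) (g x) := by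
    rw [Nat.add_sub_cancel' hkl]; exact hg x
  have := avg_cost (D := D') (h.hσ x) h.hq1 h.hA0 (fun j y => h.hAy j x y) k (l + 1 - k) h1
  rw [pow_rpow_comm] at this
  exact this

lemma R_le (hq : q ≤ 5/4) : (2:ℝ) ^ (q - 1) ≤ s4 :=
  Real.rpow_le_rpow_of_exponent_le (by norm_num) (by linarith)

lemma R_one : 1 ≤ (2:ℝ) ^ (q - 1) := Real.one_le_rpow (by norm_num) (by linarith [h.hq1])

lemma Hk_sq_le {K : ℕ} (hq : q ≤ 5/4) (hK : ∀ (g : X → ℝ) x, D.E K g x = g x)
    (hK' : ∀ (g : Y → ℝ) y, D'.E K g y = g y) (M k : ℕ) (hkM : k ≤ M) :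
    ∑ x, ∑ y, Ek D' k (fun x y => σ x y ^ (-q)) x y * (Hk D D' f (M - k) k x y) ^ 2
      ≤ (32 * A ^ q) * ∑ i ∈ Ico (M - k) K, ∑ l ∈ Ico k K,
          s4 ^ (3 * (i + l - M)) * Dsq D D' σ f q i l := by
  set z : ℝ := (s4 ^ 2)⁻¹ with hz
  have s0 := s4_pos
  have hz0 : 0 < z := by positivity
  have hz1 : z ≤ 3 / 4 := by
    rw [hz, inv_le_comm₀ (by positivity) (by norm_num)]
    have := s4_sq; linarith
  have hgeo : ∀ j, ∑ i ∈ Ico j K, z ^ (i - j) ≤ 4 := fun j => by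
    refine (geom_Ico_le hz0.le (by linarith) j K).trans ?_
    rw [inv_le_comm₀ (by linarith) (by norm_num)]
    linarith
  have hgeo0 : ∀ j, 0 ≤ ∑ i ∈ Ico j K, z ^ (i - j) := fun j =>
    sum_nonneg fun i _ => (pow_pos hz0 _).le
  -- remove the average on the weight
  have e1 : ∑ x, ∑ y, Ek D' k (fun x y => σ x y ^ (-q)) x y * (Hk D D' f (M - k) k x y) ^ 2
      = ∑ x, ∑ y, σ x y ^ (-q) * (Hk D D' f (M - k) k x y) ^ 2 :=
    sum_congr rfl fun x _ => sum_E_mul ((Hk_measy (D := D) (f := f) (M - k) k x).comp fun t => t ^ 2)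
  rw [e1]
  set G : ℕ → ℕ → X → Y → ℝ := fun i l x y => D'.E k (fun y' => |DD D D' i l f x y'|) y with hG
  have b1 : ∀ x y, Hk D D' f (M - k) k x y ≤ ∑ i ∈ Ico (M - k) K, ∑ l ∈ Ico k K, G i l x y := by
    intro x y
    unfold Hk
    simp only [hG]
    have : ∀ i, ∑ l ∈ Ico k K, D'.E k (fun y' => |DD D D' i l f x y'|) y
        = D'.E k (fun y' => ∑ l ∈ Ico k K, |DD D D' i l f x y'|) y := fun i => (E_sum _ _ _ _).symm
    rw [sum_congr rfl fun i _ => this i, ← E_sum]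
    refine E_mono (fun y' => ?_) y
    rw [rem_eq hK hK']
    refine (abs_sum_le_sum_abs _ _).trans (sum_le_sum fun i _ => abs_sum_le_sum_abs _ _)
  have b2 : ∀ x y, (Hk D D' f (M - k) k x y) ^ 2
      ≤ 16 * ∑ i ∈ Ico (M - k) K, ∑ l ∈ Ico k K,
        (z ^ (i - (M - k)) * z ^ (l - k))⁻¹ * (G i l x y) ^ 2 := by
    intro x y
    have c1 : (Hk D D' f (M - k) k x y) ^ 2
        ≤ (∑ p ∈ Ico (M - k) K ×ˢ Ico k K, G p.1 p.2 x y) ^ 2 := by
      refine pow_le_pow_left₀ (Hk_nonneg _ _ _ _) ?_ 2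
      rw [sum_product]; exact b1 x y
    have c2 := sq_sum_le_weight (Ico (M - k) K ×ˢ Ico k K) (fun p => G p.1 p.2 x y)
      (fun p => z ^ (p.1 - (M - k)) * z ^ (p.2 - k)) (fun p _ => by positivity)
    have c3 : ∑ p ∈ Ico (M - k) K ×ˢ Ico k K, z ^ (p.1 - (M - k)) * z ^ (p.2 - k) ≤ 16 := by
      rw [sum_product]
      simp only [← mul_sum, ← sum_mul]
      calc _ ≤ 4 * 4 := mul_le_mul (hgeo _) (hgeo _) (hgeo0 _) (by norm_num)
        _ = 16 := by norm_num
    refine c1.trans (c2.trans ?_)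
    rw [sum_product (f := fun p : ℕ × ℕ => (z ^ (p.1 - (M - k)) * z ^ (p.2 - k))⁻¹
      * (G p.1 p.2 x y) ^ 2)]
    refine mul_le_mul_of_nonneg_right c3 ?_
    exact sum_nonneg fun i _ => sum_nonneg fun l _ => by positivity
  calc ∑ x, ∑ y, σ x y ^ (-q) * (Hk D D' f (M - k) k x y) ^ 2
      ≤ ∑ x, ∑ y, σ x y ^ (-q) * (16 * ∑ i ∈ Ico (M - k) K, ∑ l ∈ Ico k K,
        (z ^ (i - (M - k)) * z ^ (l - k))⁻¹ * (G i l x y) ^ 2) :=
        sum_le_sum fun x _ => sum_le_sum fun y _ =>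
          mul_le_mul_of_nonneg_left (b2 x y) (h.vpos x y).le
    _ = 16 * ∑ i ∈ Ico (M - k) K, ∑ l ∈ Ico k K, (z ^ (i - (M - k)) * z ^ (l - k))⁻¹
          * ∑ x, ∑ y, σ x y ^ (-q) * (G i l x y) ^ 2 := by
        simp only [mul_sum]
        calc _ = ∑ x, ∑ i ∈ Ico (M - k) K, ∑ y, ∑ l ∈ Ico k K, σ x y ^ (-q) *
              (16 * ((z ^ (i - (M - k)) * z ^ (l - k))⁻¹ * (G i l x y) ^ 2)) :=
              sum_congr rfl fun x _ => sum_comm
          _ = ∑ i ∈ Ico (M - k) K, ∑ x, ∑ y, ∑ l ∈ Ico k K, σ x y ^ (-q) *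
              (16 * ((z ^ (i - (M - k)) * z ^ (l - k))⁻¹ * (G i l x y) ^ 2)) := sum_comm
          _ = ∑ i ∈ Ico (M - k) K, ∑ x, ∑ l ∈ Ico k K, ∑ y, σ x y ^ (-q) *
              (16 * ((z ^ (i - (M - k)) * z ^ (l - k))⁻¹ * (G i l x y) ^ 2)) :=
              sum_congr rfl fun i _ => sum_congr rfl fun x _ => sum_comm
          _ = ∑ i ∈ Ico (M - k) K, ∑ l ∈ Ico k K, ∑ x, ∑ y, σ x y ^ (-q) *
              (16 * ((z ^ (i - (M - k)) * z ^ (l - k))⁻¹ * (G i l x y) ^ 2)) :=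
              sum_congr rfl fun i _ => sum_comm
          _ = _ := by
              refine sum_congr rfl fun i _ => sum_congr rfl fun l _ => sum_congr rfl fun x _ =>
                sum_congr rfl fun y _ => by ring
    _ ≤ 16 * ∑ i ∈ Ico (M - k) K, ∑ l ∈ Ico k K,
          (2 * A ^ q) * (s4 ^ (3 * (i + l - M)) * Dsq D D' σ f q i l) := by
        refine mul_le_mul_of_nonneg_left ?_ (by norm_num)
        refine sum_le_sum fun i hi => sum_le_sum fun l hl => ?_
        rw [mem_Ico] at hi hl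
        have d0 := h.Dsq_nonneg i l
        have d1 : ∑ x, ∑ y, σ x y ^ (-q) * (G i l x y) ^ 2
            ≤ A ^ q * ((2:ℝ) ^ (q - 1)) ^ (l + 1 - k) * Dsq D D' σ f q i l := by
          have := h.cost_y (k := k) (l := l) (by omega)
            (g := fun x y => |DD D D' i l f x y|) (fun x => (DD_measy i l f x).comp fun t => |t|)
          simp only [sq_abs] at this
          exact this
        have d2 : ((2:ℝ) ^ (q - 1)) ^ (l + 1 - k) ≤ s4 ^ ((i + l - M) + 1) :=
          (pow_le_pow_left₀ (by positivity) (h.R_le hq) _).trans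
            (pow_le_pow_right₀ s4_one (by omega))
        have d3 : (z ^ (i - (M - k)) * z ^ (l - k))⁻¹ = s4 ^ (2 * (i + l - M)) := by
          rw [← pow_add, hz, inv_pow, inv_inv, ← pow_mul]
          congr 2
          omega
        have d4 : s4 ≤ 2 := by
          have := s4_pow
          have := s4_one
          by_contra hc
          push Not at hc
          have : (2:ℝ) ^ 4 < s4 ^ 4 := pow_lt_pow_left₀ hc (by norm_num) (by norm_num)
          rw [s4_pow] at this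
          norm_num at this
        have a0 : 0 < A ^ q := by linarith [h.one_le_a]
        rw [d3]
        calc s4 ^ (2 * (i + l - M)) * ∑ x, ∑ y, σ x y ^ (-q) * (G i l x y) ^ 2
            ≤ s4 ^ (2 * (i + l - M)) * (A ^ q * s4 ^ ((i + l - M) + 1) * Dsq D D' σ f q i l) := by
              refine mul_le_mul_of_nonneg_left (d1.trans ?_) (by positivity)
              exact mul_le_mul_of_nonneg_right (mul_le_mul_of_nonneg_left d2 a0.le) d0
          _ = s4 * A ^ q * (s4 ^ (3 * (i + l - M)) * Dsq D D' σ f q i l) := by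
              have : s4 ^ (3 * (i + l - M)) = s4 ^ (2 * (i + l - M)) * s4 ^ (i + l - M) := by
                rw [← pow_add]; congr 1; ring
              rw [this, pow_succ]; ring
          _ ≤ (2 * A ^ q) * (s4 ^ (3 * (i + l - M)) * Dsq D D' σ f q i l) := by
              refine mul_le_mul_of_nonneg_right (mul_le_mul_of_nonneg_right d4 a0.le) ?_
              exact mul_nonneg (by positivity) d0
    _ = _ := by
        simp only [← mul_sum]
        ring

/-- sum over `k` of the previous bound -/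
lemma sum_Hk_le {K : ℕ} (hq : q ≤ 5/4) (hK : ∀ (g : X → ℝ) x, D.E K g x = g x)
    (hK' : ∀ (g : Y → ℝ) y, D'.E K g y = g y) (M : ℕ) :
    ∑ k ∈ range (M + 1), ∑ x, ∑ y, Ek D' k (fun x y => σ x y ^ (-q)) x y
        * (Hk D D' f (M - k) k x y) ^ 2
      ≤ (128 * A ^ q) * Hi D D' σ f q M K := by
  have a0 : 0 < A ^ q := by linarith [h.one_le_a]
  have s0 := s4_pos
  refine (sum_le_sum fun k hk => h.Hk_sq_le hq hK hK' M k
    (by rw [mem_range] at hk; omega)).trans ?_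
  rw [← mul_sum]
  have key : ∑ k ∈ range (M + 1), ∑ i ∈ Ico (M - k) K, ∑ l ∈ Ico k K,
          s4 ^ (3 * (i + l - M)) * Dsq D D' σ f q i l
      ≤ 4 * Hi D D' σ f q M K := by
    have e1 : ∀ k, ∑ i ∈ Ico (M - k) K, ∑ l ∈ Ico k K,
          s4 ^ (3 * (i + l - M)) * Dsq D D' σ f q i l
        = ∑ i ∈ range K, ∑ l ∈ range K, if (M - k ≤ i ∧ k ≤ l) then
          s4 ^ (3 * (i + l - M)) * Dsq D D' σ f q i l else 0 := by
      intro k
      have f1 : Ico (M - k) K = (range K).filter fun i => M - k ≤ i := by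
        ext i; simp only [mem_Ico, mem_filter, mem_range]; tauto
      have f2 : Ico k K = (range K).filter fun i => k ≤ i := by
        ext i; simp only [mem_Ico, mem_filter, mem_range]; tauto
      rw [f1, f2, sum_filter]
      refine sum_congr rfl fun i _ => ?_
      rw [sum_filter]
      by_cases c1 : M - k ≤ i
      · rw [if_pos c1]
        refine sum_congr rfl fun l _ => ?_
        simp only [c1, true_and]
      · rw [if_neg c1]
        simp only [c1, false_and, if_false, sum_const_zero]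
    rw [sum_congr rfl fun k _ => e1 k, sum_comm]
    unfold Hi
    rw [mul_sum]
    refine sum_le_sum fun i _ => ?_
    rw [sum_comm, mul_sum]
    refine sum_le_sum fun l _ => ?_
    have d0 := h.Dsq_nonneg i l
    rw [← sum_filter, sum_const, nsmul_eq_mul]
    split_ifs with c
    · have card : (((range (M+1)).filter fun k => M - k ≤ i ∧ k ≤ l).card : ℝ)
          ≤ ((i + l - M : ℕ) : ℝ) + 1 := by
        have : ((range (M+1)).filter fun k => M - k ≤ i ∧ k ≤ l) ⊆ Icc (M - i) l := by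
          intro k hk
          simp only [mem_filter, mem_range, mem_Icc] at hk ⊢
          omega
        have h1 := card_le_card this
        rw [Nat.card_Icc] at h1
        have h2 : ((range (M+1)).filter fun k => M - k ≤ i ∧ k ≤ l).card ≤ (i + l - M) + 1 := by
          omega
        exact_mod_cast h2
      have h3 := succ_le_s4 (i + l - M)
      have h4 : (2:ℝ) ^ (i + l - M) = s4 ^ (i + l - M) * s4 ^ (3 * (i + l - M)) := by
        rw [← pow_add, ← s4_pow, ← pow_mul]; congr 1; ring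
      rw [h4]
      calc _ ≤ (4 * s4 ^ (i + l - M)) * (s4 ^ (3 * (i + l - M)) * Dsq D D' σ f q i l) :=
            mul_le_mul_of_nonneg_right (card.trans h3) (mul_nonneg (by positivity) d0)
        _ = _ := by ring
    · have : ((range (M+1)).filter fun k => M - k ≤ i ∧ k ≤ l) = ∅ := by
        ext k
        simp only [mem_filter, mem_range, notMem_empty, iff_false]
        omega
      rw [this]; simp
  calc _ ≤ 32 * A ^ q * (4 * Hi D D' σ f q M K) := mul_le_mul_of_nonneg_left key (by positivity)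
    _ = _ := by ring

/-- one-sided high part -/
lemma sum_hp_le {K : ℕ} (hK : ∀ (g : X → ℝ) x, D.E K g x = g x) (M : ℕ) (hMK : M ≤ K) :
    ∑ l ∈ range M, ∑ x, ∑ y, σ x y ^ (-q)
        * (D'.del l (f x) y - D.E (M - l) (fun x' => D'.del l (f x') y) x) ^ 2
      ≤ 2 * Hi D D' σ f q M K := by
  have e0 : ∀ l x y, D'.del l (f x) y - D.E (M - l) (fun x' => D'.del l (f x') y) x
      = ∑ i ∈ Ico (M - l) K, DD D D' i l f x y := fun l x y =>
    (sum_Ico_del' hK (M - l) (fun x' => D'.del l (f x') y) x).symm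
  have b1 : ∀ l, ∑ x, ∑ y, σ x y ^ (-q)
        * (D'.del l (f x) y - D.E (M - l) (fun x' => D'.del l (f x') y) x) ^ 2
      ≤ 2 * ∑ i ∈ Ico (M - l) K, 2 ^ (i - (M - l)) * Dsq D D' σ f q i l := by
    intro l
    have b2 : ∀ x y, (∑ i ∈ Ico (M - l) K, DD D D' i l f x y) ^ 2
        ≤ 2 * ∑ i ∈ Ico (M - l) K, 2 ^ (i - (M - l)) * (DD D D' i l f x y) ^ 2 := by
      intro x y
      refine (sq_sum_le_weight _ _ (fun i => ((1:ℝ)/2) ^ (i - (M - l)))
        (fun i _ => by positivity)).trans ?_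
      have h1 : ∑ i ∈ Ico (M - l) K, ((1:ℝ)/2) ^ (i - (M - l)) ≤ 2 := by
        refine (geom_Ico_le (by norm_num) (by norm_num) _ _).trans ?_
        norm_num
      have h2 : ∑ i ∈ Ico (M - l) K, (((1:ℝ)/2) ^ (i - (M - l)))⁻¹ * (DD D D' i l f x y) ^ 2
          = ∑ i ∈ Ico (M - l) K, 2 ^ (i - (M - l)) * (DD D D' i l f x y) ^ 2 := by
        refine sum_congr rfl fun i _ => ?_
        rw [one_div, inv_pow, inv_inv]
      rw [h2]
      exact mul_le_mul_of_nonneg_right h1 (sum_nonneg fun i _ => by positivity)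
    calc _ = ∑ x, ∑ y, σ x y ^ (-q) * (∑ i ∈ Ico (M - l) K, DD D D' i l f x y) ^ 2 := by
          simp only [e0]
      _ ≤ ∑ x, ∑ y, σ x y ^ (-q) * (2 * ∑ i ∈ Ico (M - l) K,
            2 ^ (i - (M - l)) * (DD D D' i l f x y) ^ 2) :=
          sum_le_sum fun x _ => sum_le_sum fun y _ =>
            mul_le_mul_of_nonneg_left (b2 x y) (h.vpos x y).le
      _ = _ := by
          unfold Dsq
          simp only [mul_sum]
          calc _ = ∑ x, ∑ i ∈ Ico (M - l) K, ∑ y, σ x y ^ (-q) * (2 *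
                (2 ^ (i - (M - l)) * (DD D D' i l f x y) ^ 2)) :=
                sum_congr rfl fun x _ => sum_comm
            _ = ∑ i ∈ Ico (M - l) K, ∑ x, ∑ y, σ x y ^ (-q) * (2 *
                (2 ^ (i - (M - l)) * (DD D D' i l f x y) ^ 2)) := sum_comm
            _ = _ := sum_congr rfl fun i _ => sum_congr rfl fun x _ => sum_congr rfl fun y _ => by
                ring
  refine (sum_le_sum fun l _ => b1 l).trans ?_
  rw [← mul_sum]
  refine mul_le_mul_of_nonneg_left ?_ (by norm_num)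
  unfold Hi
  rw [sum_comm (s := range K) (t := range K)]
  calc ∑ l ∈ range M, ∑ i ∈ Ico (M - l) K, 2 ^ (i - (M - l)) * Dsq D D' σ f q i l
      ≤ ∑ l ∈ range M, ∑ i ∈ range K,
          if M ≤ i + l then 2 ^ (i + l - M) * Dsq D D' σ f q i l else 0 := by
        refine sum_le_sum fun l hl => ?_
        rw [mem_range] at hl
        have f1 : Ico (M - l) K = (range K).filter fun i => M ≤ i + l := by
          ext i; simp only [mem_Ico, mem_filter, mem_range]; omega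
        rw [f1, sum_filter]
        refine sum_le_sum fun i _ => le_of_eq ?_
        split_ifs with c
        · congr 2; omega
        · rfl
    _ ≤ _ := by
        refine sum_le_sum_of_subset_of_nonneg ?_ fun l _ _ => sum_nonneg fun i _ => ?_
        · intro l hl; rw [mem_range] at hl ⊢; omega
        · split_ifs
          · exact mul_nonneg (by positivity) (h.Dsq_nonneg i l)
          · exact le_rfl

end WS

end HC

end

section
/-!
Extraction of the double martingale differences below the hyperbolic level `M`.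
-/

open Finset

namespace HC

open Dy

variable {X Y : Type} [Fintype X] [Fintype Y] {D : Dy X} {D' : Dy Y}

lemma geom_inj_le {z : ℝ} (h0 : 0 ≤ z) (h1 : z < 1) (s : Finset ℕ) (g : ℕ → ℕ)
    (hg : ∀ i ∈ s, ∀ j ∈ s, g i = g j → i = j) : ∑ i ∈ s, z ^ (g i) ≤ (1 - z)⁻¹ := by
  rw [← sum_image (f := fun i => z ^ i) hg]
  have h2 := Summable.sum_le_tsum (s.image g) (fun i _ => pow_nonneg h0 i)
    (summable_geometric_of_lt_one h0 h1)
  rwa [tsum_geometric_of_lt_one h0 h1] at h2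

lemma succ_mul_pow_le {z : ℝ} (h0 : 0 ≤ z) (h1 : z < 1) (t : ℕ) :
    ((t:ℝ) + 1) * z ^ t ≤ (1 - z)⁻¹ := by
  have h2 : ((t:ℝ) + 1) * z ^ t = ∑ _i ∈ range (t + 1), z ^ t := by simp
  rw [h2]
  calc _ ≤ ∑ i ∈ range (t + 1), z ^ i := sum_le_sum fun i hi => by
        rw [mem_range] at hi
        exact pow_le_pow_of_le_one h0 h1.le (by omega)
    _ ≤ _ := geom_inj_le h0 h1 _ (fun i => i) (fun i _ j _ h => h)

/-- increments of the projected part -/
noncomputable def psi (D : Dy X) (D' : Dy Y) (v f : X → Y → ℝ) (M k : ℕ) (x : X) (y : Y) : ℝ :=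
  D.Ew (M - k) (fun x' => Ek D' k v x' y) (fun x' => chi D D' v f M k x' y) x

noncomputable def hp (D : Dy X) (D' : Dy Y) (f : X → Y → ℝ) (M k : ℕ) (x : X) (y : Y) : ℝ :=
  D'.del k (f x) y - D.E (M - k) (fun x' => D'.del k (f x') y) x

noncomputable def Qk (D : Dy X) (D' : Dy Y) (v f : X → Y → ℝ) (M k : ℕ) (x : X) (y : Y) : ℝ :=
  D.Ew (M - k) (fun x' => Ek D' k v x' y) (fun x' => hp D D' f M k x' y) x

variable {v f : X → Y → ℝ}

lemma psi_eq (hv : ∀ x y, 0 < v x y) (M k : ℕ) (x : X) (y : Y) :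
    psi D D' v f M k x y = D.E (M - k) (fun x' => D'.del k (f x') y) x + Qk D D' v f M k x y
      - Wk D D' v f (M - (k + 1)) (k + 1) x y + Wk D D' v f (M - k) k x y := by
  have hv0 : ∀ x', 0 < Ek D' k v x' y := fun x' => E_pos (hv x') y
  have e1 : (fun x' => chi D D' v f M k x' y) = fun x' =>
      (D.E (M - k) (fun x'' => D'.del k (f x'') y) x' + hp D D' f M k x' y)
      - Wk D D' v f (M - (k + 1)) (k + 1) x' y + Wk D D' v f (M - k) k x' y := by
    ext x'
    rw [chi_eq]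
    unfold hp
    ring
  unfold psi Qk
  rw [e1, Ew_add, Ew_sub, Ew_add, Ew_of_meas hv0 (E_meas _ _),
    Ew_of_meas hv0 ((Wk_measx (v := v) (f := f) (M - (k+1)) (k+1) y).mono (by omega)),
    Ew_of_meas hv0 (Wk_measx (v := v) (f := f) (M - k) k y)]

lemma hp_E (M k : ℕ) (x : X) (y : Y) : D'.E k (hp D D' f M k x) y = 0 := by
  have : hp D D' f M k x = fun y => D'.del k (f x) y
      - D.E (M - k) (fun x' => D'.del k (f x') y) x := rfl
  rw [this, E_sub, ← E_comm]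
  simp only [E_del]
  rw [E_const, sub_zero]

lemma hp_measy (M k : ℕ) (x : X) : D'.Meas (k+1) (hp D D' f M k x) := by
  intro y y' hy
  unfold hp
  have h1 : ∀ x, D'.del k (f x) y = D'.del k (f x) y' := fun x => del_meas _ _ _ _ hy
  simp only [h1]

lemma Qk_E (M k : ℕ) (x : X) (y : Y) : D'.E k (Qk D D' v f M k x) y = 0 := by
  have m1 : D'.Meas k (fun y => (D.E (M - k) (fun x' => Ek D' k v x' y) x)⁻¹) := by
    intro y y' hy
    have h1 : ∀ x, Ek D' k v x y = Ek D' k v x y' := fun x => Ek_meas k x _ _ hy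
    simp only [h1]
  have e1 : Qk D D' v f M k x = fun y => (D.E (M - k) (fun x' => Ek D' k v x' y) x)⁻¹
      * D.E (M - k) (fun x' => Ek D' k v x' y * hp D D' f M k x' y) x := by
    ext y
    unfold Qk Dy.Ew
    rw [div_eq_inv_mul]
  rw [e1, E_mul_meas m1, ← E_comm]
  have e2 : ∀ x', D'.E k (fun y => Ek D' k v x' y * hp D D' f M k x' y) y = 0 := by
    intro x'
    rw [E_mul_meas (Ek_meas k x'), hp_E, mul_zero]
  simp only [e2]
  rw [E_const, mul_zero]

lemma chi_measy (M k : ℕ) (x : X) : D'.Meas (k+1) (chi D D' v f M k x) :=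
  Meas.comp₂ (Ak_measy M (k+1) x) ((Ak_measy M k x).mono (Nat.le_succ k)) fun s t => s - t

lemma Ew_measy {j k k' : ℕ} (hk : k ≤ k') {g : X → Y → ℝ} (hg : ∀ x, D'.Meas k' (g x)) (x : X) :
    D'.Meas k' (fun y => D.Ew j (fun x' => Ek D' k v x' y) (fun x' => g x' y) x) := by
  intro y y' hy
  have h1 : ∀ x, Ek D' k v x y = Ek D' k v x y' := fun x =>
    (Ek_meas (D' := D') (f := v) k x).mono hk _ _ hy
  have h2 : ∀ x, g x y = g x y' := fun x => hg x _ _ hy
  simp only [h1, h2]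

lemma psi_measy (M k : ℕ) (x : X) : D'.Meas (k+1) (psi D D' v f M k x) :=
  Ew_measy (Nat.le_succ k) (fun x => chi_measy M k x) x

lemma Qk_measy (M k : ℕ) (x : X) : D'.Meas (k+1) (Qk D D' v f M k x) :=
  Ew_measy (Nat.le_succ k) (fun x => hp_measy M k x) x

lemma psi_measx (M k : ℕ) (y : Y) : D.Meas (M - k) (fun x => psi D D' v f M k x y) := Ew_meas _ _ _

lemma Qk_measx (M k : ℕ) (y : Y) : D.Meas (M - k) (fun x => Qk D D' v f M k x y) := Ew_meas _ _ _

lemma DD_of_measx {i l j : ℕ} (hj : j ≤ i) {g : X → Y → ℝ} (hg : ∀ y, D.Meas j (fun x => g x y))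
    (x : X) (y : Y) : DD D D' i l g x y = 0 := by
  unfold DD
  refine del_of_meas hj ?_ x
  intro x1 x2 hx
  have h1 : g x1 = g x2 := by ext y'; exact hg y' _ _ hx
  simp only [h1]

lemma DD_of_measy {i l k : ℕ} (hk : k ≤ l) {g : X → Y → ℝ} (hg : ∀ x, D'.Meas k (g x))
    (x : X) (y : Y) : DD D D' i l g x y = 0 := by
  unfold DD
  have : (fun x' => D'.del l (g x') y) = fun _ => 0 := by
    ext x'; exact del_of_meas hk (hg x') y
  rw [this, del_zero]

lemma DD_of_Ey {i l k : ℕ} (hk : l < k) {g : X → Y → ℝ} (hg : ∀ x y, D'.E k (g x) y = 0)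
    (x : X) (y : Y) : DD D D' i l g x y = 0 := by
  unfold DD
  have : (fun x' => D'.del l (g x') y) = fun _ => 0 := by
    ext x'; exact del_of_E_zero hk (hg x') y
  rw [this, del_zero]

lemma del_del (l : ℕ) (g : Y → ℝ) (y : Y) : D'.del l (D'.del l g) y = D'.del l g y := by
  have h1 : D'.del l (D'.del l g) y = D'.E (l+1) (D'.del l g) y - D'.E l (D'.del l g) y := rfl
  rw [h1, E_del, sub_zero, E_of_meas (del_meas l g)]

lemma del_Ex (l j : ℕ) (g : X → Y → ℝ) (x : X) (y : Y) :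
    D'.del l (fun y => D.E j (fun x' => g x' y) x) y
      = D.E j (fun x' => D'.del l (g x') y) x := by
  unfold Dy.del
  rw [E_sub, E_comm D D' j (l+1) g x y, E_comm D D' j l g x y]

lemma DD_Ex_del (M : ℕ) {i l : ℕ} (h : i + l < M) (x : X) (y : Y) :
    DD D D' i l (fun x y => D.E (M - l) (fun x' => D'.del l (f x') y) x) x y
      = DD D D' i l f x y := by
  unfold DD
  have h1 : ∀ x', D'.del l (fun y => D.E (M - l) (fun x' => D'.del l (f x') y) x') y
      = D.E (M - l) (fun x' => D'.del l (f x') y) x' := by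
    intro x'
    rw [del_Ex]
    simp only [del_del]
  simp only [h1]
  unfold Dy.del
  rw [E_E_coarse (by omega), E_E_coarse (by omega)]

lemma DD_Ex_del_zero (J : ℕ) {i l k : ℕ} (h : l < k) (x : X) (y : Y) :
    DD D D' i l (fun x y => D.E J (fun x' => D'.del k (f x') y) x) x y = 0 := by
  refine DD_of_Ey (k := k) h (fun x y => ?_) x y
  rw [← E_comm]
  simp only [E_del]
  exact E_const _ _ _

/-- **the extraction formula** -/
lemma DD_extract (hv : ∀ x y, 0 < v x y) {M i l : ℕ} (h : i + l < M) (x : X) (y : Y) :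
    DD D D' i l f x y = ∑ k ∈ Ico l (M - i), DD D D' i l (psi D D' v f M k) x y
      - DD D D' i l (Qk D D' v f M l) x y := by
  have hl : l ∈ Ico l (M - i) := by rw [mem_Ico]; omega
  have e1 : ∀ k ∈ Ico l (M - i), DD D D' i l (psi D D' v f M k) x y
      = (if k = l then (DD D D' i l f x y + DD D D' i l (Qk D D' v f M l) x y) else 0)
        - (DD D D' i l (Wk D D' v f (M - (k+1)) (k+1)) x y
          - DD D D' i l (Wk D D' v f (M - k) k) x y) := by
    intro k hk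
    rw [mem_Ico] at hk
    have e2 : psi D D' v f M k = fun x y =>
        ((D.E (M - k) (fun x' => D'.del k (f x') y) x + Qk D D' v f M k x y)
      - Wk D D' v f (M - (k + 1)) (k + 1) x y) + Wk D D' v f (M - k) k x y := by
      ext x y; exact psi_eq hv M k x y
    rw [e2, DD_add, DD_sub, DD_add]
    by_cases c : k = l
    · subst c
      rw [if_pos rfl, DD_Ex_del M h]
      ring
    · rw [if_neg c, DD_Ex_del_zero (M - k) (by omega : l < k),
        DD_of_Ey (by omega : l < k) (fun x y => Qk_E M k x y)]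
      ring
  rw [sum_congr rfl e1, sum_sub_distrib, Finset.sum_ite_eq' (Ico l (M - i)) l, if_pos hl,
    Finset.sum_Ico_sub (fun k => DD D D' i l (Wk D D' v f (M - k) k) x y)
      (by omega : l ≤ M - i)]
  have z1 : DD D D' i l (Wk D D' v f (M - (M - i)) (M - i)) x y = 0 :=
    DD_of_measx (j := M - (M - i)) (by omega) (fun y => Wk_measx _ _ y) x y
  have z2 : DD D D' i l (Wk D D' v f (M - l) l) x y = 0 :=
    DD_of_measy le_rfl (fun x => Wk_measy _ _ x) x y
  rw [z1, z2]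
  ring

namespace WS
variable {σ : X → Y → ℝ} {A q : ℝ} (h : WS D D' σ f A q)
include h

lemma cost2 {j J k J' : ℕ} (hj : j ≤ J) (hk : k ≤ J') {g : X → Y → ℝ}
    (hx : ∀ y, D.Meas J (fun x => g x y)) (hy : ∀ x, D'.Meas J' (g x)) :
    ∑ x, ∑ y, σ x y ^ (-q) * (D.E j (fun x' => D'.E k (g x') y) x) ^ 2
      ≤ (A ^ q) ^ 2 * ((2:ℝ) ^ (q - 1)) ^ ((J - j) + (J' - k)) *
        ∑ x, ∑ y, σ x y ^ (-q) * g x y ^ 2 := by
  have a0 : 0 < A ^ q := by linarith [h.one_le_a]
  have s1 : ∀ y, ∑ x, σ x y ^ (-q) * (D.E j (fun x' => D'.E k (g x') y) x) ^ 2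
      ≤ A ^ q * ((2:ℝ) ^ (q - 1)) ^ (J - j) * ∑ x, σ x y ^ (-q) * (D'.E k (g x) y) ^ 2 := by
    intro y
    have m1 : D.Meas (j + (J - j)) (fun x' => D'.E k (g x') y) := by
      rw [Nat.add_sub_cancel' hj]
      intro x1 x2 hx12
      have : g x1 = g x2 := by ext y'; exact hx y' _ _ hx12
      simp only [this]
    have := avg_cost (D := D) (fun x => h.hσ x y) h.hq1 h.hA0 (fun j x => h.hAx j x y) j (J - j) m1
    rw [pow_rpow_comm] at this
    exact this
  have s2 : ∀ x, ∑ y, σ x y ^ (-q) * (D'.E k (g x) y) ^ 2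
      ≤ A ^ q * ((2:ℝ) ^ (q - 1)) ^ (J' - k) * ∑ y, σ x y ^ (-q) * g x y ^ 2 := by
    intro x
    have m1 : D'.Meas (k + (J' - k)) (g x) := by rw [Nat.add_sub_cancel' hk]; exact hy x
    have := avg_cost (D := D') (h.hσ x) h.hq1 h.hA0 (fun j y => h.hAy j x y) k (J' - k) m1
    rw [pow_rpow_comm] at this
    exact this
  calc _ = ∑ y, ∑ x, σ x y ^ (-q) * (D.E j (fun x' => D'.E k (g x') y) x) ^ 2 := sum_comm
    _ ≤ ∑ y, A ^ q * ((2:ℝ) ^ (q - 1)) ^ (J - j) * ∑ x, σ x y ^ (-q) * (D'.E k (g x) y) ^ 2 :=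
        sum_le_sum fun y _ => s1 y
    _ = A ^ q * ((2:ℝ) ^ (q - 1)) ^ (J - j) * ∑ x, ∑ y, σ x y ^ (-q) * (D'.E k (g x) y) ^ 2 := by
        rw [← mul_sum, sum_comm]
    _ ≤ A ^ q * ((2:ℝ) ^ (q - 1)) ^ (J - j) * ∑ x, A ^ q * ((2:ℝ) ^ (q - 1)) ^ (J' - k) *
          ∑ y, σ x y ^ (-q) * g x y ^ 2 :=
        mul_le_mul_of_nonneg_left (sum_le_sum fun x _ => s2 x) (by positivity)
    _ = _ := by rw [← mul_sum, pow_add]; ring

/-- cost of a double difference -/
lemma costDD {i l J J' : ℕ} (hi : i + 1 ≤ J) (hl : l + 1 ≤ J') {g : X → Y → ℝ}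
    (hx : ∀ y, D.Meas J (fun x => g x y)) (hy : ∀ x, D'.Meas J' (g x)) :
    ∑ x, ∑ y, σ x y ^ (-q) * (DD D D' i l g x y) ^ 2
      ≤ 16 * (A ^ q) ^ 2 * ((2:ℝ) ^ (q - 1)) ^ ((J - i) + (J' - l)) *
        ∑ x, ∑ y, σ x y ^ (-q) * g x y ^ 2 := by
  have a0 : 0 < A ^ q := by linarith [h.one_le_a]
  set S := ∑ x, ∑ y, σ x y ^ (-q) * g x y ^ 2 with hS
  have S0 : 0 ≤ S := sum_nonneg fun x _ => sum_nonneg fun y _ =>
    mul_nonneg (h.vpos x y).le (sq_nonneg _)
  set T : ℕ → ℕ → X → Y → ℝ := fun j k x y => D.E j (fun x' => D'.E k (g x') y) x with hT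
  have hR := h.R_one
  have b : ∀ j k, i ≤ j → j ≤ J → l ≤ k → k ≤ J' → ∑ x, ∑ y, σ x y ^ (-q) * (T j k x y) ^ 2
      ≤ (A ^ q) ^ 2 * ((2:ℝ) ^ (q - 1)) ^ ((J - i) + (J' - l)) * S := by
    intro j k h1 h2 h3 h4
    refine (h.cost2 h2 h4 hx hy).trans ?_
    refine mul_le_mul_of_nonneg_right (mul_le_mul_of_nonneg_left ?_ (by positivity)) S0
    exact pow_le_pow_right₀ hR (by omega)
  have e1 : ∀ x y, DD D D' i l g x y = T (i+1) (l+1) x y - T (i+1) l x y - T i (l+1) x y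
      + T i l x y := by
    intro x y
    unfold DD Dy.del
    simp only [hT]
    rw [E_sub, E_sub]
    ring
  have e2 : ∀ x y, σ x y ^ (-q) * (DD D D' i l g x y) ^ 2
      ≤ 4 * (σ x y ^ (-q) * (T (i+1) (l+1) x y) ^ 2) + 4 * (σ x y ^ (-q) * (T (i+1) l x y) ^ 2)
        + 4 * (σ x y ^ (-q) * (T i (l+1) x y) ^ 2) + 4 * (σ x y ^ (-q) * (T i l x y) ^ 2) := by
    intro x y
    rw [e1]
    have := (h.vpos x y).le
    have h4 : ∀ a b c d : ℝ, (a - b - c + d) ^ 2 ≤ 4 * a ^ 2 + 4 * b ^ 2 + 4 * c ^ 2 + 4 * d ^ 2 := by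
      intro a b c d
      nlinarith [sq_nonneg (a + b), sq_nonneg (a + c), sq_nonneg (a - d), sq_nonneg (b - c),
        sq_nonneg (b + d), sq_nonneg (c + d)]
    have := mul_le_mul_of_nonneg_left (h4 (T (i+1) (l+1) x y) (T (i+1) l x y) (T i (l+1) x y)
      (T i l x y)) this
    linarith
  have e3 := sum_le_sum fun x (_ : x ∈ (univ : Finset X)) =>
    sum_le_sum fun y (_ : y ∈ (univ : Finset Y)) => e2 x y
  simp only [sum_add_distrib, ← mul_sum] at e3
  have b1 := b (i+1) (l+1) (by omega) (by omega) (by omega) (by omega)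
  have b2 := b (i+1) l (by omega) (by omega) (by omega) (by omega)
  have b3 := b i (l+1) (by omega) (by omega) (by omega) (by omega)
  have b4 := b i l (by omega) (by omega) (by omega) (by omega)
  linarith

lemma psi_norm (M k : ℕ) :
    ∑ x, ∑ y, σ x y ^ (-q) * (psi D D' (fun x y => σ x y ^ (-q)) f M k x y) ^ 2
      ≤ 2 * (2 ^ q * A ^ q) * ∑ x, ∑ y, Ek D' (k+1) (fun x y => σ x y ^ (-q)) x y
        * (chi D D' (fun x y => σ x y ^ (-q)) f M k x y) ^ 2 := by
  set v : X → Y → ℝ := fun x y => σ x y ^ (-q) with hv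
  have hvk : ∀ k x y, 0 < Ek D' k v x y := fun k x y => E_pos (fun y => h.vpos x y) y
  have e1 : ∑ x, ∑ y, v x y * (psi D D' v f M k x y) ^ 2
      = ∑ x, ∑ y, Ek D' (k+1) v x y * (psi D D' v f M k x y) ^ 2 :=
    sum_congr rfl fun x _ => (sum_E_mul ((psi_measy M k x).comp fun t => t ^ 2)).symm
  have e2 : ∑ x, ∑ y, Ek D' (k+1) v x y * (psi D D' v f M k x y) ^ 2
      ≤ 2 * ∑ x, ∑ y, Ek D' k v x y * (psi D D' v f M k x y) ^ 2 := by
    simp only [mul_sum]
    refine sum_le_sum fun x _ => sum_le_sum fun y _ => ?_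
    have : Ek D' (k+1) v x y ≤ 2 * Ek D' k v x y := E_succ_le (fun y => (h.vpos x y).le) y
    nlinarith [sq_nonneg (psi D D' v f M k x y)]
  have e3 : ∑ x, ∑ y, Ek D' k v x y * (psi D D' v f M k x y) ^ 2
      ≤ ∑ x, ∑ y, Ek D' k v x y * (chi D D' v f M k x y) ^ 2 := by
    rw [sum_comm, sum_comm (s := univ) (t := univ) (f := fun x y =>
      Ek D' k v x y * (chi D D' v f M k x y) ^ 2)]
    refine sum_le_sum fun y _ => ?_
    exact sum_Ew_sq_le (D := D) (fun x => hvk k x y)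
  have e4 : ∑ x, ∑ y, Ek D' k v x y * (chi D D' v f M k x y) ^ 2
      ≤ (2 ^ q * A ^ q) * ∑ x, ∑ y, Ek D' (k+1) v x y * (chi D D' v f M k x y) ^ 2 := by
    simp only [mul_sum]
    refine sum_le_sum fun x _ => sum_le_sum fun y _ => ?_
    have : Ek D' k v x y ≤ (2 ^ q * A ^ q) * Ek D' (k+1) v x y := h.Ey_double k x y
    nlinarith [sq_nonneg (chi D D' v f M k x y)]
  change ∑ x, ∑ y, v x y * (psi D D' v f M k x y) ^ 2 ≤ _
  rw [e1]
  linarith

lemma Qk_norm (M k : ℕ) :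
    ∑ x, ∑ y, σ x y ^ (-q) * (Qk D D' (fun x y => σ x y ^ (-q)) f M k x y) ^ 2
      ≤ 2 * (2 ^ q * A ^ q) * ∑ x, ∑ y, σ x y ^ (-q) * (hp D D' f M k x y) ^ 2 := by
  set v : X → Y → ℝ := fun x y => σ x y ^ (-q) with hv
  have hvk : ∀ k x y, 0 < Ek D' k v x y := fun k x y => E_pos (fun y => h.vpos x y) y
  have e1 : ∑ x, ∑ y, v x y * (Qk D D' v f M k x y) ^ 2
      = ∑ x, ∑ y, Ek D' (k+1) v x y * (Qk D D' v f M k x y) ^ 2 :=
    sum_congr rfl fun x _ => (sum_E_mul ((Qk_measy M k x).comp fun t => t ^ 2)).symm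
  have e2 : ∑ x, ∑ y, Ek D' (k+1) v x y * (Qk D D' v f M k x y) ^ 2
      ≤ 2 * ∑ x, ∑ y, Ek D' k v x y * (Qk D D' v f M k x y) ^ 2 := by
    simp only [mul_sum]
    refine sum_le_sum fun x _ => sum_le_sum fun y _ => ?_
    have : Ek D' (k+1) v x y ≤ 2 * Ek D' k v x y := E_succ_le (fun y => (h.vpos x y).le) y
    nlinarith [sq_nonneg (Qk D D' v f M k x y)]
  have e3 : ∑ x, ∑ y, Ek D' k v x y * (Qk D D' v f M k x y) ^ 2
      ≤ ∑ x, ∑ y, Ek D' k v x y * (hp D D' f M k x y) ^ 2 := by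
    rw [sum_comm, sum_comm (s := univ) (t := univ) (f := fun x y =>
      Ek D' k v x y * (hp D D' f M k x y) ^ 2)]
    refine sum_le_sum fun y _ => ?_
    exact sum_Ew_sq_le (D := D) (fun x => hvk k x y)
  have e4 : ∑ x, ∑ y, Ek D' k v x y * (hp D D' f M k x y) ^ 2
      ≤ (2 ^ q * A ^ q) * ∑ x, ∑ y, Ek D' (k+1) v x y * (hp D D' f M k x y) ^ 2 := by
    simp only [mul_sum]
    refine sum_le_sum fun x _ => sum_le_sum fun y _ => ?_
    have : Ek D' k v x y ≤ (2 ^ q * A ^ q) * Ek D' (k+1) v x y := h.Ey_double k x y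
    nlinarith [sq_nonneg (hp D D' f M k x y)]
  have e5 : ∑ x, ∑ y, Ek D' (k+1) v x y * (hp D D' f M k x y) ^ 2
      = ∑ x, ∑ y, v x y * (hp D D' f M k x y) ^ 2 :=
    sum_congr rfl fun x _ => sum_E_mul ((hp_measy M k x).comp fun t => t ^ 2)
  change ∑ x, ∑ y, v x y * (Qk D D' v f M k x y) ^ 2 ≤ _ * ∑ x, ∑ y, v x y * _
  rw [e1, ← e5]
  linarith

/-- bound of one low double difference -/
lemma Dsq_low {M i l : ℕ} (hil : i + l < M) :
    Dsq D D' σ f q i l
      ≤ 32 * (A ^ q) ^ 2 * (((M - 1 - i - l : ℕ) : ℝ) + 1)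
        * ((2:ℝ) ^ (q - 1)) ^ ((M - 1 - i - l) + 2)
        * (∑ k ∈ Ico l (M - i), ∑ x, ∑ y, σ x y ^ (-q)
            * (psi D D' (fun x y => σ x y ^ (-q)) f M k x y) ^ 2
          + ∑ x, ∑ y, σ x y ^ (-q) * (Qk D D' (fun x y => σ x y ^ (-q)) f M l x y) ^ 2) := by
  set v : X → Y → ℝ := fun x y => σ x y ^ (-q) with hv
  have hv0 : ∀ x y, 0 < v x y := h.vpos
  set I := M - 1 - i - l with hI
  have hcard : ((Ico l (M - i)).card : ℝ) = (I : ℝ) + 1 := by
    rw [Nat.card_Ico]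
    have : M - i - l = I + 1 := by omega
    rw [this]; push_cast; ring
  have b1 : ∀ x y, (DD D D' i l f x y) ^ 2
      ≤ 2 * (((I : ℝ) + 1) * ∑ k ∈ Ico l (M - i), (DD D D' i l (psi D D' v f M k) x y) ^ 2)
        + 2 * (DD D D' i l (Qk D D' v f M l) x y) ^ 2 := by
    intro x y
    rw [DD_extract hv0 hil]
    have c1 := sq_sum_le_card_mul_sum_sq (s := Ico l (M - i))
      (f := fun k => DD D D' i l (psi D D' v f M k) x y)
    rw [hcard] at c1
    nlinarith [sq_nonneg (∑ k ∈ Ico l (M - i), DD D D' i l (psi D D' v f M k) x y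
      + DD D D' i l (Qk D D' v f M l) x y)]
  have b2 : Dsq D D' σ f q i l
      ≤ 2 * (((I : ℝ) + 1) * ∑ k ∈ Ico l (M - i), ∑ x, ∑ y, v x y
          * (DD D D' i l (psi D D' v f M k) x y) ^ 2)
        + 2 * ∑ x, ∑ y, v x y * (DD D D' i l (Qk D D' v f M l) x y) ^ 2 := by
    have c1 := sum_le_sum fun x (_ : x ∈ (univ : Finset X)) =>
      sum_le_sum fun y (_ : y ∈ (univ : Finset Y)) =>
        mul_le_mul_of_nonneg_left (b1 x y) (hv0 x y).le
    refine c1.trans (le_of_eq ?_)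
    have e1 : ∀ x y, v x y * (2 * (((I : ℝ) + 1) * ∑ k ∈ Ico l (M - i),
        (DD D D' i l (psi D D' v f M k) x y) ^ 2)
        + 2 * (DD D D' i l (Qk D D' v f M l) x y) ^ 2)
        = 2 * (((I : ℝ) + 1) * ∑ k ∈ Ico l (M - i),
          v x y * (DD D D' i l (psi D D' v f M k) x y) ^ 2)
          + 2 * (v x y * (DD D D' i l (Qk D D' v f M l) x y) ^ 2) := by
      intro x y
      rw [← mul_sum]; ring
    have e3 : ∀ F : ℕ → X → Y → ℝ, ∑ x, ∑ y, ∑ k ∈ Ico l (M - i), F k x y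
        = ∑ k ∈ Ico l (M - i), ∑ x, ∑ y, F k x y := by
      intro F
      rw [sum_comm (s := Ico l (M - i))]
      exact sum_congr rfl fun x _ => sum_comm
    rw [← e3, mul_sum, mul_sum, mul_sum, ← sum_add_distrib]
    refine sum_congr rfl fun x _ => ?_
    rw [mul_sum, mul_sum, mul_sum, ← sum_add_distrib]
    exact sum_congr rfl fun y _ => e1 x y
  have a0 : 0 < A ^ q := by linarith [h.one_le_a]
  have c1 : ∀ k ∈ Ico l (M - i), ∑ x, ∑ y, v x y * (DD D D' i l (psi D D' v f M k) x y) ^ 2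
      ≤ 16 * (A ^ q) ^ 2 * ((2:ℝ) ^ (q - 1)) ^ (I + 2)
        * ∑ x, ∑ y, v x y * (psi D D' v f M k x y) ^ 2 := by
    intro k hk
    rw [mem_Ico] at hk
    have := h.costDD (i := i) (l := l) (J := M - k) (J' := k + 1) (by omega) (by omega)
      (fun y => psi_measx (v := v) (f := f) M k y) (fun x => psi_measy (v := v) (f := f) M k x)
    have e : (M - k - i) + (k + 1 - l) = I + 2 := by omega
    rw [e] at this
    exact this
  have c2 : ∑ x, ∑ y, v x y * (DD D D' i l (Qk D D' v f M l) x y) ^ 2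
      ≤ 16 * (A ^ q) ^ 2 * ((2:ℝ) ^ (q - 1)) ^ (I + 2)
        * ∑ x, ∑ y, v x y * (Qk D D' v f M l x y) ^ 2 := by
    have := h.costDD (i := i) (l := l) (J := M - l) (J' := l + 1) (by omega) (by omega)
      (fun y => Qk_measx (v := v) (f := f) M l y) (fun x => Qk_measy (v := v) (f := f) M l x)
    have e : (M - l - i) + (l + 1 - l) = I + 2 := by omega
    rw [e] at this
    exact this
  have c3 := sum_le_sum c1
  rw [← mul_sum] at c3
  set P := ∑ k ∈ Ico l (M - i), ∑ x, ∑ y, v x y * (psi D D' v f M k x y) ^ 2 with hP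
  set Q := ∑ x, ∑ y, v x y * (Qk D D' v f M l x y) ^ 2 with hQ
  have Q0 : 0 ≤ Q := sum_nonneg fun x _ => sum_nonneg fun y _ =>
    mul_nonneg (hv0 x y).le (sq_nonneg _)
  set R := ((2:ℝ) ^ (q - 1)) ^ (I + 2) with hR
  have R0 : 0 < R := by positivity
  calc Dsq D D' σ f q i l ≤ _ := b2
    _ ≤ 2 * (((I : ℝ) + 1) * (16 * (A ^ q) ^ 2 * R * P))
        + 2 * (16 * (A ^ q) ^ 2 * R * Q) := by
        have := mul_le_mul_of_nonneg_left c3 (by positivity : (0:ℝ) ≤ 2 * ((I:ℝ) + 1))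
        linarith
    _ ≤ 2 * (((I : ℝ) + 1) * (16 * (A ^ q) ^ 2 * R * P))
        + 2 * (((I : ℝ) + 1) * (16 * (A ^ q) ^ 2 * R * Q)) := by
        have h1 : (1:ℝ) ≤ (I : ℝ) + 1 := by
          have : (0:ℝ) ≤ (I:ℝ) := Nat.cast_nonneg _
          linarith
        have h2 : 0 ≤ 16 * (A ^ q) ^ 2 * R * Q := by positivity
        nlinarith
    _ = _ := by ring

end WS

end HC

end
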