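import Pool.Agent.Helper61.HC.StepB
import Pool.Agent.Helper61.HC.ExW

section
/-!
The two-dimensional discrete theorem: assembly.
-/

open Finset

namespace HC

open Dy

section re
variable {X Y : Type} [Fintype X] [Fintype Y] {D : Dy X} {D' : Dy Y}

lemma E_re (j : ℕ) (g : X → ℂ) (x : X) : (D.E j g x).re = D.E j (fun y => (g y).re) x := by
  unfold Dy.E
  rw [Complex.real_smul, Complex.re_ofReal_mul, Complex.re_sum, smul_eq_mul]

lemma E_im (j : ℕ) (g : X → ℂ) (x : X) : (D.E j g x).im = D.E j (fun y => (g y).im) x := by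
  unfold Dy.E
  rw [Complex.real_smul, Complex.im_ofReal_mul, Complex.im_sum, smul_eq_mul]

lemma DD_re (i l : ℕ) (f : X → Y → ℂ) (x : X) (y : Y) :
    (DD D D' i l f x y).re = DD D D' i l (fun x y => (f x y).re) x y := by
  unfold DD Dy.del
  simp only [Complex.sub_re, E_re]

lemma DD_im (i l : ℕ) (f : X → Y → ℂ) (x : X) (y : Y) :
    (DD D D' i l f x y).im = DD D D' i l (fun x y => (f x y).im) x y := by
  unfold DD Dy.del
  simp only [Complex.sub_im, E_im]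

end re

variable {L : ℕ}

lemma DsqC_eq (σ : ZMod (2 ^ L) → ZMod (2 ^ L) → ℝ)
    (f : ZMod (2 ^ L) → ZMod (2 ^ L) → ℂ) (q : ℝ) (i l : ℕ) :
    DsqC L σ f q i l = Dsq (dy L) (dy L) σ (fun x y => (f x y).re) q i l
      + Dsq (dy L) (dy L) σ (fun x y => (f x y).im) q i l := by
  unfold DsqC Dsq
  rw [← sum_add_distrib]
  refine sum_congr rfl fun x _ => ?_
  rw [← sum_add_distrib]
  refine sum_congr rfl fun y _ => ?_
  rw [← DD_re, ← DD_im, ← mul_add, Complex.sq_norm, Complex.normSq_apply]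
  ring

lemma A1.shift {N : ℕ} [NeZero N] {σ : ZMod N → ℝ} {A : ℝ} (h : A1 σ A) (a : ZMod N) :
    A1 (fun x => σ (x + a)) A := by
  refine ⟨fun x => h.pos _, h.one, fun x l hl => ?_, fun x l hl => ?_⟩
  · have := h.fwd (x + a) l hl
    refine le_trans (le_of_eq (sum_congr rfl fun t _ => ?_)) this
    congr 1; ring
  · have := h.bwd (x + a) l hl
    refine le_trans (le_of_eq (sum_congr rfl fun t _ => ?_)) this
    congr 1; ring

lemma ws_shift {σ : ZMod (2 ^ L) → ZMod (2 ^ L) → ℝ} {A q : ℝ}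
    (hx : ∀ y, A1 (fun x => σ x y) A) (hy : ∀ x, A1 (σ x) A) (hq1 : 1 ≤ q) (hq : q ≤ 5/4)
    {f : ZMod (2 ^ L) → ZMod (2 ^ L) → ℝ} (hf : ∀ x y, |f x y| ≤ σ x y ^ q)
    (a b : ZMod (2 ^ L)) :
    WS (dy L) (dy L) (sh a b σ) (sh a b f) (2 * A) q := by
  have hA : 1 ≤ A := (hy 0).one
  refine ⟨fun x y => (hy _).pos _, by linarith, fun j x y => ?_, fun j x y => ?_, hq1, by linarith,
    fun x y => hf _ _⟩
  · exact ((hx (y + b)).shift a).dyadic j x
  · exact ((hy (x + a)).shift b).dyadic j y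

/-- sums over all shifts of the position -/
lemma sum_sh {M : Type*} [AddCommMonoid M] (a b : ZMod (2 ^ L)) (Φ : ZMod (2 ^ L) → ZMod (2 ^ L) → M) :
    ∑ x, ∑ y, Φ (x + a) (y + b) = ∑ x, ∑ y, Φ x y := by
  have h1 : ∀ x, ∑ y, Φ (x + a) (y + b) = ∑ y, Φ (x + a) y := fun x =>
    Equiv.sum_comp (Equiv.addRight b) (fun y => Φ (x + a) y)
  rw [sum_congr rfl fun x _ => h1 x]
  exact Equiv.sum_comp (Equiv.addRight a) (fun x => ∑ y, Φ x y)

lemma E0_eq (g : ZMod (2 ^ L) → ℂ) (x : ZMod (2 ^ L)) :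
    (dy L).E 0 g x = ((2:ℝ) ^ L)⁻¹ • ∑ y, g y := by
  unfold Dy.E
  have h1 : ((dy L).n 0 : ℝ) = 2 ^ L := by
    change ((ell L 0 : ℕ) : ℝ) = 2 ^ L
    unfold ell; push_cast; rfl
  rw [h1]
  congr 1
  refine sum_congr ?_ fun _ _ => rfl
  ext y
  simp only [mem_filter, mem_univ, true_and, iff_true]
  change y.val / ell L 0 = x.val / ell L 0
  have e : ell L 0 = 2 ^ L := by unfold ell; rw [Nat.sub_zero]
  rw [e, Nat.div_eq_of_lt (ZMod.val_lt y), Nat.div_eq_of_lt (ZMod.val_lt x)]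

lemma E0_cv (g : ℝ → ℂ) (s : ℕ) {u : ZMod (2 ^ L) → ℂ} (hu : ∀ x, (dy L).E 0 u x = 0)
    (x : ZMod (2 ^ L)) : (dy L).E 0 (cv L g s u) x = 0 := by
  have h0 : ∑ y, u y = 0 := by
    have := hu 0
    rw [E0_eq] at this
    exact (smul_eq_zero.1 this).resolve_left (by positivity)
  rw [E0_eq]
  have : ∑ y, cv L g s u y = 0 := by
    unfold cv
    rw [sum_comm]
    refine sum_eq_zero fun t _ => ?_
    rw [← mul_sum]
    have : ∑ y, u (y - t) = ∑ y, u y := Equiv.sum_comp (Equiv.subRight t) u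
    rw [this, h0, mul_zero]
  rw [this, smul_zero]

lemma E0_cv2x (g : ℝ → ℂ) (s1 s2 : ℕ) {f : ZMod (2 ^ L) → ZMod (2 ^ L) → ℂ}
    (hf : ∀ x y, (dy L).E 0 (fun x' => f x' y) x = 0) (x y : ZMod (2 ^ L)) :
    (dy L).E 0 (fun x' => cv2 L g s1 s2 f x' y) x = 0 := by
  unfold cv2
  refine E0_cv g s1 (u := fun x' => cv L g s2 (f x') y) (fun x => ?_) x
  unfold cv
  rw [E_sum]
  refine sum_eq_zero fun t _ => ?_
  rw [E_cmul, hf, mul_zero]

lemma E0_cv2y (g : ℝ → ℂ) (s1 s2 : ℕ) {f : ZMod (2 ^ L) → ZMod (2 ^ L) → ℂ}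
    (hf : ∀ x y, (dy L).E 0 (f x) y = 0) (x y : ZMod (2 ^ L)) :
    (dy L).E 0 (cv2 L g s1 s2 f x) y = 0 := by
  have : cv2 L g s1 s2 f x = fun y => ∑ t, kap L g s1 t * cv L g s2 (f (x - t)) y := by
    ext y; rfl
  rw [this, E_sum]
  refine sum_eq_zero fun t _ => ?_
  rw [E_cmul, E0_cv g s2 (hf _), mul_zero]

/-- target weights -/
noncomputable def WW (q : ℝ) (M i l : ℕ) : ℝ := if i + l < M then wt q (M - 1 - i - l) else 2 ^ (i + l - M)

lemma xx_le_R {q : ℝ} (hq : q ≤ 5/4) : xx ≤ ((2:ℝ) ^ (q - 1))⁻¹ := by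
  unfold xx
  refine inv_anti₀ (by positivity) ?_
  exact Real.rpow_le_rpow_of_exponent_le (by norm_num) (by linarith)

lemma R_inv_le {q : ℝ} (hq1 : 1 ≤ q) : ((2:ℝ) ^ (q - 1))⁻¹ ≤ 1 :=
  inv_le_one_of_one_le₀ (Real.one_le_rpow (by norm_num) (by linarith))

/-- inequality for step 1 -/
lemma ineq1 {q : ℝ} (hq1 : 1 ≤ q) (hq : q ≤ 5/4) {n K s1 s2 : ℕ} (h12 : s1 + s2 ≤ n) (i l : ℕ) :
    wt q (n - s1 - s2) * (xx ^ (ad i s1) * xx ^ (ad l s2)) ^ 2
      ≤ ((2:ℝ) ^ (q - 1)) ^ (2 * K) * WW q (n + K) i l := by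
  have x0 := xx_pos
  have x1 : xx ≤ 1 := by have := xx_lt; linarith
  set R := (2:ℝ) ^ (q - 1) with hR
  have R0 : 0 < R := by positivity
  have R1 : 1 ≤ R := Real.one_le_rpow (by norm_num) (by linarith)
  have hxR : xx ≤ R⁻¹ := xx_le_R hq
  have Ri : R⁻¹ ≤ 1 := R_inv_le hq1
  have Ri0 : 0 < R⁻¹ := inv_pos.2 R0
  unfold WW
  split_ifs with h
  · unfold wt
    rw [← hR]
    have e1 : (xx ^ (ad i s1) * xx ^ (ad l s2)) ^ 2 ≤ (R⁻¹) ^ (2 * (ad i s1 + ad l s2)) := by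
      rw [← pow_add, ← pow_mul, mul_comm _ 2]
      exact pow_le_pow_left₀ x0.le hxR _
    calc (R⁻¹) ^ (2 * (n - s1 - s2)) * (xx ^ (ad i s1) * xx ^ (ad l s2)) ^ 2
        ≤ (R⁻¹) ^ (2 * (n - s1 - s2)) * (R⁻¹) ^ (2 * (ad i s1 + ad l s2)) :=
          mul_le_mul_of_nonneg_left e1 (by positivity)
      _ = R ^ (2 * K) * ((R⁻¹) ^ (2 * K) * ((R⁻¹) ^ (2 * (n - s1 - s2)) * (R⁻¹) ^ (2 * (ad i s1 + ad l s2)))) := by
          rw [← mul_assoc (R ^ (2 * K)), ← mul_pow, mul_inv_cancel₀ R0.ne', one_pow, one_mul]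
      _ = R ^ (2 * K) * (R⁻¹) ^ (2 * K + (2 * (n - s1 - s2) + 2 * (ad i s1 + ad l s2))) := by
          rw [pow_add _ (2 * K), pow_add _ (2 * (n - s1 - s2))]
      _ ≤ R ^ (2 * K) * (R⁻¹) ^ (2 * (n + K - 1 - i - l)) := by
          refine mul_le_mul_of_nonneg_left ?_ (by positivity)
          refine pow_le_pow_of_le_one Ri0.le Ri ?_
          unfold ad; omega
  · have e1 : wt q (n - s1 - s2) ≤ 1 := by
      unfold wt; rw [← hR]; exact pow_le_one₀ Ri0.le Ri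
    have e2 : (xx ^ (ad i s1) * xx ^ (ad l s2)) ^ 2 ≤ 1 := by
      refine pow_le_one₀ (by positivity) ?_
      exact mul_le_one₀ (pow_le_one₀ x0.le x1) (by positivity) (pow_le_one₀ x0.le x1)
    have e3 : (1:ℝ) ≤ R ^ (2 * K) := one_le_pow₀ R1
    have e4 : (1:ℝ) ≤ 2 ^ (i + l - (n + K)) := one_le_pow₀ (by norm_num)
    calc _ ≤ (1:ℝ) * 1 := mul_le_mul e1 e2 (by positivity) (by norm_num)
      _ ≤ _ := mul_le_mul e3 e4 (by norm_num) (by positivity)

/-- inequality for the high part -/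
lemma ineq2 {q : ℝ} (hq : q ≤ 5/4) {n K s1 s2 i l : ℕ} (h12 : s1 + s2 ≤ n)
    (hil : n + K ≤ i + l) :
    2 ^ (i + l - (n + K)) * ((xx ^ (ad s1 i) * xx ^ (ad s2 l))⁻¹ * (th i s1 * th l s2))
      ≤ (1/2) ^ K * wt q (n - s1 - s2) * (xx ^ (ad i s1) * xx ^ (ad l s2)) := by
  have x0 := xx_pos
  have x1 : xx ≤ 1 := by have := xx_lt; linarith
  have hxR := xx_le_R hq
  have hw : xx ^ (2 * (n - s1 - s2)) ≤ wt q (n - s1 - s2) := by
    unfold wt; exact pow_le_pow_left₀ x0.le hxR _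
  have half : (1/2:ℝ) = xx ^ 4 := xx_pow.symm
  have two : (2:ℝ) = (xx ^ 4)⁻¹ := by rw [xx_pow]; norm_num
  have e1 : (2:ℝ) ^ (i + l - (n + K)) = (xx ^ (4 * (i + l - (n + K))))⁻¹ := by
    nth_rewrite 1 [two]
    rw [inv_pow, ← pow_mul]
  have key : th i s1 * th l s2 ≤ xx ^ (4 * (i + l - (n + K))) * (xx ^ (ad s1 i) * xx ^ (ad s2 l))
      * (xx ^ (4 * K) * xx ^ (2 * (n - s1 - s2)) * (xx ^ (ad i s1) * xx ^ (ad l s2))) := by
    unfold th
    rw [← pow_add, ← pow_add, ← pow_add, ← pow_add, ← pow_add, ← pow_add, ← pow_add]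
    refine pow_le_pow_of_le_one x0.le x1 ?_
    unfold ad
    omega
  rw [e1]
  have p1 : 0 < xx ^ (4 * (i + l - (n + K))) := by positivity
  have p2 : 0 < xx ^ (ad s1 i) * xx ^ (ad s2 l) := by positivity
  calc (xx ^ (4 * (i + l - (n + K))))⁻¹ * ((xx ^ (ad s1 i) * xx ^ (ad s2 l))⁻¹ * (th i s1 * th l s2))
      ≤ (xx ^ (4 * (i + l - (n + K))))⁻¹ * ((xx ^ (ad s1 i) * xx ^ (ad s2 l))⁻¹ *
        (xx ^ (4 * (i + l - (n + K))) * (xx ^ (ad s1 i) * xx ^ (ad s2 l))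
      * (xx ^ (4 * K) * xx ^ (2 * (n - s1 - s2)) * (xx ^ (ad i s1) * xx ^ (ad l s2))))) := by
        refine mul_le_mul_of_nonneg_left ?_ (by positivity)
        exact mul_le_mul_of_nonneg_left key (by positivity)
    _ = xx ^ (4 * K) * xx ^ (2 * (n - s1 - s2)) * (xx ^ (ad i s1) * xx ^ (ad l s2)) := by
        field_simp
    _ ≤ xx ^ (4 * K) * wt q (n - s1 - s2) * (xx ^ (ad i s1) * xx ^ (ad l s2)) := by
        refine mul_le_mul_of_nonneg_right ?_ (by positivity)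
        exact mul_le_mul_of_nonneg_left hw (by positivity)
    _ = _ := by rw [pow_mul, ← half]

lemma ineq3 (s1 s2 i l : ℕ) :
    (xx ^ (ad s1 i) * xx ^ (ad s2 l))⁻¹ * (th i s1 * th l s2) ≤ xx ^ (ad i s1) * xx ^ (ad l s2) := by
  have x0 := xx_pos
  have x1 : xx ≤ 1 := by have := xx_lt; linarith
  have key : th i s1 * th l s2 ≤ (xx ^ (ad s1 i) * xx ^ (ad s2 l)) * (xx ^ (ad i s1) * xx ^ (ad l s2)) := by
    unfold th
    rw [← pow_add, ← pow_add, ← pow_add, ← pow_add]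
    refine pow_le_pow_of_le_one x0.le x1 ?_
    unfold ad
    omega
  have p2 : 0 < xx ^ (ad s1 i) * xx ^ (ad s2 l) := by positivity
  rw [inv_mul_le_iff₀ p2]
  exact key

lemma sum_xx2 (n m a b : ℕ) :
    ∑ i ∈ range n, ∑ l ∈ range m, xx ^ (ad i a) * xx ^ (ad l b) ≤ 196 := by
  have x0 := xx_pos
  rw [← sum_mul_sum]
  have h1 := sum_xx n a
  have h2 := sum_xx m b
  have h3 : 0 ≤ ∑ l ∈ range m, xx ^ (ad l b) := sum_nonneg fun i _ => by positivity
  calc _ ≤ 14 * (14:ℝ) := mul_le_mul h1 h2 h3 (by norm_num)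
    _ = 196 := by norm_num

lemma sum_xx2' (n m a b : ℕ) :
    ∑ i ∈ range n, ∑ l ∈ range m, xx ^ (ad a i) * xx ^ (ad b l) ≤ 196 := by
  simp only [ad_comm a, ad_comm b]
  exact sum_xx2 n m a b

end HC

end

section
/-!
The two-dimensional discrete theorem.
-/

open Finset

namespace HC

open Dy

variable {L : ℕ}

set_option linter.unusedSectionVars false
set_option linter.unusedVariables false

/-- weighted norm of an averaged block -/
noncomputable def SS (L : ℕ) (σ : ZMod (2 ^ L) → ZMod (2 ^ L) → ℝ) (q : ℝ) (s1 s2 : ℕ)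
    (u : ZMod (2 ^ L) → ZMod (2 ^ L) → ℂ) : ℝ :=
  ∑ x, ∑ y, σ x y ^ (-q) * (GG L s1 s2 u x y) ^ 2

/-- the global functional -/
noncomputable def Gc (L : ℕ) (σ : ZMod (2 ^ L) → ZMod (2 ^ L) → ℝ) (q : ℝ) (n : ℕ)
    (u : ℕ → ℕ → ZMod (2 ^ L) → ZMod (2 ^ L) → ℂ) : ℝ :=
  ∑ s1 ∈ range (n+1), ∑ s2 ∈ range (n+1), wt q (n - s1 - s2) * SS L σ q s1 s2 (u s1 s2)

/-- high part, complex functions -/
noncomputable def HiC (L : ℕ) (σ : ZMod (2 ^ L) → ZMod (2 ^ L) → ℝ)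
    (f : ZMod (2 ^ L) → ZMod (2 ^ L) → ℂ) (q : ℝ) (M : ℕ) : ℝ :=
  ∑ i ∈ range L, ∑ l ∈ range L, if M ≤ i + l then 2 ^ (i + l - M) * DsqC L σ f q i l else 0

lemma SS_shift (σ : ZMod (2 ^ L) → ZMod (2 ^ L) → ℝ) (q : ℝ) (s1 s2 : ℕ)
    (u : ZMod (2 ^ L) → ZMod (2 ^ L) → ℂ) (a b : ZMod (2 ^ L)) :
    SS L (sh a b σ) q s1 s2 (sh a b u) = SS L σ q s1 s2 u := by
  unfold SS
  rw [← sum_sh a b (fun x y => σ x y ^ (-q) * (GG L s1 s2 u x y) ^ 2)]
  refine sum_congr rfl fun x _ => sum_congr rfl fun y _ => ?_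
  rw [GG_sh]
  rfl

lemma wt_nonneg (q : ℝ) (I : ℕ) : 0 ≤ wt q I := by unfold wt; positivity

section main
variable {σ : ZMod (2 ^ L) → ZMod (2 ^ L) → ℝ} {A q : ℝ}
  (hx : ∀ y, A1 (fun x => σ x y) A) (hy : ∀ x, A1 (σ x) A) (hq1 : 1 < q) (hq : q ≤ 5/4)
  {f : ZMod (2 ^ L) → ZMod (2 ^ L) → ℂ} (hf : ∀ x y, ‖f x y‖ ≤ σ x y ^ q)
include hx hy

lemma SS_nonneg (s1 s2 : ℕ) (u : ZMod (2 ^ L) → ZMod (2 ^ L) → ℂ) : 0 ≤ SS L σ q s1 s2 u :=
  sum_nonneg fun x _ => sum_nonneg fun y _ =>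
    mul_nonneg (Real.rpow_nonneg ((hy x).pos y).le _) (sq_nonneg _)

lemma DsqC_nonneg (w : ZMod (2 ^ L) → ZMod (2 ^ L) → ℂ) (a b : ZMod (2 ^ L)) (i l : ℕ) :
    0 ≤ DsqC L (sh a b σ) w q i l :=
  sum_nonneg fun x _ => sum_nonneg fun y _ =>
    mul_nonneg (Real.rpow_nonneg ((hy _).pos _).le _) (sq_nonneg _)

lemma HiC_nonneg (w : ZMod (2 ^ L) → ZMod (2 ^ L) → ℂ) (a b : ZMod (2 ^ L)) (M : ℕ) :
    0 ≤ HiC L (sh a b σ) w q M := by
  refine sum_nonneg fun i _ => sum_nonneg fun l _ => ?_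
  have := DsqC_nonneg (q := q) hx hy w a b i l
  split_ifs <;> positivity

include hq1 hq hf

lemma low_leC (a b : ZMod (2 ^ L)) {M : ℕ} (hM : M ≤ L) :
    ∑ i ∈ range L, ∑ l ∈ range L, (if i + l < M then
        wt q (M - 1 - i - l) * DsqC L (sh a b σ) (sh a b f) q i l else 0)
      ≤ CE (2 * A) q * (2 * ∑ x, ∑ y, σ x y ^ q + HiC L (sh a b σ) (sh a b f) q M) := by
  have w1 := ws_shift hx hy hq1.le hq (f := fun x y => (f x y).re)
    (fun x y => (Complex.abs_re_le_norm _).trans (hf x y)) a b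
  have w2 := ws_shift hx hy hq1.le hq (f := fun x y => (f x y).im)
    (fun x y => (Complex.abs_im_le_norm _).trans (hf x y)) a b
  have h1 := w1.low_le hq1 hq (K := L) (fun g x => dyE_top le_rfl g x)
    (fun g x => dyE_top le_rfl g x) M hM
  have h2 := w2.low_le hq1 hq (K := L) (fun g x => dyE_top le_rfl g x)
    (fun g x => dyE_top le_rfl g x) M hM
  have e0 : ∑ x, ∑ y, sh a b σ x y ^ q = ∑ x, ∑ y, σ x y ^ q :=
    sum_sh a b (fun x y => σ x y ^ q)
  rw [e0] at h1 h2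
  have e1 : ∀ i l, DsqC L (sh a b σ) (sh a b f) q i l
      = Dsq (dy L) (dy L) (sh a b σ) (sh a b (fun x y => (f x y).re)) q i l
        + Dsq (dy L) (dy L) (sh a b σ) (sh a b (fun x y => (f x y).im)) q i l := fun i l =>
    DsqC_eq _ _ _ _ _
  have e2 : HiC L (sh a b σ) (sh a b f) q M
      = Hi (dy L) (dy L) (sh a b σ) (sh a b (fun x y => (f x y).re)) q M L
        + Hi (dy L) (dy L) (sh a b σ) (sh a b (fun x y => (f x y).im)) q M L := by
    unfold HiC Hi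
    rw [← sum_add_distrib]
    refine sum_congr rfl fun i _ => ?_
    rw [← sum_add_distrib]
    refine sum_congr rfl fun l _ => ?_
    rw [e1]
    split_ifs
    · ring
    · ring
  have e3 : ∑ i ∈ range L, ∑ l ∈ range L, (if i + l < M then
        wt q (M - 1 - i - l) * DsqC L (sh a b σ) (sh a b f) q i l else 0)
      = ∑ i ∈ range L, ∑ l ∈ range L, (if i + l < M then wt q (M - 1 - i - l)
          * Dsq (dy L) (dy L) (sh a b σ) (sh a b (fun x y => (f x y).re)) q i l else 0)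
        + ∑ i ∈ range L, ∑ l ∈ range L, (if i + l < M then wt q (M - 1 - i - l)
          * Dsq (dy L) (dy L) (sh a b σ) (sh a b (fun x y => (f x y).im)) q i l else 0) := by
    rw [← sum_add_distrib]
    refine sum_congr rfl fun i _ => ?_
    rw [← sum_add_distrib]
    refine sum_congr rfl fun l _ => ?_
    rw [e1]
    split_ifs
    · ring
    · ring
  rw [e2, e3]
  linarith

lemma step1 {g : ℝ → ℂ} {B : ℝ} (hg : Sm g B) {n K : ℕ} (hL : n + K + 4 ≤ L)
    (hfx : ∀ x y, (dy L).E 0 (fun x' => f x' y) x = 0) (hfy : ∀ x y, (dy L).E 0 (f x) y = 0)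
    (hu : ∀ s1 s2, s1 ≤ n → s2 ≤ n → n < s1 + s2 → ∀ x y, cv2 L g s1 s2 f x y = 0)
    (a b : ZMod (2 ^ L)) :
    Gc L σ q n (fun s1 s2 => cv2 L g s1 s2 f)
      ≤ (CA B A * 196 * (2 * CE (2 * A) q + 1)) * ((2:ℝ) ^ (q - 1)) ^ (2 * K)
        * (∑ x, ∑ y, σ x y ^ q + HiC L (sh a b σ) (sh a b f) q (n + K)) := by
  have x0 := xx_pos
  have hA : 1 ≤ A := (hy 0).one
  have hCA := CA_nonneg B (A := A)
  have w1 := ws_shift hx hy hq1.le hq (f := fun x y => (f x y).re)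
    (fun x y => (Complex.abs_re_le_norm _).trans (hf x y)) a b
  have hCE := w1.CE_nonneg hq1
  set R := (2:ℝ) ^ (q - 1) with hR
  have R0 : 0 < R := by positivity
  set Dq : ℕ → ℕ → ℝ := fun i l => DsqC L (sh a b σ) (sh a b f) q i l with hDq
  have Dq0 : ∀ i l, 0 ≤ Dq i l := fun i l => DsqC_nonneg hx hy _ a b i l
  have hhi := HiC_nonneg (q := q) hx hy (sh a b f) a b (n + K)
  have hσ0 : 0 ≤ ∑ x, ∑ y, σ x y ^ q := sum_nonneg fun x _ => sum_nonneg fun y _ =>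
    Real.rpow_nonneg ((hy x).pos y).le _
  -- step A for each pair
  have p1 : ∀ s1 ∈ range (n+1), ∀ s2 ∈ range (n+1),
      wt q (n - s1 - s2) * SS L σ q s1 s2 (cv2 L g s1 s2 f)
      ≤ CA B A * ∑ i ∈ range L, ∑ l ∈ range L, (R ^ (2 * K) * WW q (n + K) i l * Dq i l)
          * (xx ^ (ad i s1) * xx ^ (ad l s2)) := by
    intro s1 hs1 s2 hs2
    rw [mem_range] at hs1 hs2
    have WW0 : ∀ i l, 0 ≤ WW q (n + K) i l := by
      intro i l; unfold WW; split_ifs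
      · exact wt_nonneg _ _
      · positivity
    have RHS0 : 0 ≤ CA B A * ∑ i ∈ range L, ∑ l ∈ range L,
        (R ^ (2 * K) * WW q (n + K) i l * Dq i l) * (xx ^ (ad i s1) * xx ^ (ad l s2)) := by
      refine mul_nonneg hCA (sum_nonneg fun i _ => sum_nonneg fun l _ => ?_)
      have := Dq0 i l
      have := WW0 i l
      positivity
    rcases lt_or_ge n (s1 + s2) with h | h
    · have : SS L σ q s1 s2 (cv2 L g s1 s2 f) = 0 := by
        unfold SS
        refine sum_eq_zero fun x _ => sum_eq_zero fun y _ => ?_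
        have : GG L s1 s2 (cv2 L g s1 s2 f) x y = 0 := by
          unfold GG
          unfold Av
          refine sum_eq_zero fun t _ => ?_
          have : ∑ t_1, Pk (ell L s2) t_1 * ‖cv2 L g s1 s2 f (x - t) (y - t_1)‖ = 0 := by
            refine sum_eq_zero fun t1 _ => ?_
            rw [hu s1 s2 (by omega) (by omega) h, norm_zero, mul_zero]
          change Pk (ell L s1) t * (∑ t_1, Pk (ell L s2) t_1
            * ‖cv2 L g s1 s2 f (x - t) (y - t_1)‖) = 0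
          rw [this, mul_zero]
        rw [this]; ring
      rw [this, mul_zero]
      exact RHS0
    · have e1 : cv2 L g s1 s2 (sh a b f) = sh a b (cv2 L g s1 s2 f) := by
        ext x y; exact cv2_sh g s1 s2 f a b x y
      have e2 : SS L σ q s1 s2 (cv2 L g s1 s2 f)
          = SS L (sh a b σ) q s1 s2 (cv2 L g s1 s2 (sh a b f)) := by
        rw [e1, SS_shift]
      have hA' := stepA hg (show s1 + 4 ≤ L by omega) (show s2 + 4 ≤ L by omega)
        (σ := sh a b σ) (A := A) (q := q) (fun y => (hx (y + b)).shift a)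
        (fun x => (hy (x + a)).shift b) hq1.le hq (f := sh a b f)
        (fun x y => by
          have h1 := hfx (x + a) (y + b)
          rw [E0_eq] at h1 ⊢
          rw [← h1]
          congr 1
          exact Equiv.sum_comp (Equiv.addRight a) (fun x' => f x' (y + b)))
        (fun x y => by
          have h1 := hfy (x + a) (y + b)
          rw [E0_eq] at h1 ⊢
          rw [← h1]
          congr 1
          exact Equiv.sum_comp (Equiv.addRight b) (fun y' => f (x + a) y'))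
      have hA2 : SS L σ q s1 s2 (cv2 L g s1 s2 f) ≤ CA B A * ∑ i ∈ range L, ∑ l ∈ range L,
          (xx ^ (ad i s1) * xx ^ (ad l s2)) ^ 3 * Dq i l := by rw [e2]; exact hA'
      have hA3 := mul_le_mul_of_nonneg_left hA2 (wt_nonneg q (n - s1 - s2))
      refine hA3.trans ?_
      rw [mul_left_comm]
      refine mul_le_mul_of_nonneg_left ?_ hCA
      rw [mul_sum]
      refine sum_le_sum fun i _ => ?_
      rw [mul_sum]
      refine sum_le_sum fun l _ => ?_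
      have h3 := ineq1 hq1.le hq (K := K) h i l
      calc wt q (n - s1 - s2) * ((xx ^ (ad i s1) * xx ^ (ad l s2)) ^ 3 * Dq i l)
          = (wt q (n - s1 - s2) * (xx ^ (ad i s1) * xx ^ (ad l s2)) ^ 2)
            * (Dq i l * (xx ^ (ad i s1) * xx ^ (ad l s2))) := by ring
        _ ≤ (R ^ (2 * K) * WW q (n + K) i l) * (Dq i l * (xx ^ (ad i s1) * xx ^ (ad l s2))) := by
            refine mul_le_mul_of_nonneg_right h3 ?_
            have := Dq0 i l
            positivity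
        _ = _ := by ring
  have p2 : Gc L σ q n (fun s1 s2 => cv2 L g s1 s2 f) ≤ CA B A * (196 * (R ^ (2 * K) *
      ∑ i ∈ range L, ∑ l ∈ range L, WW q (n + K) i l * Dq i l)) := by
    unfold Gc
    refine (sum_le_sum fun s1 hs1 => sum_le_sum fun s2 hs2 => p1 s1 hs1 s2 hs2).trans ?_
    simp only [← mul_sum]
    refine mul_le_mul_of_nonneg_left ?_ hCA
    have e1 : ∑ s1 ∈ range (n+1), ∑ s2 ∈ range (n+1), ∑ i ∈ range L, ∑ l ∈ range L,
        (R ^ (2 * K) * WW q (n + K) i l * Dq i l) * (xx ^ (ad i s1) * xx ^ (ad l s2))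
        = ∑ i ∈ range L, ∑ l ∈ range L, (R ^ (2 * K) * WW q (n + K) i l * Dq i l)
          * ∑ s1 ∈ range (n+1), ∑ s2 ∈ range (n+1), (xx ^ (ad i s1) * xx ^ (ad l s2)) := by
      simp only [mul_sum]
      have c1 : ∀ s1, ∑ s2 ∈ range (n+1), ∑ i ∈ range L, ∑ l ∈ range L,
          (R ^ (2 * K) * WW q (n + K) i l * Dq i l) * (xx ^ (ad i s1) * xx ^ (ad l s2))
          = ∑ i ∈ range L, ∑ l ∈ range L, ∑ s2 ∈ range (n+1),
          (R ^ (2 * K) * WW q (n + K) i l * Dq i l) * (xx ^ (ad i s1) * xx ^ (ad l s2)) := by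
        intro s1
        rw [sum_comm]
        exact sum_congr rfl fun i _ => sum_comm
      rw [sum_congr rfl fun s1 _ => c1 s1, sum_comm]
      exact sum_congr rfl fun i _ => sum_comm
    rw [e1]
    have WW0 : ∀ i l, 0 ≤ WW q (n + K) i l := by
      intro i l; unfold WW; split_ifs
      · exact wt_nonneg _ _
      · positivity
    calc _ ≤ ∑ i ∈ range L, ∑ l ∈ range L, (R ^ (2 * K) * WW q (n + K) i l * Dq i l) * 196 := by
          refine sum_le_sum fun i _ => sum_le_sum fun l _ => ?_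
          have := Dq0 i l
          have := WW0 i l
          exact mul_le_mul_of_nonneg_left (sum_xx2' _ _ _ _) (by positivity)
      _ = _ := by
          simp only [mul_sum]
          exact sum_congr rfl fun i _ => sum_congr rfl fun l _ => by ring
  have p3 : ∑ i ∈ range L, ∑ l ∈ range L, WW q (n + K) i l * Dq i l
      = ∑ i ∈ range L, ∑ l ∈ range L, (if i + l < n + K then
        wt q (n + K - 1 - i - l) * Dq i l else 0) + HiC L (sh a b σ) (sh a b f) q (n + K) := by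
    unfold HiC
    rw [← sum_add_distrib]
    refine sum_congr rfl fun i _ => ?_
    rw [← sum_add_distrib]
    refine sum_congr rfl fun l _ => ?_
    unfold WW
    by_cases h : i + l < n + K
    · rw [if_pos h, if_pos h, if_neg (by omega), add_zero]
    · rw [if_neg h, if_neg h, if_pos (by omega), zero_add]
  have p4 := low_leC hx hy hq1 hq hf a b (M := n + K) (by omega)
  rw [p3] at p2
  refine p2.trans ?_
  set H := HiC L (sh a b σ) (sh a b f) q (n + K) with hH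
  set T := ∑ x, ∑ y, σ x y ^ q with hT
  have p5 : CE (2 * A) q * (2 * T + H) + H ≤ (2 * CE (2 * A) q + 1) * (T + H) := by
    nlinarith [mul_nonneg hCE hσ0, mul_nonneg hCE hhi]
  calc CA B A * (196 * (R ^ (2 * K) * (∑ i ∈ range L, ∑ l ∈ range L, (if i + l < n + K then
        wt q (n + K - 1 - i - l) * Dq i l else 0) + H)))
      ≤ CA B A * (196 * (R ^ (2 * K) * ((2 * CE (2 * A) q + 1) * (T + H)))) := by
        refine mul_le_mul_of_nonneg_left ?_ hCA
        refine mul_le_mul_of_nonneg_left ?_ (by norm_num)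
        refine mul_le_mul_of_nonneg_left ?_ (by positivity)
        exact (add_le_add_left p4 H).trans p5
    _ = _ := by ring

lemma Gc_nonneg (n : ℕ) (u : ℕ → ℕ → ZMod (2 ^ L) → ZMod (2 ^ L) → ℂ) : 0 ≤ Gc L σ q n u :=
  sum_nonneg fun s1 _ => sum_nonneg fun s2 _ => mul_nonneg (wt_nonneg _ _) (SS_nonneg hx hy _ _ _)

/-- exchanging the order of the sums in the application of step B -/
lemma exch {n : ℕ} (w : ℕ → ℕ → ℝ) (w0 : ∀ i l, 0 ≤ w i l) (E : ℕ → ℕ → ℝ)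
    (C : ℝ) (c : ℕ → ℕ → ℝ) (u : ℕ → ℕ → ZMod (2 ^ L) → ZMod (2 ^ L) → ℂ)
    (hc : ∀ s1 ∈ range (n+1), ∀ s2 ∈ range (n+1), ∀ i l,
      w i l * ((xx ^ (ad s1 i) * xx ^ (ad s2 l))⁻¹ * (c s1 s2 ^ 2 * (th i s1 * th l s2
        * SS L σ q s1 s2 (u s1 s2))))
      ≤ (C * (wt q (n - s1 - s2) * SS L σ q s1 s2 (u s1 s2))) * (xx ^ (ad i s1) * xx ^ (ad l s2))) :
    ∑ i ∈ range L, ∑ l ∈ range L, w i l * ∑ s1 ∈ range (n+1), ∑ s2 ∈ range (n+1),
        (xx ^ (ad s1 i) * xx ^ (ad s2 l))⁻¹ * (c s1 s2 ^ 2 * (th i s1 * th l s2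
          * SS L σ q s1 s2 (u s1 s2)))
      ≤ |C| * (196 * Gc L σ q n u) := by
  have x0 := xx_pos
  have S0 : ∀ s1 s2, 0 ≤ SS L σ q s1 s2 (u s1 s2) := fun s1 s2 => SS_nonneg hx hy _ _ _
  calc _ ≤ ∑ i ∈ range L, ∑ l ∈ range L, ∑ s1 ∈ range (n+1), ∑ s2 ∈ range (n+1),
        (|C| * (wt q (n - s1 - s2) * SS L σ q s1 s2 (u s1 s2))) * (xx ^ (ad i s1) * xx ^ (ad l s2)) := by
        refine sum_le_sum fun i _ => sum_le_sum fun l _ => ?_
        rw [mul_sum]
        refine sum_le_sum fun s1 hs1 => ?_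
        rw [mul_sum]
        refine sum_le_sum fun s2 hs2 => (hc s1 hs1 s2 hs2 i l).trans ?_
        refine mul_le_mul_of_nonneg_right ?_ (by positivity)
        exact mul_le_mul_of_nonneg_right (le_abs_self C)
          (mul_nonneg (wt_nonneg _ _) (S0 s1 s2))
    _ = ∑ s1 ∈ range (n+1), ∑ s2 ∈ range (n+1),
        (|C| * (wt q (n - s1 - s2) * SS L σ q s1 s2 (u s1 s2))) *
          ∑ i ∈ range L, ∑ l ∈ range L, (xx ^ (ad i s1) * xx ^ (ad l s2)) := by
        simp only [mul_sum]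
        have c1 : ∀ i, ∑ l ∈ range L, ∑ s1 ∈ range (n+1), ∑ s2 ∈ range (n+1),
            (|C| * (wt q (n - s1 - s2) * SS L σ q s1 s2 (u s1 s2))) * (xx ^ (ad i s1) * xx ^ (ad l s2))
            = ∑ s1 ∈ range (n+1), ∑ s2 ∈ range (n+1), ∑ l ∈ range L,
            (|C| * (wt q (n - s1 - s2) * SS L σ q s1 s2 (u s1 s2))) * (xx ^ (ad i s1) * xx ^ (ad l s2)) := by
          intro i
          rw [sum_comm]
          exact sum_congr rfl fun s1 _ => sum_comm
        rw [sum_congr rfl fun i _ => c1 i, sum_comm]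
        exact sum_congr rfl fun s1 _ => sum_comm
    _ ≤ ∑ s1 ∈ range (n+1), ∑ s2 ∈ range (n+1),
        (|C| * (wt q (n - s1 - s2) * SS L σ q s1 s2 (u s1 s2))) * 196 := by
        refine sum_le_sum fun s1 _ => sum_le_sum fun s2 _ => ?_
        have := wt_nonneg q (n - s1 - s2)
        have := S0 s1 s2
        exact mul_le_mul_of_nonneg_left (sum_xx2 _ _ _ _) (by positivity)
    _ = _ := by
        unfold Gc
        simp only [mul_sum]
        exact sum_congr rfl fun i _ => sum_congr rfl fun l _ => by ring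

end main

end HC

end

section
/-!
The two-dimensional discrete theorem: conclusion.
-/

open Finset

namespace HC

open Dy

set_option linter.unusedSectionVars false
set_option linter.unusedVariables false

variable {L : ℕ}

section main
variable {σ : ZMod (2 ^ L) → ZMod (2 ^ L) → ℝ} {A q : ℝ}
  (hx : ∀ y, A1 (fun x => σ x y) A) (hy : ∀ x, A1 (σ x) A) (hq1 : 1 < q) (hq : q ≤ 5/4)
  {f : ZMod (2 ^ L) → ZMod (2 ^ L) → ℂ} (hf : ∀ x y, ‖f x y‖ ≤ σ x y ^ q)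
include hx hy hq1 hq hf

lemma stepB_sum {g : ℝ → ℂ} {B : ℝ} (hg : Sm g B) {n : ℕ} (hn : n + 4 ≤ L)
    (w : ℕ → ℕ → ℝ) (w0 : ∀ i l, 0 ≤ w i l)
    (C : ℝ) (c : ℕ → ℕ → ℝ) (u : ℕ → ℕ → ZMod (2 ^ L) → ZMod (2 ^ L) → ℂ)
    (hc : ∀ s1 ∈ range (n+1), ∀ s2 ∈ range (n+1), ∀ i l,
      w i l * ((xx ^ (ad s1 i) * xx ^ (ad s2 l))⁻¹ * (c s1 s2 ^ 2 * (th i s1 * th l s2
        * SS L σ q s1 s2 (u s1 s2))))
      ≤ (C * (wt q (n - s1 - s2) * SS L σ q s1 s2 (u s1 s2))) * (xx ^ (ad i s1) * xx ^ (ad l s2))) :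
    ∑ a, ∑ b, ∑ i ∈ range L, ∑ l ∈ range L, w i l * DsqC L (sh a b σ) (sh a b (fun x y =>
        ∑ s1 ∈ range (n+1), ∑ s2 ∈ range (n+1), (c s1 s2 : ℂ) * cv2 L g s1 s2 (u s1 s2) x y)) q i l
      ≤ (2 ^ L) ^ 2 * (CB B A * (|C| * (196 * Gc L σ q n u))) := by
  set W : ZMod (2 ^ L) → ZMod (2 ^ L) → ℂ := fun x y =>
        ∑ s1 ∈ range (n+1), ∑ s2 ∈ range (n+1), (c s1 s2 : ℂ) * cv2 L g s1 s2 (u s1 s2) x y with hW
  have h1 : ∑ a, ∑ b, ∑ i ∈ range L, ∑ l ∈ range L, w i l * DsqC L (sh a b σ) (sh a b W) q i l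
      = ∑ i ∈ range L, ∑ l ∈ range L, w i l * ∑ a, ∑ b, DsqC L (sh a b σ) (sh a b W) q i l := by
    simp only [mul_sum]
    have c1 : ∀ a, ∑ b, ∑ i ∈ range L, ∑ l ∈ range L, w i l * DsqC L (sh a b σ) (sh a b W) q i l
        = ∑ i ∈ range L, ∑ l ∈ range L, ∑ b, w i l * DsqC L (sh a b σ) (sh a b W) q i l := by
      intro a
      rw [sum_comm]
      exact sum_congr rfl fun s1 _ => sum_comm
    rw [sum_congr rfl fun a _ => c1 a, sum_comm]
    exact sum_congr rfl fun s1 _ => sum_comm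
  rw [h1]
  have h2 : ∀ i ∈ range L, ∀ l ∈ range L, w i l * ∑ a, ∑ b, DsqC L (sh a b σ) (sh a b W) q i l
      ≤ w i l * ((2 ^ L) ^ 2 * (CB B A * ∑ s1 ∈ range (n+1), ∑ s2 ∈ range (n+1),
        (xx ^ (ad s1 i) * xx ^ (ad s2 l))⁻¹ * (c s1 s2 ^ 2 * (th i s1 * th l s2
          * SS L σ q s1 s2 (u s1 s2))))) := by
    intro i hi l hl
    rw [mem_range] at hi hl
    have hB := stepB hg (show n + 1 + 3 ≤ L by omega) hx hy (show 0 ≤ q by linarith) hq
      c u (show i + 1 ≤ L by omega) (show l + 1 ≤ L by omega)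
    refine (mul_le_mul_of_nonneg_left hB (w0 i l)).trans (le_of_eq ?_)
    congr 3
    refine sum_congr rfl fun s1 _ => sum_congr rfl fun s2 _ => ?_
    unfold SS
    ring
  refine (sum_le_sum fun i hi => sum_le_sum fun l hl => h2 i hi l hl).trans ?_
  have h3 := exch hx hy hq1 hq hf w w0 (fun _ _ => 0) C c u hc
  have h4 : ∑ i ∈ range L, ∑ l ∈ range L, w i l * ((2 ^ L) ^ 2 * (CB B A * ∑ s1 ∈ range (n+1),
        ∑ s2 ∈ range (n+1), (xx ^ (ad s1 i) * xx ^ (ad s2 l))⁻¹ * (c s1 s2 ^ 2 * (th i s1 * th l s2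
          * SS L σ q s1 s2 (u s1 s2)))))
      = (2 ^ L) ^ 2 * (CB B A * ∑ i ∈ range L, ∑ l ∈ range L, w i l * ∑ s1 ∈ range (n+1),
        ∑ s2 ∈ range (n+1), (xx ^ (ad s1 i) * xx ^ (ad s2 l))⁻¹ * (c s1 s2 ^ 2 * (th i s1 * th l s2
          * SS L σ q s1 s2 (u s1 s2)))) := by
    rw [mul_sum, mul_sum]
    refine sum_congr rfl fun i _ => ?_
    rw [mul_sum, mul_sum]
    exact sum_congr rfl fun l _ => by ring
  rw [h4]
  have := CB_nonneg B A
  exact mul_le_mul_of_nonneg_left (mul_le_mul_of_nonneg_left h3 this) (by positivity)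

/-- zero blocks -/
lemma SS_zero {s1 s2 : ℕ} {u : ZMod (2 ^ L) → ZMod (2 ^ L) → ℂ} (hu : ∀ x y, u x y = 0) :
    SS L σ q s1 s2 u = 0 := by
  unfold SS
  refine sum_eq_zero fun x _ => sum_eq_zero fun y _ => ?_
  have : GG L s1 s2 u x y = 0 := by
    unfold GG
    unfold Av
    refine sum_eq_zero fun t _ => ?_
    change Pk (ell L s1) t * (∑ t_1, Pk (ell L s2) t_1 * ‖u (x - t) (y - t_1)‖) = 0
    have : ∑ t_1, Pk (ell L s2) t_1 * ‖u (x - t) (y - t_1)‖ = 0 :=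
      sum_eq_zero fun t1 _ => by rw [hu, norm_zero, mul_zero]
    rw [this, mul_zero]
  rw [this]; ring

lemma step2 {g h : ℝ → ℂ} {B : ℝ} (hh : Sm h B) {n K : ℕ} (hL : n + K + 4 ≤ L)
    (hu : ∀ s1 s2, s1 ≤ n → s2 ≤ n → n < s1 + s2 → ∀ x y, cv2 L g s1 s2 f x y = 0)
    (hrep : ∀ x y, f x y = ∑ s1 ∈ range (n+1), ∑ s2 ∈ range (n+1),
      cv2 L h s1 s2 (cv2 L g s1 s2 f) x y) :
    ∑ a, ∑ b, HiC L (sh a b σ) (sh a b f) q (n + K)
      ≤ (2 ^ L) ^ 2 * (CB B A * ((1/2) ^ K * (196 * Gc L σ q n (fun s1 s2 => cv2 L g s1 s2 f)))) := by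
  have x0 := xx_pos
  set w : ℕ → ℕ → ℝ := fun i l => if n + K ≤ i + l then 2 ^ (i + l - (n + K)) else 0 with hw
  have w0 : ∀ i l, 0 ≤ w i l := by
    intro i l; simp only [hw]; split_ifs <;> positivity
  have h1 := stepB_sum hx hy hq1 hq hf hh (show n + 4 ≤ L by omega) w w0 ((1/2) ^ K)
    (fun _ _ => 1) (fun s1 s2 => cv2 L g s1 s2 f) (by
      intro s1 hs1 s2 hs2 i l
      rw [mem_range] at hs1 hs2
      rcases lt_or_ge n (s1 + s2) with h2 | h2
      · rw [SS_zero hx hy hq1 hq hf (hu s1 s2 (by omega) (by omega) h2)]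
        simp
      · have S0 : 0 ≤ SS L σ q s1 s2 (cv2 L g s1 s2 f) := SS_nonneg hx hy _ _ _
        simp only [hw]
        split_ifs with h3
        · have h4 := mul_le_mul_of_nonneg_right (ineq2 hq h2 h3) S0
          refine le_trans (le_of_eq ?_) (h4.trans (le_of_eq ?_)) <;> ring
        · rw [zero_mul]
          have := wt_nonneg q (n - s1 - s2)
          positivity)
  have e1 : f = fun x y => ∑ s1 ∈ range (n+1), ∑ s2 ∈ range (n+1),
      (((1:ℝ)) : ℂ) * cv2 L h s1 s2 (cv2 L g s1 s2 f) x y := by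
    ext x y
    rw [hrep]
    simp
  rw [← e1, abs_of_pos (by positivity)] at h1
  refine le_trans (le_of_eq ?_) h1
  refine sum_congr rfl fun a _ => sum_congr rfl fun b _ => ?_
  unfold HiC
  refine sum_congr rfl fun i _ => sum_congr rfl fun l _ => ?_
  simp only [hw]
  split_ifs
  · rfl
  · rw [zero_mul]

lemma step3 {g z : ℝ → ℂ} {B : ℝ} (hz : Sm z B) {n : ℕ} (hL : n + 4 ≤ L)
    {R : ℝ} (hR0 : 0 ≤ R) (hR : R ≤ ((2:ℝ) ^ (q - 1))⁻¹) :
    ∑ a, ∑ b, ∑ i ∈ range L, ∑ l ∈ range L, DsqC L (sh a b σ) (sh a b (fun x y =>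
        ∑ s1 ∈ range (n+1), ∑ s2 ∈ range (n+1), ((R ^ (n - s1 - s2) : ℝ) : ℂ)
          * cv2 L z s1 s2 (cv2 L g s1 s2 f) x y)) q i l
      ≤ (2 ^ L) ^ 2 * (CB B A * (196 * Gc L σ q n (fun s1 s2 => cv2 L g s1 s2 f))) := by
  have x0 := xx_pos
  have h1 := stepB_sum hx hy hq1 hq hf hz hL (fun _ _ => 1) (fun _ _ => zero_le_one) 1
    (fun s1 s2 => R ^ (n - s1 - s2)) (fun s1 s2 => cv2 L g s1 s2 f) (by
      intro s1 _ s2 _ i l
      have S0 : 0 ≤ SS L σ q s1 s2 (cv2 L g s1 s2 f) := SS_nonneg hx hy _ _ _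
      have e1 : (R ^ (n - s1 - s2)) ^ 2 ≤ wt q (n - s1 - s2) := by
        unfold wt
        rw [← pow_mul, mul_comm _ 2]
        exact pow_le_pow_left₀ hR0 hR _
      have e2 := mul_le_mul e1 (ineq3 s1 s2 i l) (by
        have := th_pos i s1
        have := th_pos l s2
        positivity) (wt_nonneg _ _)
      have e3 := mul_le_mul_of_nonneg_right e2 S0
      refine le_trans (le_of_eq ?_) (e3.trans (le_of_eq ?_)) <;> ring)
  rw [abs_one, one_mul] at h1
  refine le_trans (le_of_eq ?_) h1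
  refine sum_congr rfl fun a _ => sum_congr rfl fun b _ => sum_congr rfl fun i _ =>
    sum_congr rfl fun l _ => ?_
  rw [one_mul]

/-- the duality constant -/
noncomputable def Cl (A q : ℝ) : ℝ :=
  (2 + 2 * (2 ^ q * (2 * A) ^ q) * (1 + 12 * Real.sqrt ((2 * A) ^ q)) ^ 2) ^ 2

lemma l1C {F : ZMod (2 ^ L) → ZMod (2 ^ L) → ℂ}
    (hFx : ∀ x y, (dy L).E 0 (fun x' => F x' y) x = 0) (hFy : ∀ x y, (dy L).E 0 (F x) y = 0)
    (a b : ZMod (2 ^ L)) :
    (∑ x, ∑ y, ‖F x y‖) ^ 2 ≤ (2 * Cl A q * ∑ x, ∑ y, σ x y ^ q)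
      * ∑ i ∈ range L, ∑ l ∈ range L, DsqC L (sh a b σ) (sh a b F) q i l := by
  have w := ws_shift hx hy hq1.le hq (f := fun x y => (f x y).re)
    (fun x y => (Complex.abs_re_le_norm _).trans (hf x y)) a b
  have Z : ∀ (Φ : ℂ → ℝ) (hΦ : ∀ g : ZMod (2 ^ L) → ℂ, ∀ x, Φ ((dy L).E 0 g x)
      = (dy L).E 0 (fun y => Φ (g y)) x) (hΦ0 : Φ 0 = 0),
      (∑ x, ∑ y, |Φ (F x y)|) ^ 2 ≤ (Cl A q * ∑ x, ∑ y, σ x y ^ q)
        * ∑ i ∈ range L, ∑ l ∈ range L, Dsq (dy L) (dy L) (sh a b σ)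
          (fun x y => Φ (sh a b F x y)) q i l := by
    intro Φ hΦ hΦ0
    have h1 := l1_le (D := dy L) (D' := dy L) (v := fun x y => sh a b σ x y ^ (-q))
      (a := (2 * A) ^ q) (c := 2 ^ q * (2 * A) ^ q)
      (fun x y => w.vpos x y) (fun k x y => w.v_le_Ex k x y) (fun k x y => w.v_le_Ey k x y)
      (fun k x y => w.Ex_double k x y) (fun k x y => w.Ey_double k x y)
      (K := L) (K' := L) (fun g x => dyE_top le_rfl g x) (fun g x => dyE_top le_rfl g x)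
      (fun x y => Φ (sh a b F x y))
      (fun x y => by
        have := hFx (x + a) (y + b)
        rw [← hΦ (fun x' => sh a b F x' y)]
        have e1 : (dy L).E 0 (fun x' => sh a b F x' y) x = 0 := by
          rw [E0_eq] at this ⊢
          rw [← this]
          congr 1
          exact Equiv.sum_comp (Equiv.addRight a) (fun x' => F x' (y + b))
        rw [e1, hΦ0])
      (fun x y => by
        have := hFy (x + a) (y + b)
        rw [← hΦ (sh a b F x)]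
        have e1 : (dy L).E 0 (sh a b F x) y = 0 := by
          rw [E0_eq] at this ⊢
          rw [← this]
          congr 1
          exact Equiv.sum_comp (Equiv.addRight b) (fun y' => F (x + a) y')
        rw [e1, hΦ0])
    have e1 : ∑ x, ∑ y, |Φ (sh a b F x y)| = ∑ x, ∑ y, |Φ (F x y)| :=
      sum_sh a b (fun x y => |Φ (F x y)|)
    have e2 : ∑ x, ∑ y, (sh a b σ x y ^ (-q))⁻¹ = ∑ x, ∑ y, σ x y ^ q := by
      refine (sum_sh a b (fun x y => (σ x y ^ (-q))⁻¹)).trans ?_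
      refine sum_congr rfl fun x _ => sum_congr rfl fun y _ => ?_
      rw [Real.rpow_neg ((hy x).pos y).le, inv_inv]
    rw [e1, e2] at h1
    exact h1
  have z1 := Z Complex.re (fun g x => E_re 0 g x) rfl
  have z2 := Z Complex.im (fun g x => E_im 0 g x) rfl
  have e1 : ∑ i ∈ range L, ∑ l ∈ range L, DsqC L (sh a b σ) (sh a b F) q i l
      = ∑ i ∈ range L, ∑ l ∈ range L, Dsq (dy L) (dy L) (sh a b σ)
          (fun x y => (sh a b F x y).re) q i l
        + ∑ i ∈ range L, ∑ l ∈ range L, Dsq (dy L) (dy L) (sh a b σ)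
          (fun x y => (sh a b F x y).im) q i l := by
    rw [← sum_add_distrib]
    refine sum_congr rfl fun i _ => ?_
    rw [← sum_add_distrib]
    exact sum_congr rfl fun l _ => DsqC_eq _ _ _ _ _
  have e2 : ∑ x, ∑ y, ‖F x y‖ ≤ ∑ x, ∑ y, |(F x y).re| + ∑ x, ∑ y, |(F x y).im| := by
    rw [← sum_add_distrib]
    refine sum_le_sum fun x _ => ?_
    rw [← sum_add_distrib]
    exact sum_le_sum fun y _ => Complex.norm_le_abs_re_add_abs_im _
  have n0 : 0 ≤ ∑ x, ∑ y, ‖F x y‖ := sum_nonneg fun x _ => sum_nonneg fun y _ => norm_nonneg _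
  have e3 := pow_le_pow_left₀ n0 e2 2
  refine e3.trans ?_
  set P := ∑ x, ∑ y, |(F x y).re|
  set Q := ∑ x, ∑ y, |(F x y).im|
  rw [e1]
  nlinarith [sq_nonneg (P - Q)]

end main

/-- the two-dimensional discrete theorem, abstract form -/
theorem main2 {g h z : ℝ → ℂ} {B : ℝ} (hg : Sm g B) (hh : Sm h B) (hz : Sm z B) {r : ℝ}
    (hr : 0 < r) :
    ∃ C : ℝ, 0 ≤ C ∧ ∃ K : ℕ, ∀ n L : ℕ, n + K + 4 ≤ L →
      ∀ f : ZMod (2 ^ L) → ZMod (2 ^ L) → ℂ,
      (∀ x y, (dy L).E 0 (fun x' => f x' y) x = 0) → (∀ x y, (dy L).E 0 (f x) y = 0) →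
      (∀ s1 s2, s1 ≤ n → s2 ≤ n → n < s1 + s2 → ∀ x y, cv2 L g s1 s2 f x y = 0) →
      (∀ x y, f x y = ∑ s1 ∈ range (n+1), ∑ s2 ∈ range (n+1),
        cv2 L h s1 s2 (cv2 L g s1 s2 f) x y) →
      ∑ x, ∑ y, ‖∑ s1 ∈ range (n+1), ∑ s2 ∈ range (n+1),
        ((((2:ℝ) ^ (-r)) ^ (n - s1 - s2) : ℝ) : ℂ) * cv2 L z s1 s2 (cv2 L g s1 s2 f) x y‖
        ≤ C * ∑ x, ∑ y, ‖f x y‖ := by
  set ρ := min r (1/4) with hρ
  have hρ0 : 0 < ρ := lt_min hr (by norm_num)
  have hρr : ρ ≤ r := min_le_left _ _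
  have hρ4 : ρ ≤ 1/4 := min_le_right _ _
  set q := 1 + ρ with hqd
  have hq1 : 1 < q := by linarith
  have hq : q ≤ 5/4 := by linarith
  obtain ⟨A, hA, hexw⟩ := exists_weight hq1
  set R := (2:ℝ) ^ (q - 1) with hR
  have R0 : 0 < R := by positivity
  have hRr : (2:ℝ) ^ (-r) ≤ R⁻¹ := by
    rw [hR, ← Real.rpow_neg (by norm_num)]
    exact Real.rpow_le_rpow_of_exponent_le (by norm_num) (by linarith)
  -- R^2/2 < 1
  have hR2 : R ^ 2 * (1/2) < 1 := by
    have h1 : R ^ 2 = (2:ℝ) ^ (2 * (q - 1)) := by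
      rw [hR, ← Real.rpow_natCast, ← Real.rpow_mul (by norm_num)]
      congr 1
      push_cast
      ring
    have h2 : (2:ℝ) ^ (2 * (q - 1)) < 2 ^ (1:ℝ) :=
      Real.rpow_lt_rpow_of_exponent_lt (by norm_num) (by linarith)
    rw [Real.rpow_one] at h2
    rw [h1]; linarith
  set c1 := CA B A * 196 * (2 * CE (2 * A) q + 1) with hc1
  set c2 := c1 * (CB B A * 196) with hc2
  obtain ⟨K, hK⟩ : ∃ K : ℕ, |c2| * (R ^ 2 * (1/2)) ^ K < 1/2 := by
    have h1 := tendsto_pow_atTop_nhds_zero_of_lt_one (r := R ^ 2 * (1/2)) (by positivity) hR2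
    have h2 := h1.const_mul |c2|
    rw [mul_zero] at h2
    exact ((h2.eventually (gt_mem_nhds (by norm_num : (0:ℝ) < 1/2))).exists)
  set C1 := c1 * R ^ (2 * K) with hC1
  set C0 : ℝ := (2 ^ q * (2 * 2 ^ q)) with hC0
  set C3 := |2 * Cl A q * (CB B A * (196 * (2 * C1)))| with hC3
  refine ⟨Real.sqrt C3 * C0, by positivity, K, ?_⟩
  intro n L hL f hfx hfy hu hrep
  set F : ZMod (2 ^ L) → ZMod (2 ^ L) → ℂ := fun x y => ∑ s1 ∈ range (n+1), ∑ s2 ∈ range (n+1),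
        ((((2:ℝ) ^ (-r)) ^ (n - s1 - s2) : ℝ) : ℂ) * cv2 L z s1 s2 (cv2 L g s1 s2 f) x y with hF
  have f0 : 0 ≤ ∑ x, ∑ y, ‖f x y‖ := sum_nonneg fun x _ => sum_nonneg fun y _ => norm_nonneg _
  rcases f0.eq_or_lt with h0 | hpos
  · -- f = 0
    have hz0 : ∀ x y, f x y = 0 := by
      intro x y
      have h1 := (sum_eq_zero_iff_of_nonneg (fun x _ => sum_nonneg fun y _ => norm_nonneg _)).1
        h0.symm x (mem_univ x)
      have h2 := (sum_eq_zero_iff_of_nonneg (fun y _ => norm_nonneg _)).1 h1 y (mem_univ y)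
      exact norm_eq_zero.1 h2
    have hcv0 : ∀ (g : ℝ → ℂ) s1 s2 (u : ZMod (2 ^ L) → ZMod (2 ^ L) → ℂ), (∀ x y, u x y = 0) →
        ∀ x y, cv2 L g s1 s2 u x y = 0 := by
      intro g s1 s2 u hu x y
      unfold cv2 cv
      refine sum_eq_zero fun t _ => ?_
      have : ∑ t_1, kap L g s2 t_1 * u (x - t) (y - t_1) = 0 :=
        sum_eq_zero fun t1 _ => by rw [hu, mul_zero]
      change kap L g s1 t * (∑ t_1, kap L g s2 t_1 * u (x - t) (y - t_1)) = 0
      rw [this, mul_zero]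
    have : ∀ x y, ‖F x y‖ = 0 := by
      intro x y
      rw [norm_eq_zero]
      simp only [hF]
      refine sum_eq_zero fun s1 _ => sum_eq_zero fun s2 _ => ?_
      rw [hcv0 z s1 s2 _ (hcv0 g s1 s2 f hz0), mul_zero]
    rw [← h0, mul_zero]
    exact le_of_eq (sum_eq_zero fun x _ => sum_eq_zero fun y _ => this x y)
  · obtain ⟨σ, hfσ, hσsum, hx, hy⟩ := hexw (2 ^ L) (fun x y => ‖f x y‖) (fun x y => norm_nonneg _)
      hpos
    set T := ∑ x, ∑ y, σ x y ^ q with hT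
    have T0 : 0 ≤ T := sum_nonneg fun x _ => sum_nonneg fun y _ =>
      Real.rpow_nonneg ((hy x).pos y).le _
    set G := Gc L σ q n (fun s1 s2 => cv2 L g s1 s2 f) with hG
    have G0 : 0 ≤ G := Gc_nonneg hx hy hq1 hq hfσ n _
    have w1 := ws_shift hx hy hq1.le hq (f := fun x y => (f x y).re)
      (fun x y => (Complex.abs_re_le_norm _).trans (hfσ x y)) 0 0
    have hCE := w1.CE_nonneg hq1
    have hCA := CA_nonneg B (A := A)
    have hCB := CB_nonneg B A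
    have c10 : 0 ≤ c1 := by positivity
    have C10 : 0 ≤ C1 := by positivity
    have N0 : (0:ℝ) < (2 ^ L) ^ 2 := by positivity
    -- bound of G
    have hGT : G ≤ 2 * C1 * T := by
      have s1 : ∀ a b, G ≤ C1 * (T + HiC L (sh a b σ) (sh a b f) q (n + K)) := fun a b =>
        step1 hx hy hq1 hq hfσ hg hL hfx hfy hu a b
      have s2 := sum_le_sum fun a (_ : a ∈ (univ : Finset (ZMod (2 ^ L)))) =>
        sum_le_sum fun b (_ : b ∈ (univ : Finset (ZMod (2 ^ L)))) => s1 a b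
      have card : ∀ c : ℝ, ∑ _a : ZMod (2 ^ L), ∑ _b : ZMod (2 ^ L), c = (2 ^ L) ^ 2 * c := by
        intro c
        simp only [sum_const, card_univ, ZMod.card, nsmul_eq_mul]
        push_cast
        ring
      simp only [← mul_sum, sum_add_distrib] at s2
      rw [card, card] at s2
      have s3 := step2 hx hy hq1 hq hfσ hh hL hu hrep
      have s4 : (2 ^ L) ^ 2 * G ≤ C1 * ((2 ^ L) ^ 2 * T + (2 ^ L) ^ 2 * (CB B A * ((1/2) ^ K
          * (196 * G)))) := s2.trans (mul_le_mul_of_nonneg_left (by linarith) C10)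
      have s5 : G ≤ C1 * T + c2 * (R ^ 2 * (1/2)) ^ K * G := by
        refine le_of_mul_le_mul_left (s4.trans (le_of_eq ?_)) N0
        rw [hC1, hc2, mul_pow, pow_mul]
        ring
      have s6 : c2 * (R ^ 2 * (1/2)) ^ K ≤ 1/2 := by
        refine le_trans ?_ hK.le
        exact mul_le_mul_of_nonneg_right (le_abs_self _) (by positivity)
      have s7 := mul_le_mul_of_nonneg_right s6 G0
      linarith
    -- F
    have hFx : ∀ x y, (dy L).E 0 (fun x' => F x' y) x = 0 := by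
      intro x y
      simp only [hF]
      rw [E_sum]
      refine sum_eq_zero fun s1 _ => ?_
      rw [E_sum]
      refine sum_eq_zero fun s2 _ => ?_
      rw [E_cmul, E0_cv2x z s1 s2 (fun x y => E0_cv2x g s1 s2 hfx x y), mul_zero]
    have hFy : ∀ x y, (dy L).E 0 (F x) y = 0 := by
      intro x y
      simp only [hF]
      rw [E_sum]
      refine sum_eq_zero fun s1 _ => ?_
      rw [E_sum]
      refine sum_eq_zero fun s2 _ => ?_
      rw [E_cmul, E0_cv2y z s1 s2 (fun x y => E0_cv2y g s1 s2 hfy x y), mul_zero]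
    have card : ∀ c : ℝ, ∑ _a : ZMod (2 ^ L), ∑ _b : ZMod (2 ^ L), c = (2 ^ L) ^ 2 * c := by
      intro c
      simp only [sum_const, card_univ, ZMod.card, nsmul_eq_mul]
      push_cast
      ring
    have t1 := sum_le_sum fun a (_ : a ∈ (univ : Finset (ZMod (2 ^ L)))) =>
        sum_le_sum fun b (_ : b ∈ (univ : Finset (ZMod (2 ^ L)))) =>
          l1C hx hy hq1 hq hfσ hFx hFy a b
    rw [card] at t1
    simp only [← mul_sum] at t1
    have t2 := step3 hx hy hq1 hq hfσ hz (g := g) (show n + 4 ≤ L by omega)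
      (R := (2:ℝ) ^ (-r)) (by positivity) hRr
    have hCl : 0 ≤ Cl A q := by unfold Cl; positivity
    have t3 : (2 ^ L) ^ 2 * (∑ x, ∑ y, ‖F x y‖) ^ 2 ≤ (2 * Cl A q * T)
        * ((2 ^ L) ^ 2 * (CB B A * (196 * G))) :=
      t1.trans (mul_le_mul_of_nonneg_left t2 (by positivity))
    have t4 : (∑ x, ∑ y, ‖F x y‖) ^ 2 ≤ C3 * T ^ 2 := by
      refine le_of_mul_le_mul_left (t3.trans ?_) N0
      have t5 : (2 * Cl A q * T) * ((2 ^ L) ^ 2 * (CB B A * (196 * G)))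
          ≤ (2 * Cl A q * T) * ((2 ^ L) ^ 2 * (CB B A * (196 * (2 * C1 * T)))) := by
        refine mul_le_mul_of_nonneg_left ?_ (by positivity)
        refine mul_le_mul_of_nonneg_left ?_ (by positivity)
        refine mul_le_mul_of_nonneg_left ?_ hCB
        exact mul_le_mul_of_nonneg_left hGT (by norm_num)
      refine t5.trans ?_
      have t6 : 2 * Cl A q * (CB B A * (196 * (2 * C1))) ≤ C3 := le_abs_self _
      calc (2 * Cl A q * T) * ((2 ^ L) ^ 2 * (CB B A * (196 * (2 * C1 * T))))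
          = (2 ^ L) ^ 2 * ((2 * Cl A q * (CB B A * (196 * (2 * C1)))) * T ^ 2) := by ring
        _ ≤ (2 ^ L) ^ 2 * (C3 * T ^ 2) := by
            refine mul_le_mul_of_nonneg_left ?_ (by positivity)
            exact mul_le_mul_of_nonneg_right t6 (by positivity)
    have F0 : 0 ≤ ∑ x, ∑ y, ‖F x y‖ := sum_nonneg fun x _ => sum_nonneg fun y _ => norm_nonneg _
    have C30 : 0 ≤ C3 := abs_nonneg _
    have t7 : ∑ x, ∑ y, ‖F x y‖ ≤ Real.sqrt C3 * T := by
      refine (pow_le_pow_iff_left₀ F0 (by positivity) two_ne_zero).1 ?_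
      rw [mul_pow, Real.sq_sqrt C30]
      exact t4
    calc _ ≤ Real.sqrt C3 * T := t7
      _ ≤ Real.sqrt C3 * (C0 * ∑ x, ∑ y, ‖f x y‖) :=
          mul_le_mul_of_nonneg_left hσsum (Real.sqrt_nonneg _)
      _ = _ := by ring

end HC

end
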