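import Mathlib

/-!
Maximal ergodic theorem for finite permutations and the Rubio de Francia construction.
-/

open Finset MeasureTheory

namespace HC

lemma ne_range (n : ℕ) : (range (n+1)).Nonempty := ⟨0, by simp⟩

lemma ne_Icc (n : ℕ) : (Icc 1 (n+1)).Nonempty := ⟨1, by simp⟩

section garsia
open scoped Classical
variable {Ω : Type} [Fintype Ω]

/-- orbit sums -/
def orb (T : Equiv.Perm Ω) (l : ℕ) (g : Ω → ℝ) (x : Ω) : ℝ := ∑ t ∈ range l, g ((T ^ t) x)

lemma orb_succ (T : Equiv.Perm Ω) (l : ℕ) (g : Ω → ℝ) (x : Ω) :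
    orb T (l + 1) g x = g x + orb T l g (T x) := by
  unfold orb
  rw [sum_range_succ']
  simp only [pow_succ, Equiv.Perm.mul_apply, pow_zero, Equiv.Perm.one_apply]
  ring

/-- Garsia's lemma -/
lemma garsia (T : Equiv.Perm Ω) (n : ℕ) (g : Ω → ℝ) :
    0 ≤ ∑ x ∈ univ.filter (fun x => ∃ l, 1 ≤ l ∧ l ≤ n ∧ 0 < orb T l g x), g x := by
  set M : Ω → ℝ := fun x => (range (n+1)).sup' (ne_range n) (fun l => orb T l g x) with hM
  have hM0 : ∀ x, 0 ≤ M x := by
    intro x
    have h1 := le_sup' (s := range (n+1)) (fun l => orb T l g x) (b := 0) (by simp)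
    have h2 : orb T 0 g x = 0 := by simp [orb]
    exact le_of_eq_of_le h2.symm h1
  have hle : ∀ x l, l ≤ n → orb T l g x ≤ M x := fun x l hl =>
    le_sup' (s := range (n+1)) (fun l => orb T l g x) (b := l) (by simp; omega)
  have key : ∀ x, M x - M (T x) ≤ if (∃ l, 1 ≤ l ∧ l ≤ n ∧ 0 < orb T l g x) then g x else 0 := by
    intro x
    obtain ⟨l, hl, hlM⟩ := exists_mem_eq_sup' (s := range (n+1)) (ne_range n)
      (fun l => orb T l g x)
    rw [mem_range] at hl
    split_ifs with hx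
    · obtain ⟨l', h1, h2, h3⟩ := hx
      have h4 : 0 < M x := lt_of_lt_of_le h3 (hle x l' h2)
      have h5 : M x = orb T l g x := hlM
      have h6 : l ≠ 0 := by
        rintro rfl
        rw [h5] at h4
        simp [orb] at h4
      obtain ⟨m, rfl⟩ := Nat.exists_eq_succ_of_ne_zero h6
      rw [h5, Nat.succ_eq_add_one, orb_succ]
      have := hle (T x) m (by omega)
      linarith
    · push Not at hx
      have h7 : M x ≤ 0 := by
        apply sup'_le
        intro m hm
        rw [mem_range] at hm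
        rcases Nat.eq_zero_or_pos m with rfl | hm0
        · simp [orb]
        · exact hx m hm0 (by omega)
      have := hM0 (T x)
      linarith
  have h1 := sum_le_sum fun x (_ : x ∈ (univ : Finset Ω)) => key x
  rw [sum_sub_distrib, Equiv.sum_comp T M, sub_self, ← sum_filter] at h1
  exact h1

/-- the maximal function of a single permutation -/
noncomputable def Mav (T : Equiv.Perm Ω) (n : ℕ) (g : Ω → ℝ) (x : Ω) : ℝ :=
  (Icc 1 (n+1)).sup' (ne_Icc n) (fun l => orb T l g x / l)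

lemma weak_type (T : Equiv.Perm Ω) (n : ℕ) (g : Ω → ℝ) (lam : ℝ) :
    0 ≤ ∑ x ∈ univ.filter (fun x => lam < Mav T n g x), (g x - lam) := by
  have h := garsia T (n+1) (fun x => g x - lam)
  have e : ∀ x, (∃ l, 1 ≤ l ∧ l ≤ n + 1 ∧ 0 < orb T l (fun x => g x - lam) x)
      ↔ lam < Mav T n g x := by
    intro x
    unfold Mav
    rw [lt_sup'_iff]
    have h2 : ∀ l : ℕ, orb T l (fun x => g x - lam) x = orb T l g x - l * lam := by
      intro l; unfold orb; rw [sum_sub_distrib]; simp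
    constructor
    · rintro ⟨l, h1, h3, h4⟩
      refine ⟨l, by simp; omega, ?_⟩
      have hl : (0:ℝ) < l := by exact_mod_cast h1
      rw [lt_div_iff₀ hl]
      rw [h2] at h4
      linarith
    · rintro ⟨l, h1, h4⟩
      rw [mem_Icc] at h1
      have hl : (0:ℝ) < l := by exact_mod_cast h1.1
      refine ⟨l, h1.1, h1.2, ?_⟩
      rw [lt_div_iff₀ hl] at h4
      rw [h2]
      linarith
  have e2 : (univ.filter (fun x => ∃ l, 1 ≤ l ∧ l ≤ n + 1 ∧ 0 < orb T l (fun x => g x - lam) x))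
      = univ.filter (fun x => lam < Mav T n g x) := by
    ext x; simp only [mem_filter, mem_univ, true_and]; exact e x
  rw [e2] at h
  exact h

lemma Mav_nonneg (T : Equiv.Perm Ω) (n : ℕ) {g : Ω → ℝ} (hg : ∀ x, 0 ≤ g x) (x : Ω) :
    0 ≤ Mav T n g x := by
  have := le_sup' (s := Icc 1 (n+1)) (fun l => orb T l g x / l) (b := 1) (by simp)
  refine le_trans ?_ this
  simp [orb, hg x]

lemma le_Mav (T : Equiv.Perm Ω) (n : ℕ) (g : Ω → ℝ) (x : Ω) {l : ℕ} (h1 : 1 ≤ l) (h2 : l ≤ n + 1) :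
    orb T l g x / l ≤ Mav T n g x :=
  le_sup' (s := Icc 1 (n+1)) (fun l => orb T l g x / l) (b := l) (by simp; omega)

/-- strong type -/
lemma strong_type (T : Equiv.Perm Ω) (n : ℕ) {g : Ω → ℝ} (hg : ∀ x, 0 ≤ g x) {q : ℝ}
    (hq : 1 < q) : ∑ x, (Mav T n g x) ^ q ≤ (q / (q - 1)) ^ q * ∑ x, (g x) ^ q := by
  set M := Mav T n g with hM
  have hM0 : ∀ x, 0 ≤ M x := Mav_nonneg T n hg
  have hq1 : 0 < q - 1 := by linarith
  -- upper bound for M
  obtain ⟨Λ, hΛ⟩ : ∃ Λ : ℝ, ∀ x, M x ≤ Λ := ⟨∑ x, M x, fun x =>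
    single_le_sum (f := M) (fun x _ => hM0 x) (mem_univ x)⟩
  have int1 : ∀ x, IntegrableOn (fun s : ℝ => (g x - s) * s ^ (q - 2)) (Set.Ioc 0 Λ) := by
    intro x
    rcases le_or_gt Λ 0 with hΛ0 | hΛ0
    · rw [Set.Ioc_eq_empty (by linarith)]; exact integrableOn_empty
    have i1 : IntervalIntegrable (fun s : ℝ => s ^ (q - 2)) volume 0 Λ :=
      intervalIntegral.intervalIntegrable_rpow' (by linarith)
    have i2 := i1.continuousOn_mul (g := fun s => g x - s) (by fun_prop)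
    exact (intervalIntegrable_iff_integrableOn_Ioc_of_le hΛ0.le).1 i2
  -- positivity of the integral
  have pos : 0 ≤ ∫ s in Set.Ioc 0 Λ, ∑ x, (Set.Iio (M x)).indicator
      (fun s : ℝ => (g x - s) * s ^ (q - 2)) s := by
    refine setIntegral_nonneg measurableSet_Ioc fun s hs => ?_
    have e : ∑ x, (Set.Iio (M x)).indicator (fun s : ℝ => (g x - s) * s ^ (q - 2)) s
        = (∑ x ∈ univ.filter (fun x => s < M x), (g x - s)) * s ^ (q - 2) := by
      rw [sum_mul, sum_filter]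
      refine sum_congr rfl fun x _ => ?_
      simp only [Set.indicator, Set.mem_Iio]
    rw [e]
    exact mul_nonneg (weak_type T n g s) (Real.rpow_nonneg hs.1.le _)
  rw [integral_finsetSum _ (fun x _ => (int1 x).indicator measurableSet_Iio)] at pos
  have val : ∀ x, ∫ s in Set.Ioc 0 Λ, (Set.Iio (M x)).indicator
      (fun s : ℝ => (g x - s) * s ^ (q - 2)) s = g x * M x ^ (q - 1) / (q - 1) - M x ^ q / q := by
    intro x
    rw [setIntegral_indicator measurableSet_Iio]
    have e1 : Set.Ioc 0 Λ ∩ Set.Iio (M x) = Set.Ioo 0 (M x) := by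
      ext s
      simp only [Set.mem_inter_iff, Set.mem_Ioc, Set.mem_Iio, Set.mem_Ioo]
      constructor
      · rintro ⟨⟨h1, h2⟩, h3⟩; exact ⟨h1, h3⟩
      · rintro ⟨h1, h2⟩; exact ⟨⟨h1, h2.le.trans (hΛ x)⟩, h2⟩
    rw [e1, ← integral_Ioc_eq_integral_Ioo, ← intervalIntegral.integral_of_le (hM0 x)]
    have e2 : ∫ s in (0:ℝ)..(M x), (g x - s) * s ^ (q - 2)
        = ∫ s in (0:ℝ)..(M x), (g x * s ^ (q - 2) - s ^ (q - 1)) := by
      refine intervalIntegral.integral_congr_ae ?_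
      filter_upwards with s hs
      rw [Set.uIoc_of_le (hM0 x)] at hs
      have : s ^ (q - 1) = s * s ^ (q - 2) := by
        rw [mul_comm, ← Real.rpow_add_one hs.1.ne']; ring_nf
      rw [this]; ring
    have i1 : IntervalIntegrable (fun s : ℝ => g x * s ^ (q - 2)) volume 0 (M x) :=
      (intervalIntegral.intervalIntegrable_rpow' (by linarith)).const_mul _
    have i2 : IntervalIntegrable (fun s : ℝ => s ^ (q - 1)) volume 0 (M x) :=
      intervalIntegral.intervalIntegrable_rpow' (by linarith)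
    rw [e2, intervalIntegral.integral_sub i1 i2, intervalIntegral.integral_const_mul,
      integral_rpow (Or.inl (by linarith)), integral_rpow (Or.inl (by linarith))]
    have e3 : q - 2 + 1 = q - 1 := by ring
    have e4 : q - 1 + 1 = q := by ring
    rw [e3, e4, Real.zero_rpow (by linarith), Real.zero_rpow (by linarith)]
    ring
  rw [sum_congr rfl fun x _ => val x, sum_sub_distrib] at pos
  -- Young
  have young : ∀ x, g x * M x ^ (q - 1) / (q - 1)
      ≤ (1 / (q * q)) * ((q / (q - 1)) ^ q * g x ^ q) + (q - 1) / (q * q) * M x ^ q := by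
    intro x
    have hpq : q.HolderConjugate (q / (q - 1)) := Real.HolderConjugate.conjExponent hq
    have h1 := Real.young_inequality_of_nonneg (a := q / (q - 1) * g x) (b := M x ^ (q - 1))
      (mul_nonneg (by positivity) (hg x)) (Real.rpow_nonneg (hM0 x) _) hpq
    rw [Real.mul_rpow (by positivity) (hg x), ← Real.rpow_mul (hM0 x)] at h1
    have e1 : (q - 1) * (q / (q - 1)) = q := by field_simp
    rw [e1] at h1
    have h2 := mul_le_mul_of_nonneg_left h1 (by positivity : (0:ℝ) ≤ 1 / q)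
    have e2 : (1 / q) * (q / (q - 1) * g x * M x ^ (q - 1)) = g x * M x ^ (q - 1) / (q - 1) := by
      field_simp
    have e3 : (1 / q) * ((q / (q - 1)) ^ q * g x ^ q / q + M x ^ q / (q / (q - 1)))
        = (1 / (q * q)) * ((q / (q - 1)) ^ q * g x ^ q) + (q - 1) / (q * q) * M x ^ q := by
      field_simp
    rw [e2, e3] at h2
    exact h2
  have h2 := sum_le_sum fun x (_ : x ∈ (univ : Finset Ω)) => young x
  rw [sum_add_distrib, ← mul_sum, ← mul_sum, ← mul_sum] at h2
  have e5 : ∑ x, M x ^ q / q = (1 / q) * ∑ x, M x ^ q := by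
    rw [mul_sum]; exact sum_congr rfl fun x _ => by ring
  rw [e5] at pos
  set SM := ∑ x, M x ^ q
  set SG := (q / (q - 1)) ^ q * ∑ x, g x ^ q
  have h3 : (1 / q) * SM ≤ (1 / (q * q)) * SG + (q - 1) / (q * q) * SM := by linarith
  have e6 : (1 / q) * SM - (q - 1) / (q * q) * SM = (1 / (q * q)) * SM := by
    field_simp; ring
  have h4 : (1 / (q * q)) * SM ≤ (1 / (q * q)) * SG := by linarith
  exact le_of_mul_le_mul_left h4 (by positivity)

end garsia

/-- Jensen for sub-probability weights -/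
lemma jensen_sub {ι : Type*} (s : Finset ι) (w z : ι → ℝ) (hw : ∀ i ∈ s, 0 ≤ w i)
    (hw1 : ∑ i ∈ s, w i ≤ 1) (hz : ∀ i ∈ s, 0 ≤ z i) {q : ℝ} (hq : 1 ≤ q) :
    (∑ i ∈ s, w i * z i) ^ q ≤ ∑ i ∈ s, w i * z i ^ q := by
  set e := ∑ i ∈ s, w i * z i with he
  have e0 : 0 ≤ e := sum_nonneg fun i hi => mul_nonneg (hw i hi) (hz i hi)
  have r0 : 0 ≤ ∑ i ∈ s, w i * z i ^ q :=
    sum_nonneg fun i hi => mul_nonneg (hw i hi) (Real.rpow_nonneg (hz i hi) _)
  rcases e0.eq_or_lt with h0 | h0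
  · rw [← h0, Real.zero_rpow (by linarith)]; exact r0
  have h1 : ∀ i ∈ s, w i * (e ^ q * (1 - q)) + (q * e ^ q * e⁻¹) * (w i * z i)
      ≤ w i * z i ^ q := by
    intro i hi
    have h2 := one_add_mul_self_le_rpow_one_add (s := z i / e - 1) (p := q)
      (by have := div_nonneg (hz i hi) h0.le; linarith) hq
    rw [add_sub_cancel, Real.div_rpow (hz i hi) h0.le] at h2
    have h3 : 0 < e ^ q := Real.rpow_pos_of_pos h0 _
    rw [le_div_iff₀ h3] at h2
    have h4 := mul_le_mul_of_nonneg_left h2 (hw i hi)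
    refine le_trans (le_of_eq ?_) h4
    field_simp
    ring
  have h2 := sum_le_sum h1
  rw [sum_add_distrib, ← sum_mul, ← mul_sum, ← he] at h2
  have h3 : 0 < e ^ q := Real.rpow_pos_of_pos h0 _
  have h4 : (∑ i ∈ s, w i) * (e ^ q * (1 - q)) ≥ e ^ q * (1 - q) := by
    have : e ^ q * (1 - q) ≤ 0 := mul_nonpos_of_nonneg_of_nonpos h3.le (by linarith)
    nlinarith
  have h5 : q * e ^ q * e⁻¹ * e = q * e ^ q := by field_simp
  rw [h5] at h2
  nlinarith

section rdf
variable {Ω : Type} [Fintype Ω] {ι : Type} [Fintype ι] [Nonempty ι]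

/-- maximal function over a family of permutations -/
noncomputable def MM (T : ι → Equiv.Perm Ω) (n : ℕ) (g : Ω → ℝ) (x : Ω) : ℝ :=
  (univ : Finset ι).sup' univ_nonempty (fun i => Mav (T i) n g x)

lemma le_MM (T : ι → Equiv.Perm Ω) (n : ℕ) (g : Ω → ℝ) (x : Ω) (i : ι) {l : ℕ} (h1 : 1 ≤ l)
    (h2 : l ≤ n + 1) : orb (T i) l g x ≤ l * MM T n g x := by
  have h3 := le_Mav (T i) n g x h1 h2
  have h4 : Mav (T i) n g x ≤ MM T n g x :=
    le_sup' (s := univ) (fun i => Mav (T i) n g x) (mem_univ i)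
  have hl : (0:ℝ) < l := by exact_mod_cast h1
  rw [div_le_iff₀ hl] at h3
  nlinarith

lemma MM_nonneg (T : ι → Equiv.Perm Ω) (n : ℕ) {g : Ω → ℝ} (hg : ∀ x, 0 ≤ g x) (x : Ω) :
    0 ≤ MM T n g x := by
  obtain ⟨i⟩ := (inferInstance : Nonempty ι)
  exact (Mav_nonneg (T i) n hg x).trans
    (le_sup' (s := univ) (fun i => Mav (T i) n g x) (mem_univ i))

lemma MM_strong (T : ι → Equiv.Perm Ω) (n : ℕ) {g : Ω → ℝ} (hg : ∀ x, 0 ≤ g x) {q : ℝ}
    (hq : 1 < q) : ∑ x, (MM T n g x) ^ q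
      ≤ (Fintype.card ι * (q / (q - 1))) ^ q * ∑ x, (g x) ^ q := by
  have h1 : ∀ x, (MM T n g x) ^ q ≤ ∑ i, (Mav (T i) n g x) ^ q := by
    intro x
    obtain ⟨i, _, hi⟩ := exists_mem_eq_sup' (s := (univ : Finset ι)) univ_nonempty
      (fun i => Mav (T i) n g x)
    have : MM T n g x = Mav (T i) n g x := hi
    rw [this]
    exact single_le_sum (f := fun i => (Mav (T i) n g x) ^ q)
      (fun i _ => Real.rpow_nonneg (Mav_nonneg (T i) n hg x) _) (mem_univ i)
  have hc : (1:ℝ) ≤ Fintype.card ι := by exact_mod_cast Fintype.card_pos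
  have hg0 : 0 ≤ ∑ x, g x ^ q := sum_nonneg fun x _ => Real.rpow_nonneg (hg x) _
  have hq1 : 0 < q - 1 := by linarith
  calc ∑ x, (MM T n g x) ^ q ≤ ∑ x, ∑ i, (Mav (T i) n g x) ^ q := sum_le_sum fun x _ => h1 x
    _ = ∑ i, ∑ x, (Mav (T i) n g x) ^ q := sum_comm
    _ ≤ ∑ _i : ι, (q / (q - 1)) ^ q * ∑ x, (g x) ^ q :=
        sum_le_sum fun i _ => strong_type (T i) n hg hq
    _ = Fintype.card ι * ((q / (q - 1)) ^ q * ∑ x, (g x) ^ q) := by
        rw [sum_const, card_univ, nsmul_eq_mul]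
    _ ≤ (Fintype.card ι : ℝ) ^ q * ((q / (q - 1)) ^ q * ∑ x, (g x) ^ q) := by
        refine mul_le_mul_of_nonneg_right ?_ (by positivity)
        calc (Fintype.card ι : ℝ) = (Fintype.card ι : ℝ) ^ (1:ℝ) := (Real.rpow_one _).symm
          _ ≤ _ := Real.rpow_le_rpow_of_exponent_le hc hq.le
    _ = _ := by
        rw [Real.mul_rpow (by positivity) (by positivity)]; ring

/-- **Rubio de Francia's construction.** -/
theorem rdf (T : ι → Equiv.Perm Ω) (n : ℕ) {q : ℝ} (hq : 1 < q) {g : Ω → ℝ} {c : ℝ} (hc : 0 < c)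
    (hg : ∀ x, c ≤ g x) :
    ∃ σ : Ω → ℝ, (∀ x, g x ≤ σ x) ∧ ∑ x, σ x ^ q ≤ 2 ^ q * ∑ x, g x ^ q ∧
      ∀ i x l, 1 ≤ l → l ≤ n + 1 →
        orb (T i) l σ x ≤ (4 * (Fintype.card ι * (q / (q - 1)))) * l * σ x := by
  set B : ℝ := Fintype.card ι * (q / (q - 1)) with hB
  have hq1 : 0 < q - 1 := by linarith
  have hc1 : (1:ℝ) ≤ Fintype.card ι := by exact_mod_cast Fintype.card_pos
  have hB0 : 0 < B := by positivity
  set G : ℕ → Ω → ℝ := fun k => (MM T n)^[k] g with hG
  have hG0 : G 0 = g := rfl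
  have hGs : ∀ k, G (k + 1) = MM T n (G k) := fun k => Function.iterate_succ_apply' _ _ _
  have hGn : ∀ k x, 0 ≤ G k x := by
    intro k
    induction k with
    | zero => intro x; rw [hG0]; exact hc.le.trans (hg x)
    | succ k ih => intro x; rw [hGs]; exact MM_nonneg T n ih x
  set S := ∑ x, g x ^ q with hS
  have hS0 : 0 ≤ S := sum_nonneg fun x _ => Real.rpow_nonneg (hc.le.trans (hg x)) _
  have hGq : ∀ k, ∑ x, (G k x) ^ q ≤ (B ^ k) ^ q * S := by
    intro k
    induction k with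
    | zero => simp [hG0, hS]
    | succ k ih =>
      rw [hGs]
      refine (MM_strong T n (hGn k) hq).trans ?_
      calc _ ≤ B ^ q * ((B ^ k) ^ q * S) := mul_le_mul_of_nonneg_left ih (by positivity)
        _ = _ := by rw [pow_succ, Real.mul_rpow (by positivity) hB0.le]; ring
  -- choose K
  obtain ⟨K, hK⟩ : ∃ K : ℕ, (S ^ (1/q)) * (1/2) ^ K < c := by
    have : Filter.Tendsto (fun K : ℕ => (S ^ (1/q)) * (1/2 : ℝ) ^ K) Filter.atTop (nhds ((S ^ (1/q)) * 0)) :=
      (tendsto_pow_atTop_nhds_zero_of_lt_one (by norm_num) (by norm_num)).const_mul _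
    rw [mul_zero] at this
    exact (this.eventually (gt_mem_nhds hc)).exists
  set σ : Ω → ℝ := fun x => ∑ k ∈ range (K + 1), ((2 * B) ^ k)⁻¹ * G k x with hσ
  have hterm : ∀ k x, 0 ≤ ((2 * B) ^ k)⁻¹ * G k x := fun k x =>
    mul_nonneg (by positivity) (hGn k x)
  have hgσ : ∀ x, g x ≤ σ x := by
    intro x
    have := single_le_sum (s := range (K+1)) (f := fun k => ((2 * B) ^ k)⁻¹ * G k x)
      (fun k _ => hterm k x) (a := 0) (by simp)
    simpa [hG0] using this
  refine ⟨σ, hgσ, ?_, ?_⟩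
  · -- norm
    have h1 : ∀ x, σ x ^ q ≤ 2 ^ q * ∑ k ∈ range (K + 1), ((1:ℝ)/2) ^ (k+1) *
        ((B ^ k)⁻¹ * G k x) ^ q := by
      intro x
      have e1 : σ x = 2 * ∑ k ∈ range (K + 1), ((1:ℝ)/2) ^ (k+1) * ((B ^ k)⁻¹ * G k x) := by
        simp only [hσ]
        rw [mul_sum]
        refine sum_congr rfl fun k _ => ?_
        rw [mul_pow, mul_inv, pow_succ, one_div, inv_pow]
        ring
      have h2 := jensen_sub (range (K+1)) (fun k => ((1:ℝ)/2) ^ (k+1)) (fun k => (B ^ k)⁻¹ * G k x)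
        (fun k _ => by positivity) (by
          have : ∑ k ∈ range (K+1), ((1:ℝ)/2) ^ (k+1) = (1/2) * ∑ k ∈ range (K+1), ((1:ℝ)/2) ^ k := by
            rw [mul_sum]; exact sum_congr rfl fun k _ => by rw [pow_succ]; ring
          rw [this]
          have h3 := Summable.sum_le_tsum (range (K+1)) (fun i _ => by positivity)
            (summable_geometric_of_lt_one (by norm_num : (0:ℝ) ≤ 1/2) (by norm_num))
          rw [tsum_geometric_of_lt_one (by norm_num) (by norm_num)] at h3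
          norm_num at h3 ⊢
          linarith) (fun k _ => mul_nonneg (by positivity) (hGn k x)) hq.le
      have e0 : 0 ≤ ∑ k ∈ range (K + 1), ((1:ℝ)/2) ^ (k+1) * ((B ^ k)⁻¹ * G k x) :=
        sum_nonneg fun k _ => mul_nonneg (by positivity) (mul_nonneg (by positivity) (hGn k x))
      rw [e1, Real.mul_rpow (by norm_num) e0]
      exact mul_le_mul_of_nonneg_left h2 (by positivity)
    calc ∑ x, σ x ^ q ≤ ∑ x, 2 ^ q * ∑ k ∈ range (K + 1), ((1:ℝ)/2) ^ (k+1) *
        ((B ^ k)⁻¹ * G k x) ^ q := sum_le_sum fun x _ => h1 x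
      _ = 2 ^ q * ∑ k ∈ range (K + 1), ((1:ℝ)/2) ^ (k+1) * ∑ x, ((B ^ k)⁻¹ * G k x) ^ q := by
          rw [← mul_sum, sum_comm]
          congr 1
          exact sum_congr rfl fun k _ => by rw [mul_sum]
      _ ≤ 2 ^ q * ∑ k ∈ range (K + 1), ((1:ℝ)/2) ^ (k+1) * S := by
          refine mul_le_mul_of_nonneg_left (sum_le_sum fun k _ => ?_) (by positivity)
          refine mul_le_mul_of_nonneg_left ?_ (by positivity)
          have e1 : ∀ x, ((B ^ k)⁻¹ * G k x) ^ q = ((B ^ k) ^ q)⁻¹ * (G k x) ^ q := by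
            intro x
            rw [Real.mul_rpow (by positivity) (hGn k x), Real.inv_rpow (by positivity)]
          simp only [e1]
          rw [← mul_sum, inv_mul_le_iff₀ (by positivity)]
          exact hGq k
      _ = 2 ^ q * (∑ k ∈ range (K + 1), ((1:ℝ)/2) ^ (k+1)) * S := by rw [← sum_mul]; ring
      _ ≤ 2 ^ q * 1 * S := by
          refine mul_le_mul_of_nonneg_right (mul_le_mul_of_nonneg_left ?_ (by positivity)) hS0
          have : ∑ k ∈ range (K+1), ((1:ℝ)/2) ^ (k+1) = (1/2) * ∑ k ∈ range (K+1), ((1:ℝ)/2) ^ k := by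
            rw [mul_sum]; exact sum_congr rfl fun k _ => by rw [pow_succ]; ring
          rw [this]
          have h3 := Summable.sum_le_tsum (range (K+1)) (fun i _ => by positivity)
            (summable_geometric_of_lt_one (by norm_num : (0:ℝ) ≤ 1/2) (by norm_num))
          rw [tsum_geometric_of_lt_one (by norm_num) (by norm_num)] at h3
          norm_num at h3 ⊢
          linarith
      _ = _ := by ring
  · intro i x l h1 h2
    have hl : (0:ℝ) < l := by exact_mod_cast h1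
    have e1 : orb (T i) l σ x = ∑ k ∈ range (K + 1), ((2 * B) ^ k)⁻¹ * orb (T i) l (G k) x := by
      unfold orb
      simp only [hσ]
      rw [sum_comm]
      exact sum_congr rfl fun k _ => by rw [mul_sum]
    have h3 : ∀ k, orb (T i) l (G k) x ≤ l * G (k+1) x := by
      intro k; rw [hGs]; exact le_MM T n (G k) x i h1 h2
    have h4 : ∑ k ∈ range (K + 1), ((2 * B) ^ k)⁻¹ * orb (T i) l (G k) x
        ≤ l * (2 * B) * ∑ k ∈ range (K + 1), ((2 * B) ^ (k+1))⁻¹ * G (k+1) x := by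
      rw [mul_sum]
      refine sum_le_sum fun k _ => ?_
      calc _ ≤ ((2 * B) ^ k)⁻¹ * (l * G (k+1) x) :=
            mul_le_mul_of_nonneg_left (h3 k) (by positivity)
        _ = _ := by rw [pow_succ]; field_simp
    have h5 : ∑ k ∈ range (K + 1), ((2 * B) ^ (k+1))⁻¹ * G (k+1) x
        ≤ σ x + ((2 * B) ^ (K+1))⁻¹ * G (K+1) x := by
      rw [sum_range_succ]
      have : ∑ k ∈ range K, ((2 * B) ^ (k+1))⁻¹ * G (k+1) x ≤ σ x := by
        simp only [hσ]
        rw [sum_range_succ']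
        linarith [hterm 0 x]
      linarith
    have h6 : ((2 * B) ^ (K+1))⁻¹ * G (K+1) x ≤ σ x := by
      have g1 : (G (K+1) x) ^ q ≤ (B ^ (K+1)) ^ q * S :=
        (single_le_sum (f := fun x => (G (K+1) x) ^ q)
          (fun x _ => Real.rpow_nonneg (hGn (K+1) x) _) (mem_univ x)).trans (hGq (K+1))
      have g2 : G (K+1) x ≤ B ^ (K+1) * S ^ (1/q) := by
        have := Real.rpow_le_rpow (Real.rpow_nonneg (hGn (K+1) x) _) g1 (by positivity : 0 ≤ 1/q)
        rw [← Real.rpow_mul (hGn _ _), Real.mul_rpow (by positivity) hS0,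
          ← Real.rpow_mul (by positivity)] at this
        have e : q * (1/q) = 1 := by field_simp
        rwa [e, Real.rpow_one, Real.rpow_one] at this
      calc ((2 * B) ^ (K+1))⁻¹ * G (K+1) x ≤ ((2 * B) ^ (K+1))⁻¹ * (B ^ (K+1) * S ^ (1/q)) :=
            mul_le_mul_of_nonneg_left g2 (by positivity)
        _ = S ^ (1/q) * (1/2) ^ (K+1) := by
            rw [mul_pow, one_div, one_div, inv_pow]; field_simp
        _ ≤ S ^ (1/q) * (1/2) ^ K := by
            refine mul_le_mul_of_nonneg_left ?_ (Real.rpow_nonneg hS0 _)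
            exact pow_le_pow_of_le_one (by norm_num) (by norm_num) (by omega)
        _ ≤ c := hK.le
        _ ≤ σ x := (hg x).trans (hgσ x)
    rw [e1]
    calc _ ≤ l * (2 * B) * ∑ k ∈ range (K + 1), ((2 * B) ^ (k+1))⁻¹ * G (k+1) x := h4
      _ ≤ l * (2 * B) * (σ x + σ x) :=
          mul_le_mul_of_nonneg_left (by linarith) (by positivity)
      _ = _ := by ring

end rdf

end HC
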