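import Pool.Agent.Helper61.HC.Cv

section
/-!
Almost-diagonality of the convolution operators, second direction, and weighted estimates.
-/

open Finset

namespace HC

open Dy

variable {L : ℕ}

lemma cell_c_mono {i j : ℕ} (hij : i ≤ j) {x y : ZMod (2 ^ L)} (h : (dy L).c j x = (dy L).c j y) :
    (dy L).c i x = (dy L).c i y := nest' hij h

/-- K4 -/
lemma del_cv_fine {g : ℝ → ℂ} {B : ℝ} (hg : Sym g B) {s i : ℕ} (hsi : s ≤ i) (hi : i + 1 ≤ L)
    (u : ZMod (2 ^ L) → ℂ) (x : ZMod (2 ^ L)) :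
    ‖(dy L).del i (cv L g s u) x‖
      ≤ 3200 * B * ((1/2) ^ (i - s) * Av (ell L s) (fun x => ‖u x‖) x) := by
  have B0 := hg.nonneg
  have hls : (0:ℝ) < ell L s := by exact_mod_cast ell_pos L s
  set W := cv L g s u with hW
  set R := 1600 * B * ((1/2) ^ (i - s) * Av (ell L s) (fun x => ‖u x‖) x) with hR
  have hAv : 0 ≤ Av (ell L s) (fun x => ‖u x‖) x := Av_nonneg hls (fun z => norm_nonneg _) x
  have key : ∀ z, (dy L).c i z = (dy L).c i x → ‖W z - W x‖ ≤ R := by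
    intro z hz
    have h1 := nrm_cell hz
    have h2 : nrm (z - x) ≤ ell L i := by rw [nrm_sub_comm]; exact h1.le
    have h3 : (ell L i : ℝ) = (1/2) ^ (i - s) * ell L s := by
      rw [ell_mul hsi (by omega)]
      push_cast
      rw [one_div_pow]
      field_simp
    have h4 := cv_lip hg (show s ≤ L by omega) u x (z - x) (by
      refine h2.trans ?_
      exact_mod_cast ell_anti hsi)
    rw [add_sub_cancel] at h4
    refine h4.trans ?_
    have h5 : nrm (z - x) / ell L s ≤ (1/2) ^ (i - s) := by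
      rw [div_le_iff₀ hls, ← h3]; exact h2
    rw [hR]
    calc _ ≤ 1600 * B * (1/2) ^ (i - s) * Av (ell L s) (fun x => ‖u x‖) x :=
          mul_le_mul_of_nonneg_right (mul_le_mul_of_nonneg_left h5 (by positivity)) hAv
      _ = _ := by ring
  have hE : ∀ j, i ≤ j → ‖(dy L).E j W x - W x‖ ≤ R := by
    intro j hj
    have e1 : (dy L).E j W x - W x = (dy L).E j (fun z => W z - W x) x := by
      rw [E_sub, E_const]
    rw [e1]
    refine (norm_E_le _ x).trans ?_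
    refine (E_mono_cell (h := fun _ => R) (fun z hz => key z (cell_c_mono hj hz))).trans
      (le_of_eq (E_const _ _ _))
  have h1 := hE (i+1) (by omega)
  have h2 := hE i le_rfl
  have e : (dy L).del i W x = ((dy L).E (i+1) W x - W x) - ((dy L).E i W x - W x) := by
    unfold Dy.del; ring
  rw [e]
  refine (norm_sub_le _ _).trans ?_
  have : 3200 * B * ((1/2) ^ (i - s) * Av (ell L s) (fun x => ‖u x‖) x) = R + R := by
    rw [hR]; ring
  rw [this]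
  exact add_le_add h1 h2

/-- K5 -/
lemma E_cv_coarse {g : ℝ → ℂ} {B : ℝ} (hg : Sm g B) {s j : ℕ} (hjs : j ≤ s) (hs : s + 4 ≤ L)
    (u : ZMod (2 ^ L) → ℂ) (x : ZMod (2 ^ L)) :
    ‖(dy L).E j (cv L g s u) x‖
      ≤ 3 * B * (1/2) ^ (s - j) * (Av (ell L s) (fun x => ‖u x‖) (st L j x)
        + Av (ell L s) (fun x => ‖u x‖) (st L j x + (ell L j : ZMod (2 ^ L)))) := by
  obtain ⟨g', hg', hgg⟩ := hg.sharp
  have B0 := hg'.nonneg
  have hls : (0:ℝ) < ell L s := by exact_mod_cast ell_pos L s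
  have hlj : (0:ℝ) < ell L j := by exact_mod_cast ell_pos L j
  set w := ell L (s+4) with hw
  have hws : ell L s = 16 * w := ell_div_sixteen hs
  have hw0 : 0 < w := ell_pos L _
  have hwj : w ≤ ell L j := by have := ell_anti (L := L) hjs; omega
  set V := cv L g' s u with hV
  set P := Av (ell L s) (fun x => ‖u x‖) with hP
  have P0 : ∀ z, 0 ≤ P z := fun z => Av_nonneg hls (fun z => norm_nonneg _) z
  set p := st L j x with hp
  have e1 : ∑ i ∈ range (ell L j), cv L g s u (p + (i : ZMod (2 ^ L)))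
      = ∑ i ∈ range w, (V (p + (ell L j : ZMod (2 ^ L)) + (i : ZMod (2 ^ L)))
        - V (p + (i : ZMod (2 ^ L)))) := by
    have a1 : ∀ i ∈ range (ell L j), cv L g s u (p + (i : ZMod (2 ^ L)))
        = V (p + ((w + i : ℕ) : ZMod (2 ^ L))) - V (p + (i : ZMod (2 ^ L))) := by
      intro i _
      rw [cv_sharp hgg hs]
      congr 2
      push_cast
      ring
    rw [sum_congr rfl a1, sum_sub_distrib, sum_sub_distrib]
    set Φ : ℕ → ℂ := fun i => V (p + (i : ZMod (2 ^ L))) with hΦ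
    have a2 : ∑ i ∈ range w, Φ i + ∑ i ∈ range (ell L j), Φ (w + i)
        = ∑ i ∈ range (ell L j), Φ i + ∑ i ∈ range w, Φ (ell L j + i) := by
      rw [← Finset.sum_range_add, ← Finset.sum_range_add, add_comm]
    have a3 : ∑ i ∈ range w, V (p + (ell L j : ZMod (2 ^ L)) + (i : ZMod (2 ^ L)))
        = ∑ i ∈ range w, Φ (ell L j + i) := by
      refine sum_congr rfl fun i _ => ?_
      simp only [hΦ]
      push_cast
      rw [add_assoc]
    rw [a3]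
    change ∑ i ∈ range (ell L j), Φ (w + i) - ∑ i ∈ range (ell L j), Φ i = _ - ∑ i ∈ range w, Φ i
    linear_combination a2
  rw [dyE, ← hp, e1, norm_smul, norm_inv, Real.norm_eq_abs, abs_of_pos hlj]
  have e2 : ∀ i ∈ range w, ‖V (p + (ell L j : ZMod (2 ^ L)) + (i : ZMod (2 ^ L)))
        - V (p + (i : ZMod (2 ^ L)))‖ ≤ 40 * B * (P p + P (p + (ell L j : ZMod (2 ^ L)))) := by
    intro i hi
    rw [mem_range] at hi
    have b1 : ∀ z, ‖V (z + (i : ZMod (2 ^ L)))‖ ≤ 40 * B * P z := by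
      intro z
      refine (cv_norm_le hg' (by omega) u _).trans ?_
      have := Av_slow4 hls (h := fun x => ‖u x‖) (fun z => norm_nonneg _) z (i : ZMod (2 ^ L))
        ((nrm_natCast i).trans (by exact_mod_cast (by omega : i ≤ ell L s)))
      calc _ ≤ 10 * B * (4 * P z) := mul_le_mul_of_nonneg_left this (by positivity)
        _ = _ := by ring
    refine (norm_sub_le _ _).trans ?_
    have := b1 p
    have := b1 (p + (ell L j : ZMod (2 ^ L)))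
    linarith
  have e3 : ‖∑ i ∈ range w, (V (p + (ell L j : ZMod (2 ^ L)) + (i : ZMod (2 ^ L)))
        - V (p + (i : ZMod (2 ^ L))))‖ ≤ w * (40 * B * (P p + P (p + (ell L j : ZMod (2 ^ L))))) := by
    refine (norm_sum_le _ _).trans ?_
    refine (sum_le_sum e2).trans ?_
    rw [sum_const, card_range, nsmul_eq_mul]
  have hrat : (w : ℝ) / ell L j = (1/16) * (1/2) ^ (s - j) := by
    rw [ell_mul hjs (by omega), hws]
    push_cast
    rw [one_div_pow]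
    field_simp
  calc (ell L j : ℝ)⁻¹ * _ ≤ (ell L j : ℝ)⁻¹ * (w * (40 * B * (P p + P (p + (ell L j : ZMod (2 ^ L)))))) :=
        mul_le_mul_of_nonneg_left e3 (by positivity)
    _ = (w : ℝ) / ell L j * (40 * B * (P p + P (p + (ell L j : ZMod (2 ^ L))))) := by ring
    _ = (5/2) * (B * (1/2) ^ (s - j) * (P p + P (p + (ell L j : ZMod (2 ^ L))))) := by
        rw [hrat]; ring
    _ ≤ 3 * (B * (1/2) ^ (s - j) * (P p + P (p + (ell L j : ZMod (2 ^ L))))) := by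
        refine mul_le_mul_of_nonneg_right (by norm_num) ?_
        have := P0 p
        have := P0 (p + (ell L j : ZMod (2 ^ L)))
        positivity
    _ = _ := by ring

/-- evaluation points -/
def ept (L s i : ℕ) (e : Fin 4) (x : ZMod (2 ^ L)) : ZMod (2 ^ L) :=
  if s ≤ i then x else
    match e with
    | 0 => st L (i+1) x
    | 1 => st L (i+1) x + (ell L (i+1) : ZMod (2 ^ L))
    | 2 => st L i x
    | 3 => st L i x + (ell L i : ZMod (2 ^ L))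

/-- K45 -/
lemma del_cv {g : ℝ → ℂ} {B : ℝ} (hg : Sm g B) {s i : ℕ} (hs : s + 4 ≤ L) (hi : i + 1 ≤ L)
    (u : ZMod (2 ^ L) → ℂ) (x : ZMod (2 ^ L)) :
    ‖(dy L).del i (cv L g s u) x‖
      ≤ 3200 * B * (1/2) ^ (ad i s) * ∑ e : Fin 4, Av (ell L s) (fun x => ‖u x‖) (ept L s i e x) := by
  have B0 := hg.sym.nonneg
  have hls : (0:ℝ) < ell L s := by exact_mod_cast ell_pos L s
  set P := Av (ell L s) (fun x => ‖u x‖) with hP
  have P0 : ∀ z, 0 ≤ P z := fun z => Av_nonneg hls (fun z => norm_nonneg _) z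
  rcases le_or_gt s i with h | h
  · have h1 := del_cv_fine hg.sym h hi u x
    have e1 : ad i s = i - s := by unfold ad; omega
    have e2 : ∀ e : Fin 4, ept L s i e x = x := fun e => by unfold ept; rw [if_pos h]
    simp only [e1, e2, sum_const, card_univ, Fintype.card_fin]
    refine h1.trans ?_
    have := P0 x
    have h3 : 0 ≤ 3200 * B * ((1/2) ^ (i - s) * P x) := by positivity
    rw [nsmul_eq_mul]
    push_cast
    linarith
  · have h1 := E_cv_coarse hg (show i + 1 ≤ s by omega) hs u x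
    have h2 := E_cv_coarse hg (show i ≤ s by omega) hs u x
    have e1 : ad i s = s - i := by unfold ad; omega
    have h3 : ‖(dy L).del i (cv L g s u) x‖ ≤ ‖(dy L).E (i+1) (cv L g s u) x‖
        + ‖(dy L).E i (cv L g s u) x‖ := norm_sub_le _ _
    have e2 : ∑ e : Fin 4, P (ept L s i e x) = P (st L (i+1) x)
        + P (st L (i+1) x + (ell L (i+1) : ZMod (2 ^ L))) + P (st L i x)
        + P (st L i x + (ell L i : ZMod (2 ^ L))) := by
      rw [Fin.sum_univ_four]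
      unfold ept
      have h' : ¬ s ≤ i := by omega
      simp only [if_neg h']
    rw [e2, e1]
    have p0 := P0 (st L (i+1) x)
    have p1 := P0 (st L (i+1) x + (ell L (i+1) : ZMod (2 ^ L)))
    have p2 := P0 (st L i x)
    have p3 := P0 (st L i x + (ell L i : ZMod (2 ^ L)))
    have e3 : ((1:ℝ)/2) ^ (s - (i+1)) = 2 * (1/2) ^ (s - i) := by
      have : s - i = (s - (i+1)) + 1 := by omega
      rw [this, pow_succ]; ring
    rw [e3] at h1
    have t0 : 0 ≤ B * (1/2) ^ (s - i) := by positivity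
    have t1 : 0 ≤ B * (1/2) ^ (s - i) * P (st L (i+1) x) := by positivity
    have t2 : 0 ≤ B * (1/2) ^ (s - i) * P (st L (i+1) x + (ell L (i+1) : ZMod (2 ^ L))) := by
      positivity
    have t3 : 0 ≤ B * (1/2) ^ (s - i) * P (st L i x) := by positivity
    have t4 : 0 ≤ B * (1/2) ^ (s - i) * P (st L i x + (ell L i : ZMod (2 ^ L))) := by positivity
    refine h3.trans ((add_le_add h1 h2).trans ?_)
    nlinarith

/-- EV: weighted estimate for evaluations, averaged over the shifts -/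
lemma A1.ev {σ : ZMod (2 ^ L) → ℝ} {A q : ℝ} (h : A1 σ A) (hq0 : 0 ≤ q) (hq : q ≤ 5/4)
    {s i : ℕ} (hs : s ≤ L) {H : ZMod (2 ^ L) → ℝ} (hH0 : ∀ x, 0 ≤ H x)
    (hslow : ∀ x a, nrm a ≤ ell L s → H (x + a) ≤ 4 * H x) (e : Fin 4) :
    ∑ ω, ∑ x, σ (x + ω) ^ (-q) * (H (ept L s i e x + ω)) ^ 2
      ≤ 2 ^ L * (64 * A ^ 2 * ((2:ℝ) ^ q) ^ (s - i) * ∑ x, σ x ^ (-q) * H x ^ 2) := by
  have hA := h.one
  have S0 : 0 ≤ ∑ x, σ x ^ (-q) * H x ^ 2 := sum_nonneg fun x _ =>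
    mul_nonneg (Real.rpow_nonneg (h.pos x).le _) (sq_nonneg _)
  rcases le_or_gt s i with hsi | hsi
  · have e2 : ∀ x, ept L s i e x = x := fun x => by unfold ept; rw [if_pos hsi]
    simp only [e2]
    have e3 : ∀ ω : ZMod (2 ^ L), ∑ x, σ (x + ω) ^ (-q) * (H (x + ω)) ^ 2
        = ∑ x, σ x ^ (-q) * H x ^ 2 := fun ω =>
      Equiv.sum_comp (Equiv.addRight ω) (fun x => σ x ^ (-q) * H x ^ 2)
    rw [sum_congr rfl fun ω _ => e3 ω, sum_const, card_univ, ZMod.card, nsmul_eq_mul]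
    push_cast
    refine mul_le_mul_of_nonneg_left ?_ (by positivity)
    have : s - i = 0 := by omega
    rw [this, pow_zero, mul_one]
    have h64 : 1 ≤ 64 * A ^ 2 := by nlinarith
    exact le_mul_of_one_le_left S0 h64
  · have t1 : (1:ℝ) ≤ 2 ^ q := Real.one_le_rpow (by norm_num) hq0
    have mono : ∀ j, i ≤ j → 2 ^ L * (64 * A ^ 2 * ((2:ℝ) ^ q) ^ (s - j) * ∑ x, σ x ^ (-q) * H x ^ 2)
        ≤ 2 ^ L * (64 * A ^ 2 * ((2:ℝ) ^ q) ^ (s - i) * ∑ x, σ x ^ (-q) * H x ^ 2) := by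
      intro j hj
      refine mul_le_mul_of_nonneg_left ?_ (by positivity)
      refine mul_le_mul_of_nonneg_right ?_ S0
      refine mul_le_mul_of_nonneg_left ?_ (by positivity)
      exact pow_le_pow_right₀ t1 (by omega)
    have h' : ¬ s ≤ i := by omega
    have ei : ∀ x, ept L s i e x = (match e with
      | 0 => st L (i+1) x
      | 1 => st L (i+1) x + (ell L (i+1) : ZMod (2 ^ L))
      | 2 => st L i x
      | 3 => st L i x + (ell L i : ZMod (2 ^ L))) := fun x => by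
      unfold ept; rw [if_neg h']
    simp only [ei]
    fin_cases e
    · exact (h.ev_left hq0 hq (show i + 1 ≤ s by omega) hs hH0 hslow).trans (mono _ (by omega))
    · exact (h.ev_right hq0 hq (show i + 1 ≤ s by omega) hs hH0 hslow).trans (mono _ (by omega))
    · exact (h.ev_left hq0 hq (show i ≤ s by omega) hs hH0 hslow).trans (mono _ le_rfl)
    · exact (h.ev_right hq0 hq (show i ≤ s by omega) hs hH0 hslow).trans (mono _ le_rfl)

/-- N12 -/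
lemma A1.n12 {σ : ZMod (2 ^ L) → ℝ} {A q : ℝ} (h : A1 σ A) (hq1 : 1 ≤ q) (hq : q ≤ 5/4)
    {s i : ℕ} (hs : s + 4 ≤ L) (hi : i + 1 ≤ L)
    {g : ZMod (2 ^ L) → ℝ} (hg : (dy L).Meas (i+1) g) :
    ∑ x, σ x ^ (-q) * (AB L s i g x) ^ 2
      ≤ 10800 * A ^ 5 * (1/2) ^ (ad i s) * ∑ x, σ x ^ (-q) * g x ^ 2 := by
  have hA := h.one
  have S0 : 0 ≤ ∑ x, σ x ^ (-q) * g x ^ 2 := sum_nonneg fun x _ =>
    mul_nonneg (Real.rpow_nonneg (h.pos x).le _) (sq_nonneg _)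
  unfold AB
  rcases le_or_gt s i with hsi | hsi
  · simp only [if_pos hsi]
    have h1 := h.n1 hq1 hq (show s ≤ i + 1 by omega) hi hg
    have e0 : ad i s = i - s := by unfold ad; omega
    rw [e0]
    have e1 : ∑ x, σ x ^ (-q) * ((1/2) ^ (i - s) * Av (ell L s) g x) ^ 2
        = ((1/2) ^ (i - s)) ^ 2 * ∑ x, σ x ^ (-q) * (Av (ell L s) g x) ^ 2 := by
      rw [mul_sum]
      exact sum_congr rfl fun x _ => by ring
    rw [e1]
    have e2 : ((2:ℝ) ^ (q - 1)) ^ (i + 1 - s) ≤ 2 * 2 ^ (i - s) := by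
      have : (2:ℝ) ^ (q-1) ≤ 2 := by
        calc (2:ℝ) ^ (q-1) ≤ 2 ^ (1:ℝ) := Real.rpow_le_rpow_of_exponent_le (by norm_num) (by linarith)
          _ = 2 := Real.rpow_one _
      calc ((2:ℝ) ^ (q - 1)) ^ (i + 1 - s) ≤ 2 ^ (i + 1 - s) :=
            pow_le_pow_left₀ (by positivity) this _
        _ = 2 * 2 ^ (i - s) := by
            rw [← pow_succ']; congr 1; omega
    calc ((1/2) ^ (i - s)) ^ 2 * ∑ x, σ x ^ (-q) * (Av (ell L s) g x) ^ 2
        ≤ ((1/2) ^ (i - s)) ^ 2 * (1080 * A ^ 3 * (2 * 2 ^ (i - s)) * ∑ x, σ x ^ (-q) * g x ^ 2) := by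
          refine mul_le_mul_of_nonneg_left (h1.trans ?_) (by positivity)
          refine mul_le_mul_of_nonneg_right ?_ S0
          exact mul_le_mul_of_nonneg_left e2 (by positivity)
      _ = 2160 * A ^ 3 * ((1/2) ^ (i - s) * ((1/2) ^ (i - s) * 2 ^ (i - s))) * ∑ x, σ x ^ (-q) * g x ^ 2 := by
          ring
      _ = 2160 * A ^ 3 * (1/2) ^ (i - s) * ∑ x, σ x ^ (-q) * g x ^ 2 := by
          rw [← mul_pow]; norm_num
      _ ≤ _ := by
          refine mul_le_mul_of_nonneg_right ?_ S0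
          refine mul_le_mul_of_nonneg_right ?_ (by positivity)
          have : A ^ 3 ≤ A ^ 5 := pow_le_pow_right₀ hA (by norm_num)
          have : 0 < A ^ 3 := by positivity
          nlinarith
  · have h' : ¬ s ≤ i := by omega
    simp only [if_neg h']
    have h1 := h.n2 hq1 hq (show i + 1 ≤ s by omega) hs hg
    have e0 : ad i s = s - i := by unfold ad; omega
    rw [e0]
    refine h1.trans (le_of_eq ?_)
    have : s - i = (s - (i+1)) + 1 := by omega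
    rw [this, pow_succ]
    ring

/-- summation of the off-diagonal factors -/
noncomputable def xx : ℝ := s4⁻¹

lemma xx_pos : 0 < xx := inv_pos.2 s4_pos

lemma xx_pow : xx ^ 4 = 1/2 := by unfold xx; rw [inv_pow, s4_pow]; norm_num

lemma xx_lt : xx ≤ 6/7 := by
  by_contra hc
  push Not at hc
  have : (6/7:ℝ) ^ 4 < xx ^ 4 := pow_lt_pow_left₀ hc (by norm_num) (by norm_num)
  rw [xx_pow] at this
  norm_num at this

lemma sum_xx (n s : ℕ) : ∑ i ∈ range n, xx ^ (ad i s) ≤ 14 := by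
  have x0 := xx_pos
  have geo : ∀ m : ℕ, ∑ i ∈ range m, (6/7:ℝ) ^ i ≤ 7 := by
    intro m
    have h2 := Summable.sum_le_tsum (range m) (fun i _ => by positivity)
      (summable_geometric_of_lt_one (by norm_num : (0:ℝ) ≤ 6/7) (by norm_num))
    rw [tsum_geometric_of_lt_one (by norm_num) (by norm_num)] at h2
    refine h2.trans (by norm_num)
  have h1 : ∑ i ∈ range n, xx ^ (ad i s) ≤ ∑ i ∈ range n, (6/7:ℝ) ^ (ad i s) :=
    sum_le_sum fun i _ => pow_le_pow_left₀ x0.le xx_lt _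
  refine h1.trans ?_
  have h2 : ∑ i ∈ range n, (6/7:ℝ) ^ (ad i s) ≤ ∑ i ∈ range (s + n), (6/7:ℝ) ^ (ad i s) :=
    sum_le_sum_of_subset_of_nonneg (range_mono (by omega)) fun k _ _ => by positivity
  refine h2.trans ?_
  rw [Finset.sum_range_add]
  have h3 : ∑ i ∈ range s, (6/7:ℝ) ^ (ad i s) ≤ 7 := by
    rw [← Finset.sum_range_reflect]
    refine le_trans (sum_le_sum fun i hi => ?_) (geo s)
    rw [mem_range] at hi
    have : i ≤ ad (s - 1 - i) s := by unfold ad; omega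
    exact pow_le_pow_of_le_one (by norm_num) (by norm_num) this
  have h4 : ∑ i ∈ range n, (6/7:ℝ) ^ (ad (s + i) s) ≤ 7 := by
    refine le_trans (sum_le_sum fun i _ => le_of_eq ?_) (geo n)
    have : ad (s + i) s = i := by unfold ad; omega
    rw [this]
  linarith

lemma ad_comm (i s : ℕ) : ad i s = ad s i := by unfold ad; omega

end HC

end

section
/-!
Step A: the averaged blocks are controlled by the double differences.
-/

open Finset

namespace HC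

open Dy

variable {L : ℕ}

lemma E_cmul {X : Type} [Fintype X] {D : Dy X} (j : ℕ) (c : ℂ) (g : X → ℂ) (x : X) :
    D.E j (fun y => c * g y) x = c * D.E j g x := by
  unfold Dy.E
  rw [← mul_sum, mul_smul_comm]

lemma del_cmul {X : Type} [Fintype X] {D : Dy X} (j : ℕ) (c : ℂ) (g : X → ℂ) (x : X) :
    D.del j (fun y => c * g y) x = c * D.del j g x := by
  unfold Dy.del
  rw [E_cmul, E_cmul, mul_sub]

/-- double convolution -/
noncomputable def cv2 (L : ℕ) (g : ℝ → ℂ) (s1 s2 : ℕ) (f : ZMod (2 ^ L) → ZMod (2 ^ L) → ℂ)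
    (x y : ZMod (2 ^ L)) : ℂ :=
  cv L g s1 (fun x' => cv L g s2 (f x') y) x

/-- double average of the modulus -/
noncomputable def GG (L s1 s2 : ℕ) (u : ZMod (2 ^ L) → ZMod (2 ^ L) → ℂ) (x y : ZMod (2 ^ L)) : ℝ :=
  Av (ell L s1) (fun x' => Av (ell L s2) (fun y' => ‖u x' y'‖) y) x

/-- weighted norm of a double difference, complex functions -/
noncomputable def DsqC (L : ℕ) (σ : ZMod (2 ^ L) → ZMod (2 ^ L) → ℝ)
    (f : ZMod (2 ^ L) → ZMod (2 ^ L) → ℂ) (q : ℝ) (i l : ℕ) : ℝ :=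
  ∑ x, ∑ y, σ x y ^ (-q) * ‖DD (dy L) (dy L) i l f x y‖ ^ 2

lemma cv2_sum {ι : Type*} (g : ℝ → ℂ) (s1 s2 : ℕ) (S : Finset ι)
    (u : ι → ZMod (2 ^ L) → ZMod (2 ^ L) → ℂ) (x y : ZMod (2 ^ L)) :
    cv2 L g s1 s2 (fun x y => ∑ k ∈ S, u k x y) x y = ∑ k ∈ S, cv2 L g s1 s2 (u k) x y := by
  unfold cv2
  simp only [cv_sum]

lemma cv2_mul (g : ℝ → ℂ) (s1 s2 : ℕ) (c : ℂ)
    (u : ZMod (2 ^ L) → ZMod (2 ^ L) → ℂ) (x y : ZMod (2 ^ L)) :
    cv2 L g s1 s2 (fun x y => c * u x y) x y = c * cv2 L g s1 s2 u x y := by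
  unfold cv2
  simp only [cv_mul]

lemma cv2_shift (g : ℝ → ℂ) (s1 s2 : ℕ)
    (u : ZMod (2 ^ L) → ZMod (2 ^ L) → ℂ) (a b x y : ZMod (2 ^ L)) :
    cv2 L g s1 s2 (fun x y => u (x + a) (y + b)) x y = cv2 L g s1 s2 u (x + a) (y + b) := by
  unfold cv2
  have : ∀ x' : ZMod (2 ^ L), cv L g s2 (fun y => u (x' + a) (y + b)) y
      = cv L g s2 (u (x' + a)) (y + b) := fun x' => cv_shift g s2 (u (x' + a)) y b
  simp only [this]
  exact cv_shift g s1 (fun x' => cv L g s2 (u x') (y + b)) x a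

lemma GG_nonneg (s1 s2 : ℕ) (u : ZMod (2 ^ L) → ZMod (2 ^ L) → ℂ) (x y : ZMod (2 ^ L)) :
    0 ≤ GG L s1 s2 u x y := by
  have hls1 : (0:ℝ) < ell L s1 := by exact_mod_cast ell_pos L s1
  have hls2 : (0:ℝ) < ell L s2 := by exact_mod_cast ell_pos L s2
  exact Av_nonneg hls1 (fun x' => Av_nonneg hls2 (fun y' => norm_nonneg _) y) x

lemma GG_shift (s1 s2 : ℕ) (u : ZMod (2 ^ L) → ZMod (2 ^ L) → ℂ) (a b x y : ZMod (2 ^ L)) :
    GG L s1 s2 (fun x y => u (x + a) (y + b)) x y = GG L s1 s2 u (x + a) (y + b) := by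
  unfold GG
  have : ∀ x' : ZMod (2 ^ L), Av (ell L s2) (fun y' => ‖u (x' + a) (y' + b)‖) y
      = Av (ell L s2) (fun y' => ‖u (x' + a) y'‖) (y + b) := fun x' =>
    Av_shift (ell L s2) (fun y' => ‖u (x' + a) y'‖) y b
  simp only [this]
  exact Av_shift (ell L s1) (fun x' => Av (ell L s2) (fun y' => ‖u x' y'‖) (y + b)) x a

lemma Av_AB_comm {s i : ℕ} (l : ℝ) (h : ZMod (2 ^ L) → ZMod (2 ^ L) → ℝ) (x y : ZMod (2 ^ L)) :
    Av l (fun y' => AB L s i (fun x' => h x' y') x) y = AB L s i (fun x' => Av l (h x') y) x := by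
  unfold Av
  exact (AB_lin (s := s) (i := i) univ (fun t => Pk l t) (fun t x' => h x' (y - t)) x).symm

section block
variable {g : ℝ → ℂ} {B : ℝ} {s1 s2 i l : ℕ}

lemma block_pt0 (hg : Sm g B) (hs1 : s1 + 4 ≤ L) (hs2 : s2 + 4 ≤ L) (hi : i + 1 ≤ L)
    (hl : l + 1 ≤ L) (f : ZMod (2 ^ L) → ZMod (2 ^ L) → ℂ) (x y : ZMod (2 ^ L)) :
    ‖cv2 L g s1 s2 (fun x y => DD (dy L) (dy L) i l f x y) x y‖
      ≤ (1600 * B) ^ 2 * AB L s1 i (fun x' => AB L s2 l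
        (fun y' => ‖DD (dy L) (dy L) i l f x' y'‖) y) x := by
  have B0 := hg.sym.nonneg
  set U : ZMod (2 ^ L) → ZMod (2 ^ L) → ℂ := fun x y => DD (dy L) (dy L) i l f x y with hU
  have m1 : (dy L).Meas (i+1) (fun x' => cv L g s2 (U x') y) := by
    intro a b hab
    unfold cv
    refine sum_congr rfl fun t _ => ?_
    exact congrArg (fun z => kap L g s2 t * z)
      (DD_measx (D := dy L) (D' := dy L) i l f (y - t) a b hab)
  have z1 : ∀ x, (dy L).E i (fun x' => cv L g s2 (U x') y) x = 0 := by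
    intro x
    unfold cv
    rw [E_sum]
    refine sum_eq_zero fun t _ => ?_
    rw [E_cmul]
    simp only [hU]
    rw [DD_Ex, mul_zero]
  have h1 := cv_block hg hs1 hi m1 z1 x
  have h2 : ∀ x', ‖cv L g s2 (U x') y‖ ≤ 1600 * B * AB L s2 l (fun y' => ‖U x' y'‖) y := by
    intro x'
    exact cv_block hg hs2 hl (DD_measy i l f x') (fun y => DD_Ey i l f x' y) y
  have h3 := AB_mono (s := s1) (i := i) h2 x
  rw [AB_mul] at h3
  calc _ ≤ _ := h1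
    _ ≤ 1600 * B * (1600 * B * AB L s1 i (fun x' => AB L s2 l (fun y' => ‖U x' y'‖) y) x) :=
        mul_le_mul_of_nonneg_left h3 (by positivity)
    _ = _ := by ring

lemma block_pt (hg : Sm g B) (hs1 : s1 + 4 ≤ L) (hs2 : s2 + 4 ≤ L) (hi : i + 1 ≤ L)
    (hl : l + 1 ≤ L) (f : ZMod (2 ^ L) → ZMod (2 ^ L) → ℂ) (x y : ZMod (2 ^ L)) :
    GG L s1 s2 (cv2 L g s1 s2 (fun x y => DD (dy L) (dy L) i l f x y)) x y
      ≤ 6400 * (1600 * B) ^ 2 * AB L s1 i (fun x' => AB L s2 l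
        (fun y' => ‖DD (dy L) (dy L) i l f x' y'‖) y) x := by
  have B0 := hg.sym.nonneg
  have hls1 : (0:ℝ) < ell L s1 := by exact_mod_cast ell_pos L s1
  have hls2 : (0:ℝ) < ell L s2 := by exact_mod_cast ell_pos L s2
  set h : ZMod (2 ^ L) → ZMod (2 ^ L) → ℝ := fun x' y => AB L s2 l
        (fun y' => ‖DD (dy L) (dy L) i l f x' y'‖) y with hh
  have h0 : ∀ x' y, 0 ≤ h x' y := fun x' y => AB_nonneg (fun y' => norm_nonneg _) y
  have e1 : ∀ x', Av (ell L s2) (fun y' => ‖cv2 L g s1 s2 (fun x y => DD (dy L) (dy L) i l f x y) x' y'‖) y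
      ≤ (1600 * B) ^ 2 * (80 * AB L s1 i (fun x'' => h x'' y) x') := by
    intro x'
    calc _ ≤ Av (ell L s2) (fun y' => (1600 * B) ^ 2 * AB L s1 i (fun x'' => h x'' y') x') y :=
          Av_mono hls2 (fun y' => block_pt0 hg hs1 hs2 hi hl f x' y') y
      _ = (1600 * B) ^ 2 * AB L s1 i (fun x'' => Av (ell L s2) (h x'') y) x' := by
          rw [Av_mul, Av_AB_comm]
      _ ≤ (1600 * B) ^ 2 * AB L s1 i (fun x'' => 80 * h x'' y) x' := by
          refine mul_le_mul_of_nonneg_left ?_ (by positivity)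
          exact AB_mono (fun x'' => Av_AB (fun y' => norm_nonneg _) y) x'
      _ = _ := by rw [AB_mul]
  unfold GG
  calc _ ≤ Av (ell L s1) (fun x' => (1600 * B) ^ 2 * (80 * AB L s1 i (fun x'' => h x'' y) x')) x :=
        Av_mono hls1 e1 x
    _ = (1600 * B) ^ 2 * (80 * Av (ell L s1) (AB L s1 i (fun x'' => h x'' y)) x) := by
        rw [Av_mul, Av_mul]
    _ ≤ (1600 * B) ^ 2 * (80 * (80 * AB L s1 i (fun x'' => h x'' y) x)) := by
        refine mul_le_mul_of_nonneg_left ?_ (by positivity)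
        refine mul_le_mul_of_nonneg_left ?_ (by norm_num)
        exact Av_AB (fun x'' => h0 x'' y) x
    _ = _ := by ring

lemma block_w {σ : ZMod (2 ^ L) → ZMod (2 ^ L) → ℝ} {A q : ℝ}
    (hx : ∀ y, A1 (fun x => σ x y) A) (hy : ∀ x, A1 (σ x) A) (hq1 : 1 ≤ q) (hq : q ≤ 5/4)
    (hs1 : s1 + 4 ≤ L) (hs2 : s2 + 4 ≤ L) (hi : i + 1 ≤ L) (hl : l + 1 ≤ L)
    {φ : ZMod (2 ^ L) → ZMod (2 ^ L) → ℝ} (mx : ∀ y, (dy L).Meas (i+1) (fun x => φ x y))
    (my : ∀ x, (dy L).Meas (l+1) (φ x)) :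
    ∑ x, ∑ y, σ x y ^ (-q) * (AB L s1 i (fun x' => AB L s2 l (φ x') y) x) ^ 2
      ≤ (10800 * A ^ 5) ^ 2 * ((1/2) ^ (ad i s1) * (1/2) ^ (ad l s2))
        * ∑ x, ∑ y, σ x y ^ (-q) * φ x y ^ 2 := by
  have hA : 1 ≤ A := (hy 0).one
  have h1 : ∀ y, ∑ x, σ x y ^ (-q) * (AB L s1 i (fun x' => AB L s2 l (φ x') y) x) ^ 2
      ≤ 10800 * A ^ 5 * (1/2) ^ (ad i s1) * ∑ x, σ x y ^ (-q) * (AB L s2 l (φ x) y) ^ 2 := by
    intro y
    refine (hx y).n12 hq1 hq hs1 hi ?_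
    intro a b hab
    have : φ a = φ b := funext fun y' => mx y' a b hab
    simp only [this]
  have h2 : ∀ x, ∑ y, σ x y ^ (-q) * (AB L s2 l (φ x) y) ^ 2
      ≤ 10800 * A ^ 5 * (1/2) ^ (ad l s2) * ∑ y, σ x y ^ (-q) * φ x y ^ 2 := fun x =>
    (hy x).n12 hq1 hq hs2 hl (my x)
  calc ∑ x, ∑ y, σ x y ^ (-q) * (AB L s1 i (fun x' => AB L s2 l (φ x') y) x) ^ 2
      = ∑ y, ∑ x, σ x y ^ (-q) * (AB L s1 i (fun x' => AB L s2 l (φ x') y) x) ^ 2 := sum_comm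
    _ ≤ ∑ y, 10800 * A ^ 5 * (1/2) ^ (ad i s1) * ∑ x, σ x y ^ (-q) * (AB L s2 l (φ x) y) ^ 2 :=
        sum_le_sum fun y _ => h1 y
    _ = 10800 * A ^ 5 * (1/2) ^ (ad i s1) * ∑ x, ∑ y, σ x y ^ (-q) * (AB L s2 l (φ x) y) ^ 2 := by
        rw [← mul_sum, sum_comm]
    _ ≤ 10800 * A ^ 5 * (1/2) ^ (ad i s1) * ∑ x, 10800 * A ^ 5 * (1/2) ^ (ad l s2)
          * ∑ y, σ x y ^ (-q) * φ x y ^ 2 :=
        mul_le_mul_of_nonneg_left (sum_le_sum fun x _ => h2 x) (by positivity)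
    _ = _ := by rw [← mul_sum]; ring

end block

/-- Cauchy-Schwarz with the off-diagonal factors -/
lemma cs_xx (n m a b : ℕ) (T : ℕ → ℕ → ℝ) :
    (∑ i ∈ range n, ∑ l ∈ range m, T i l) ^ 2
      ≤ 196 * ∑ i ∈ range n, ∑ l ∈ range m, (xx ^ (ad i a) * xx ^ (ad l b))⁻¹ * T i l ^ 2 := by
  have x0 := xx_pos
  rw [← sum_product', ← sum_product']
  have h := sum_sq_le_sum_mul_sum_of_sq_le_mul (range n ×ˢ range m)
    (r := fun p => T p.1 p.2) (f := fun p => xx ^ (ad p.1 a) * xx ^ (ad p.2 b))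
    (g := fun p => (xx ^ (ad p.1 a) * xx ^ (ad p.2 b))⁻¹ * T p.1 p.2 ^ 2)
    (fun p _ => by positivity) (fun p _ => by positivity) (fun p _ => le_of_eq (by field_simp))
  refine h.trans ?_
  refine mul_le_mul_of_nonneg_right ?_ (sum_nonneg fun p _ => by positivity)
  rw [sum_product' (f := fun i l => xx ^ (ad i a) * xx ^ (ad l b))]
  have e1 : ∑ i ∈ range n, ∑ l ∈ range m, xx ^ (ad i a) * xx ^ (ad l b)
      = (∑ i ∈ range n, xx ^ (ad i a)) * ∑ l ∈ range m, xx ^ (ad l b) := by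
    rw [sum_mul_sum]
  rw [e1]
  have h1 := sum_xx n a
  have h2 := sum_xx m b
  have h3 : 0 ≤ ∑ l ∈ range m, xx ^ (ad l b) := sum_nonneg fun i _ => by positivity
  calc _ ≤ 14 * (14:ℝ) := mul_le_mul h1 h2 h3 (by norm_num)
    _ = 196 := by norm_num

/-- the constant of step A -/
noncomputable def CA (B A : ℝ) : ℝ := 196 * ((6400 * (1600 * B) ^ 2) ^ 2 * (10800 * A ^ 5) ^ 2)

lemma CA_nonneg (B : ℝ) {A : ℝ} : 0 ≤ CA B A := by unfold CA; positivity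

theorem stepA {g : ℝ → ℂ} {B : ℝ} (hg : Sm g B) {s1 s2 : ℕ} (hs1 : s1 + 4 ≤ L) (hs2 : s2 + 4 ≤ L)
    {σ : ZMod (2 ^ L) → ZMod (2 ^ L) → ℝ} {A q : ℝ}
    (hx : ∀ y, A1 (fun x => σ x y) A) (hy : ∀ x, A1 (σ x) A) (hq1 : 1 ≤ q) (hq : q ≤ 5/4)
    {f : ZMod (2 ^ L) → ZMod (2 ^ L) → ℂ} (hfx : ∀ x y, (dy L).E 0 (fun x' => f x' y) x = 0)
    (hfy : ∀ x y, (dy L).E 0 (f x) y = 0) :
    ∑ x, ∑ y, σ x y ^ (-q) * (GG L s1 s2 (cv2 L g s1 s2 f) x y) ^ 2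
      ≤ CA B A * ∑ i ∈ range L, ∑ l ∈ range L,
        (xx ^ (ad i s1) * xx ^ (ad l s2)) ^ 3 * DsqC L σ f q i l := by
  have x0 := xx_pos
  have B0 := hg.sym.nonneg
  have hA : 1 ≤ A := (hy 0).one
  have hls1 : (0:ℝ) < ell L s1 := by exact_mod_cast ell_pos L s1
  have hls2 : (0:ℝ) < ell L s2 := by exact_mod_cast ell_pos L s2
  set U : ℕ → ℕ → ZMod (2 ^ L) → ZMod (2 ^ L) → ℂ := fun i l x y => DD (dy L) (dy L) i l f x y
    with hU
  have hf : f = fun x y => ∑ i ∈ range L, ∑ l ∈ range L, U i l x y := by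
    ext x y
    exact (sum_DD (D := dy L) (D' := dy L) (fun g x => dyE_top le_rfl g x)
      (fun g x => dyE_top le_rfl g x) f hfx hfy x y).symm
  have v0 : ∀ x y, 0 < σ x y ^ (-q) := fun x y => Real.rpow_pos_of_pos ((hy x).pos y) _
  -- pointwise
  set T : ℕ → ℕ → ZMod (2 ^ L) → ZMod (2 ^ L) → ℝ := fun i l x y =>
    GG L s1 s2 (cv2 L g s1 s2 (U i l)) x y with hT
  have p1 : ∀ x y, GG L s1 s2 (cv2 L g s1 s2 f) x y ≤ ∑ i ∈ range L, ∑ l ∈ range L, T i l x y := by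
    intro x y
    have a1 : ∀ x' y', cv2 L g s1 s2 f x' y' = ∑ i ∈ range L, ∑ l ∈ range L,
        cv2 L g s1 s2 (U i l) x' y' := by
      intro x' y'
      nth_rewrite 1 [hf]
      rw [cv2_sum]
      refine sum_congr rfl fun i _ => ?_
      rw [cv2_sum]
    have a2 : ∀ x' y', ‖cv2 L g s1 s2 f x' y'‖ ≤ ∑ i ∈ range L, ∑ l ∈ range L,
        ‖cv2 L g s1 s2 (U i l) x' y'‖ := by
      intro x' y'
      rw [a1]
      refine (norm_sum_le _ _).trans (sum_le_sum fun i _ => norm_sum_le _ _)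
    simp only [hT]
    unfold GG
    calc _ ≤ Av (ell L s1) (fun x' => Av (ell L s2) (fun y' => ∑ i ∈ range L, ∑ l ∈ range L,
          ‖cv2 L g s1 s2 (U i l) x' y'‖) y) x :=
          Av_mono hls1 (fun x' => Av_mono hls2 (fun y' => a2 x' y') y) x
      _ = _ := by
          simp only [Av_sum']
  have p2 : ∀ x y, σ x y ^ (-q) * (GG L s1 s2 (cv2 L g s1 s2 f) x y) ^ 2
      ≤ 196 * ∑ i ∈ range L, ∑ l ∈ range L, (xx ^ (ad i s1) * xx ^ (ad l s2))⁻¹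
        * (σ x y ^ (-q) * T i l x y ^ 2) := by
    intro x y
    have b1 := pow_le_pow_left₀ (GG_nonneg s1 s2 _ x y) (p1 x y) 2
    have b2 := b1.trans (cs_xx L L s1 s2 (fun i l => T i l x y))
    have b3 := mul_le_mul_of_nonneg_left b2 (v0 x y).le
    refine b3.trans (le_of_eq ?_)
    rw [mul_left_comm]
    congr 1
    simp only [mul_sum]
    exact sum_congr rfl fun i _ => sum_congr rfl fun l _ => by ring
  have p3 : ∀ i ∈ range L, ∀ l ∈ range L, ∑ x, ∑ y, σ x y ^ (-q) * T i l x y ^ 2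
      ≤ ((6400 * (1600 * B) ^ 2) ^ 2 * (10800 * A ^ 5) ^ 2)
        * (((1/2) ^ (ad i s1) * (1/2) ^ (ad l s2)) * DsqC L σ f q i l) := by
    intro i hi l hl
    rw [mem_range] at hi hl
    have c1 : ∀ x y, σ x y ^ (-q) * T i l x y ^ 2 ≤ (6400 * (1600 * B) ^ 2) ^ 2 *
        (σ x y ^ (-q) * (AB L s1 i (fun x' => AB L s2 l (fun y' => ‖U i l x' y'‖) y) x) ^ 2) := by
      intro x y
      have := pow_le_pow_left₀ (GG_nonneg s1 s2 _ x y)
        (block_pt hg hs1 hs2 (show i + 1 ≤ L by omega) (show l + 1 ≤ L by omega) f x y) 2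
      have := mul_le_mul_of_nonneg_left this (v0 x y).le
      refine this.trans (le_of_eq ?_)
      rw [mul_pow]
      ring
    have c2 := sum_le_sum fun x (_ : x ∈ (univ : Finset (ZMod (2 ^ L)))) =>
      sum_le_sum fun y (_ : y ∈ (univ : Finset (ZMod (2 ^ L)))) => c1 x y
    simp only [← mul_sum] at c2
    refine c2.trans ?_
    have c3 := block_w hx hy hq1 hq hs1 hs2 (show i + 1 ≤ L by omega) (show l + 1 ≤ L by omega)
      (φ := fun x y => ‖U i l x y‖)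
      (fun y => (DD_measx (D := dy L) (D' := dy L) i l f y).comp fun t => ‖t‖)
      (fun x => (DD_measy (D := dy L) (D' := dy L) i l f x).comp fun t => ‖t‖)
    have c4 := mul_le_mul_of_nonneg_left c3 (by positivity : 0 ≤ (6400 * (1600 * B) ^ 2) ^ 2)
    refine c4.trans (le_of_eq ?_)
    unfold DsqC
    ring
  have half : (1/2:ℝ) = xx ^ 4 := xx_pow.symm
  have D0 : ∀ i l, 0 ≤ DsqC L σ f q i l := fun i l => sum_nonneg fun x _ => sum_nonneg fun y _ =>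
    mul_nonneg (v0 x y).le (sq_nonneg _)
  calc ∑ x, ∑ y, σ x y ^ (-q) * (GG L s1 s2 (cv2 L g s1 s2 f) x y) ^ 2
      ≤ ∑ x, ∑ y, 196 * ∑ i ∈ range L, ∑ l ∈ range L, (xx ^ (ad i s1) * xx ^ (ad l s2))⁻¹
        * (σ x y ^ (-q) * T i l x y ^ 2) := sum_le_sum fun x _ => sum_le_sum fun y _ => p2 x y
    _ = 196 * ∑ i ∈ range L, ∑ l ∈ range L, (xx ^ (ad i s1) * xx ^ (ad l s2))⁻¹
        * ∑ x, ∑ y, σ x y ^ (-q) * T i l x y ^ 2 := by
        simp only [← mul_sum]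
        congr 1
        have e1 : ∀ x, ∑ y, ∑ i ∈ range L, ∑ l ∈ range L, (xx ^ (ad i s1) * xx ^ (ad l s2))⁻¹
            * (σ x y ^ (-q) * T i l x y ^ 2) = ∑ i ∈ range L, ∑ l ∈ range L, ∑ y,
              (xx ^ (ad i s1) * xx ^ (ad l s2))⁻¹ * (σ x y ^ (-q) * T i l x y ^ 2) := by
          intro x
          rw [sum_comm]
          exact sum_congr rfl fun i _ => sum_comm
        rw [sum_congr rfl fun x _ => e1 x, sum_comm]
        refine sum_congr rfl fun i _ => ?_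
        rw [sum_comm]
        refine sum_congr rfl fun l _ => ?_
        simp only [← mul_sum]
    _ ≤ 196 * ∑ i ∈ range L, ∑ l ∈ range L, (xx ^ (ad i s1) * xx ^ (ad l s2))⁻¹
        * (((6400 * (1600 * B) ^ 2) ^ 2 * (10800 * A ^ 5) ^ 2)
        * (((1/2) ^ (ad i s1) * (1/2) ^ (ad l s2)) * DsqC L σ f q i l)) := by
        refine mul_le_mul_of_nonneg_left ?_ (by norm_num)
        refine sum_le_sum fun i hi => sum_le_sum fun l hl => ?_
        exact mul_le_mul_of_nonneg_left (p3 i hi l hl) (by positivity)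
    _ = _ := by
        unfold CA
        rw [mul_assoc 196, mul_sum (range L) _ ((6400 * (1600 * B) ^ 2) ^ 2 * (10800 * A ^ 5) ^ 2)]
        congr 1
        refine sum_congr rfl fun i _ => ?_
        rw [mul_sum]
        refine sum_congr rfl fun l _ => ?_
        rw [half, ← pow_mul, ← pow_mul, mul_comm 4 (ad i s1), mul_comm 4 (ad l s2), pow_mul, pow_mul,
          ← mul_pow]
        have : xx ^ (ad i s1) * xx ^ (ad l s2) ≠ 0 := by positivity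
        field_simp

end HC

end

section
/-!
Step B: the double differences of synthesized functions are controlled, on average over the
shifts, by the averaged blocks.
-/

open Finset

namespace HC

open Dy

variable {L : ℕ}

section pt
variable {g : ℝ → ℂ} {B : ℝ} {s1 s2 i l : ℕ}

lemma DD_cv2 (g : ℝ → ℂ) (s1 s2 i l : ℕ) (u : ZMod (2 ^ L) → ZMod (2 ^ L) → ℂ)
    (x y : ZMod (2 ^ L)) :
    DD (dy L) (dy L) i l (cv2 L g s1 s2 u) x y
      = (dy L).del i (cv L g s1 (fun x' => (dy L).del l (cv L g s2 (u x')) y)) x := by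
  unfold DD
  congr 1
  ext x'
  unfold cv2
  have e1 : (fun y' => cv L g s1 (fun x'' => cv L g s2 (u x'') y') x')
      = fun y' => ∑ t, kap L g s1 t * cv L g s2 (u (x' - t)) y' := by
    ext y'; rfl
  rw [e1, del_sum]
  unfold cv
  refine sum_congr rfl fun t _ => ?_
  rw [del_cmul]

lemma DD_cv2_le (hg : Sm g B) (hs1 : s1 + 4 ≤ L) (hs2 : s2 + 4 ≤ L) (hi : i + 1 ≤ L)
    (hl : l + 1 ≤ L) (u : ZMod (2 ^ L) → ZMod (2 ^ L) → ℂ) (x y : ZMod (2 ^ L)) :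
    ‖DD (dy L) (dy L) i l (cv2 L g s1 s2 u) x y‖
      ≤ ((3200 * B) ^ 2 * ((1/2) ^ (ad i s1) * (1/2) ^ (ad l s2))) * ∑ e : Fin 4, ∑ e' : Fin 4,
        GG L s1 s2 u (ept L s1 i e x) (ept L s2 l e' y) := by
  have B0 := hg.sym.nonneg
  have hls1 : (0:ℝ) < ell L s1 := by exact_mod_cast ell_pos L s1
  rw [DD_cv2]
  refine (del_cv hg hs1 hi _ x).trans ?_
  have h1 : ∀ x', ‖(dy L).del l (cv L g s2 (u x')) y‖
      ≤ ∑ e' : Fin 4, (3200 * B * (1/2) ^ (ad l s2)) *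
        Av (ell L s2) (fun y' => ‖u x' y'‖) (ept L s2 l e' y) := by
    intro x'
    rw [← mul_sum]
    exact del_cv hg hs2 hl (u x') y
  have h2 : ∀ z, Av (ell L s1) (fun x' => ‖(dy L).del l (cv L g s2 (u x')) y‖) z
      ≤ ∑ e' : Fin 4, (3200 * B * (1/2) ^ (ad l s2)) * GG L s1 s2 u z (ept L s2 l e' y) := by
    intro z
    refine (Av_mono hls1 h1 z).trans (le_of_eq ?_)
    rw [Av_sum']
    refine sum_congr rfl fun e' _ => ?_
    rw [Av_mul]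
    rfl
  calc _ ≤ 3200 * B * (1/2) ^ (ad i s1) * ∑ e : Fin 4, ∑ e' : Fin 4,
        (3200 * B * (1/2) ^ (ad l s2)) * GG L s1 s2 u (ept L s1 i e x) (ept L s2 l e' y) :=
        mul_le_mul_of_nonneg_left (sum_le_sum fun e _ => h2 _) (by positivity)
    _ = _ := by
        simp only [← mul_sum]
        ring

lemma GG_slowx (u : ZMod (2 ^ L) → ZMod (2 ^ L) → ℂ) (x y a : ZMod (2 ^ L))
    (ha : nrm a ≤ ell L s1) : GG L s1 s2 u (x + a) y ≤ 4 * GG L s1 s2 u x y := by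
  have hls1 : (0:ℝ) < ell L s1 := by exact_mod_cast ell_pos L s1
  have hls2 : (0:ℝ) < ell L s2 := by exact_mod_cast ell_pos L s2
  exact Av_slow4 hls1 (fun x' => Av_nonneg hls2 (fun y' => norm_nonneg _) y) x a ha

lemma GG_slowy (u : ZMod (2 ^ L) → ZMod (2 ^ L) → ℂ) (x y b : ZMod (2 ^ L))
    (hb : nrm b ≤ ell L s2) : GG L s1 s2 u x (y + b) ≤ 4 * GG L s1 s2 u x y := by
  have hls1 : (0:ℝ) < ell L s1 := by exact_mod_cast ell_pos L s1
  have hls2 : (0:ℝ) < ell L s2 := by exact_mod_cast ell_pos L s2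
  unfold GG
  rw [← Av_mul]
  exact Av_mono hls1 (fun x' => Av_slow4 hls2 (fun y' => norm_nonneg _) y b hb) x

lemma ev2 {σ : ZMod (2 ^ L) → ZMod (2 ^ L) → ℝ} {A q : ℝ}
    (hx : ∀ y, A1 (fun x => σ x y) A) (hy : ∀ x, A1 (σ x) A) (hq0 : 0 ≤ q) (hq : q ≤ 5/4)
    (hs1 : s1 ≤ L) (hs2 : s2 ≤ L) (u : ZMod (2 ^ L) → ZMod (2 ^ L) → ℂ) (e e' : Fin 4) :
    ∑ a, ∑ b, ∑ x, ∑ y, σ (x + a) (y + b) ^ (-q)
        * (GG L s1 s2 u (ept L s1 i e x + a) (ept L s2 l e' y + b)) ^ 2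
      ≤ (2 ^ L * (64 * A ^ 2 * ((2:ℝ) ^ q) ^ (s1 - i))) * (2 ^ L * (64 * A ^ 2 * ((2:ℝ) ^ q) ^ (s2 - l)))
        * ∑ x, ∑ y, σ x y ^ (-q) * (GG L s1 s2 u x y) ^ 2 := by
  have hA : 1 ≤ A := (hy 0).one
  have h1 : ∀ b y, ∑ a, ∑ x, σ (x + a) (y + b) ^ (-q)
        * (GG L s1 s2 u (ept L s1 i e x + a) (ept L s2 l e' y + b)) ^ 2
      ≤ 2 ^ L * (64 * A ^ 2 * ((2:ℝ) ^ q) ^ (s1 - i) * ∑ x, σ x (y + b) ^ (-q)
        * (GG L s1 s2 u x (ept L s2 l e' y + b)) ^ 2) := fun b y =>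
    (hx (y + b)).ev hq0 hq hs1 (H := fun x => GG L s1 s2 u x (ept L s2 l e' y + b))
      (fun x => GG_nonneg _ _ _ _ _) (fun x a ha => GG_slowx u x _ a ha) e
  have h2 : ∀ x, ∑ b, ∑ y, σ x (y + b) ^ (-q) * (GG L s1 s2 u x (ept L s2 l e' y + b)) ^ 2
      ≤ 2 ^ L * (64 * A ^ 2 * ((2:ℝ) ^ q) ^ (s2 - l) * ∑ y, σ x y ^ (-q)
        * (GG L s1 s2 u x y) ^ 2) := fun x =>
    (hy x).ev hq0 hq hs2 (H := fun y => GG L s1 s2 u x y)
      (fun y => GG_nonneg _ _ _ _ _) (fun y b hb => GG_slowy u x y b hb) e'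
  have r1 : ∑ a, ∑ b, ∑ x, ∑ y, σ (x + a) (y + b) ^ (-q)
        * (GG L s1 s2 u (ept L s1 i e x + a) (ept L s2 l e' y + b)) ^ 2
      = ∑ b, ∑ y, ∑ a, ∑ x, σ (x + a) (y + b) ^ (-q)
        * (GG L s1 s2 u (ept L s1 i e x + a) (ept L s2 l e' y + b)) ^ 2 := by
    rw [sum_comm]
    refine sum_congr rfl fun b _ => ?_
    rw [sum_comm (s := univ) (t := univ) (f := fun y a => ∑ x, σ (x + a) (y + b) ^ (-q)
        * (GG L s1 s2 u (ept L s1 i e x + a) (ept L s2 l e' y + b)) ^ 2)]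
    refine sum_congr rfl fun a _ => ?_
    exact sum_comm
  rw [r1]
  calc _ ≤ ∑ b, ∑ y, 2 ^ L * (64 * A ^ 2 * ((2:ℝ) ^ q) ^ (s1 - i) * ∑ x, σ x (y + b) ^ (-q)
        * (GG L s1 s2 u x (ept L s2 l e' y + b)) ^ 2) :=
        sum_le_sum fun b _ => sum_le_sum fun y _ => h1 b y
    _ = 2 ^ L * (64 * A ^ 2 * ((2:ℝ) ^ q) ^ (s1 - i)) * ∑ x, ∑ b, ∑ y, σ x (y + b) ^ (-q)
        * (GG L s1 s2 u x (ept L s2 l e' y + b)) ^ 2 := by
        simp only [← mul_sum]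
        rw [← mul_assoc]
        congr 1
        have : ∀ b : ZMod (2 ^ L), ∑ y, ∑ x, σ x (y + b) ^ (-q)
            * (GG L s1 s2 u x (ept L s2 l e' y + b)) ^ 2 = ∑ x, ∑ y, σ x (y + b) ^ (-q)
            * (GG L s1 s2 u x (ept L s2 l e' y + b)) ^ 2 := fun b => sum_comm
        rw [sum_congr rfl fun b _ => this b, sum_comm]
    _ ≤ 2 ^ L * (64 * A ^ 2 * ((2:ℝ) ^ q) ^ (s1 - i)) * ∑ x, 2 ^ L * (64 * A ^ 2
        * ((2:ℝ) ^ q) ^ (s2 - l) * ∑ y, σ x y ^ (-q) * (GG L s1 s2 u x y) ^ 2) :=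
        mul_le_mul_of_nonneg_left (sum_le_sum fun x _ => h2 x) (by positivity)
    _ = _ := by
        simp only [← mul_sum]
        ring

end pt

/-- the decay factor -/
noncomputable def th (i s : ℕ) : ℝ := xx ^ (8 * (i - s) + 3 * (s - i))

lemma th_pos (i s : ℕ) : 0 < th i s := pow_pos xx_pos _

lemma two_q_le {q : ℝ} (hq : q ≤ 5/4) : (2:ℝ) ^ q ≤ (xx ^ 5)⁻¹ := by
  unfold xx
  rw [inv_pow, inv_inv]
  calc (2:ℝ) ^ q ≤ 2 ^ (5/4 : ℝ) := Real.rpow_le_rpow_of_exponent_le (by norm_num) hq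
    _ = s4 ^ 5 := by
        unfold s4
        rw [← Real.rpow_natCast, ← Real.rpow_mul (by norm_num)]
        norm_num

lemma th_le {q : ℝ} (hq : q ≤ 5/4) (i s : ℕ) :
    ((1/2:ℝ) ^ (ad i s)) ^ 2 * ((2:ℝ) ^ q) ^ (s - i) ≤ th i s := by
  have x0 := xx_pos
  have h1 : ((1/2:ℝ) ^ (ad i s)) ^ 2 = xx ^ (8 * (ad i s)) := by
    have : (1/2:ℝ) = xx ^ 4 := xx_pow.symm
    rw [this, ← pow_mul, ← pow_mul]
    congr 1; ring
  have h2 : ((2:ℝ) ^ q) ^ (s - i) ≤ ((xx ^ 5)⁻¹) ^ (s - i) :=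
    pow_le_pow_left₀ (by positivity) (two_q_le hq) _
  rw [h1]
  refine (mul_le_mul_of_nonneg_left h2 (by positivity)).trans (le_of_eq ?_)
  unfold th
  have e : 8 * ad i s = 8 * (i - s) + 3 * (s - i) + 5 * (s - i) := by unfold ad; omega
  rw [e, pow_add, inv_pow, ← pow_mul]
  have : xx ^ (5 * (s - i)) ≠ 0 := by positivity
  field_simp

/-- the constant of step B -/
noncomputable def CB (B A : ℝ) : ℝ := 196 * ((3200 * B) ^ 2) ^ 2 * 256 * (64 * A ^ 2) ^ 2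

lemma CB_nonneg (B A : ℝ) : 0 ≤ CB B A := by unfold CB; positivity

/-- shift of a function of two variables -/
def sh {F : Type*} (a b : ZMod (2 ^ L)) (f : ZMod (2 ^ L) → ZMod (2 ^ L) → F) :
    ZMod (2 ^ L) → ZMod (2 ^ L) → F := fun x y => f (x + a) (y + b)

lemma cv2_sh (g : ℝ → ℂ) (s1 s2 : ℕ)
    (u : ZMod (2 ^ L) → ZMod (2 ^ L) → ℂ) (a b x y : ZMod (2 ^ L)) :
    cv2 L g s1 s2 (sh a b u) x y = cv2 L g s1 s2 u (x + a) (y + b) := cv2_shift g s1 s2 u a b x y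

lemma GG_sh (s1 s2 : ℕ) (u : ZMod (2 ^ L) → ZMod (2 ^ L) → ℂ) (a b x y : ZMod (2 ^ L)) :
    GG L s1 s2 (sh a b u) x y = GG L s1 s2 u (x + a) (y + b) := GG_shift s1 s2 u a b x y

theorem stepB {g : ℝ → ℂ} {B : ℝ} (hg : Sm g B) {m : ℕ} (hm : m + 3 ≤ L)
    {σ : ZMod (2 ^ L) → ZMod (2 ^ L) → ℝ} {A q : ℝ}
    (hx : ∀ y, A1 (fun x => σ x y) A) (hy : ∀ x, A1 (σ x) A) (hq0 : 0 ≤ q) (hq : q ≤ 5/4)
    (c : ℕ → ℕ → ℝ) (u : ℕ → ℕ → ZMod (2 ^ L) → ZMod (2 ^ L) → ℂ)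
    {i l : ℕ} (hi : i + 1 ≤ L) (hl : l + 1 ≤ L) :
    ∑ a, ∑ b, DsqC L (sh a b σ) (sh a b (fun x y => ∑ s1 ∈ range m, ∑ s2 ∈ range m,
        (c s1 s2 : ℂ) * cv2 L g s1 s2 (u s1 s2) x y)) q i l
      ≤ (2 ^ L) ^ 2 * (CB B A * ∑ s1 ∈ range m, ∑ s2 ∈ range m,
        (xx ^ (ad s1 i) * xx ^ (ad s2 l))⁻¹ * (c s1 s2 ^ 2 * (th i s1 * th l s2)
          * ∑ x, ∑ y, σ x y ^ (-q) * (GG L s1 s2 (u s1 s2) x y) ^ 2)) := by
  have x0 := xx_pos
  have B0 := hg.sym.nonneg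
  have hA : 1 ≤ A := (hy 0).one
  have v0 : ∀ x y, 0 < σ x y ^ (-q) := fun x y => Real.rpow_pos_of_pos ((hy x).pos y) _
  set W : ZMod (2 ^ L) → ZMod (2 ^ L) → ℂ := fun x y => ∑ s1 ∈ range m, ∑ s2 ∈ range m,
        (c s1 s2 : ℂ) * cv2 L g s1 s2 (u s1 s2) x y with hW
  set K : ℕ → ℕ → ℝ := fun s1 s2 => (3200 * B) ^ 2 * ((1/2) ^ (ad i s1) * (1/2) ^ (ad l s2))
    with hK
  -- pointwise bound
  have p1 : ∀ a b x y, ‖DD (dy L) (dy L) i l (sh a b W) x y‖ ≤ ∑ s1 ∈ range m, ∑ s2 ∈ range m,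
      |c s1 s2| * (K s1 s2 * ∑ e : Fin 4, ∑ e' : Fin 4,
        GG L s1 s2 (u s1 s2) (ept L s1 i e x + a) (ept L s2 l e' y + b)) := by
    intro a b x y
    have e1 : sh a b W = fun x y => ∑ s1 ∈ range m, ∑ s2 ∈ range m,
        (c s1 s2 : ℂ) * cv2 L g s1 s2 (sh a b (u s1 s2)) x y := by
      ext x y
      simp only [sh, hW]
      refine sum_congr rfl fun s1 _ => sum_congr rfl fun s2 _ => ?_
      rw [← cv2_sh]
    rw [e1, DD_sum]
    refine (norm_sum_le _ _).trans (sum_le_sum fun s1 hs1 => ?_)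
    rw [DD_sum]
    refine (norm_sum_le _ _).trans (sum_le_sum fun s2 hs2 => ?_)
    rw [mem_range] at hs1 hs2
    have e2 : DD (dy L) (dy L) i l (fun x y => (c s1 s2 : ℂ) * cv2 L g s1 s2 (sh a b (u s1 s2)) x y) x y
        = (c s1 s2 : ℂ) * DD (dy L) (dy L) i l (cv2 L g s1 s2 (sh a b (u s1 s2))) x y := by
      unfold DD
      have : (fun x' => (dy L).del l (fun y => (c s1 s2 : ℂ) * cv2 L g s1 s2 (sh a b (u s1 s2)) x' y) y)
          = fun x' => (c s1 s2 : ℂ) * (dy L).del l (cv2 L g s1 s2 (sh a b (u s1 s2)) x') y := by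
        ext x'; rw [del_cmul]
      rw [this, del_cmul]
    rw [e2, norm_mul, Complex.norm_real, Real.norm_eq_abs]
    refine mul_le_mul_of_nonneg_left ?_ (abs_nonneg _)
    refine (DD_cv2_le hg (by omega) (by omega) hi hl _ x y).trans (le_of_eq ?_)
    simp only [hK, GG_sh]
  -- squared
  have p2 : ∀ a b x y, ‖DD (dy L) (dy L) i l (sh a b W) x y‖ ^ 2
      ≤ 196 * ∑ s1 ∈ range m, ∑ s2 ∈ range m, (xx ^ (ad s1 i) * xx ^ (ad s2 l))⁻¹
        * (c s1 s2 ^ 2 * (K s1 s2 ^ 2 * (16 * ∑ e : Fin 4, ∑ e' : Fin 4,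
        (GG L s1 s2 (u s1 s2) (ept L s1 i e x + a) (ept L s2 l e' y + b)) ^ 2))) := by
    intro a b x y
    have h1 := pow_le_pow_left₀ (norm_nonneg _) (p1 a b x y) 2
    refine h1.trans ((cs_xx m m i l _).trans ?_)
    refine mul_le_mul_of_nonneg_left ?_ (by norm_num)
    refine sum_le_sum fun s1 _ => sum_le_sum fun s2 _ => ?_
    refine mul_le_mul_of_nonneg_left ?_ (by positivity)
    rw [mul_pow, mul_pow, sq_abs]
    refine mul_le_mul_of_nonneg_left ?_ (by positivity)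
    refine mul_le_mul_of_nonneg_left ?_ (by positivity)
    rw [← sum_product', ← sum_product']
    have := sq_sum_le_card_mul_sum_sq (s := (univ : Finset (Fin 4)) ×ˢ (univ : Finset (Fin 4)))
      (f := fun p => GG L s1 s2 (u s1 s2) (ept L s1 i p.1 x + a) (ept L s2 l p.2 y + b))
    refine this.trans (le_of_eq ?_)
    congr 1
  have p3 : ∀ a b x y, sh a b σ x y ^ (-q) * ‖DD (dy L) (dy L) i l (sh a b W) x y‖ ^ 2
      ≤ ∑ s1 ∈ range m, ∑ s2 ∈ range m, (196 * (xx ^ (ad s1 i) * xx ^ (ad s2 l))⁻¹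
        * (c s1 s2 ^ 2 * (K s1 s2 ^ 2 * 16))) * ∑ e : Fin 4, ∑ e' : Fin 4,
        (σ (x + a) (y + b) ^ (-q)
          * (GG L s1 s2 (u s1 s2) (ept L s1 i e x + a) (ept L s2 l e' y + b)) ^ 2) := by
    intro a b x y
    have h1 := mul_le_mul_of_nonneg_left (p2 a b x y) (v0 (x + a) (y + b)).le
    refine h1.trans (le_of_eq ?_)
    simp only [mul_sum]
    refine sum_congr rfl fun s1 _ => sum_congr rfl fun s2 _ => sum_congr rfl fun e _ =>
      sum_congr rfl fun e' _ => ?_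
    ring
  have p4 := sum_le_sum fun a (_ : a ∈ (univ : Finset (ZMod (2 ^ L)))) =>
    sum_le_sum fun b (_ : b ∈ (univ : Finset (ZMod (2 ^ L)))) =>
    sum_le_sum fun x (_ : x ∈ (univ : Finset (ZMod (2 ^ L)))) =>
    sum_le_sum fun y (_ : y ∈ (univ : Finset (ZMod (2 ^ L)))) => p3 a b x y
  refine p4.trans ?_
  -- exchange the sums
  have comm4 : ∀ (Φ : ℕ → ℕ → ZMod (2 ^ L) → ZMod (2 ^ L) → ZMod (2 ^ L) → ZMod (2 ^ L) → ℝ),
      ∑ a, ∑ b, ∑ x, ∑ y, ∑ s1 ∈ range m, ∑ s2 ∈ range m, Φ s1 s2 a b x y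
        = ∑ s1 ∈ range m, ∑ s2 ∈ range m, ∑ a, ∑ b, ∑ x, ∑ y, Φ s1 s2 a b x y := by
    intro Φ
    have key : ∀ (ι : Type) [Fintype ι] (Ψ : ℕ → ℕ → ι → ℝ),
        ∑ p : ι, ∑ s1 ∈ range m, ∑ s2 ∈ range m, Ψ s1 s2 p
          = ∑ s1 ∈ range m, ∑ s2 ∈ range m, ∑ p : ι, Ψ s1 s2 p := by
      intro ι _ Ψ
      rw [sum_comm]
      refine sum_congr rfl fun s1 _ => ?_
      rw [sum_comm]
    have k1 : ∀ a b x, ∑ y, ∑ s1 ∈ range m, ∑ s2 ∈ range m, Φ s1 s2 a b x y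
        = ∑ s1 ∈ range m, ∑ s2 ∈ range m, ∑ y, Φ s1 s2 a b x y := fun a b x =>
      key _ (fun s1 s2 y => Φ s1 s2 a b x y)
    have k2 : ∀ a b, ∑ x, ∑ s1 ∈ range m, ∑ s2 ∈ range m, ∑ y, Φ s1 s2 a b x y
        = ∑ s1 ∈ range m, ∑ s2 ∈ range m, ∑ x, ∑ y, Φ s1 s2 a b x y := fun a b =>
      key _ (fun s1 s2 x => ∑ y, Φ s1 s2 a b x y)
    have k3 : ∀ a, ∑ b, ∑ s1 ∈ range m, ∑ s2 ∈ range m, ∑ x, ∑ y, Φ s1 s2 a b x y
        = ∑ s1 ∈ range m, ∑ s2 ∈ range m, ∑ b, ∑ x, ∑ y, Φ s1 s2 a b x y := fun a =>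
      key _ (fun s1 s2 b => ∑ x, ∑ y, Φ s1 s2 a b x y)
    have k4 : ∑ a, ∑ s1 ∈ range m, ∑ s2 ∈ range m, ∑ b, ∑ x, ∑ y, Φ s1 s2 a b x y
        = ∑ s1 ∈ range m, ∑ s2 ∈ range m, ∑ a, ∑ b, ∑ x, ∑ y, Φ s1 s2 a b x y :=
      key _ (fun s1 s2 a => ∑ b, ∑ x, ∑ y, Φ s1 s2 a b x y)
    simp only [k1, k2, k3, k4]
  rw [comm4, mul_sum, mul_sum]
  refine sum_le_sum fun s1 hs1 => ?_
  rw [mul_sum, mul_sum]
  refine sum_le_sum fun s2 hs2 => ?_
  rw [mem_range] at hs1 hs2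
  set S := ∑ x, ∑ y, σ x y ^ (-q) * (GG L s1 s2 (u s1 s2) x y) ^ 2 with hS
  have S0 : 0 ≤ S := sum_nonneg fun x _ => sum_nonneg fun y _ =>
    mul_nonneg (v0 x y).le (sq_nonneg _)
  have comm5 : ∀ (Φ : Fin 4 → Fin 4 → ZMod (2 ^ L) → ZMod (2 ^ L) → ZMod (2 ^ L) → ZMod (2 ^ L) → ℝ),
      ∑ a, ∑ b, ∑ x, ∑ y, ∑ e : Fin 4, ∑ e' : Fin 4, Φ e e' a b x y
        = ∑ e : Fin 4, ∑ e' : Fin 4, ∑ a, ∑ b, ∑ x, ∑ y, Φ e e' a b x y := by
    intro Φ
    have key : ∀ (ι : Type) [Fintype ι] (Ψ : Fin 4 → Fin 4 → ι → ℝ),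
        ∑ p : ι, ∑ s1 : Fin 4, ∑ s2 : Fin 4, Ψ s1 s2 p
          = ∑ s1 : Fin 4, ∑ s2 : Fin 4, ∑ p : ι, Ψ s1 s2 p := by
      intro ι _ Ψ
      rw [sum_comm]
      refine sum_congr rfl fun s1 _ => ?_
      rw [sum_comm]
    have k1 : ∀ a b x, ∑ y, ∑ s1 : Fin 4, ∑ s2 : Fin 4, Φ s1 s2 a b x y
        = ∑ s1 : Fin 4, ∑ s2 : Fin 4, ∑ y, Φ s1 s2 a b x y := fun a b x =>
      key _ (fun s1 s2 y => Φ s1 s2 a b x y)
    have k2 : ∀ a b, ∑ x, ∑ s1 : Fin 4, ∑ s2 : Fin 4, ∑ y, Φ s1 s2 a b x y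
        = ∑ s1 : Fin 4, ∑ s2 : Fin 4, ∑ x, ∑ y, Φ s1 s2 a b x y := fun a b =>
      key _ (fun s1 s2 x => ∑ y, Φ s1 s2 a b x y)
    have k3 : ∀ a, ∑ b, ∑ s1 : Fin 4, ∑ s2 : Fin 4, ∑ x, ∑ y, Φ s1 s2 a b x y
        = ∑ s1 : Fin 4, ∑ s2 : Fin 4, ∑ b, ∑ x, ∑ y, Φ s1 s2 a b x y := fun a =>
      key _ (fun s1 s2 b => ∑ x, ∑ y, Φ s1 s2 a b x y)
    have k4 : ∑ a, ∑ s1 : Fin 4, ∑ s2 : Fin 4, ∑ b, ∑ x, ∑ y, Φ s1 s2 a b x y
        = ∑ s1 : Fin 4, ∑ s2 : Fin 4, ∑ a, ∑ b, ∑ x, ∑ y, Φ s1 s2 a b x y :=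
      key _ (fun s1 s2 a => ∑ b, ∑ x, ∑ y, Φ s1 s2 a b x y)
    simp only [k1, k2, k3, k4]
  have comm6 : ∀ (C : ℝ) (Φ : Fin 4 → Fin 4 → ZMod (2 ^ L) → ZMod (2 ^ L) → ZMod (2 ^ L) → ZMod (2 ^ L) → ℝ),
      ∑ a, ∑ b, ∑ x, ∑ y, C * ∑ e : Fin 4, ∑ e' : Fin 4, Φ e e' a b x y
        = C * ∑ e : Fin 4, ∑ e' : Fin 4, ∑ a, ∑ b, ∑ x, ∑ y, Φ e e' a b x y := by
    intro C Φ
    rw [← comm5]
    simp only [mul_sum]
  rw [comm6]
  have q1 : ∑ e : Fin 4, ∑ e' : Fin 4, ∑ a, ∑ b, ∑ x, ∑ y, σ (x + a) (y + b) ^ (-q)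
        * (GG L s1 s2 (u s1 s2) (ept L s1 i e x + a) (ept L s2 l e' y + b)) ^ 2
      ≤ 16 * ((2 ^ L * (64 * A ^ 2 * ((2:ℝ) ^ q) ^ (s1 - i)))
        * (2 ^ L * (64 * A ^ 2 * ((2:ℝ) ^ q) ^ (s2 - l))) * S) := by
    refine (sum_le_sum fun e _ => sum_le_sum fun e' _ =>
      ev2 hx hy hq0 hq (show s1 ≤ L by omega) (show s2 ≤ L by omega) (u s1 s2) e e').trans
      (le_of_eq ?_)
    simp only [sum_const, card_univ, Fintype.card_fin, nsmul_eq_mul]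
    push_cast
    ring
  have q2 := mul_le_mul_of_nonneg_left q1 (by positivity : 0 ≤ 196 * (xx ^ (ad s1 i) * xx ^ (ad s2 l))⁻¹
        * (c s1 s2 ^ 2 * (K s1 s2 ^ 2 * 16)))
  refine q2.trans ?_
  have t1 := th_le hq i s1
  have t2 := th_le hq l s2
  have t3 := mul_le_mul t1 t2 (by positivity) (th_pos i s1).le
  calc 196 * (xx ^ (ad s1 i) * xx ^ (ad s2 l))⁻¹ * (c s1 s2 ^ 2 * (K s1 s2 ^ 2 * 16))
        * (16 * ((2 ^ L * (64 * A ^ 2 * ((2:ℝ) ^ q) ^ (s1 - i)))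
        * (2 ^ L * (64 * A ^ 2 * ((2:ℝ) ^ q) ^ (s2 - l))) * S))
      = ((2 ^ L) ^ 2 * CB B A * (xx ^ (ad s1 i) * xx ^ (ad s2 l))⁻¹ * c s1 s2 ^ 2 * S)
        * ((((1/2:ℝ) ^ (ad i s1)) ^ 2 * ((2:ℝ) ^ q) ^ (s1 - i))
          * (((1/2:ℝ) ^ (ad l s2)) ^ 2 * ((2:ℝ) ^ q) ^ (s2 - l))) := by
        simp only [hK]
        unfold CB
        ring
    _ ≤ ((2 ^ L) ^ 2 * CB B A * (xx ^ (ad s1 i) * xx ^ (ad s2 l))⁻¹ * c s1 s2 ^ 2 * S)
        * (th i s1 * th l s2) := by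
        refine mul_le_mul_of_nonneg_left t3 ?_
        have := CB_nonneg B A
        positivity
    _ = _ := by ring

end HC

end
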