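import Pool.Agent.Helper61.HC.Cv

/-!
The concrete symbols.
-/

open Finset

namespace HC

/-- smooth cutoff, `1` on `|u| ≤ 1`, `0` on `|u| ≥ 2` -/
noncomputable def Vc (u : ℝ) : ℝ := Real.smoothTransition ((4 - u ^ 2) / 3)

lemma Vc_one {u : ℝ} (h : |u| ≤ 1) : Vc u = 1 := by
  unfold Vc
  apply Real.smoothTransition.one_of_one_le
  have : u ^ 2 ≤ 1 := by rw [← sq_abs]; exact pow_le_one₀ (abs_nonneg u) h
  linarith

lemma Vc_zero {u : ℝ} (h : 2 ≤ |u|) : Vc u = 0 := by
  unfold Vc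
  apply Real.smoothTransition.zero_of_nonpos
  have : 4 ≤ u ^ 2 := by rw [← sq_abs]; nlinarith
  linarith

lemma Vc_smooth : ContDiff ℝ 2 Vc := by
  unfold Vc
  exact Real.smoothTransition.contDiff.comp ((contDiff_const.sub (contDiff_id.pow 2)).div_const 3)

/-- block symbol -/
noncomputable def bl (u : ℝ) : ℝ := Vc u - Vc (2 * u)

/-- wide block symbol -/
noncomputable def bw (u : ℝ) : ℝ := Vc (u / 2) - Vc (4 * u)

lemma bl_smooth : ContDiff ℝ 2 bl := by
  unfold bl
  exact Vc_smooth.sub (Vc_smooth.comp (contDiff_const.mul contDiff_id))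

lemma bw_smooth : ContDiff ℝ 2 bw := by
  unfold bw
  exact (Vc_smooth.comp (contDiff_id.div_const 2)).sub (Vc_smooth.comp (contDiff_const.mul contDiff_id))

lemma bl_low {u : ℝ} (h : |u| ≤ 1/2) : bl u = 0 := by
  unfold bl
  rw [Vc_one (by linarith), Vc_one (by rw [abs_mul, abs_two]; linarith), sub_self]

lemma bl_high {u : ℝ} (h : 2 ≤ |u|) : bl u = 0 := by
  unfold bl
  rw [Vc_zero h, Vc_zero (by rw [abs_mul, abs_two]; linarith), sub_self]

lemma bw_low {u : ℝ} (h : |u| ≤ 1/4) : bw u = 0 := by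
  unfold bw
  rw [Vc_one (by rw [abs_div, abs_two]; linarith), Vc_one (by
    rw [abs_mul, abs_of_pos (by norm_num : (0:ℝ) < 4)]; linarith), sub_self]

lemma bw_high {u : ℝ} (h : 4 ≤ |u|) : bw u = 0 := by
  unfold bw
  rw [Vc_zero (by rw [abs_div, abs_two]; linarith), Vc_zero (by
    rw [abs_mul, abs_of_pos (by norm_num : (0:ℝ) < 4)]; linarith), sub_self]

lemma bw_one {u : ℝ} (h1 : 1/2 ≤ |u|) (h2 : |u| ≤ 2) : bw u = 1 := by
  unfold bw
  rw [Vc_one (by rw [abs_div, abs_two]; linarith), Vc_zero (by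
    rw [abs_mul, abs_of_pos (by norm_num : (0:ℝ) < 4)]; linarith), sub_zero]

lemma bw_bl (u : ℝ) : bw u * bl u = bl u := by
  rcases le_total |u| (1/2) with h | h
  · rw [bl_low h, mul_zero]
  · rcases le_total |u| 2 with h2 | h2
    · rw [bw_one h h2, one_mul]
    · rw [bl_high h2, mul_zero]

lemma sum_bl {k : ℤ} (hk : k ≠ 0) {n : ℕ} (hn : |k| ≤ 2 ^ n) :
    ∑ s ∈ range (n + 1), bl ((k:ℝ) / 2 ^ s) = 1 := by
  have h1 : ∀ m, ∑ s ∈ range (m + 1), bl ((k:ℝ) / 2 ^ s) = Vc ((k:ℝ) / 2 ^ m) := by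
    intro m
    induction m with
    | zero =>
      rw [zero_add, sum_range_one]
      unfold bl
      rw [pow_zero, div_one]
      have hk1 : (1:ℝ) ≤ |(k:ℝ)| := by
        have := Int.one_le_abs hk
        exact_mod_cast this
      rw [Vc_zero (u := 2 * (k:ℝ)) (by rw [abs_mul, abs_two]; linarith), sub_zero]
    | succ m ih =>
      rw [sum_range_succ, ih]
      unfold bl
      have : 2 * ((k:ℝ) / 2 ^ (m+1)) = (k:ℝ) / 2 ^ m := by
        rw [pow_succ]; field_simp
      rw [this]; ring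
  rw [h1, Vc_one]
  rw [abs_div, abs_of_pos (by positivity : (0:ℝ) < 2 ^ n), div_le_one (by positivity)]
  exact_mod_cast hn

lemma Sym.mono {g : ℝ → ℂ} {B B' : ℝ} (h : Sym g B) (hB : B ≤ B') : Sym g B' := by
  refine ⟨h.supp, fun u => (h.bd u).trans hB, fun u t => (h.lip u t).trans ?_,
    fun u t => (h.sec u t).trans ?_⟩
  · exact mul_le_mul_of_nonneg_right hB (abs_nonneg _)
  · exact mul_le_mul_of_nonneg_right hB (sq_nonneg _)

lemma Sm.mono {g : ℝ → ℂ} {B B' : ℝ} (h : Sm g B) (hB : B ≤ B') : Sm g B' := by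
  obtain ⟨g', hg', h2⟩ := h.sharp
  exact ⟨h.sym.mono hB, g', hg'.mono hB, h2⟩

lemma ee_ne_one {u : ℝ} (h0 : 0 < |u|) (h1 : |u| < 1) : ee u ≠ 1 := by
  intro h
  unfold ee at h
  rw [Complex.exp_eq_one_iff] at h
  obtain ⟨n, hn⟩ := h
  have h2 : (u : ℂ) = n := by
    have hpi : (2 * Real.pi * Complex.I : ℂ) ≠ 0 := by
      simp [Real.pi_ne_zero]
    apply mul_right_cancel₀ hpi
    rw [← hn]; ring
  have h3 : u = (n:ℝ) := by exact_mod_cast h2
  rw [h3] at h0 h1
  have h4 : |n| < 1 := by exact_mod_cast h1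
  have h5 : 0 < |n| := by exact_mod_cast h0
  omega

lemma ee_smooth : ContDiff ℝ 2 ee := by
  unfold ee
  apply ContDiff.cexp
  exact (contDiff_const.mul Complex.ofRealCLM.contDiff).mul contDiff_const

lemma exists_Sm {g : ℝ → ℂ} (hg : ContDiff ℝ 2 g) (h0 : ∀ u, |u| ≤ 1/4 → g u = 0)
    (h4 : ∀ u, 4 ≤ |u| → g u = 0) : ∃ B, Sm g B := by
  obtain ⟨B1, hB1⟩ := exists_Sym hg h4
  set g' : ℝ → ℂ := fun u => g u / (ee (u / 16) - 1) with hg'
  have hne : ∀ u : ℝ, 1/4 ≤ |u| → |u| ≤ 4 → ee (u / 16) - 1 ≠ 0 := by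
    intro u h1 h2
    rw [sub_ne_zero]
    apply ee_ne_one
    · rw [abs_div, abs_of_pos (by norm_num : (0:ℝ) < 16)]; positivity
    · rw [abs_div, abs_of_pos (by norm_num : (0:ℝ) < 16)]; linarith
  have hz : ∀ u : ℝ, |u| < 1/4 → ContDiffAt ℝ 2 g' u := by
    intro u hu
    have : g' =ᶠ[nhds u] fun _ => 0 := by
      have : ∀ᶠ w in nhds u, |w| < 1/4 := (continuous_abs.tendsto u).eventually (gt_mem_nhds hu)
      filter_upwards [this] with w hw
      simp only [hg', h0 w hw.le, zero_div]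
    exact contDiffAt_const.congr_of_eventuallyEq this
  have hz4 : ∀ u : ℝ, 4 < |u| → ContDiffAt ℝ 2 g' u := by
    intro u hu
    have : g' =ᶠ[nhds u] fun _ => 0 := by
      have : ∀ᶠ w in nhds u, 4 < |w| := (continuous_abs.tendsto u).eventually (lt_mem_nhds hu)
      filter_upwards [this] with w hw
      simp only [hg', h4 w hw.le, zero_div]
    exact contDiffAt_const.congr_of_eventuallyEq this
  have hsm : ContDiff ℝ 2 g' := by
    rw [contDiff_iff_contDiffAt]
    intro u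
    rcases lt_or_ge |u| (1/4) with h1 | h1
    · exact hz u h1
    · rcases le_or_gt |u| 4 with h2 | h2
      · simp only [hg', div_eq_mul_inv]
        refine (hg.contDiffAt).mul (ContDiffAt.inv ?_ (by
          have := hne u h1 h2
          rwa [div_eq_mul_inv] at this))
        refine ContDiffAt.sub ?_ contDiffAt_const
        have := (ee_smooth.comp (contDiff_id.div_const 16)).contDiffAt (x := u)
        simpa [div_eq_mul_inv, Function.comp_def] using this
      · exact hz4 u h2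
  obtain ⟨B2, hB2⟩ := exists_Sym hsm (fun u hu => by simp only [hg', h4 u hu, zero_div])
  refine ⟨max B1 B2, hB1.mono (le_max_left _ _), g', hB2.mono (le_max_right _ _), fun u => ?_⟩
  rcases le_total |u| (1/4) with h1 | h1
  · simp only [hg', h0 u h1, zero_div, zero_mul]
  · rcases le_total |u| 4 with h2 | h2
    · simp only [hg']
      rw [div_mul_cancel₀ _ (hne u h1 h2)]
    · simp only [hg', h4 u h2, zero_div, zero_mul]

/-- `(iu)^r` -/
noncomputable def iR (r u : ℝ) : ℂ :=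
  ((|u| ^ r : ℝ) : ℂ) * Complex.exp (Complex.I * ((r * Real.pi * (SignType.sign u : ℝ) / 2 : ℝ) : ℂ))

/-- symbol of the derivative -/
noncomputable def zeta (r u : ℝ) : ℂ := iR r u * ((bw u : ℝ) : ℂ)

lemma zeta_smooth (r : ℝ) : ContDiff ℝ 2 (zeta r) := by
  rw [contDiff_iff_contDiffAt]
  intro u
  have hw : ContDiffAt ℝ 2 (fun u => ((bw u : ℝ) : ℂ)) u :=
    (Complex.ofRealCLM.contDiff.comp bw_smooth).contDiffAt
  rcases lt_trichotomy u 0 with h | h | h
  · have e : zeta r =ᶠ[nhds u] fun w => (((-w) ^ r : ℝ) : ℂ)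
        * Complex.exp (Complex.I * ((r * Real.pi * (-1 : ℝ) / 2 : ℝ) : ℂ)) * ((bw w : ℝ) : ℂ) := by
      have : ∀ᶠ w in nhds u, w < 0 := gt_mem_nhds h
      filter_upwards [this] with w hw
      unfold zeta iR
      rw [abs_of_neg hw, sign_neg hw]
      simp
    refine ContDiffAt.congr_of_eventuallyEq ?_ e
    refine ContDiffAt.mul (ContDiffAt.mul ?_ contDiffAt_const) hw
    refine Complex.ofRealCLM.contDiff.contDiffAt.comp u ?_
    exact (contDiff_id.neg.contDiffAt).rpow_const_of_ne (by simp only [id]; linarith)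
  · have e : zeta r =ᶠ[nhds u] fun _ => 0 := by
      have : ∀ᶠ w in nhds u, |w| < 1/4 := (continuous_abs.tendsto u).eventually
        (gt_mem_nhds (by rw [h]; norm_num))
      filter_upwards [this] with w hw
      unfold zeta
      rw [bw_low hw.le]
      simp
    exact contDiffAt_const.congr_of_eventuallyEq e
  · have e : zeta r =ᶠ[nhds u] fun w => ((w ^ r : ℝ) : ℂ)
        * Complex.exp (Complex.I * ((r * Real.pi * (1 : ℝ) / 2 : ℝ) : ℂ)) * ((bw w : ℝ) : ℂ) := by
      have : ∀ᶠ w in nhds u, 0 < w := lt_mem_nhds h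
      filter_upwards [this] with w hw
      unfold zeta iR
      rw [abs_of_pos hw, sign_pos hw]
      simp
    refine ContDiffAt.congr_of_eventuallyEq ?_ e
    refine ContDiffAt.mul (ContDiffAt.mul ?_ contDiffAt_const) hw
    refine Complex.ofRealCLM.contDiff.contDiffAt.comp u ?_
    exact (contDiff_id.contDiffAt).rpow_const_of_ne (by simp only [id]; linarith)

/-- a common constant for the three symbols -/
theorem symbols (r : ℝ) : ∃ B : ℝ, Sm (fun u => ((bl u : ℝ) : ℂ)) B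
    ∧ Sm (fun u => ((bw u : ℝ) : ℂ)) B ∧ Sm (zeta r) B := by
  obtain ⟨B1, h1⟩ := exists_Sm (g := fun u => ((bl u : ℝ) : ℂ))
    (Complex.ofRealCLM.contDiff.comp bl_smooth)
    (fun u hu => by rw [bl_low (by linarith)]; simp)
    (fun u hu => by rw [bl_high (by linarith)]; simp)
  obtain ⟨B2, h2⟩ := exists_Sm (g := fun u => ((bw u : ℝ) : ℂ))
    (Complex.ofRealCLM.contDiff.comp bw_smooth)
    (fun u hu => by rw [bw_low hu]; simp)
    (fun u hu => by rw [bw_high hu]; simp)
  obtain ⟨B3, h3⟩ := exists_Sm (g := zeta r) (zeta_smooth r)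
    (fun u hu => by unfold zeta; rw [bw_low hu]; simp)
    (fun u hu => by unfold zeta; rw [bw_high hu]; simp)
  exact ⟨max B1 (max B2 B3), h1.mono (le_max_left _ _),
    h2.mono ((le_max_left _ _).trans (le_max_right _ _)),
    h3.mono ((le_max_right _ _).trans (le_max_right _ _))⟩

end HC
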