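import Pool.Agent.Helper61.HC.Symb
import Pool.Agent.Helper61.HC.Main2c

section
/-!
The discrete theorem for exponential sums with frequencies in the hyperbolic cross, dimension two.
-/

open Finset

namespace HC

open Dy

variable {L : ℕ}

/-- the character of frequency `k` -/
noncomputable def ex (k : ℤ) (x : ZMod (2 ^ L)) : ℂ := chr ((k : ZMod (2 ^ L)) * x)

lemma norm_ex (k : ℤ) (x : ZMod (2 ^ L)) : ‖ex k x‖ = 1 := norm_chr _

lemma ex_zero (x : ZMod (2 ^ L)) : ex 0 x = 1 := by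
  unfold ex; rw [Int.cast_zero, zero_mul, chr_zero]

lemma int_cast_eq_zero {m : ℤ} (hm : |m| < 2 ^ L) (h : (m : ZMod (2 ^ L)) = 0) : m = 0 := by
  rw [ZMod.intCast_zmod_eq_zero_iff_dvd] at h
  push_cast at h
  exact Int.eq_zero_of_abs_lt_dvd h hm

lemma sum_ex {m : ℤ} (hm : |m| < 2 ^ L) : ∑ x : ZMod (2 ^ L), ex m x = if m = 0 then (2:ℂ) ^ L else 0 := by
  unfold ex chr
  have h := AddChar.sum_mulShift (R := ZMod (2 ^ L)) (R' := ℂ) (ψ := ZMod.stdAddChar)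
    (m : ZMod (2 ^ L)) (ZMod.isPrimitive_stdAddChar _)
  simp only [mul_comm (m : ZMod (2 ^ L))]
  rw [h]
  by_cases h0 : m = 0
  · rw [if_pos (by rw [h0]; simp), if_pos h0, ZMod.card]; push_cast; rfl
  · rw [if_neg (fun hh => h0 (int_cast_eq_zero hm hh)), if_neg h0]; simp

/-- characters are eigenfunctions -/
lemma cv_ex {g : ℝ → ℂ} {B : ℝ} (hg : Sym g B) {s : ℕ} {k : ℤ} (hk : 4 * 2 ^ s + |k| < 2 ^ L)
    (x : ZMod (2 ^ L)) : cv L g s (ex k) x = g ((k:ℝ) / 2 ^ s) * ex k x := by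
  have e1 : cv L g s (ex k) x = ex k x * ∑ t, kap L g s t * ex (-k) t := by
    unfold cv
    rw [mul_sum]
    refine sum_congr rfl fun t _ => ?_
    have : ex k (x - t) = ex k x * ex (-k) t := by
      unfold ex
      rw [← chr_add]
      congr 1
      push_cast
      ring
    rw [this]; ring
  have e2 : ∑ t, kap L g s t * ex (-k) t = g ((k:ℝ) / 2 ^ s) := by
    unfold kap
    have a1 : ∀ t : ZMod (2 ^ L), ((2:ℂ) ^ L)⁻¹ * (∑ k' ∈ Icc (-(4 * 2 ^ s : ℤ)) (4 * 2 ^ s),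
        g (k' / 2 ^ s) * chr ((k' : ZMod (2 ^ L)) * t)) * ex (-k) t
        = ∑ k' ∈ Icc (-(4 * 2 ^ s : ℤ)) (4 * 2 ^ s), ((2:ℂ) ^ L)⁻¹ * g (k' / 2 ^ s)
          * ex (k' - k) t := by
      intro t
      rw [mul_assoc, sum_mul, mul_sum]
      refine sum_congr rfl fun k' _ => ?_
      have : ex (k' - k) t = chr ((k' : ZMod (2 ^ L)) * t) * ex (-k) t := by
        unfold ex
        rw [← chr_add]
        congr 1
        push_cast
        ring
      rw [this]; ring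
    rw [sum_congr rfl fun t _ => a1 t, sum_comm]
    have a2 : ∀ k' ∈ Icc (-(4 * 2 ^ s : ℤ)) (4 * 2 ^ s), ∑ t : ZMod (2 ^ L),
        ((2:ℂ) ^ L)⁻¹ * g (k' / 2 ^ s) * ex (k' - k) t = if k' = k then g (k / 2 ^ s) else 0 := by
      intro k' hk'
      rw [mem_Icc] at hk'
      rw [← mul_sum, sum_ex (by
        have h1 : |k'| ≤ 4 * 2 ^ s := abs_le.2 hk'
        have h2 := abs_sub k' k
        omega)]
      by_cases h : k' = k
      · rw [if_pos (by omega), if_pos h, h]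
        have : (2:ℂ) ^ L ≠ 0 := pow_ne_zero _ two_ne_zero
        field_simp
      · rw [if_neg (by omega), if_neg h, mul_zero]
    rw [sum_congr rfl a2, sum_ite_eq' (Icc (-(4 * 2 ^ s : ℤ)) (4 * 2 ^ s)) k]
    split_ifs with h
    · rfl
    · symm
      apply hg.supp
      rw [mem_Icc, not_and_or] at h
      push Not at h
      have h0 : (0:ℤ) < 2 ^ s := by positivity
      have h1 : (4 * 2 ^ s : ℤ) ≤ |k| := by
        rcases h with h | h
        · rw [abs_of_neg (by linarith)]; linarith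
        · rw [abs_of_pos (by linarith)]; linarith
      rw [abs_div, abs_of_pos (by positivity : (0:ℝ) < 2 ^ s), le_div_iff₀ (by positivity)]
      exact_mod_cast h1
  rw [e1, e2, mul_comm]

/-- the blocks of the hyperbolic cross -/
def inBlock (s : ℕ) (k : ℤ) : Prop := 2 ^ s / 2 ≤ |k| ∧ |k| < 2 ^ s

lemma block_bl {s t : ℕ} {k : ℤ} (hk : inBlock t k) (h : bl ((k:ℝ) / 2 ^ s) ≠ 0) : s ≤ t := by
  by_contra hc
  push Not at hc
  apply h
  apply bl_low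
  rw [abs_div, abs_of_pos (by positivity : (0:ℝ) < 2 ^ s), div_le_iff₀ (by positivity)]
  have h1 : |(k:ℝ)| < 2 ^ t := by exact_mod_cast hk.2
  have h2 : (2:ℝ) ^ (t + 1) ≤ 2 ^ s := pow_le_pow_right₀ (by norm_num) hc
  rw [pow_succ] at h2
  linarith

/-- multiplier of the derivative -/
noncomputable def wd (r : ℝ) (k : ℤ) : ℂ :=
  ((|(k:ℝ)| ^ r : ℝ) : ℂ) * Complex.exp (Complex.I * ((r * Real.pi * (SignType.sign (k:ℝ) : ℝ) / 2 : ℝ) : ℂ))

lemma wd_zero {r : ℝ} (hr : 0 < r) : wd r 0 = 0 := by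
  unfold wd
  rw [Int.cast_zero, abs_zero, Real.zero_rpow hr.ne']
  simp

lemma zeta_scale (r : ℝ) (s : ℕ) (k : ℤ) :
    (((2:ℝ) ^ r) ^ s : ℝ) * (zeta r ((k:ℝ) / 2 ^ s) * ((bl ((k:ℝ) / 2 ^ s) : ℝ) : ℂ))
      = wd r k * ((bl ((k:ℝ) / 2 ^ s) : ℝ) : ℂ) := by
  have h2 : (0:ℝ) < 2 ^ s := by positivity
  have e1 : SignType.sign ((k:ℝ) / 2 ^ s) = SignType.sign (k:ℝ) := by
    rcases lt_trichotomy (k:ℝ) 0 with h | h | h
    · rw [sign_neg h, sign_neg (div_neg_of_neg_of_pos h h2)]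
    · rw [h, zero_div]
    · rw [sign_pos h, sign_pos (div_pos h h2)]
  have e2 : |(k:ℝ) / 2 ^ s| ^ r = |(k:ℝ)| ^ r / ((2:ℝ) ^ r) ^ s := by
    rw [abs_div, abs_of_pos h2, Real.div_rpow (abs_nonneg _) h2.le, pow_rpow_comm]
  have e3 : ((bw ((k:ℝ) / 2 ^ s) : ℝ) : ℂ) * ((bl ((k:ℝ) / 2 ^ s) : ℝ) : ℂ)
      = ((bl ((k:ℝ) / 2 ^ s) : ℝ) : ℂ) := by
    rw [← Complex.ofReal_mul, bw_bl]
  unfold zeta iR wd
  rw [e1, e2]
  have h3 : (((2:ℝ) ^ r) ^ s : ℝ) ≠ 0 := by positivity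
  have h4 : ((((2:ℝ) ^ r) ^ s : ℝ) : ℂ) ≠ 0 := by exact_mod_cast h3
  rw [mul_assoc, e3]
  push_cast
  push_cast at h4
  field_simp

/-- two-dimensional theorem for frequencies with nonzero coordinates -/
theorem disc2 {r : ℝ} (hr : 0 < r) : ∃ C : ℝ, 0 ≤ C ∧ ∃ K : ℕ, ∀ n L : ℕ, n + K + 4 ≤ L →
    ∀ (ι : Type) (I : Finset ι) (κ : ι → ℤ × ℤ) (c : ι → ℂ),
      (∀ i ∈ I, (κ i).1 ≠ 0 ∧ (κ i).2 ≠ 0 ∧
        ∃ t1 t2, t1 + t2 ≤ n ∧ inBlock t1 (κ i).1 ∧ inBlock t2 (κ i).2) →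
      ∑ x : ZMod (2 ^ L), ∑ y : ZMod (2 ^ L),
        ‖∑ i ∈ I, c i * (wd r (κ i).1 * wd r (κ i).2) * (ex (κ i).1 x * ex (κ i).2 y)‖
      ≤ C * ((2:ℝ) ^ r) ^ n * ∑ x : ZMod (2 ^ L), ∑ y : ZMod (2 ^ L),
        ‖∑ i ∈ I, c i * (ex (κ i).1 x * ex (κ i).2 y)‖ := by
  obtain ⟨B, hg, hh, hz⟩ := symbols r
  obtain ⟨C, hC, K, hmain⟩ := main2 hg hh hz hr
  refine ⟨C, hC, K, ?_⟩
  intro n L hL ι I κ c hκ
  set f : ZMod (2 ^ L) → ZMod (2 ^ L) → ℂ := fun x y => ∑ i ∈ I, c i * (ex (κ i).1 x * ex (κ i).2 y)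
    with hf
  have hP : (5:ℤ) * 2 ^ n < 2 ^ L := by
    have h1 : (2:ℤ) ^ (n + 3) ≤ 2 ^ L := pow_le_pow_right₀ (by norm_num) (by omega)
    rw [pow_add] at h1
    have : (0:ℤ) < 2 ^ n := by positivity
    linarith
  -- size of the frequencies
  have hk : ∀ i ∈ I, |(κ i).1| < 2 ^ n ∧ |(κ i).2| < 2 ^ n := by
    intro i hi
    obtain ⟨_, _, t1, t2, ht, h1, h2⟩ := hκ i hi
    exact ⟨lt_of_lt_of_le h1.2 (pow_le_pow_right₀ (by norm_num) (by omega)),
      lt_of_lt_of_le h2.2 (pow_le_pow_right₀ (by norm_num) (by omega))⟩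
  have hcond : ∀ s ≤ n, ∀ k : ℤ, |k| < 2 ^ n → 4 * 2 ^ s + |k| < 2 ^ L := by
    intro s hs k hk
    have : (2:ℤ) ^ s ≤ 2 ^ n := pow_le_pow_right₀ (by norm_num) hs
    linarith
  -- action of the operators
  have act : ∀ {g : ℝ → ℂ} {B : ℝ}, Sym g B → ∀ s1 ≤ n, ∀ s2 ≤ n, ∀ (d : ι → ℂ) (x y : ZMod (2 ^ L)),
      cv2 L g s1 s2 (fun x y => ∑ i ∈ I, d i * (ex (κ i).1 x * ex (κ i).2 y)) x y
        = ∑ i ∈ I, d i * (g ((κ i).1 / 2 ^ s1) * g ((κ i).2 / 2 ^ s2)) * (ex (κ i).1 x * ex (κ i).2 y) := by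
    intro g B hg s1 h1 s2 h2 d x y
    rw [cv2_sum]
    refine sum_congr rfl fun i hi => ?_
    rw [cv2_mul]
    have e1 : cv2 L g s1 s2 (fun x y => ex (κ i).1 x * ex (κ i).2 y) x y
        = g ((κ i).1 / 2 ^ s1) * g ((κ i).2 / 2 ^ s2) * (ex (κ i).1 x * ex (κ i).2 y) := by
      unfold cv2
      have a1 : ∀ x' : ZMod (2 ^ L), cv L g s2 (fun y => ex (κ i).1 x' * ex (κ i).2 y) y
          = (g ((κ i).2 / 2 ^ s2) * ex (κ i).2 y) * ex (κ i).1 x' := by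
        intro x'
        rw [cv_mul]
        have : cv L g s2 (fun y => ex (κ i).2 y) y = g ((κ i).2 / 2 ^ s2) * ex (κ i).2 y :=
          cv_ex hg (hcond s2 h2 _ (hk i hi).2) y
        rw [this]; ring
      simp only [a1]
      rw [cv_mul]
      have : cv L g s1 (fun x => ex (κ i).1 x) x = g ((κ i).1 / 2 ^ s1) * ex (κ i).1 x :=
        cv_ex hg (hcond s1 h1 _ (hk i hi).1) x
      rw [this]; ring
    rw [e1]; ring
  set g : ℝ → ℂ := fun u => ((bl u : ℝ) : ℂ) with hgd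
  set h : ℝ → ℂ := fun u => ((bw u : ℝ) : ℂ) with hhd
  have actg : ∀ s1 ≤ n, ∀ s2 ≤ n, cv2 L g s1 s2 f = fun x y => ∑ i ∈ I,
      (c i * (g ((κ i).1 / 2 ^ s1) * g ((κ i).2 / 2 ^ s2))) * (ex (κ i).1 x * ex (κ i).2 y) := by
    intro s1 h1 s2 h2
    ext x y
    exact act hg.sym s1 h1 s2 h2 c x y
  have hvan : ∀ s1 ≤ n, ∀ s2 ≤ n, n < s1 + s2 → ∀ i ∈ I,
      g ((κ i).1 / 2 ^ s1) * g ((κ i).2 / 2 ^ s2) = 0 := by
    intro s1 h1 s2 h2 h12 i hi
    obtain ⟨_, _, t1, t2, ht, b1, b2⟩ := hκ i hi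
    by_contra hne
    have n1 : bl ((κ i).1 / 2 ^ s1) ≠ 0 := fun h0 => hne (by simp only [hgd]; rw [h0]; simp)
    have n2 : bl ((κ i).2 / 2 ^ s2) ≠ 0 := fun h0 => hne (by simp only [hgd]; rw [h0]; simp)
    have m1 := block_bl b1 n1
    have m2 := block_bl b2 n2
    omega
  have E0x : ∀ x y, (dy L).E 0 (fun x' => f x' y) x = 0 := by
    intro x y
    rw [E0_eq]
    have : ∑ x', f x' y = 0 := by
      simp only [hf]
      rw [sum_comm]
      refine sum_eq_zero fun i hi => ?_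
      rw [← mul_sum, ← sum_mul, sum_ex (by
        have := (hk i hi).1
        have : (0:ℤ) < 2 ^ n := by positivity
        linarith), if_neg (hκ i hi).1, zero_mul, mul_zero]
    rw [this, smul_zero]
  have E0y : ∀ x y, (dy L).E 0 (f x) y = 0 := by
    intro x y
    rw [E0_eq]
    have : ∑ y', f x y' = 0 := by
      simp only [hf]
      rw [sum_comm]
      refine sum_eq_zero fun i hi => ?_
      rw [← mul_sum, ← mul_sum, sum_ex (by
        have := (hk i hi).2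
        have : (0:ℤ) < 2 ^ n := by positivity
        linarith), if_neg (hκ i hi).2.1, mul_zero, mul_zero]
    rw [this, smul_zero]
  have sumg : ∀ k : ℤ, k ≠ 0 → |k| < 2 ^ n → ∑ s ∈ range (n+1), g (k / 2 ^ s) = 1 := by
    intro k h0 h1
    have := sum_bl h0 h1.le
    simp only [hgd]
    rw [← Complex.ofReal_sum, this]; simp
  have hF := hmain n L hL f E0x E0y (by
    intro s1 s2 h1 h2 h12 x y
    rw [actg s1 h1 s2 h2]
    refine sum_eq_zero fun i hi => ?_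
    rw [hvan s1 h1 s2 h2 h12 i hi, mul_zero, zero_mul]) (by
    intro x y
    have e1 : ∀ s1 ∈ range (n+1), ∀ s2 ∈ range (n+1), cv2 L h s1 s2 (cv2 L g s1 s2 f) x y
        = ∑ i ∈ I, (c i * (ex (κ i).1 x * ex (κ i).2 y)) * (g ((κ i).1 / 2 ^ s1) * g ((κ i).2 / 2 ^ s2)) := by
      intro s1 h1 s2 h2
      rw [mem_range] at h1 h2
      rw [actg s1 (by omega) s2 (by omega), act hh.sym s1 (by omega) s2 (by omega)]
      refine sum_congr rfl fun i _ => ?_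
      have b1 : h ((κ i).1 / 2 ^ s1) * g ((κ i).1 / 2 ^ s1) = g ((κ i).1 / 2 ^ s1) := by
        simp only [hgd, hhd]; rw [← Complex.ofReal_mul, bw_bl]
      have b2 : h ((κ i).2 / 2 ^ s2) * g ((κ i).2 / 2 ^ s2) = g ((κ i).2 / 2 ^ s2) := by
        simp only [hgd, hhd]; rw [← Complex.ofReal_mul, bw_bl]
      calc _ = (c i * (ex (κ i).1 x * ex (κ i).2 y)) * ((h ((κ i).1 / 2 ^ s1) * g ((κ i).1 / 2 ^ s1))
            * (h ((κ i).2 / 2 ^ s2) * g ((κ i).2 / 2 ^ s2))) := by ring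
        _ = _ := by rw [b1, b2]
    rw [sum_congr rfl fun s1 h1 => sum_congr rfl fun s2 h2 => e1 s1 h1 s2 h2]
    have e2 : ∑ s1 ∈ range (n+1), ∑ s2 ∈ range (n+1), ∑ i ∈ I,
        (c i * (ex (κ i).1 x * ex (κ i).2 y)) * (g ((κ i).1 / 2 ^ s1) * g ((κ i).2 / 2 ^ s2))
        = ∑ i ∈ I, (c i * (ex (κ i).1 x * ex (κ i).2 y))
          * ((∑ s1 ∈ range (n+1), g ((κ i).1 / 2 ^ s1)) * ∑ s2 ∈ range (n+1), g ((κ i).2 / 2 ^ s2)) := by
      have c1 : ∀ s1, ∑ s2 ∈ range (n+1), ∑ i ∈ I,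
          (c i * (ex (κ i).1 x * ex (κ i).2 y)) * (g ((κ i).1 / 2 ^ s1) * g ((κ i).2 / 2 ^ s2))
          = ∑ i ∈ I, ∑ s2 ∈ range (n+1),
          (c i * (ex (κ i).1 x * ex (κ i).2 y)) * (g ((κ i).1 / 2 ^ s1) * g ((κ i).2 / 2 ^ s2)) :=
        fun s1 => sum_comm
      rw [sum_congr rfl fun s1 _ => c1 s1, sum_comm]
      refine sum_congr rfl fun i _ => ?_
      rw [sum_mul_sum, mul_sum]
      refine sum_congr rfl fun s1 _ => ?_
      rw [mul_sum]
    rw [e2]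
    simp only [hf]
    refine sum_congr rfl fun i hi => ?_
    rw [sumg _ (hκ i hi).1 (hk i hi).1, sumg _ (hκ i hi).2.1 (hk i hi).2, one_mul, mul_one])
  -- identify F
  have hFid : ∀ x y, ∑ i ∈ I, c i * (wd r (κ i).1 * wd r (κ i).2) * (ex (κ i).1 x * ex (κ i).2 y)
      = ((((2:ℝ) ^ r) ^ n : ℝ) : ℂ) * ∑ s1 ∈ range (n+1), ∑ s2 ∈ range (n+1),
        ((((2:ℝ) ^ (-r)) ^ (n - s1 - s2) : ℝ) : ℂ) * cv2 L (zeta r) s1 s2 (cv2 L g s1 s2 f) x y := by
    intro x y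
    have e1 : ∀ s1 ∈ range (n+1), ∀ s2 ∈ range (n+1), ((((2:ℝ) ^ r) ^ n : ℝ) : ℂ)
        * (((((2:ℝ) ^ (-r)) ^ (n - s1 - s2) : ℝ) : ℂ) * cv2 L (zeta r) s1 s2 (cv2 L g s1 s2 f) x y)
        = ∑ i ∈ I, (c i * (wd r (κ i).1 * wd r (κ i).2) * (ex (κ i).1 x * ex (κ i).2 y))
          * (g ((κ i).1 / 2 ^ s1) * g ((κ i).2 / 2 ^ s2)) := by
      intro s1 h1 s2 h2
      rw [mem_range] at h1 h2
      rw [actg s1 (by omega) s2 (by omega), act hz.sym s1 (by omega) s2 (by omega), mul_sum, mul_sum]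
      refine sum_congr rfl fun i hi => ?_
      rcases lt_or_ge n (s1 + s2) with h12 | h12
      · rw [hvan s1 (by omega) s2 (by omega) h12 i hi]; simp
      · have b1 := zeta_scale r s1 (κ i).1
        have b2 := zeta_scale r s2 (κ i).2
        have b3 : (((2:ℝ) ^ r) ^ n) * ((2:ℝ) ^ (-r)) ^ (n - s1 - s2)
            = ((2:ℝ) ^ r) ^ s1 * ((2:ℝ) ^ r) ^ s2 := by
          have hn : n = (s1 + s2) + (n - s1 - s2) := by omega
          have : ((2:ℝ) ^ r) ^ n = ((2:ℝ) ^ r) ^ (s1 + s2) * ((2:ℝ) ^ r) ^ (n - s1 - s2) := by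
            rw [← pow_add, ← hn]
          rw [this, Real.rpow_neg (by norm_num), mul_assoc, ← mul_pow,
            mul_inv_cancel₀ (by positivity), one_pow, mul_one, pow_add]
        have b4 : ((((2:ℝ) ^ r) ^ n : ℝ) : ℂ) * ((((2:ℝ) ^ (-r)) ^ (n - s1 - s2) : ℝ) : ℂ)
            = ((((2:ℝ) ^ r) ^ s1 : ℝ) : ℂ) * ((((2:ℝ) ^ r) ^ s2 : ℝ) : ℂ) := by
          rw [← Complex.ofReal_mul, b3, Complex.ofReal_mul]
        calc _ = (((((2:ℝ) ^ r) ^ n : ℝ) : ℂ) * ((((2:ℝ) ^ (-r)) ^ (n - s1 - s2) : ℝ) : ℂ))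
              * (zeta r ((κ i).1 / 2 ^ s1) * g ((κ i).1 / 2 ^ s1))
              * (zeta r ((κ i).2 / 2 ^ s2) * g ((κ i).2 / 2 ^ s2))
              * (c i * (ex (κ i).1 x * ex (κ i).2 y)) := by ring
          _ = (((((2:ℝ) ^ r) ^ s1 : ℝ) : ℂ) * (zeta r ((κ i).1 / 2 ^ s1) * g ((κ i).1 / 2 ^ s1)))
              * (((((2:ℝ) ^ r) ^ s2 : ℝ) : ℂ) * (zeta r ((κ i).2 / 2 ^ s2) * g ((κ i).2 / 2 ^ s2)))
              * (c i * (ex (κ i).1 x * ex (κ i).2 y)) := by rw [b4]; ring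
          _ = _ := by
              simp only [hgd]
              rw [b1, b2]; ring
    rw [mul_sum]
    have e3 : ∀ s1 ∈ range (n+1), ((((2:ℝ) ^ r) ^ n : ℝ) : ℂ) * ∑ s2 ∈ range (n+1),
        (((((2:ℝ) ^ (-r)) ^ (n - s1 - s2) : ℝ) : ℂ) * cv2 L (zeta r) s1 s2 (cv2 L g s1 s2 f) x y)
        = ∑ s2 ∈ range (n+1), ∑ i ∈ I, (c i * (wd r (κ i).1 * wd r (κ i).2) * (ex (κ i).1 x * ex (κ i).2 y))
          * (g ((κ i).1 / 2 ^ s1) * g ((κ i).2 / 2 ^ s2)) := by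
      intro s1 h1
      rw [mul_sum]
      exact sum_congr rfl fun s2 h2 => e1 s1 h1 s2 h2
    rw [sum_congr rfl e3]
    have e2 : ∑ s1 ∈ range (n+1), ∑ s2 ∈ range (n+1), ∑ i ∈ I,
        (c i * (wd r (κ i).1 * wd r (κ i).2) * (ex (κ i).1 x * ex (κ i).2 y))
          * (g ((κ i).1 / 2 ^ s1) * g ((κ i).2 / 2 ^ s2))
        = ∑ i ∈ I, (c i * (wd r (κ i).1 * wd r (κ i).2) * (ex (κ i).1 x * ex (κ i).2 y))
          * ((∑ s1 ∈ range (n+1), g ((κ i).1 / 2 ^ s1)) * ∑ s2 ∈ range (n+1), g ((κ i).2 / 2 ^ s2)) := by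
      rw [sum_congr rfl fun s1 _ => sum_comm, sum_comm]
      refine sum_congr rfl fun i _ => ?_
      rw [sum_mul_sum, mul_sum]
      refine sum_congr rfl fun s1 _ => ?_
      rw [mul_sum]
    rw [e2]
    refine sum_congr rfl fun i hi => ?_
    rw [sumg _ (hκ i hi).1 (hk i hi).1, sumg _ (hκ i hi).2.1 (hk i hi).2, one_mul, mul_one]
  have hn0 : (0:ℝ) ≤ ((2:ℝ) ^ r) ^ n := by positivity
  calc _ = ∑ x : ZMod (2 ^ L), ∑ y : ZMod (2 ^ L), ((2:ℝ) ^ r) ^ n * ‖∑ s1 ∈ range (n+1),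
        ∑ s2 ∈ range (n+1), ((((2:ℝ) ^ (-r)) ^ (n - s1 - s2) : ℝ) : ℂ)
          * cv2 L (zeta r) s1 s2 (cv2 L g s1 s2 f) x y‖ := by
        refine sum_congr rfl fun x _ => sum_congr rfl fun y _ => ?_
        rw [hFid, norm_mul, Complex.norm_real, Real.norm_eq_abs, abs_of_nonneg hn0]
    _ = ((2:ℝ) ^ r) ^ n * ∑ x : ZMod (2 ^ L), ∑ y : ZMod (2 ^ L), ‖∑ s1 ∈ range (n+1),
        ∑ s2 ∈ range (n+1), ((((2:ℝ) ^ (-r)) ^ (n - s1 - s2) : ℝ) : ℂ)
          * cv2 L (zeta r) s1 s2 (cv2 L g s1 s2 f) x y‖ := by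
        simp only [mul_sum]
    _ ≤ ((2:ℝ) ^ r) ^ n * (C * ∑ x, ∑ y, ‖f x y‖) := mul_le_mul_of_nonneg_left hF hn0
    _ = _ := by ring

end HC

end

section
/-!
The discrete theorem in every dimension.
-/

open Finset

namespace HC

variable {L : ℕ}

/-- exponential on `(ZMod (2^L))^d` -/
noncomputable def exd {d : ℕ} (k : Fin d → ℤ) (x : Fin d → ZMod (2 ^ L)) : ℂ := ∏ j, ex (k j) (x j)

/-- the hyperbolic cross -/
def cross {d : ℕ} (n : ℕ) (k : Fin d → ℤ) : Prop :=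
  ∃ s : Fin d → ℕ, ∑ j, s j ≤ n ∧ ∀ j, inBlock (s j) (k j)

lemma mean_sub (g : ZMod (2 ^ L) → ℂ) :
    ∑ x, ‖g x - ((2:ℂ) ^ L)⁻¹ * ∑ y, g y‖ ≤ 2 * ∑ x, ‖g x‖ := by
  have h1 : ∀ x, ‖g x - ((2:ℂ) ^ L)⁻¹ * ∑ y, g y‖ ≤ ‖g x‖ + ((2:ℝ) ^ L)⁻¹ * ∑ y, ‖g y‖ := by
    intro x
    refine (norm_sub_le _ _).trans ?_
    rw [norm_mul, norm_inv, norm_pow, Complex.norm_ofNat]
    have := norm_sum_le (univ : Finset (ZMod (2 ^ L))) g
    have := mul_le_mul_of_nonneg_left this (by positivity : (0:ℝ) ≤ ((2:ℝ) ^ L)⁻¹)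
    linarith
  refine (sum_le_sum fun x _ => h1 x).trans (le_of_eq ?_)
  rw [sum_add_distrib, sum_const, card_univ, ZMod.card, nsmul_eq_mul]
  push_cast
  field_simp
  ring

/-- removing the zero frequencies of one variable -/
lemma rem_zero {ι Y : Type} [Fintype Y] (I : Finset ι) (m : ι → ℤ) (hm : ∀ i ∈ I, |m i| < 2 ^ L)
    (a : ι → Y → ℂ) :
    ∑ x : ZMod (2 ^ L), ∑ y, ‖∑ i ∈ I.filter (fun i => m i ≠ 0), a i y * ex (m i) x‖
      ≤ 2 * ∑ x : ZMod (2 ^ L), ∑ y, ‖∑ i ∈ I, a i y * ex (m i) x‖ := by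
  have h1 : ∀ y (x : ZMod (2 ^ L)), ∑ i ∈ I.filter (fun i => m i ≠ 0), a i y * ex (m i) x
      = ∑ i ∈ I, a i y * ex (m i) x - ((2:ℂ) ^ L)⁻¹ * ∑ x' : ZMod (2 ^ L), ∑ i ∈ I, a i y * ex (m i) x' := by
    intro y x
    have e1 : ∑ x' : ZMod (2 ^ L), ∑ i ∈ I, a i y * ex (m i) x'
        = ∑ i ∈ I, if m i = 0 then (2:ℂ) ^ L * a i y else 0 := by
      rw [sum_comm]
      refine sum_congr rfl fun i hi => ?_
      rw [← mul_sum, sum_ex (hm i hi)]
      split_ifs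
      · ring
      · ring
    rw [e1, mul_sum, sum_filter, ← sum_sub_distrib]
    refine sum_congr rfl fun i _ => ?_
    have h2 : (2:ℂ) ^ L ≠ 0 := pow_ne_zero _ two_ne_zero
    by_cases h : m i = 0
    · rw [if_neg (not_not.2 h), if_pos h, h, ex_zero]
      field_simp
      ring
    · rw [if_pos h, if_neg h]; ring
  rw [sum_comm, sum_comm (s := (univ : Finset (ZMod (2 ^ L)))) (t := (univ : Finset Y))
    (f := fun x y => ‖∑ i ∈ I, a i y * ex (m i) x‖), mul_sum]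
  refine sum_le_sum fun y _ => ?_
  simp only [h1]
  exact mean_sub _

lemma sum_fin_two (Φ : (Fin 2 → ZMod (2 ^ L)) → ℝ) : ∑ x, Φ x = ∑ a, ∑ b, Φ ![a, b] := by
  rw [← Fintype.sum_prod_type']
  exact (Equiv.sum_comp (finTwoArrowEquiv _).symm Φ).symm

lemma sum_fin_succ {d : ℕ} (Φ : (Fin (d+1) → ZMod (2 ^ L)) → ℝ) :
    ∑ x, Φ x = ∑ a : ZMod (2 ^ L), ∑ x' : Fin d → ZMod (2 ^ L), Φ (Fin.cons a x') := by
  rw [← Fintype.sum_prod_type']
  exact (Equiv.sum_comp (Fin.consEquiv (fun _ => ZMod (2 ^ L))) Φ).symm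

lemma exd_cons {d : ℕ} (k : Fin (d+1) → ℤ) (a : ZMod (2 ^ L)) (x : Fin d → ZMod (2 ^ L)) :
    exd k (Fin.cons a x) = ex (k 0) a * exd (fun j => k j.succ) x := by
  unfold exd
  rw [Fin.prod_univ_succ]
  simp only [Fin.cons_zero, Fin.cons_succ]

lemma inBlock_lt {s n : ℕ} {k : ℤ} (h : inBlock s k) (hs : s ≤ n) : |k| < 2 ^ n :=
  lt_of_lt_of_le h.2 (pow_le_pow_right₀ (by norm_num) hs)

/-- the statement in dimension `m + 2` -/
def St (r : ℝ) (m : ℕ) : Prop := ∃ C : ℝ, 0 ≤ C ∧ ∃ K : ℕ, ∀ n L : ℕ, n + K + 4 ≤ L →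
    ∀ (ι : Type) (I : Finset ι) (κ : ι → Fin (m+2) → ℤ) (c : ι → ℂ),
      (∀ i ∈ I, cross n (κ i)) →
      ∑ x : Fin (m+2) → ZMod (2 ^ L), ‖∑ i ∈ I, c i * (∏ j, wd r (κ i j)) * exd (κ i) x‖
      ≤ C * ((n:ℝ) + 1) ^ m * ((2:ℝ) ^ r) ^ n * ∑ x : Fin (m+2) → ZMod (2 ^ L),
        ‖∑ i ∈ I, c i * exd (κ i) x‖

theorem st_zero {r : ℝ} (hr : 0 < r) : St r 0 := by
  classical
  obtain ⟨C, hC, K, h⟩ := disc2 hr
  refine ⟨C * 4, by positivity, K, ?_⟩
  intro n L hL ι I κ c hκ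
  have hP : (2:ℤ) ^ n < 2 ^ L := pow_lt_pow_right₀ (by norm_num) (by omega)
  have hk : ∀ i ∈ I, ∀ j, |κ i j| < 2 ^ L := by
    intro i hi j
    obtain ⟨s, hs, hb⟩ := hκ i hi
    have : s j ≤ n := (single_le_sum (fun _ _ => Nat.zero_le _) (mem_univ j)).trans hs
    exact (inBlock_lt (hb j) this).trans hP
  rw [sum_fin_two, sum_fin_two]
  simp only [pow_zero, mul_one]
  have e1 : ∀ i (a b : ZMod (2 ^ L)), exd (κ i) ![a, b] = ex (κ i 0) a * ex (κ i 1) b := by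
    intro i a b
    unfold exd
    rw [Fin.prod_univ_two]
    rfl
  have e0 : ∀ i, ∏ j, wd r (κ i j) = wd r (κ i 0) * wd r (κ i 1) := fun i => Fin.prod_univ_two _
  simp only [e1, e0]
  set I' := (I.filter (fun i => κ i 0 ≠ 0)).filter (fun i => κ i 1 ≠ 0) with hI'
  have h1 := h n L hL ι I' (fun i => (κ i 0, κ i 1)) c (by
    intro i hi
    rw [hI', mem_filter, mem_filter] at hi
    obtain ⟨s, hs, hb⟩ := hκ i hi.1.1
    refine ⟨hi.1.2, hi.2, s 0, s 1, ?_, hb 0, hb 1⟩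
    rw [Fin.sum_univ_two] at hs
    exact hs)
  have e2 : ∀ a b : ZMod (2 ^ L), ∑ i ∈ I, c i * (wd r (κ i 0) * wd r (κ i 1)) * (ex (κ i 0) a * ex (κ i 1) b)
      = ∑ i ∈ I', c i * (wd r (κ i 0) * wd r (κ i 1)) * (ex (κ i 0) a * ex (κ i 1) b) := by
    intro a b
    symm
    apply sum_subset
    · intro i hi
      rw [hI', mem_filter, mem_filter] at hi
      exact hi.1.1
    · intro i hi hi'
      rw [hI', mem_filter, mem_filter] at hi'
      by_cases h0 : κ i 0 = 0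
      · rw [h0, wd_zero hr]; ring
      · have : κ i 1 = 0 := by
          by_contra hne
          exact hi' ⟨⟨hi, h0⟩, hne⟩
        rw [this, wd_zero hr]; ring
  simp only [e2]
  refine h1.trans ?_
  have r1 := rem_zero (L := L) I (fun i => κ i 0) (fun i hi => hk i hi 0)
    (fun i (b : ZMod (2 ^ L)) => c i * ex (κ i 1) b)
  have r2 := rem_zero (L := L) (I.filter (fun i => κ i 0 ≠ 0)) (fun i => κ i 1)
    (fun i hi => hk i (mem_filter.1 hi).1 1) (fun i (a : ZMod (2 ^ L)) => c i * ex (κ i 0) a)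
  have e3 : ∑ a : ZMod (2 ^ L), ∑ b : ZMod (2 ^ L), ‖∑ i ∈ I', c i * (ex (κ i 0) a * ex (κ i 1) b)‖
      = ∑ b : ZMod (2 ^ L), ∑ a : ZMod (2 ^ L), ‖∑ i ∈ I', c i * ex (κ i 0) a * ex (κ i 1) b‖ := by
    rw [sum_comm]
    refine sum_congr rfl fun b _ => sum_congr rfl fun a _ => ?_
    congr 1
    exact sum_congr rfl fun i _ => by ring
  have e4 : ∑ b : ZMod (2 ^ L), ∑ a : ZMod (2 ^ L), ‖∑ i ∈ I.filter (fun i => κ i 0 ≠ 0),
        c i * ex (κ i 0) a * ex (κ i 1) b‖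
      = ∑ a : ZMod (2 ^ L), ∑ b : ZMod (2 ^ L), ‖∑ i ∈ I.filter (fun i => κ i 0 ≠ 0),
        c i * ex (κ i 1) b * ex (κ i 0) a‖ := by
    rw [sum_comm]
    refine sum_congr rfl fun a _ => sum_congr rfl fun b _ => ?_
    congr 1
    exact sum_congr rfl fun i _ => by ring
  have e5 : ∑ a : ZMod (2 ^ L), ∑ b : ZMod (2 ^ L), ‖∑ i ∈ I, c i * ex (κ i 1) b * ex (κ i 0) a‖
      = ∑ a : ZMod (2 ^ L), ∑ b : ZMod (2 ^ L), ‖∑ i ∈ I, c i * (ex (κ i 0) a * ex (κ i 1) b)‖ := by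
    refine sum_congr rfl fun a _ => sum_congr rfl fun b _ => ?_
    congr 1
    exact sum_congr rfl fun i _ => by ring
  rw [e4] at r2
  rw [e5] at r1
  simp only
  rw [e3]
  have r3 : ∑ b : ZMod (2 ^ L), ∑ a : ZMod (2 ^ L), ‖∑ i ∈ I', c i * ex (κ i 0) a * ex (κ i 1) b‖
      ≤ 4 * ∑ a : ZMod (2 ^ L), ∑ b : ZMod (2 ^ L), ‖∑ i ∈ I, c i * (ex (κ i 0) a * ex (κ i 1) b)‖ := by
    refine r2.trans ?_
    linarith
  calc _ ≤ C * ((2:ℝ) ^ r) ^ n * (4 * ∑ a : ZMod (2 ^ L), ∑ b : ZMod (2 ^ L),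
        ‖∑ i ∈ I, c i * (ex (κ i 0) a * ex (κ i 1) b)‖) :=
        mul_le_mul_of_nonneg_left r3 (by positivity)
    _ = _ := by ring

lemma cv_l1 {g : ℝ → ℂ} {B : ℝ} (hg : Sym g B) {s : ℕ} (hs : s ≤ L) (u : ZMod (2 ^ L) → ℂ) :
    ∑ x, ‖cv L g s u x‖ ≤ 100 * B * ∑ x, ‖u x‖ := by
  have B0 := hg.nonneg
  refine (sum_le_sum fun x _ => cv_norm_le hg hs u x).trans ?_
  rw [← mul_sum]
  have := sum_Av (N := 2 ^ L) (ell_pos L s) (h := fun x => ‖u x‖) (fun x => norm_nonneg _)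
  calc _ ≤ 10 * B * (10 * ∑ x, ‖u x‖) := mul_le_mul_of_nonneg_left this (by positivity)
    _ = _ := by ring

lemma cv_comb {g : ℝ → ℂ} {B : ℝ} (hg : Sym g B) {s : ℕ} {ι : Type} (I : Finset ι) (m : ι → ℤ)
    (hm : ∀ i ∈ I, 4 * 2 ^ s + |m i| < 2 ^ L) (a : ι → ℂ) (x : ZMod (2 ^ L)) :
    cv L g s (fun x => ∑ i ∈ I, a i * ex (m i) x) x
      = ∑ i ∈ I, a i * (g ((m i : ℝ) / 2 ^ s) * ex (m i) x) := by
  rw [cv_sum]
  refine sum_congr rfl fun i hi => ?_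
  rw [cv_mul]
  congr 1
  exact cv_ex hg (hm i hi) x

theorem st_succ {r : ℝ} (hr : 0 < r) {m : ℕ} (hm : St r m) : St r (m+1) := by
  classical
  obtain ⟨B, hg, -, hz⟩ := symbols r
  obtain ⟨C, hC, K, h⟩ := hm
  have B0 := hg.sym.nonneg
  refine ⟨C * (100 * B) ^ 2, by positivity, K, ?_⟩
  intro n L hL ι I κ c hκ
  have hP : (5:ℤ) * 2 ^ n < 2 ^ L := by
    have h1 : (2:ℤ) ^ (n + 3) ≤ 2 ^ L := pow_le_pow_right₀ (by norm_num) (by omega)
    rw [pow_add] at h1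
    have : (0:ℤ) < 2 ^ n := by positivity
    linarith
  have hk : ∀ i ∈ I, |κ i 0| < 2 ^ n := by
    intro i hi
    obtain ⟨s, hs, hb⟩ := hκ i hi
    have : s 0 ≤ n := (single_le_sum (fun _ _ => Nat.zero_le _) (mem_univ 0)).trans hs
    exact inBlock_lt (hb 0) this
  have hcond : ∀ s ≤ n, ∀ i ∈ I, 4 * 2 ^ s + |κ i 0| < 2 ^ L := by
    intro s hs i hi
    have : (2:ℤ) ^ s ≤ 2 ^ n := pow_le_pow_right₀ (by norm_num) hs
    have := hk i hi
    linarith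
  set g : ℝ → ℂ := fun u => ((bl u : ℝ) : ℂ) with hgd
  set R := (2:ℝ) ^ r with hR
  have R0 : 0 < R := by positivity
  set tl : ι → Fin (m+2) → ℤ := fun i j => κ i j.succ with htl
  set f : (Fin (m+3) → ZMod (2 ^ L)) → ℂ := fun x => ∑ i ∈ I, c i * exd (κ i) x with hf
  set U : ℕ → ZMod (2 ^ L) → (Fin (m+2) → ZMod (2 ^ L)) → ℂ := fun s a x' =>
    ∑ i ∈ I, (c i * exd (tl i) x') * (g ((κ i 0 : ℝ) / 2 ^ s) * ex (κ i 0) a) with hU
  set DU : ℕ → ZMod (2 ^ L) → (Fin (m+2) → ZMod (2 ^ L)) → ℂ := fun s a x' =>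
    ∑ i ∈ I, (c i * (∏ j, wd r (tl i j)) * exd (tl i) x' * g ((κ i 0 : ℝ) / 2 ^ s)) * ex (κ i 0) a
    with hDU
  have hfc : ∀ a x', f (Fin.cons a x') = ∑ i ∈ I, (c i * exd (tl i) x') * ex (κ i 0) a := by
    intro a x'
    simp only [hf]
    refine sum_congr rfl fun i _ => ?_
    rw [exd_cons]; ring
  -- (1)
  have s1 : ∀ s ∈ range (n+1), ∀ a, ∑ x', ‖DU s a x'‖ ≤ C * ((n:ℝ) + 1) ^ m * R ^ (n - s)
      * ∑ x', ‖U s a x'‖ := by
    intro s hs a
    rw [mem_range] at hs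
    have h1 := h (n - s) L (by omega) ι (I.filter (fun i => g ((κ i 0 : ℝ) / 2 ^ s) ≠ 0)) tl
      (fun i => c i * (g ((κ i 0 : ℝ) / 2 ^ s) * ex (κ i 0) a)) (by
        intro i hi
        rw [mem_filter] at hi
        obtain ⟨t, ht, hb⟩ := hκ i hi.1
        refine ⟨fun j => t j.succ, ?_, fun j => hb j.succ⟩
        have n1 : bl ((κ i 0 : ℝ) / 2 ^ s) ≠ 0 := fun h0 => hi.2 (by simp only [hgd]; rw [h0]; simp)
        have m1 := block_bl (hb 0) n1
        rw [Fin.sum_univ_succ] at ht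
        change ∑ j : Fin (m+2), t j.succ ≤ n - s
        omega)
    have e1 : ∀ x', ∑ i ∈ I.filter (fun i => g ((κ i 0 : ℝ) / 2 ^ s) ≠ 0),
        c i * (g ((κ i 0 : ℝ) / 2 ^ s) * ex (κ i 0) a) * exd (tl i) x' = U s a x' := by
      intro x'
      simp only [hU]
      rw [sum_filter]
      refine sum_congr rfl fun i _ => ?_
      split_ifs with h0
      · ring
      · push Not at h0
        rw [h0]; ring
    have e2 : ∀ x', ∑ i ∈ I.filter (fun i => g ((κ i 0 : ℝ) / 2 ^ s) ≠ 0),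
        c i * (g ((κ i 0 : ℝ) / 2 ^ s) * ex (κ i 0) a) * (∏ j, wd r (tl i j)) * exd (tl i) x'
        = DU s a x' := by
      intro x'
      simp only [hDU]
      rw [sum_filter]
      refine sum_congr rfl fun i _ => ?_
      split_ifs with h0
      · ring
      · push Not at h0
        rw [h0]; ring
    simp only [e1, e2] at h1
    refine h1.trans ?_
    refine mul_le_mul_of_nonneg_right ?_ (sum_nonneg fun _ _ => norm_nonneg _)
    refine mul_le_mul_of_nonneg_right ?_ (by positivity)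
    refine mul_le_mul_of_nonneg_left ?_ hC
    refine pow_le_pow_left₀ (by positivity) ?_ m
    have : ((n - s : ℕ) : ℝ) ≤ n := by exact_mod_cast Nat.sub_le n s
    linarith
  -- (2)
  have s2 : ∀ s ∈ range (n+1), ∑ a, ∑ x', ‖U s a x'‖ ≤ 100 * B * ∑ a, ∑ x', ‖f (Fin.cons a x')‖ := by
    intro s hs
    rw [mem_range] at hs
    rw [sum_comm, sum_comm (s := (univ : Finset (ZMod (2 ^ L))))
      (f := fun a x' => ‖f (Fin.cons a x')‖), mul_sum]
    refine sum_le_sum fun x' _ => ?_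
    have e1 : ∀ a, U s a x' = cv L g s (fun a => f (Fin.cons a x')) a := by
      intro a
      have := cv_comb hg.sym I (fun i => κ i 0) (hcond s (by omega)) (fun i => c i * exd (tl i) x') a
      simp only [hfc]
      rw [this]
    simp only [e1]
    exact cv_l1 hg.sym (by omega) _
  -- (3)
  have s3 : ∀ a x', ∑ i ∈ I, c i * (∏ j, wd r (κ i j)) * exd (κ i) (Fin.cons a x')
      = ∑ s ∈ range (n+1), ((R ^ s : ℝ) : ℂ) * cv L (zeta r) s (fun a => DU s a x') a := by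
    intro a x'
    have e1 : ∀ s ∈ range (n+1), ((R ^ s : ℝ) : ℂ) * cv L (zeta r) s (fun a => DU s a x') a
        = ∑ i ∈ I, (c i * (∏ j, wd r (tl i j)) * exd (tl i) x' * ex (κ i 0) a * wd r (κ i 0))
          * g ((κ i 0 : ℝ) / 2 ^ s) := by
      intro s hs
      rw [mem_range] at hs
      have := cv_comb hz.sym I (fun i => κ i 0) (hcond s (by omega))
        (fun i => c i * (∏ j, wd r (tl i j)) * exd (tl i) x' * g ((κ i 0 : ℝ) / 2 ^ s)) a
      simp only [hDU]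
      rw [this, mul_sum]
      refine sum_congr rfl fun i _ => ?_
      have b1 := zeta_scale r s (κ i 0)
      calc _ = (((((2:ℝ) ^ r) ^ s : ℝ) : ℂ) * (zeta r ((κ i 0 : ℝ) / 2 ^ s)
            * ((bl ((κ i 0 : ℝ) / 2 ^ s) : ℝ) : ℂ)))
            * (c i * (∏ j, wd r (tl i j)) * exd (tl i) x' * ex (κ i 0) a) := by
            simp only [hgd, hR]; ring
        _ = _ := by
            rw [b1]; simp only [hgd]; ring
    rw [sum_congr rfl e1, sum_comm]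
    refine sum_congr rfl fun i hi => ?_
    rw [← mul_sum, exd_cons, Fin.prod_univ_succ]
    by_cases h0 : κ i 0 = 0
    · rw [h0, wd_zero hr]; ring
    · have e2 : ∑ s ∈ range (n+1), g ((κ i 0 : ℝ) / 2 ^ s) = 1 := by
        have := sum_bl h0 (hk i hi).le
        simp only [hgd]
        rw [← Complex.ofReal_sum, this]; simp
      rw [e2]; ring
  rw [sum_fin_succ, sum_fin_succ]
  simp only [s3]
  have hf' : ∀ a x', ∑ i ∈ I, c i * exd (κ i) (Fin.cons a x') = f (Fin.cons a x') := fun _ _ => rfl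
  simp only [hf']
  calc ∑ a, ∑ x', ‖∑ s ∈ range (n+1), ((R ^ s : ℝ) : ℂ) * cv L (zeta r) s (fun a => DU s a x') a‖
      ≤ ∑ a, ∑ x', ∑ s ∈ range (n+1), R ^ s * ‖cv L (zeta r) s (fun a => DU s a x') a‖ := by
        refine sum_le_sum fun a _ => sum_le_sum fun x' _ => ?_
        refine (norm_sum_le _ _).trans (sum_le_sum fun s _ => le_of_eq ?_)
        rw [norm_mul, Complex.norm_real, Real.norm_eq_abs, abs_of_pos (by positivity)]
    _ = ∑ s ∈ range (n+1), R ^ s * ∑ x', ∑ a, ‖cv L (zeta r) s (fun a => DU s a x') a‖ := by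
        simp only [mul_sum]
        rw [sum_comm, sum_congr rfl fun x' _ => sum_comm, sum_comm]
    _ ≤ ∑ s ∈ range (n+1), R ^ s * ∑ x', 100 * B * ∑ a, ‖DU s a x'‖ := by
        refine sum_le_sum fun s hs => ?_
        rw [mem_range] at hs
        refine mul_le_mul_of_nonneg_left (sum_le_sum fun x' _ => ?_) (by positivity)
        exact cv_l1 hz.sym (by omega) _
    _ = ∑ s ∈ range (n+1), R ^ s * (100 * B * ∑ a, ∑ x', ‖DU s a x'‖) := by
        refine sum_congr rfl fun s _ => ?_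
        rw [← mul_sum, sum_comm]
    _ ≤ ∑ s ∈ range (n+1), R ^ s * (100 * B * (C * ((n:ℝ) + 1) ^ m * R ^ (n - s)
          * (100 * B * ∑ a, ∑ x', ‖f (Fin.cons a x')‖))) := by
        refine sum_le_sum fun s hs => ?_
        refine mul_le_mul_of_nonneg_left ?_ (by positivity)
        refine mul_le_mul_of_nonneg_left ?_ (by positivity)
        calc _ ≤ ∑ a, C * ((n:ℝ) + 1) ^ m * R ^ (n - s) * ∑ x', ‖U s a x'‖ :=
              sum_le_sum fun a _ => s1 s hs a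
          _ = C * ((n:ℝ) + 1) ^ m * R ^ (n - s) * ∑ a, ∑ x', ‖U s a x'‖ := by rw [← mul_sum]
          _ ≤ _ := mul_le_mul_of_nonneg_left (s2 s hs) (by positivity)
    _ = ∑ s ∈ range (n+1), C * (100 * B) ^ 2 * ((n:ℝ) + 1) ^ m * R ^ n
          * ∑ a, ∑ x', ‖f (Fin.cons a x')‖ := by
        refine sum_congr rfl fun s hs => ?_
        rw [mem_range] at hs
        have : R ^ n = R ^ s * R ^ (n - s) := by rw [← pow_add]; congr 1; omega
        rw [this]; ring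
    _ = _ := by
        rw [sum_const, card_range, nsmul_eq_mul]
        push_cast
        ring

theorem st_all {r : ℝ} (hr : 0 < r) (m : ℕ) : St r m := by
  induction m with
  | zero => exact st_zero hr
  | succ m ih => exact st_succ hr ih

end HC

end

section
/-!
Transfer to the torus.
-/

open MeasureTheory Finset

namespace HC

section box
variable {T : ℝ} [hT : Fact (0 < T)] {d : ℕ}

lemma box_int (Φ : (Fin d → AddCircle T) → ℝ) (h : Continuous Φ) :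
    ∫ x in Set.pi Set.univ (fun _ : Fin d => Set.Ico (0:ℝ) T), Φ (fun j => (x j : AddCircle T))
      = ∫ t, Φ t := by
  have h0 : (Set.pi Set.univ (fun _ : Fin d => Set.Ico (0:ℝ) T) : Set (Fin d → ℝ))
      =ᵐ[volume] Set.pi Set.univ (fun _ : Fin d => Set.Ioc (0:ℝ) T) :=
    (Measure.pi_Ico_ae_eq_pi_Icc (μ := fun _ : Fin d => (volume : Measure ℝ)) (s := Set.univ)
      (f := fun _ => 0) (g := fun _ => T)).trans
    (Measure.pi_Ioc_ae_eq_pi_Icc (μ := fun _ : Fin d => (volume : Measure ℝ)) (s := Set.univ)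
      (f := fun _ => 0) (g := fun _ => T)).symm
  rw [setIntegral_congr_set h0]
  have h1 : MeasurePreserving (fun (a : Fin d → ℝ) (i : Fin d) => ((a i : ℝ) : AddCircle T))
      (Measure.pi fun _ : Fin d => (volume : Measure ℝ).restrict (Set.Ioc 0 T))
      (Measure.pi fun _ : Fin d => (volume : Measure (AddCircle T))) :=
    measurePreserving_pi _ _ (fun i => by
      have := AddCircle.measurePreserving_mk T 0
      rwa [zero_add] at this)
  have h2 : (volume : Measure (Fin d → ℝ)).restrict (Set.pi Set.univ (fun _ : Fin d => Set.Ioc (0:ℝ) T))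
      = Measure.pi fun _ : Fin d => (volume : Measure ℝ).restrict (Set.Ioc 0 T) :=
    Measure.restrict_pi_pi (fun _ : Fin d => (volume : Measure ℝ)) (fun _ => Set.Ioc 0 T)
  rw [h2]
  have h3 := integral_map h1.measurable.aemeasurable (f := Φ) (by
    rw [h1.map_eq]; exact h.aestronglyMeasurable)
  rw [h1.map_eq] at h3
  exact h3.symm

lemma int_shift (Φ : (Fin d → AddCircle T) → ℝ) (h : Continuous Φ) {ι : Type} [Fintype ι]
    (w : ι → Fin d → AddCircle T) :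
    (Fintype.card ι : ℝ) * ∫ t, Φ t = ∫ t, ∑ a, Φ (t + w a) := by
  rw [integral_finsetSum]
  · have : ∀ a ∈ (univ : Finset ι), ∫ t, Φ (t + w a) = ∫ t, Φ t := fun a _ =>
      integral_add_right_eq_self Φ (w a)
    rw [sum_congr rfl this, sum_const, card_univ, nsmul_eq_mul]
  · intro a _
    exact (h.comp (continuous_add_const (w a))).integrable_of_hasCompactSupport
      (HasCompactSupport.of_compactSpace _)

end box

instance fact_two_pi : Fact (0 < 2 * Real.pi) := ⟨Real.two_pi_pos⟩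

/-- character of the torus -/
noncomputable def et {d : ℕ} (k : Fin d → ℤ) (t : Fin d → AddCircle (2 * Real.pi)) : ℂ :=
  ∏ j, fourier (k j) (t j)

lemma et_cont {d : ℕ} (k : Fin d → ℤ) : Continuous (et k) := by
  unfold et
  exact continuous_finsetProd _ fun j _ => (fourier (k j)).continuous.comp (continuous_apply j)

/-- grid shifts -/
noncomputable def gs {d L : ℕ} (a : Fin d → ZMod (2 ^ L)) (j : Fin d) : AddCircle (2 * Real.pi) :=
  ((2 * Real.pi * ((a j).val : ℝ) / 2 ^ L : ℝ) : AddCircle (2 * Real.pi))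

lemma et_shift {d L : ℕ} (k : Fin d → ℤ) (t : Fin d → AddCircle (2 * Real.pi))
    (a : Fin d → ZMod (2 ^ L)) : et k (t + gs a) = et k t * exd k a := by
  unfold et exd
  rw [← prod_mul_distrib]
  refine prod_congr rfl fun j _ => ?_
  rw [Pi.add_apply, fourier_apply, fourier_apply, smul_add, AddCircle.toCircle_add, Circle.coe_mul]
  congr 1
  rw [← fourier_apply]
  unfold gs
  rw [fourier_coe_apply]
  unfold ex
  have h1 : ((k j : ℤ) : ZMod (2 ^ L)) * a j = ((k j * (a j).val : ℤ) : ZMod (2 ^ L)) := by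
    push_cast
    rw [ZMod.natCast_zmod_val]
  rw [h1, chr_int]
  unfold ee
  congr 1
  have hpi : (Real.pi : ℂ) ≠ 0 := by exact_mod_cast Real.pi_ne_zero
  push_cast
  field_simp

/-- the transferred inequality -/
theorem torus_le {r : ℝ} (hr : 0 < r) (m : ℕ) : ∃ C : ℝ, 0 ≤ C ∧ ∀ n : ℕ,
    ∀ (S : Finset (Fin (m+2) → ℤ)) (c : (Fin (m+2) → ℤ) → ℂ), (∀ k ∈ S, cross n k) →
      ∫ t, ‖∑ k ∈ S, c k * (∏ j, wd r (k j)) * et k t‖
        ≤ C * ((n:ℝ) + 1) ^ m * ((2:ℝ) ^ r) ^ n * ∫ t, ‖∑ k ∈ S, c k * et k t‖ := by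
  obtain ⟨C, hC, K, h⟩ := st_all hr m
  refine ⟨C, hC, ?_⟩
  intro n S c hS
  set L := n + K + 4 with hL
  set F : (Fin (m+2) → AddCircle (2 * Real.pi)) → ℝ :=
    fun t => ‖∑ k ∈ S, c k * (∏ j, wd r (k j)) * et k t‖ with hF
  set f : (Fin (m+2) → AddCircle (2 * Real.pi)) → ℝ := fun t => ‖∑ k ∈ S, c k * et k t‖ with hf
  have cF : Continuous F := (continuous_finsetSum _ fun k _ =>
    continuous_const.mul (et_cont k)).norm
  have cf : Continuous f := (continuous_finsetSum _ fun k _ =>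
    continuous_const.mul (et_cont k)).norm
  have e1 := int_shift F cF (gs (d := m+2) (L := L))
  have e2 := int_shift f cf (gs (d := m+2) (L := L))
  have key : ∀ t, ∑ a : Fin (m+2) → ZMod (2 ^ L), F (t + gs a)
      ≤ (C * ((n:ℝ) + 1) ^ m * ((2:ℝ) ^ r) ^ n) * ∑ a : Fin (m+2) → ZMod (2 ^ L), f (t + gs a) := by
    intro t
    have h1 := h n L le_rfl (Fin (m+2) → ℤ) S (fun k => k) (fun k => c k * et k t) hS
    have a1 : ∀ a : Fin (m+2) → ZMod (2 ^ L), F (t + gs a)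
        = ‖∑ k ∈ S, c k * et k t * (∏ j, wd r (k j)) * exd k a‖ := by
      intro a
      simp only [hF]
      congr 1
      refine sum_congr rfl fun k _ => ?_
      rw [et_shift]; ring
    have a2 : ∀ a : Fin (m+2) → ZMod (2 ^ L), f (t + gs a)
        = ‖∑ k ∈ S, c k * et k t * exd k a‖ := by
      intro a
      simp only [hf]
      congr 1
      refine sum_congr rfl fun k _ => ?_
      rw [et_shift]; ring
    simp only [a1, a2]
    exact h1
  have hI : ∀ Φ : (Fin (m+2) → AddCircle (2 * Real.pi)) → ℝ, Continuous Φ →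
      Integrable (fun t => ∑ a : Fin (m+2) → ZMod (2 ^ L), Φ (t + gs a)) := by
    intro Φ hΦ
    refine (continuous_finsetSum _ fun a _ => ?_).integrable_of_hasCompactSupport
      (HasCompactSupport.of_compactSpace _)
    exact hΦ.comp (continuous_add_const _)
  have h2 := integral_mono (hI F cF) ((hI f cf).const_mul _) key
  rw [integral_const_mul, ← e1, ← e2] at h2
  have hc : (0:ℝ) < Fintype.card (Fin (m+2) → ZMod (2 ^ L)) := by
    have := Fintype.card_pos (α := Fin (m+2) → ZMod (2 ^ L))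
    exact_mod_cast this
  refine le_of_mul_le_mul_left (h2.trans (le_of_eq ?_)) hc
  ring

end HC

end
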