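import Mathlib

section
/-!
Abstract dyadic filtrations on a finite type, and the averaging operators.
-/

open Finset

namespace HC

/-- A dyadic-type filtration on a finite set: level `j` cells are the fibres of `c j`, all of
size `n j`, the level `j+1` cells refine the level `j` cells and have at least half their size. -/
structure Dy (X : Type) [Fintype X] where
  c : ℕ → X → ℕ
  n : ℕ → ℕ
  npos : ∀ j, 0 < n j
  nest : ∀ j x y, c (j + 1) x = c (j + 1) y → c j x = c j y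
  card : ∀ j x, (univ.filter fun y => c j y = c j x).card = n j
  half : ∀ j, n j ≤ 2 * n (j + 1)

variable {X : Type} [Fintype X] (D : Dy X)

/-- average over the level `j` cell -/
noncomputable def Dy.E {F : Type*} [AddCommGroup F] [Module ℝ F] (j : ℕ) (g : X → F) (x : X) : F :=
  ((D.n j : ℝ))⁻¹ • ∑ y ∈ univ.filter (fun y => D.c j y = D.c j x), g y

/-- `g` is constant on the level `j` cells -/
def Dy.Meas {F : Type*} (j : ℕ) (g : X → F) : Prop := ∀ x y, D.c j x = D.c j y → g x = g y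

namespace Dy

variable {D}

section gen
variable {F : Type*} [AddCommGroup F] [Module ℝ F]

lemma nest' {i j : ℕ} (h : i ≤ j) {x y : X} (hxy : D.c j x = D.c j y) : D.c i x = D.c i y := by
  induction j, h using Nat.le_induction with
  | base => exact hxy
  | succ j hj ih => exact ih (D.nest j x y hxy)

lemma Meas.mono {i j : ℕ} (h : i ≤ j) {F : Type*} {g : X → F} (hg : D.Meas i g) : D.Meas j g :=
  fun x y hxy => hg x y (nest' h hxy)

lemma Meas.const {F : Type*} (j : ℕ) (b : F) : D.Meas j (fun _ => b) := fun _ _ _ => rfl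

lemma Meas.comp {F H : Type*} {j : ℕ} {g : X → F} (hg : D.Meas j g) (φ : F → H) :
    D.Meas j (fun x => φ (g x)) := fun x y h => by simp only [hg x y h]

lemma Meas.comp₂ {F G H : Type*} {j : ℕ} {g : X → F} {h : X → G} (hg : D.Meas j g)
    (hh : D.Meas j h) (φ : F → G → H) :
    D.Meas j (fun x => φ (g x) (h x)) := fun x y e => by simp only [hg x y e, hh x y e]

lemma E_meas (j : ℕ) (g : X → F) : D.Meas j (D.E j g) := by
  intro x y h
  simp only [E, h]

lemma E_congr_cell {j : ℕ} {g h : X → F} {x : X} (H : ∀ y, D.c j y = D.c j x → g y = h y) :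
    D.E j g x = D.E j h x := by
  unfold E
  congr 1
  refine sum_congr rfl fun y hy => H y ?_
  simpa using hy

lemma E_add (j : ℕ) (g h : X → F) (x : X) :
    D.E j (fun x => g x + h x) x = D.E j g x + D.E j h x := by
  simp [E, sum_add_distrib]

lemma E_sub (j : ℕ) (g h : X → F) (x : X) :
    D.E j (fun x => g x - h x) x = D.E j g x - D.E j h x := by
  simp [E, sum_sub_distrib, smul_sub]

lemma E_neg (j : ℕ) (g : X → F) (x : X) :
    D.E j (fun x => - g x) x = - D.E j g x := by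
  simp [E]

lemma E_smul (j : ℕ) (b : ℝ) (g : X → F) (x : X) :
    D.E j (fun x => b • g x) x = b • D.E j g x := by
  simp only [E, ← smul_sum, smul_smul, mul_comm]

lemma E_sum {ι : Type*} (j : ℕ) (s : Finset ι) (g : ι → X → F) (x : X) :
    D.E j (fun x => ∑ i ∈ s, g i x) x = ∑ i ∈ s, D.E j (g i) x := by
  simp only [E]
  rw [sum_comm, smul_sum]

lemma n_ne (j : ℕ) : (D.n j : ℝ) ≠ 0 := by exact_mod_cast (D.npos j).ne'

lemma n_pos' (j : ℕ) : (0:ℝ) < (D.n j : ℝ) := by exact_mod_cast (D.npos j)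

lemma E_of_meas {j : ℕ} {g : X → F} (hg : D.Meas j g) (x : X) : D.E j g x = g x := by
  unfold E
  have : ∑ y ∈ univ.filter (fun y => D.c j y = D.c j x), g y
      = ∑ y ∈ univ.filter (fun y => D.c j y = D.c j x), g x := by
    refine sum_congr rfl fun y hy => hg y x ?_
    simpa using hy
  rw [this, sum_const, D.card, ← Nat.cast_smul_eq_nsmul ℝ, smul_smul, inv_mul_cancel₀ (n_ne j),
    one_smul]

lemma E_const (j : ℕ) (b : F) (x : X) : D.E j (fun _ => b) x = b :=
  E_of_meas (Meas.const j b) x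

/-- tower, coarse outside -/
lemma E_E_fine {i j : ℕ} (h : i ≤ j) (g : X → F) (x : X) : D.E j (D.E i g) x = D.E i g x :=
  E_of_meas ((E_meas i g).mono h) x

lemma sum_E (j : ℕ) (g : X → F) : ∑ x, D.E j g x = ∑ x, g x := by
  simp only [E, ← smul_sum]
  have : ∑ x, ∑ y ∈ univ.filter (fun y => D.c j y = D.c j x), g y
      = ∑ y, ∑ x ∈ univ.filter (fun x => D.c j x = D.c j y), g y := by
    simp only [sum_filter]
    rw [sum_comm]
    refine sum_congr rfl fun y _ => sum_congr rfl fun x _ => ?_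
    simp only [eq_comm]
  rw [this]
  simp only [sum_const, D.card, ← Nat.cast_smul_eq_nsmul ℝ, ← smul_sum, smul_smul]
  rw [inv_mul_cancel₀ (n_ne j), one_smul]

/-- tower, coarse inside -/
lemma E_E_coarse {i j : ℕ} (h : i ≤ j) (g : X → F) (x : X) : D.E i (D.E j g) x = D.E i g x := by
  simp only [E]
  congr 1
  rw [← smul_sum]
  have : ∑ y ∈ univ.filter (fun y => D.c i y = D.c i x),
      ∑ z ∈ univ.filter (fun z => D.c j z = D.c j y), g z
      = ∑ z ∈ univ.filter (fun y => D.c i y = D.c i x),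
        ∑ y ∈ univ.filter (fun y => D.c j y = D.c j z), g z := by
    refine sum_comm' fun y z => ?_
    simp only [mem_filter, mem_univ, true_and]
    constructor
    · rintro ⟨h1, h2⟩
      exact ⟨h2.symm, (nest' h h2).trans h1⟩
    · rintro ⟨h1, h2⟩
      exact ⟨(nest' h h1).trans h2, h1.symm⟩
  rw [this]
  simp only [sum_const, D.card, ← Nat.cast_smul_eq_nsmul ℝ, ← smul_sum, smul_smul]
  rw [inv_mul_cancel₀ (n_ne j), one_smul]

end gen

section real

lemma E_mono {j : ℕ} {g h : X → ℝ} (H : ∀ y, g y ≤ h y) (x : X) : D.E j g x ≤ D.E j h x := by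
  simp only [E, smul_eq_mul]
  exact mul_le_mul_of_nonneg_left (sum_le_sum fun y _ => H y) (inv_nonneg.2 (n_pos' j).le)

lemma E_mono_cell {j : ℕ} {g h : X → ℝ} {x : X} (H : ∀ y, D.c j y = D.c j x → g y ≤ h y) :
    D.E j g x ≤ D.E j h x := by
  simp only [E, smul_eq_mul]
  refine mul_le_mul_of_nonneg_left (sum_le_sum fun y hy => H y ?_) (inv_nonneg.2 (n_pos' j).le)
  simpa using hy

lemma E_nonneg {j : ℕ} {g : X → ℝ} (H : ∀ y, 0 ≤ g y) (x : X) : 0 ≤ D.E j g x := by
  simp only [E, smul_eq_mul]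
  exact mul_nonneg (inv_nonneg.2 (n_pos' j).le) (sum_nonneg fun y _ => H y)

lemma E_pos {j : ℕ} {g : X → ℝ} (H : ∀ y, 0 < g y) (x : X) : 0 < D.E j g x := by
  simp only [E, smul_eq_mul]
  refine mul_pos (inv_pos.2 (n_pos' j)) (sum_pos (fun y _ => H y) ⟨x, by simp⟩)

lemma E_mul (j : ℕ) (b : ℝ) (g : X → ℝ) (x : X) :
    D.E j (fun x => b * g x) x = b * D.E j g x := by
  simpa using E_smul (D := D) j b g x

lemma E_mul_meas {j : ℕ} {g h : X → ℝ} (hg : D.Meas j g) (x : X) :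
    D.E j (fun x => g x * h x) x = g x * D.E j h x := by
  have : D.E j (fun x => g x * h x) x = D.E j (fun y => g x * h y) x :=
    E_congr_cell fun y hy => by rw [hg y x hy]
  rw [this, E_mul]

lemma E_meas_mul {j : ℕ} {g h : X → ℝ} (hg : D.Meas j g) (x : X) :
    D.E j (fun x => h x * g x) x = D.E j h x * g x := by
  have := E_mul_meas (D := D) (h := h) hg x
  simpa [mul_comm] using this

lemma sum_mul_E {j : ℕ} {g h : X → ℝ} (hg : D.Meas j g) :
    ∑ x, g x * D.E j h x = ∑ x, g x * h x := by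
  rw [← sum_E (D := D) j (fun x => g x * h x)]
  exact sum_congr rfl fun x _ => (E_mul_meas hg x).symm

lemma sum_E_mul {j : ℕ} {g h : X → ℝ} (hg : D.Meas j g) :
    ∑ x, D.E j h x * g x = ∑ x, h x * g x := by
  have := sum_mul_E (D := D) (h := h) hg
  simpa [mul_comm] using this

lemma abs_E_le {j : ℕ} (g : X → ℝ) (x : X) : |D.E j g x| ≤ D.E j (fun y => |g y|) x := by
  simp only [E, smul_eq_mul]
  rw [abs_mul, abs_of_nonneg (inv_nonneg.2 (n_pos' (D := D) j).le)]
  exact mul_le_mul_of_nonneg_left (abs_sum_le_sum_abs _ _) (inv_nonneg.2 (n_pos' j).le)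

lemma norm_E_le {F : Type*} [NormedAddCommGroup F] [NormedSpace ℝ F] {j : ℕ} (g : X → F) (x : X) :
    ‖D.E j g x‖ ≤ D.E j (fun y => ‖g y‖) x := by
  simp only [E, smul_eq_mul]
  rw [norm_smul, Real.norm_eq_abs, abs_of_nonneg (inv_nonneg.2 (n_pos' (D := D) j).le)]
  exact mul_le_mul_of_nonneg_left (norm_sum_le _ _) (inv_nonneg.2 (n_pos' j).le)

lemma E_succ_le {j : ℕ} {g : X → ℝ} (H : ∀ y, 0 ≤ g y) (x : X) :
    D.E (j + 1) g x ≤ 2 * D.E j g x := by
  simp only [E, smul_eq_mul]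
  have h1 : ∑ y ∈ univ.filter (fun y => D.c (j+1) y = D.c (j+1) x), g y
      ≤ ∑ y ∈ univ.filter (fun y => D.c j y = D.c j x), g y := by
    refine sum_le_sum_of_subset_of_nonneg ?_ fun y _ _ => H y
    intro y hy
    simp only [mem_filter, mem_univ, true_and] at hy ⊢
    exact D.nest j y x hy
  have h2 : ((D.n (j+1) : ℝ))⁻¹ ≤ 2 * ((D.n j : ℝ))⁻¹ := by
    have h3 : (D.n j : ℝ) ≤ 2 * (D.n (j+1) : ℝ) := by exact_mod_cast D.half j
    have h4 := n_pos' (D := D) j
    have h5 := n_pos' (D := D) (j+1)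
    rw [inv_eq_one_div, inv_eq_one_div, mul_one_div, div_le_div_iff₀ h5 h4]
    linarith
  calc _ ≤ (2 * ((D.n j : ℝ))⁻¹) * ∑ y ∈ univ.filter (fun y => D.c j y = D.c j x), g y :=
        mul_le_mul h2 h1 (sum_nonneg fun y _ => H y) (by have := n_pos' (D := D) j; positivity)
    _ = _ := by ring

lemma E_add_le {i j : ℕ} {g : X → ℝ} (H : ∀ y, 0 ≤ g y) (x : X) :
    D.E (i + j) g x ≤ 2 ^ j * D.E i g x := by
  induction j with
  | zero => simp
  | succ j ih =>
    calc D.E (i + (j + 1)) g x ≤ 2 * D.E (i + j) g x := E_succ_le H x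
      _ ≤ 2 * (2 ^ j * D.E i g x) := by linarith
      _ = _ := by ring

/-- Cauchy-Schwarz for averages in the form `(E g)² ≤ E (g²/w) E w`. -/
lemma E_sq_le {j : ℕ} {g w : X → ℝ} (hw : ∀ y, 0 < w y) (x : X) :
    (D.E j g x) ^ 2 ≤ D.E j (fun y => g y ^ 2 / w y) x * D.E j w x := by
  simp only [E, smul_eq_mul]
  have h1 : (∑ y ∈ univ.filter (fun y => D.c j y = D.c j x), g y) ^ 2
      ≤ (∑ y ∈ univ.filter (fun y => D.c j y = D.c j x), g y ^ 2 / w y)
        * ∑ y ∈ univ.filter (fun y => D.c j y = D.c j x), w y := by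
    refine sum_sq_le_sum_mul_sum_of_sq_le_mul _ (fun y _ => by have := hw y; positivity)
      (fun y _ => (hw y).le) fun y _ => le_of_eq ?_
    have := (hw y).ne'
    field_simp
  have h2 : (0:ℝ) ≤ ((D.n j : ℝ))⁻¹ ^ 2 := by positivity
  calc _ = ((D.n j : ℝ))⁻¹ ^ 2 * (∑ y ∈ univ.filter (fun y => D.c j y = D.c j x), g y) ^ 2 := by
        ring
    _ ≤ _ := mul_le_mul_of_nonneg_left h1 h2
    _ = _ := by ring

end real

end Dy

end HC

end

section
/-!
One-dimensional facts on weights `v = σ^(-q)` with `σ` a dyadic `A_1` weight, and the weighted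
square function estimate.
-/

open Finset

namespace HC

lemma rpow_neg_ge_line {t q : ℝ} (ht : 0 < t) (hq : 0 ≤ q) : 1 - q * (t - 1) ≤ t ^ (-q) := by
  rw [Real.rpow_def_of_pos ht]
  have h1 : Real.log t ≤ t - 1 := Real.log_le_sub_one_of_pos ht
  have h2 : Real.log t * (-q) + 1 ≤ Real.exp (Real.log t * (-q)) := Real.add_one_le_exp _
  nlinarith

namespace Dy
variable {X : Type} [Fintype X] {D : Dy X}

section
variable {σ : X → ℝ} {A q : ℝ}

lemma jensen_neg (hσ : ∀ x, 0 < σ x) (hq : 0 ≤ q) (j : ℕ) (x : X) :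
    (D.E j σ x) ^ (-q) ≤ D.E j (fun y => σ y ^ (-q)) x := by
  have hE : 0 < D.E j σ x := E_pos hσ x
  set e := D.E j σ x with he
  have h1 : ∀ y, e ^ (-q) * (1 + q) - (q * e ^ (-q) * e⁻¹) * σ y ≤ σ y ^ (-q) := by
    intro y
    have h2 := rpow_neg_ge_line (t := σ y / e) (div_pos (hσ y) hE) hq
    rw [Real.div_rpow (hσ y).le hE.le] at h2
    have h3 : 0 < e ^ (-q) := Real.rpow_pos_of_pos hE _
    rw [le_div_iff₀ h3] at h2
    calc _ = (1 - q * (σ y / e - 1)) * e ^ (-q) := by field_simp; ring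
      _ ≤ _ := h2
  calc e ^ (-q) = e ^ (-q) * (1 + q) - (q * e ^ (-q) * e⁻¹) * e := by field_simp; ring
    _ = D.E j (fun y => e ^ (-q) * (1 + q) - (q * e ^ (-q) * e⁻¹) * σ y) x := by
        rw [E_sub, E_const, E_mul]
    _ ≤ _ := E_mono h1 x

lemma v_le (hσ : ∀ x, 0 < σ x) (hq : 0 ≤ q) (hA0 : 0 < A) (hA : ∀ j x, D.E j σ x ≤ A * σ x)
    (j : ℕ) (x : X) : σ x ^ (-q) ≤ A ^ q * (D.E j σ x) ^ (-q) := by
  have hE : 0 < D.E j σ x := E_pos hσ x
  have h1 : D.E j σ x / A ≤ σ x := by rw [div_le_iff₀ hA0]; linarith [hA j x]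
  have h2 : σ x ^ (-q) ≤ (D.E j σ x / A) ^ (-q) :=
    Real.rpow_le_rpow_of_nonpos (div_pos hE hA0) h1 (by linarith)
  refine h2.trans (le_of_eq ?_)
  rw [Real.div_rpow hE.le hA0.le, Real.rpow_neg hA0.le, div_eq_mul_inv, inv_inv, mul_comm]

lemma v_le_Ev (hσ : ∀ x, 0 < σ x) (hq : 0 ≤ q) (hA0 : 0 < A) (hA : ∀ j x, D.E j σ x ≤ A * σ x)
    (j : ℕ) (x : X) : σ x ^ (-q) ≤ A ^ q * D.E j (fun y => σ y ^ (-q)) x :=
  (v_le hσ hq hA0 hA j x).trans
    (mul_le_mul_of_nonneg_left (jensen_neg hσ hq j x) (Real.rpow_nonneg hA0.le _))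

lemma Ev_le (hσ : ∀ x, 0 < σ x) (hq : 0 ≤ q) (hA0 : 0 < A) (hA : ∀ j x, D.E j σ x ≤ A * σ x)
    (j : ℕ) (x : X) : D.E j (fun y => σ y ^ (-q)) x ≤ A ^ q * (D.E j σ x) ^ (-q) := by
  calc _ ≤ D.E j (fun y => A ^ q * (D.E j σ y) ^ (-q)) x := E_mono (v_le hσ hq hA0 hA j) x
    _ = _ := by
      rw [E_of_meas]
      exact ((E_meas j σ).comp fun t => A ^ q * t ^ (-q))

lemma Ev_double (hσ : ∀ x, 0 < σ x) (hq : 0 ≤ q) (hA0 : 0 < A)
    (hA : ∀ j x, D.E j σ x ≤ A * σ x)
    (j : ℕ) (x : X) : D.E j (fun y => σ y ^ (-q)) x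
      ≤ 2 ^ q * A ^ q * D.E (j + 1) (fun y => σ y ^ (-q)) x := by
  have h1 := Ev_le (D := D) hσ hq hA0 hA j x
  have h2 := jensen_neg (D := D) hσ hq (j + 1) x
  have h3 : D.E (j + 1) σ x ≤ 2 * D.E j σ x := E_succ_le (fun y => (hσ y).le) x
  have h4 : 0 < D.E j σ x := E_pos hσ x
  have h5 : 0 < D.E (j+1) σ x := E_pos hσ x
  have h6 : (2 * D.E j σ x) ^ (-q) ≤ (D.E (j + 1) σ x) ^ (-q) :=
    Real.rpow_le_rpow_of_nonpos h5 h3 (by linarith)
  have h7 : (D.E j σ x) ^ (-q) = 2 ^ q * (2 * D.E j σ x) ^ (-q) := by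
    rw [Real.mul_rpow (by norm_num) h4.le, ← mul_assoc, ← Real.rpow_add (by norm_num)]
    simp
  calc _ ≤ A ^ q * (D.E j σ x) ^ (-q) := h1
    _ = (2 ^ q * A ^ q) * (2 * D.E j σ x) ^ (-q) := by rw [h7]; ring
    _ ≤ (2 ^ q * A ^ q) * D.E (j + 1) (fun y => σ y ^ (-q)) x :=
        mul_le_mul_of_nonneg_left (h6.trans h2) (by positivity)

/-- the cost of averaging a function measurable on a finer level. -/
lemma avg_cost (hσ : ∀ x, 0 < σ x) (hq : 1 ≤ q) (hA0 : 0 < A) (hA : ∀ j x, D.E j σ x ≤ A * σ x)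
    (k p : ℕ) {h : X → ℝ} (hm : D.Meas (k + p) h) :
    ∑ x, σ x ^ (-q) * (D.E k h x) ^ 2
      ≤ A ^ q * (2 ^ p) ^ (q - 1) * ∑ x, σ x ^ (-q) * h x ^ 2 := by
  set v : X → ℝ := fun x => σ x ^ (-q) with hv
  have hv0 : ∀ x, 0 < v x := fun x => Real.rpow_pos_of_pos (hσ x) _
  set V : X → ℝ := D.E (k + p) v with hV
  have hV0 : ∀ x, 0 < V x := fun x => E_pos hv0 x
  have hq0 : 0 ≤ q := by linarith
  -- the pointwise bound
  have key : ∀ x, v x * D.E k (fun y => (V y)⁻¹) x ≤ A ^ q * (2 ^ p) ^ (q - 1) := by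
    intro x
    have hs : 0 < D.E k σ x := E_pos hσ x
    have h1 : D.E k (fun y => (V y)⁻¹) x
        ≤ D.E k (fun y => (2 ^ p * D.E k σ y) ^ (q - 1) * D.E (k + p) σ y) x := by
      refine E_mono (fun y => ?_) x
      have hs1 : 0 < D.E (k + p) σ y := E_pos hσ y
      have h2 : (D.E (k + p) σ y) ^ (-q) ≤ V y := jensen_neg hσ hq0 (k + p) y
      have h3 : (V y)⁻¹ ≤ (D.E (k + p) σ y) ^ q := by
        rw [inv_le_comm₀ (hV0 y) (Real.rpow_pos_of_pos hs1 _), ← Real.rpow_neg hs1.le]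
        exact h2
      have h4 : (D.E (k + p) σ y) ^ q = (D.E (k + p) σ y) ^ (q - 1) * D.E (k + p) σ y := by
        rw [← Real.rpow_add_one hs1.ne']; ring_nf
      have h5 : D.E (k + p) σ y ≤ 2 ^ p * D.E k σ y := E_add_le (fun y => (hσ y).le) y
      calc (V y)⁻¹ ≤ _ := h3
        _ = _ := h4
        _ ≤ _ := mul_le_mul_of_nonneg_right
            (Real.rpow_le_rpow hs1.le h5 (by linarith)) hs1.le
    have h6 : D.E k (fun y => (2 ^ p * D.E k σ y) ^ (q - 1) * D.E (k + p) σ y) x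
        = (2 ^ p * D.E k σ x) ^ (q - 1) * D.E k σ x := by
      rw [E_mul_meas ((E_meas k σ).comp fun t => (2 ^ p * t) ^ (q - 1))]
      congr 1
      exact E_E_coarse (Nat.le_add_right k p) σ x
    have h7 : (2 ^ p * D.E k σ x) ^ (q - 1) * D.E k σ x
        = (2 ^ p) ^ (q - 1) * (D.E k σ x) ^ q := by
      rw [Real.mul_rpow (by positivity) hs.le, mul_assoc, ← Real.rpow_add_one hs.ne']
      ring_nf
    have h8 : v x ≤ A ^ q * (D.E k σ x) ^ (-q) := v_le hσ hq0 hA0 hA k x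
    have h9 : 0 ≤ D.E k (fun y => (V y)⁻¹) x := E_nonneg (fun y => (inv_pos.2 (hV0 y)).le) x
    have h10 : (D.E k σ x) ^ (-q) * (D.E k σ x) ^ q = 1 := by
      rw [← Real.rpow_add hs]; simp
    calc v x * D.E k (fun y => (V y)⁻¹) x
        ≤ (A ^ q * (D.E k σ x) ^ (-q)) * ((2 ^ p) ^ (q - 1) * (D.E k σ x) ^ q) := by
          refine mul_le_mul h8 (by rw [← h7, ← h6]; exact h1) h9 (by positivity)
      _ = A ^ q * (2 ^ p) ^ (q - 1) * ((D.E k σ x) ^ (-q) * (D.E k σ x) ^ q) := by ring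
      _ = _ := by rw [h10, mul_one]
  calc ∑ x, v x * (D.E k h x) ^ 2
      ≤ ∑ x, v x * (D.E k (fun y => h y ^ 2 / (V y)⁻¹) x * D.E k (fun y => (V y)⁻¹) x) := by
        refine sum_le_sum fun x _ => mul_le_mul_of_nonneg_left ?_ (hv0 x).le
        exact E_sq_le (fun y => inv_pos.2 (hV0 y)) x
    _ ≤ ∑ x, (A ^ q * (2 ^ p) ^ (q - 1)) * D.E k (fun y => h y ^ 2 / (V y)⁻¹) x := by
        refine sum_le_sum fun x _ => ?_
        have h1 : 0 ≤ D.E k (fun y => h y ^ 2 / (V y)⁻¹) x :=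
          E_nonneg (fun y => div_nonneg (sq_nonneg _) (inv_pos.2 (hV0 y)).le) x
        calc _ = (v x * D.E k (fun y => (V y)⁻¹) x) * D.E k (fun y => h y ^ 2 / (V y)⁻¹) x := by
              ring
          _ ≤ _ := mul_le_mul_of_nonneg_right (key x) h1
    _ = (A ^ q * (2 ^ p) ^ (q - 1)) * ∑ x, h x ^ 2 * V x := by
        rw [← mul_sum, sum_E]
        congr 1
        refine sum_congr rfl fun x _ => ?_
        rw [div_inv_eq_mul]
    _ = _ := by
        congr 1
        rw [sum_mul_E (hm.comp fun t => t ^ 2)]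
        exact sum_congr rfl fun x _ => mul_comm _ _

end

end Dy
end HC

end

section
/-!
Weighted square function estimate (dual form), one dimension:
`∑_k ∑_x (Δ_k g)² / E_k w ≤ C ∑_x g² / w`.
-/

open Finset

namespace HC

lemma sqrt_one_add_le {t : ℝ} (h1 : -1 ≤ t) (h2 : t ≤ 1) :
    Real.sqrt (1 + t) ≤ 1 + t / 2 - t ^ 2 / 12 := by
  have h0 : 0 ≤ 1 + t / 2 - t ^ 2 / 12 := by nlinarith
  rw [Real.sqrt_le_left h0]
  have h3 : 0 ≤ 12 - 12 * t + t ^ 2 := by nlinarith
  have h4 : 0 ≤ t ^ 2 * (12 - 12 * t + t ^ 2) := mul_nonneg (sq_nonneg _) h3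
  nlinarith

namespace Dy
variable {X : Type} [Fintype X] {D : Dy X}

section
variable {w : X → ℝ} {a c : ℝ}

/-- Carleson packing for a weight with `w ≤ a E_k w`. -/
lemma carleson_pack (hw : ∀ x, 0 < w x) (ha : ∀ k x, w x ≤ a * D.E k w x)
    (k K : ℕ) (hk : k ≤ K) (x : X) :
    D.E k (fun y => ∑ i ∈ Ico k K, (D.E (i + 1) w y - D.E i w y) ^ 2 / D.E i w y) x
      ≤ 12 * Real.sqrt a * D.E k w x := by
  have hE : ∀ i y, 0 < D.E i w y := fun i y => E_pos hw y
  have ha0 : 0 < a := by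
    have h1 := ha 0 x
    have h2 := hw x
    have h3 := hE 0 x
    by_contra h
    push Not at h
    nlinarith [mul_nonneg_of_nonpos_of_nonpos h (neg_nonpos.2 h3.le)]
  -- one step
  have step : ∀ i y, D.E i (fun z => Real.sqrt (D.E i w z) *
      ((D.E (i + 1) w z - D.E i w z) / D.E i w z) ^ 2) y
      ≤ 12 * (D.E i (fun z => Real.sqrt (D.E i w z)) y
        - D.E i (fun z => Real.sqrt (D.E (i+1) w z)) y) := by
    intro i y
    have h1 : ∀ z, Real.sqrt (D.E (i+1) w z) ≤ Real.sqrt (D.E i w z)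
        + (Real.sqrt (D.E i w z) * (D.E i w z)⁻¹ / 2) * (D.E (i + 1) w z - D.E i w z)
        - (1/12) * (Real.sqrt (D.E i w z) *
      ((D.E (i + 1) w z - D.E i w z) / D.E i w z) ^ 2) := by
      intro z
      set t := (D.E (i + 1) w z - D.E i w z) / D.E i w z with ht
      have e1 := hE i z
      have e2 := hE (i+1) z
      have e3 : D.E (i + 1) w z ≤ 2 * D.E i w z := E_succ_le (fun y => (hw y).le) z
      have t1 : -1 ≤ t := by rw [ht, le_div_iff₀ e1]; linarith
      have t2 : t ≤ 1 := by rw [ht, div_le_iff₀ e1]; linarith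
      have e4 : D.E (i + 1) w z = D.E i w z * (1 + t) := by rw [ht]; field_simp; ring
      have e5 : D.E (i + 1) w z - D.E i w z = D.E i w z * t := by rw [e4]; ring
      rw [e5, e4, Real.sqrt_mul e1.le]
      have e6 := sqrt_one_add_le t1 t2
      have e7 : 0 ≤ Real.sqrt (D.E i w z) := Real.sqrt_nonneg _
      calc _ ≤ Real.sqrt (D.E i w z) * (1 + t / 2 - t ^ 2 / 12) :=
            mul_le_mul_of_nonneg_left e6 e7
        _ = _ := by field_simp
    have h2 := E_mono (D := D) (j := i) h1 y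
    have m1 : D.Meas i (fun z => Real.sqrt (D.E i w z)) := (E_meas i w).comp _
    have m2 : D.Meas i (fun z => Real.sqrt (D.E i w z) * (D.E i w z)⁻¹ / 2) :=
      (E_meas i w).comp fun t => Real.sqrt t * t⁻¹ / 2
    rw [E_sub, E_add, E_mul_meas m2, E_mul, E_sub, E_E_coarse (Nat.le_succ i),
      E_E_fine le_rfl, sub_self, mul_zero, add_zero] at h2
    linarith
  -- telescope
  have tel : D.E k (fun y => ∑ i ∈ Ico k K, Real.sqrt (D.E i w y) *
      ((D.E (i + 1) w y - D.E i w y) / D.E i w y) ^ 2) x ≤ 12 * Real.sqrt (D.E k w x) := by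
    have h1 : ∀ i ∈ Ico k K, D.E k (fun y => Real.sqrt (D.E i w y) *
      ((D.E (i + 1) w y - D.E i w y) / D.E i w y) ^ 2) x
        ≤ 12 * D.E k (fun z => Real.sqrt (D.E i w z)) x
          - 12 * D.E k (fun z => Real.sqrt (D.E (i+1) w z)) x := by
      intro i hi
      rw [mem_Ico] at hi
      have h2 := E_mono (D := D) (j := k) (step i) x
      rw [E_E_coarse hi.1, E_mul, E_sub, E_E_coarse hi.1, E_E_coarse hi.1] at h2
      linarith
    rw [E_sum]
    refine (sum_le_sum h1).trans ?_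
    have h3 : ∑ i ∈ Ico k K, (12 * D.E k (fun z => Real.sqrt (D.E i w z)) x
          - 12 * D.E k (fun z => Real.sqrt (D.E (i+1) w z)) x)
        = 12 * D.E k (fun z => Real.sqrt (D.E k w z)) x
          - 12 * D.E k (fun z => Real.sqrt (D.E K w z)) x := by
      have := Finset.sum_Ico_sub (f := fun i => - (12 * D.E k (fun z => Real.sqrt (D.E i w z)) x))
        hk
      simp only [sub_neg_eq_add] at this
      rw [sub_eq_neg_add, ← this]
      refine sum_congr rfl fun i _ => by ring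
    rw [h3, E_of_meas ((E_meas k w).comp _)]
    have h4 : 0 ≤ D.E k (fun z => Real.sqrt (D.E K w z)) x := E_nonneg (fun _ => Real.sqrt_nonneg _) x
    linarith
  -- conclude
  have hup : ∀ i, k ≤ i → ∀ y, D.E i w y ≤ a * D.E k w y := by
    intro i hi y
    have h1 := E_mono (D := D) (j := i) (ha k) y
    rw [E_mul, E_E_fine hi] at h1
    exact h1
  calc D.E k (fun y => ∑ i ∈ Ico k K, (D.E (i + 1) w y - D.E i w y) ^ 2 / D.E i w y) x
      ≤ D.E k (fun y => Real.sqrt (a * D.E k w y) * ∑ i ∈ Ico k K, Real.sqrt (D.E i w y) *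
      ((D.E (i + 1) w y - D.E i w y) / D.E i w y) ^ 2) x := by
        refine E_mono (fun y => ?_) x
        rw [mul_sum]
        refine sum_le_sum fun i hi => ?_
        rw [mem_Ico] at hi
        have e1 := hE i y
        have h1 : Real.sqrt (D.E i w y) ≤ Real.sqrt (a * D.E k w y) :=
          Real.sqrt_le_sqrt (hup i hi.1 y)
        have h2 : Real.sqrt (D.E i w y) * Real.sqrt (D.E i w y) = D.E i w y :=
          Real.mul_self_sqrt e1.le
        have h3 : (D.E (i + 1) w y - D.E i w y) ^ 2 / D.E i w y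
            = Real.sqrt (D.E i w y) * (Real.sqrt (D.E i w y) *
              ((D.E (i + 1) w y - D.E i w y) / D.E i w y) ^ 2) := by
          rw [← mul_assoc, h2]; field_simp
        rw [h3]
        exact mul_le_mul_of_nonneg_right h1 (mul_nonneg (Real.sqrt_nonneg _) (sq_nonneg _))
    _ = Real.sqrt (a * D.E k w x) * D.E k (fun y => ∑ i ∈ Ico k K, Real.sqrt (D.E i w y) *
      ((D.E (i + 1) w y - D.E i w y) / D.E i w y) ^ 2) x :=
        E_mul_meas ((E_meas k w).comp fun t => Real.sqrt (a * t)) x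
    _ ≤ Real.sqrt (a * D.E k w x) * (12 * Real.sqrt (D.E k w x)) :=
        mul_le_mul_of_nonneg_left tel (Real.sqrt_nonneg _)
    _ = _ := by
        rw [Real.sqrt_mul ha0.le]
        have h2 : Real.sqrt (D.E k w x) * Real.sqrt (D.E k w x) = D.E k w x :=
          Real.mul_self_sqrt (hE k x).le
        calc _ = 12 * Real.sqrt a * (Real.sqrt (D.E k w x) * Real.sqrt (D.E k w x)) := by ring
          _ = _ := by rw [h2]

/-- weighted Carleson embedding. -/
lemma carleson_embed (hw : ∀ x, 0 < w x) (K : ℕ) (μ : ℕ → X → ℝ) (hμ : ∀ i x, 0 ≤ μ i x)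
    (C : ℝ) (hC : ∀ k ≤ K, ∀ x, D.E k (fun y => ∑ i ∈ Ico k K, μ i y) x ≤ C * D.E k w x)
    (g : X → ℝ) :
    ∑ k ∈ range K, ∑ x, μ k x * (D.E k g x / D.E k w x) ^ 2
      ≤ (1 + C) ^ 2 * ∑ x, g x ^ 2 / w x := by
  rcases isEmpty_or_nonempty X with hX | ⟨⟨x0⟩⟩
  · simp
  have hE : ∀ i y, 0 < D.E i w y := fun i y => E_pos hw y
  have hC0 : 0 ≤ C := by
    have h1 := hC 0 (Nat.zero_le K) x0
    have h2 : 0 ≤ D.E 0 (fun y => ∑ i ∈ Ico 0 K, μ i y) x0 :=
      E_nonneg (fun y => sum_nonneg fun i _ => hμ i y) x0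
    have h3 := hE 0 x0
    by_contra h
    push Not at h
    nlinarith [mul_neg_of_neg_of_pos h h3]
  set m : ℕ → X → ℝ := fun k => D.E k (fun y => ∑ i ∈ Ico k K, μ i y) with hm
  set W : ℕ → X → ℝ := fun k x => D.E k w x + m k x with hW
  have hm0 : ∀ k x, 0 ≤ m k x := fun k x => E_nonneg (fun y => sum_nonneg fun i _ => hμ i y) x
  have hW0 : ∀ k x, 0 < W k x := fun k x => add_pos_of_pos_of_nonneg (hE k x) (hm0 k x)
  have hrec : ∀ k < K, ∀ x, D.E k (W (k+1)) x = W k x - D.E k (μ k) x := by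
    intro k hk x
    have h1 : m k x = D.E k (μ k) x + D.E k (m (k+1)) x := by
      simp only [hm]
      rw [E_E_coarse (Nat.le_succ k), ← E_add]
      congr 1
      ext y
      rw [Finset.sum_eq_sum_Ico_succ_bot hk]
    have h2 : D.E k (W (k+1)) x = D.E k w x + D.E k (m (k+1)) x := by
      simp only [hW]
      rw [E_add, E_E_coarse (Nat.le_succ k)]
    rw [h2]
    simp only [hW]
    rw [h1]; ring
  -- one step
  have step : ∀ k < K, ∑ x, (D.E k g x) ^ 2 * μ k x / (W k x) ^ 2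
      ≤ ∑ x, (D.E (k+1) g x) ^ 2 / W (k+1) x - ∑ x, (D.E k g x) ^ 2 / W k x := by
    intro k hk
    have h1 : ∀ x, (D.E k g x) ^ 2 * D.E k (μ k) x / (W k x) ^ 2 + (D.E k g x) ^ 2 / W k x
        ≤ D.E k (fun y => (D.E (k+1) g y) ^ 2 / W (k+1) y) x := by
      intro x
      have e1 := E_sq_le (D := D) (j := k) (g := D.E (k+1) g) (hW0 (k+1)) x
      rw [E_E_coarse (Nat.le_succ k), hrec k hk x] at e1
      set P := D.E k (fun y => (D.E (k+1) g y) ^ 2 / W (k+1) y) x with hP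
      have hP0 : 0 ≤ P := E_nonneg (fun y => div_nonneg (sq_nonneg _) (hW0 _ _).le) x
      have e2 : 0 ≤ D.E k (μ k) x := E_nonneg (hμ k) x
      have e3 := hW0 k x
      have e4 : (D.E k g x) ^ 2 * D.E k (μ k) x / (W k x) ^ 2 + (D.E k g x) ^ 2 / W k x
        = (D.E k g x) ^ 2 * (D.E k (μ k) x + W k x) / (W k x) ^ 2 := by
        field_simp
      rw [e4, div_le_iff₀ (by positivity)]
      have e5 : (D.E k g x) ^ 2 * (D.E k (μ k) x + W k x)
          ≤ (P * (W k x - D.E k (μ k) x)) * (D.E k (μ k) x + W k x) :=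
        mul_le_mul_of_nonneg_right e1 (by positivity)
      nlinarith [mul_nonneg hP0 (sq_nonneg (D.E k (μ k) x))]
    have h2 := sum_le_sum fun x (_ : x ∈ univ) => h1 x
    rw [sum_E, sum_add_distrib] at h2
    have h3 : ∑ x, (D.E k g x) ^ 2 * D.E k (μ k) x / (W k x) ^ 2
        = ∑ x, (D.E k g x) ^ 2 * μ k x / (W k x) ^ 2 := by
      have m1 : D.Meas k (fun x => (D.E k g x) ^ 2 / (W k x) ^ 2) :=
        Meas.comp₂ (E_meas k g) (Meas.comp₂ (E_meas k w) (E_meas k _) fun s t => s + t)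
          fun s t => s ^ 2 / t ^ 2
      have := sum_mul_E (D := D) (h := μ k) m1
      calc _ = ∑ x, (D.E k g x) ^ 2 / (W k x) ^ 2 * D.E k (μ k) x :=
            sum_congr rfl fun x _ => by ring
        _ = _ := this
        _ = _ := sum_congr rfl fun x _ => by ring
    linarith
  have tel : ∑ k ∈ range K, ∑ x, (D.E k g x) ^ 2 * μ k x / (W k x) ^ 2
      ≤ ∑ x, g x ^ 2 / w x := by
    have h1 := sum_le_sum fun k (hk : k ∈ range K) => step k (mem_range.1 hk)
    rw [Finset.sum_range_sub (fun k => ∑ x, (D.E k g x) ^ 2 / W k x) K] at h1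
    have h2 : ∑ x, (D.E K g x) ^ 2 / W K x ≤ ∑ x, g x ^ 2 / w x := by
      rw [← sum_E (D := D) K (fun x => g x ^ 2 / w x)]
      refine sum_le_sum fun x _ => ?_
      rw [div_le_iff₀ (hW0 K x)]
      refine (E_sq_le hw x).trans ?_
      refine mul_le_mul_of_nonneg_left ?_
        (E_nonneg (fun y => div_nonneg (sq_nonneg _) (hw y).le) x)
      simp only [hW]
      linarith [hm0 K x]
    have h3 : 0 ≤ ∑ x, (D.E 0 g x) ^ 2 / W 0 x :=
      sum_nonneg fun x _ => div_nonneg (sq_nonneg _) (hW0 _ _).le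
    linarith
  calc ∑ k ∈ range K, ∑ x, μ k x * (D.E k g x / D.E k w x) ^ 2
      ≤ ∑ k ∈ range K, ∑ x, (1 + C) ^ 2 * ((D.E k g x) ^ 2 * μ k x / (W k x) ^ 2) := by
        refine sum_le_sum fun k hk => sum_le_sum fun x _ => ?_
        have e1 := hE k x
        have e2 := hW0 k x
        have e3 : W k x ≤ (1 + C) * D.E k w x := by
          simp only [hW, hm]
          linarith [hC k (mem_range.1 hk).le x]
        have e4 : (D.E k w x) ^ 2 * (1 + C) ^ 2 ≥ (W k x) ^ 2 := by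
          have := pow_le_pow_left₀ e2.le e3 2
          nlinarith
        have e5 : (1:ℝ) / (D.E k w x) ^ 2 ≤ (1 + C) ^ 2 / (W k x) ^ 2 := by
          rw [div_le_div_iff₀ (by positivity) (by positivity)]
          linarith
        have e6 : 0 ≤ μ k x * (D.E k g x) ^ 2 := mul_nonneg (hμ k x) (sq_nonneg _)
        calc _ = (μ k x * (D.E k g x) ^ 2) * (1 / (D.E k w x) ^ 2) := by rw [div_pow]; ring
          _ ≤ (μ k x * (D.E k g x) ^ 2) * ((1 + C) ^ 2 / (W k x) ^ 2) :=
              mul_le_mul_of_nonneg_left e5 e6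
          _ = _ := by ring
    _ = (1 + C) ^ 2 * ∑ k ∈ range K, ∑ x, (D.E k g x) ^ 2 * μ k x / (W k x) ^ 2 := by
        rw [mul_sum]
        exact sum_congr rfl fun k _ => by rw [mul_sum]
    _ ≤ _ := mul_le_mul_of_nonneg_left tel (sq_nonneg _)

/-- the dual weighted square function estimate -/
theorem lp_star (hw : ∀ x, 0 < w x) (ha : ∀ k x, w x ≤ a * D.E k w x)
    (hc : ∀ k x, D.E k w x ≤ c * D.E (k + 1) w x) (g : X → ℝ) (K : ℕ) :
    ∑ k ∈ range K, ∑ x, (D.E (k+1) g x - D.E k g x) ^ 2 / D.E (k+1) w x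
      ≤ (2 + 2 * c * (1 + 12 * Real.sqrt a) ^ 2) * ∑ x, g x ^ 2 / w x := by
  rcases isEmpty_or_nonempty X with hX | ⟨⟨x0⟩⟩
  · simp
  have hE : ∀ i y, 0 < D.E i w y := fun i y => E_pos hw y
  have hc0 : 0 ≤ c := by
    have h1 := hc 0 x0
    have h2 := hE 0 x0
    have h3 := hE 1 x0
    by_contra h
    push Not at h
    nlinarith [mul_neg_of_neg_of_pos h h3]
  set h : ℕ → X → ℝ := fun k x => D.E k g x / D.E k w x with hh
  -- first part
  have step : ∀ k, ∑ x, D.E (k+1) w x * (h (k+1) x - h k x) ^ 2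
      = ∑ x, (D.E (k+1) g x) ^ 2 / D.E (k+1) w x - ∑ x, (D.E k g x) ^ 2 / D.E k w x := by
    intro k
    have mh : D.Meas k (h k) := Meas.comp₂ (E_meas k g) (E_meas k w) fun s t => s / t
    have e1 : ∑ x, D.E (k+1) g x * h k x = ∑ x, (D.E k g x) ^ 2 / D.E k w x := by
      have h1 := sum_E_mul (D := D) (h := D.E (k+1) g) mh
      rw [← h1]
      refine sum_congr rfl fun x _ => ?_
      rw [E_E_coarse (Nat.le_succ k)]
      simp only [hh]; ring
    have e2 : ∑ x, D.E (k+1) w x * h k x ^ 2 = ∑ x, (D.E k g x) ^ 2 / D.E k w x := by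
      have h1 := sum_E_mul (D := D) (h := D.E (k+1) w) (mh.comp fun t => t ^ 2)
      rw [← h1]
      refine sum_congr rfl fun x _ => ?_
      rw [E_E_coarse (Nat.le_succ k)]
      simp only [hh]
      have := (hE k x).ne'
      field_simp
    have e3 : ∀ x, D.E (k+1) w x * (h (k+1) x - h k x) ^ 2
        = (D.E (k+1) g x) ^ 2 / D.E (k+1) w x - 2 * (D.E (k+1) g x * h k x)
          + D.E (k+1) w x * h k x ^ 2 := by
      intro x
      have h1 : D.E (k+1) g x = D.E (k+1) w x * h (k+1) x := by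
        simp only [hh]
        have := (hE (k+1) x).ne'
        field_simp
      rw [h1]
      have := (hE (k+1) x).ne'
      field_simp
      ring
    rw [sum_congr rfl fun x _ => e3 x, sum_add_distrib, sum_sub_distrib, ← mul_sum, e1, e2]
    ring
  have p1 : ∑ k ∈ range K, ∑ x, D.E (k+1) w x * (h (k+1) x - h k x) ^ 2
      ≤ ∑ x, g x ^ 2 / w x := by
    rw [sum_congr rfl fun k _ => step k,
      Finset.sum_range_sub (fun k => ∑ x, (D.E k g x) ^ 2 / D.E k w x) K]
    have h2 : ∑ x, (D.E K g x) ^ 2 / D.E K w x ≤ ∑ x, g x ^ 2 / w x := by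
      rw [← sum_E (D := D) K (fun x => g x ^ 2 / w x)]
      refine sum_le_sum fun x _ => ?_
      rw [div_le_iff₀ (hE K x)]
      exact E_sq_le hw x
    have h3 : 0 ≤ ∑ x, (D.E 0 g x) ^ 2 / D.E 0 w x :=
      sum_nonneg fun x _ => div_nonneg (sq_nonneg _) (hE _ _).le
    linarith
  -- second part
  have p2 : ∑ k ∈ range K, ∑ x, ((D.E (k + 1) w x - D.E k w x) ^ 2 / D.E k w x) * (h k x) ^ 2
      ≤ (1 + 12 * Real.sqrt a) ^ 2 * ∑ x, g x ^ 2 / w x := by
    refine carleson_embed hw K (fun k x => (D.E (k + 1) w x - D.E k w x) ^ 2 / D.E k w x)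
      (fun i x => div_nonneg (sq_nonneg _) (hE _ _).le) _ (fun k hk x => ?_) g
    exact carleson_pack hw ha k K hk x
  -- combine
  have comb : ∀ k x, (D.E (k+1) g x - D.E k g x) ^ 2 / D.E (k+1) w x
      ≤ 2 * (D.E (k+1) w x * (h (k+1) x - h k x) ^ 2)
        + 2 * c * (((D.E (k + 1) w x - D.E k w x) ^ 2 / D.E k w x) * (h k x) ^ 2) := by
    intro k x
    have e0 := hE k x
    have e1 := hE (k+1) x
    have h1 : D.E (k+1) g x = D.E (k+1) w x * h (k+1) x := by
      simp only [hh]; field_simp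
    have h2 : D.E k g x = D.E k w x * h k x := by
      simp only [hh]; field_simp
    have h3 : D.E (k+1) g x - D.E k g x = D.E (k+1) w x * (h (k+1) x - h k x)
        + (D.E (k+1) w x - D.E k w x) * h k x := by rw [h1, h2]; ring
    rw [h3, div_le_iff₀ e1]
    have h4 : ((D.E (k+1) w x - D.E k w x) * h k x) ^ 2
        ≤ c * (((D.E (k + 1) w x - D.E k w x) ^ 2 / D.E k w x) * (h k x) ^ 2) * D.E (k+1) w x := by
      have h5 : (D.E k w x) ≤ c * D.E (k+1) w x := hc k x
      have h6 : 0 ≤ ((D.E (k + 1) w x - D.E k w x) ^ 2 / D.E k w x) * (h k x) ^ 2 := by positivity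
      calc _ = (((D.E (k + 1) w x - D.E k w x) ^ 2 / D.E k w x) * (h k x) ^ 2) * D.E k w x := by
            field_simp
        _ ≤ (((D.E (k + 1) w x - D.E k w x) ^ 2 / D.E k w x) * (h k x) ^ 2)
              * (c * D.E (k+1) w x) := mul_le_mul_of_nonneg_left h5 h6
        _ = _ := by ring
    nlinarith [sq_nonneg (D.E (k+1) w x * (h (k+1) x - h k x)
      - (D.E (k+1) w x - D.E k w x) * h k x)]
  calc _ ≤ ∑ k ∈ range K, ∑ x, (2 * (D.E (k+1) w x * (h (k+1) x - h k x) ^ 2)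
        + 2 * c * (((D.E (k + 1) w x - D.E k w x) ^ 2 / D.E k w x) * (h k x) ^ 2)) :=
        sum_le_sum fun k _ => sum_le_sum fun x _ => comb k x
    _ = 2 * ∑ k ∈ range K, ∑ x, D.E (k+1) w x * (h (k+1) x - h k x) ^ 2
        + 2 * c * ∑ k ∈ range K, ∑ x,
          ((D.E (k + 1) w x - D.E k w x) ^ 2 / D.E k w x) * (h k x) ^ 2 := by
        simp only [sum_add_distrib, mul_sum]
    _ ≤ 2 * ∑ x, g x ^ 2 / w x + 2 * c * ((1 + 12 * Real.sqrt a) ^ 2 * ∑ x, g x ^ 2 / w x) := by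
        have := mul_le_mul_of_nonneg_left p2 (by positivity : 0 ≤ 2 * c)
        linarith
    _ = _ := by ring

end

end Dy
end HC

end

section
/-!
Two-parameter version of the weighted square function estimate, and the duality bound for the
`ℓ¹` norm.
-/

open Finset

namespace HC

namespace Dy
variable {X : Type} [Fintype X] (D : Dy X)

/-- martingale difference of level `i+1` -/
noncomputable def del {F : Type*} [AddCommGroup F] [Module ℝ F] (i : ℕ) (g : X → F) (x : X) : F :=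
  D.E (i + 1) g x - D.E i g x

variable {D}

section gen
variable {F : Type*} [AddCommGroup F] [Module ℝ F]

lemma del_meas (i : ℕ) (g : X → F) : D.Meas (i + 1) (D.del i g) :=
  Meas.comp₂ (E_meas _ _) ((E_meas _ _).mono (Nat.le_succ i)) fun s t => s - t

lemma E_del (i : ℕ) (g : X → F) (x : X) : D.E i (D.del i g) x = 0 := by
  unfold del
  rw [E_sub, E_E_coarse (Nat.le_succ i), E_E_fine le_rfl, sub_self]

lemma E_del_of_le {i j : ℕ} (h : j ≤ i) (g : X → F) (x : X) : D.E j (D.del i g) x = 0 := by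
  rw [← E_E_coarse h]
  have : D.E i (D.del i g) = fun _ => 0 := funext fun x => E_del i g x
  rw [this, E_const]

lemma del_of_meas {i j : ℕ} (h : j ≤ i) {g : X → F} (hg : D.Meas j g) (x : X) :
    D.del i g x = 0 := by
  unfold del
  rw [E_of_meas (hg.mono (h.trans (Nat.le_succ i))), E_of_meas (hg.mono h), sub_self]

lemma del_of_E_zero {i j : ℕ} (h : i < j) {g : X → F} (hg : ∀ x, D.E j g x = 0) (x : X) :
    D.del i g x = 0 := by
  unfold del
  have h1 : D.E j g = fun _ => 0 := funext hg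
  rw [← E_E_coarse (D := D) (i := i+1) h g, ← E_E_coarse (D := D) (i := i) h.le g, h1, E_const,
    E_const, sub_self]

lemma del_add (i : ℕ) (g h : X → F) (x : X) :
    D.del i (fun x => g x + h x) x = D.del i g x + D.del i h x := by
  unfold del; rw [E_add, E_add]; abel

lemma del_sub (i : ℕ) (g h : X → F) (x : X) :
    D.del i (fun x => g x - h x) x = D.del i g x - D.del i h x := by
  unfold del; rw [E_sub, E_sub]; abel

lemma del_sum {ι : Type*} (i : ℕ) (s : Finset ι) (g : ι → X → F) (x : X) :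
    D.del i (fun x => ∑ k ∈ s, g k x) x = ∑ k ∈ s, D.del i (g k) x := by
  unfold del; rw [E_sum, E_sum, sum_sub_distrib]

lemma del_smul (i : ℕ) (b : ℝ) (g : X → F) (x : X) :
    D.del i (fun x => b • g x) x = b • D.del i g x := by
  unfold del; rw [E_smul, E_smul, smul_sub]

lemma del_zero (i : ℕ) (x : X) : D.del i (fun _ => (0 : F)) x = 0 := by
  unfold del; rw [E_const, E_const, sub_self]

lemma sum_del (K : ℕ) (g : X → F) (x : X) :
    ∑ i ∈ range K, D.del i g x = D.E K g x - D.E 0 g x := by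
  unfold del
  exact Finset.sum_range_sub (fun i => D.E i g x) K

lemma sum_Ico_del {J K : ℕ} (h : J ≤ K) (g : X → F) (x : X) :
    ∑ i ∈ Ico J K, D.del i g x = D.E K g x - D.E J g x := by
  unfold del
  exact Finset.sum_Ico_sub (fun i => D.E i g x) h

end gen

lemma sum_del_mul (i : ℕ) (f g : X → ℝ) :
    ∑ x, D.del i f x * g x = ∑ x, D.del i f x * D.del i g x := by
  have h1 : ∑ x, D.del i f x * D.E (i+1) g x = ∑ x, D.del i f x * g x :=
    sum_mul_E (del_meas i f)
  have h2 : ∑ x, D.del i f x * D.E i g x = 0 := by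
    have := sum_E_mul (D := D) (h := D.del i f) (E_meas i g)
    rw [← this]
    exact sum_eq_zero fun x _ => by rw [E_del, zero_mul]
  have h3 : ∀ x, D.del i f x * D.del i g x = D.del i f x * D.E (i+1) g x
      - D.del i f x * D.E i g x := fun x => by unfold del; ring
  rw [sum_congr rfl fun x _ => h3 x, sum_sub_distrib, h1, h2, sub_zero]

end Dy

open Dy

variable {X Y : Type} [Fintype X] [Fintype Y] (D : Dy X) (D' : Dy Y)

section gen
variable {F : Type*} [AddCommGroup F] [Module ℝ F]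

lemma E_comm (j k : ℕ) (f : X → Y → F) (x : X) (y : Y) :
    D.E j (fun x' => D'.E k (f x') y) x = D'.E k (fun y' => D.E j (fun x' => f x' y') x) y := by
  simp only [Dy.E, smul_sum, smul_smul]
  rw [sum_comm]
  simp only [mul_comm]

/-- double martingale difference -/
noncomputable def DD (i l : ℕ) (f : X → Y → F) (x : X) (y : Y) : F :=
  D.del i (fun x' => D'.del l (f x') y) x

variable {D D'}

lemma del_comm (i l : ℕ) (f : X → Y → F) (x : X) (y : Y) :
    D.del i (fun x' => D'.del l (f x') y) x = D'.del l (fun y' => D.del i (fun x' => f x' y') x) y := by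
  unfold Dy.del
  rw [E_sub, E_sub, E_sub, E_sub, E_comm D D' (i+1) (l+1) f x y, E_comm D D' (i+1) l f x y,
    E_comm D D' i (l+1) f x y, E_comm D D' i l f x y]
  abel

lemma DD_add (i l : ℕ) (f g : X → Y → F) (x : X) (y : Y) :
    DD D D' i l (fun x y => f x y + g x y) x y = DD D D' i l f x y + DD D D' i l g x y := by
  unfold DD
  rw [← del_add]
  congr 1
  ext x'
  rw [del_add]

lemma DD_sub (i l : ℕ) (f g : X → Y → F) (x : X) (y : Y) :
    DD D D' i l (fun x y => f x y - g x y) x y = DD D D' i l f x y - DD D D' i l g x y := by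
  unfold DD
  rw [← del_sub]
  congr 1
  ext x'
  rw [del_sub]

lemma DD_sum {ι : Type*} (s : Finset ι) (i l : ℕ) (f : ι → X → Y → F) (x : X) (y : Y) :
    DD D D' i l (fun x y => ∑ k ∈ s, f k x y) x y = ∑ k ∈ s, DD D D' i l (f k) x y := by
  unfold DD
  rw [← del_sum]
  congr 1
  ext x'
  rw [del_sum]

lemma DD_measx (i l : ℕ) (f : X → Y → F) (y : Y) : D.Meas (i+1) (fun x => DD D D' i l f x y) :=
  del_meas _ _

lemma DD_measy (i l : ℕ) (f : X → Y → F) (x : X) : D'.Meas (l+1) (DD D D' i l f x) := by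
  have : DD D D' i l f x = fun y => D'.del l (fun y' => D.del i (fun x' => f x' y') x) y := by
    ext y; exact del_comm i l f x y
  rw [this]
  exact del_meas _ _

lemma DD_Ex (i l : ℕ) (f : X → Y → F) (x : X) (y : Y) :
    D.E i (fun x' => DD D D' i l f x' y) x = 0 := E_del _ _ _

lemma DD_Ey (i l : ℕ) (f : X → Y → F) (x : X) (y : Y) :
    D'.E l (DD D D' i l f x) y = 0 := by
  have : DD D D' i l f x = fun y => D'.del l (fun y' => D.del i (fun x' => f x' y') x) y := by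
    ext y; exact del_comm i l f x y
  rw [this]
  exact E_del _ _ _

/-- expansion of a function with zero averages in each variable -/
lemma sum_DD {K K' : ℕ} (hK : ∀ (g : X → F) x, D.E K g x = g x)
    (hK' : ∀ (g : Y → F) y, D'.E K' g y = g y) (f : X → Y → F)
    (hx : ∀ x y, D.E 0 (fun x' => f x' y) x = 0) (hy : ∀ x y, D'.E 0 (f x) y = 0)
    (x : X) (y : Y) :
    ∑ i ∈ range K, ∑ l ∈ range K', DD D D' i l f x y = f x y := by
  have h1 : ∀ x' y', ∑ l ∈ range K', D'.del l (f x') y' = f x' y' := by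
    intro x' y'
    rw [sum_del, hK', hy, sub_zero]
  have h2 : ∀ i, ∑ l ∈ range K', DD D D' i l f x y = D.del i (fun x' => f x' y) x := by
    intro i
    unfold DD
    rw [← del_sum]
    congr 1
    ext x'
    exact h1 x' y
  rw [sum_congr rfl fun i _ => h2 i, sum_del, hK, hx, sub_zero]

/-- general expansion -/
lemma sum_DD' {K K' : ℕ} (hK : ∀ (g : X → F) x, D.E K g x = g x)
    (hK' : ∀ (g : Y → F) y, D'.E K' g y = g y) (f : X → Y → F)
    (x : X) (y : Y) :
    f x y = ∑ i ∈ range K, ∑ l ∈ range K', DD D D' i l f x y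
      + D.E 0 (fun x' => f x' y) x + D'.E 0 (fun y' => f x y' - D.E 0 (fun x' => f x' y') x) y := by
  have h1 : ∀ x' y', ∑ l ∈ range K', D'.del l (f x') y' = f x' y' - D'.E 0 (f x') y' := by
    intro x' y'
    rw [sum_del, hK']
  have h2 : ∀ i, ∑ l ∈ range K', DD D D' i l f x y
      = D.del i (fun x' => f x' y - D'.E 0 (f x') y) x := by
    intro i
    unfold DD
    rw [← del_sum]
    congr 1
    ext x'
    exact h1 x' y
  rw [sum_congr rfl fun i _ => h2 i, sum_del, hK, E_sub, E_comm, E_sub]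
  abel

end gen

section real
variable {D D'}
variable {v : X → Y → ℝ} {a c : ℝ}

/-- two-parameter dual weighted square function estimate -/
theorem lp_star2 (hv : ∀ x y, 0 < v x y)
    (hax : ∀ k x y, v x y ≤ a * D.E k (fun x' => v x' y) x)
    (hay : ∀ k x y, v x y ≤ a * D'.E k (v x) y)
    (hcx : ∀ k x y, D.E k (fun x' => v x' y) x ≤ c * D.E (k + 1) (fun x' => v x' y) x)
    (hcy : ∀ k x y, D'.E k (v x) y ≤ c * D'.E (k + 1) (v x) y)
    (g : X → Y → ℝ) (K K' : ℕ) :
    ∑ i ∈ range K, ∑ l ∈ range K', ∑ x, ∑ y, (DD D D' i l g x y) ^ 2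
        / D.E (i+1) (fun x' => D'.E (l+1) (v x') y) x
      ≤ (2 + 2 * c * (1 + 12 * Real.sqrt a) ^ 2) ^ 2 * ∑ x, ∑ y, g x y ^ 2 / v x y := by
  rcases isEmpty_or_nonempty X with hX | ⟨⟨x0⟩⟩
  · simp
  rcases isEmpty_or_nonempty Y with hY | ⟨⟨y0⟩⟩
  · simp
  have hc0 : 0 ≤ c := by
    have h1 := hcy 0 x0 y0
    have h2 : 0 < D'.E 0 (v x0) y0 := E_pos (hv x0) y0
    have h3 : 0 < D'.E 1 (v x0) y0 := E_pos (hv x0) y0
    by_contra h
    push Not at h
    have h4 : c * D'.E (0+1) (v x0) y0 < 0 := mul_neg_of_neg_of_pos h h3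
    linarith
  set C := (2 + 2 * c * (1 + 12 * Real.sqrt a) ^ 2) with hC
  have hC0 : 0 ≤ C := by positivity
  -- first `y` for fixed `i`, `x`
  have s1 : ∀ i, ∀ x, ∑ l ∈ range K', ∑ y, (DD D D' i l g x y) ^ 2
        / D.E (i+1) (fun x' => D'.E (l+1) (v x') y) x
      ≤ C * ∑ y, (D.del i (fun x' => g x' y) x) ^ 2 / D.E (i+1) (fun x' => v x' y) x := by
    intro i x
    have hw : ∀ y, 0 < D.E (i+1) (fun x' => v x' y) x := fun y => E_pos (fun x' => hv x' y) x
    have ha : ∀ k y, D.E (i+1) (fun x' => v x' y) x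
        ≤ a * D'.E k (fun y' => D.E (i+1) (fun x' => v x' y') x) y := by
      intro k y
      rw [← E_comm, ← E_mul]
      exact E_mono (fun x' => hay k x' y) x
    have hc : ∀ k y, D'.E k (fun y' => D.E (i+1) (fun x' => v x' y') x) y
        ≤ c * D'.E (k+1) (fun y' => D.E (i+1) (fun x' => v x' y') x) y := by
      intro k y
      rw [← E_comm D D' (i+1) k v x y, ← E_comm D D' (i+1) (k+1) v x y,
        ← E_mul (D := D) (i+1) c]
      exact E_mono (fun x' => hcy k x' y) x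
    have := lp_star (D := D') hw ha hc (fun y => D.del i (fun x' => g x' y) x) K'
    refine le_trans (le_of_eq ?_) this
    refine sum_congr rfl fun l _ => sum_congr rfl fun y _ => ?_
    rw [← E_comm]
    congr 2
    exact del_comm i l g x y
  have s2 : ∀ y, ∑ i ∈ range K, ∑ x, (D.del i (fun x' => g x' y) x) ^ 2
        / D.E (i+1) (fun x' => v x' y) x
      ≤ C * ∑ x, g x y ^ 2 / v x y := fun y =>
    lp_star (D := D) (fun x => hv x y) (fun k x => hax k x y) (fun k x => hcx k x y)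
      (fun x => g x y) K
  calc _ = ∑ i ∈ range K, ∑ x, ∑ l ∈ range K', ∑ y, (DD D D' i l g x y) ^ 2
        / D.E (i+1) (fun x' => D'.E (l+1) (v x') y) x :=
        sum_congr rfl fun i _ => sum_comm
    _ ≤ ∑ i ∈ range K, ∑ x, C * ∑ y, (D.del i (fun x' => g x' y) x) ^ 2
        / D.E (i+1) (fun x' => v x' y) x := sum_le_sum fun i _ => sum_le_sum fun x _ => s1 i x
    _ = C * ∑ y, ∑ i ∈ range K, ∑ x, (D.del i (fun x' => g x' y) x) ^ 2
        / D.E (i+1) (fun x' => v x' y) x := by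
        simp only [← mul_sum]
        congr 1
        rw [sum_comm (s := univ) (t := range K)]
        exact sum_congr rfl fun i _ => sum_comm
    _ ≤ C * ∑ y, C * ∑ x, g x y ^ 2 / v x y :=
        mul_le_mul_of_nonneg_left (sum_le_sum fun y _ => s2 y) hC0
    _ = _ := by
        rw [← mul_sum, sum_comm (s := univ) (t := univ)]
        ring

lemma sum_DD_mul (i l : ℕ) (f g : X → Y → ℝ) :
    ∑ x, ∑ y, DD D D' i l f x y * g x y = ∑ x, ∑ y, DD D D' i l f x y * DD D D' i l g x y := by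
  calc ∑ x, ∑ y, DD D D' i l f x y * g x y
      = ∑ y, ∑ x, DD D D' i l f x y * g x y := sum_comm
    _ = ∑ y, ∑ x, DD D D' i l f x y * D.del i (fun x' => g x' y) x :=
        sum_congr rfl fun y _ => sum_del_mul _ _ _
    _ = ∑ x, ∑ y, DD D D' i l f x y * D.del i (fun x' => g x' y) x := sum_comm
    _ = _ := by
        refine sum_congr rfl fun x _ => ?_
        have h1 : ∀ (h : X → Y → ℝ) y, DD D D' i l h x y
            = D'.del l (fun y' => D.del i (fun x' => h x' y') x) y := fun h y => del_comm i l h x y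
        simp only [h1]
        exact sum_del_mul _ _ _

/-- the weight can be averaged against measurable squares -/
lemma sum_v_sq {j k : ℕ} {f : X → Y → ℝ} (hmx : ∀ y, D.Meas j (fun x => f x y))
    (hmy : ∀ x, D'.Meas k (f x)) :
    ∑ x, ∑ y, D.E j (fun x' => D'.E k (v x') y) x * f x y ^ 2
      = ∑ x, ∑ y, v x y * f x y ^ 2 := by
  calc ∑ x, ∑ y, D.E j (fun x' => D'.E k (v x') y) x * f x y ^ 2
      = ∑ y, ∑ x, D.E j (fun x' => D'.E k (v x') y) x * f x y ^ 2 := sum_comm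
    _ = ∑ y, ∑ x, D'.E k (v x) y * f x y ^ 2 :=
        sum_congr rfl fun y _ => sum_E_mul ((hmx y).comp fun t => t ^ 2)
    _ = ∑ x, ∑ y, D'.E k (v x) y * f x y ^ 2 := sum_comm
    _ = _ := sum_congr rfl fun x _ => sum_E_mul ((hmy x).comp fun t => t ^ 2)

/-- duality: the `ℓ¹` norm is controlled by the weighted square function -/
theorem l1_le (hv : ∀ x y, 0 < v x y)
    (hax : ∀ k x y, v x y ≤ a * D.E k (fun x' => v x' y) x)
    (hay : ∀ k x y, v x y ≤ a * D'.E k (v x) y)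
    (hcx : ∀ k x y, D.E k (fun x' => v x' y) x ≤ c * D.E (k + 1) (fun x' => v x' y) x)
    (hcy : ∀ k x y, D'.E k (v x) y ≤ c * D'.E (k + 1) (v x) y)
    {K K' : ℕ} (hK : ∀ (g : X → ℝ) x, D.E K g x = g x)
    (hK' : ∀ (g : Y → ℝ) y, D'.E K' g y = g y) (f : X → Y → ℝ)
    (hx : ∀ x y, D.E 0 (fun x' => f x' y) x = 0) (hy : ∀ x y, D'.E 0 (f x) y = 0) :
    (∑ x, ∑ y, |f x y|) ^ 2
      ≤ ((2 + 2 * c * (1 + 12 * Real.sqrt a) ^ 2) ^ 2 * ∑ x, ∑ y, (v x y)⁻¹)
        * ∑ i ∈ range K, ∑ l ∈ range K', ∑ x, ∑ y, v x y * (DD D D' i l f x y) ^ 2 := by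
  set g : X → Y → ℝ := fun x y => SignType.sign (f x y) with hg
  have hfg : ∀ x y, |f x y| = f x y * g x y := fun x y => by
    simp only [hg]; exact (self_mul_sign (f x y)).symm
  have hg2 : ∀ x y, g x y ^ 2 ≤ 1 := by
    intro x y
    simp only [hg]
    rcases lt_trichotomy (f x y) 0 with h | h | h
    · simp [sign_neg h]
    · simp [h]
    · simp [sign_pos h]
  set V : ℕ → ℕ → X → Y → ℝ := fun i l x y => D.E (i+1) (fun x' => D'.E (l+1) (v x') y) x with hV
  have hV0 : ∀ i l x y, 0 < V i l x y := fun i l x y => E_pos (fun x' => E_pos (hv x') y) x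
  have e1 : ∑ x, ∑ y, |f x y| = ∑ i ∈ range K, ∑ l ∈ range K', ∑ x, ∑ y,
      DD D D' i l f x y * DD D D' i l g x y := by
    calc ∑ x, ∑ y, |f x y| = ∑ x, ∑ y, (∑ i ∈ range K, ∑ l ∈ range K', DD D D' i l f x y) * g x y := by
          refine sum_congr rfl fun x _ => sum_congr rfl fun y _ => ?_
          rw [sum_DD hK hK' f hx hy, hfg]
      _ = ∑ i ∈ range K, ∑ l ∈ range K', ∑ x, ∑ y, DD D D' i l f x y * g x y := by
          simp only [sum_mul]
          calc _ = ∑ x, ∑ i ∈ range K, ∑ y, ∑ l ∈ range K', DD D D' i l f x y * g x y :=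
                sum_congr rfl fun x _ => sum_comm
            _ = ∑ i ∈ range K, ∑ x, ∑ y, ∑ l ∈ range K', DD D D' i l f x y * g x y := sum_comm
            _ = ∑ i ∈ range K, ∑ x, ∑ l ∈ range K', ∑ y, DD D D' i l f x y * g x y :=
                sum_congr rfl fun i _ => sum_congr rfl fun x _ => sum_comm
            _ = _ := sum_congr rfl fun i _ => sum_comm
      _ = _ := sum_congr rfl fun i _ => sum_congr rfl fun l _ => sum_DD_mul i l f g
  rw [e1]
  -- Cauchy-Schwarz over all indices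
  have cs : (∑ p ∈ (range K ×ˢ range K') ×ˢ (univ ×ˢ univ : Finset (X × Y)),
        DD D D' p.1.1 p.1.2 f p.2.1 p.2.2 * DD D D' p.1.1 p.1.2 g p.2.1 p.2.2) ^ 2
      ≤ (∑ p ∈ (range K ×ˢ range K') ×ˢ (univ ×ˢ univ : Finset (X × Y)),
          (DD D D' p.1.1 p.1.2 g p.2.1 p.2.2) ^ 2 / V p.1.1 p.1.2 p.2.1 p.2.2)
        * ∑ p ∈ (range K ×ˢ range K') ×ˢ (univ ×ˢ univ : Finset (X × Y)),
          V p.1.1 p.1.2 p.2.1 p.2.2 * (DD D D' p.1.1 p.1.2 f p.2.1 p.2.2) ^ 2 := by
    refine sum_sq_le_sum_mul_sum_of_sq_le_mul _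
      (fun p _ => div_nonneg (sq_nonneg _) (hV0 _ _ _ _).le)
      (fun p _ => mul_nonneg (hV0 _ _ _ _).le (sq_nonneg _)) fun p _ => le_of_eq ?_
    have := (hV0 p.1.1 p.1.2 p.2.1 p.2.2).ne'
    field_simp
  simp only [sum_product] at cs
  refine cs.trans ?_
  have h2 : ∑ i ∈ range K, ∑ l ∈ range K', ∑ x, ∑ y, V i l x y * (DD D D' i l f x y) ^ 2
      = ∑ i ∈ range K, ∑ l ∈ range K', ∑ x, ∑ y, v x y * (DD D D' i l f x y) ^ 2 :=
    sum_congr rfl fun i _ => sum_congr rfl fun l _ =>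
      sum_v_sq (fun y => DD_measx i l f y) (fun x => DD_measy i l f x)
  rw [h2]
  refine mul_le_mul_of_nonneg_right ?_ (sum_nonneg fun i _ => sum_nonneg fun l _ =>
    sum_nonneg fun x _ => sum_nonneg fun y _ => mul_nonneg (hv x y).le (sq_nonneg _))
  refine (lp_star2 hv hax hay hcx hcy g K K').trans ?_
  refine mul_le_mul_of_nonneg_left ?_ (sq_nonneg _)
  refine sum_le_sum fun x _ => sum_le_sum fun y _ => ?_
  rw [div_eq_mul_inv]
  calc _ ≤ 1 * (v x y)⁻¹ := mul_le_mul_of_nonneg_right (hg2 x y) (inv_pos.2 (hv x y)).le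
    _ = _ := one_mul _

end real

end HC

end
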